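import Pool.Agent.H97.GEN.LinX

/-!
# Abel summation for costs and units (MP_75f39d, degree two)
-/

set_option autoImplicit false

namespace Pool.Agent.H83.ELZ

open Finset Pool.Agent.H97.GEN

/-- `E` on `P`, units `U`, neighbours `N`: if for all `M ⊆ P` the sum of `E` over `M` is at most the sum
of `D M w` over the units, `D M w ≤ E i` for all neighbours `i ∈ M` of `w` (and `D M w = 0` without
neighbours), and there are at most `|P|` units, then `D P w < E i` for all neighbours `i` is impossible. -/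
theorem abel_units {β : Type*} [DecidableEq β] [Inhabited β] (P U : Finset β) (E : β → ℕ)
    (N : β → β → Prop) (D : Finset β → β → ℕ) (hE : ∀ j ∈ P, 1 ≤ E j)
    (hsum : ∀ M ⊆ P, ∑ j ∈ M, E j ≤ ∑ w ∈ U, D M w)
    (hle : ∀ M ⊆ P, ∀ w ∈ U, ∀ i ∈ M, N w i → D M w ≤ E i)
    (h0 : ∀ M ⊆ P, ∀ w ∈ U, (∀ i ∈ M, ¬ N w i) → D M w = 0)
    (hcard : U.card ≤ P.card) (w0 : β) (hw0 : w0 ∈ U) (i0 : β) (hi0 : i0 ∈ P) (hN0 : N w0 i0)
    (hstrict : ∀ i ∈ P, N w0 i → D P w0 < E i) : False := by
  classical
  obtain ⟨f, hf1, hf2, hf3⟩ := exists_enum P E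
  obtain ⟨n, hn⟩ : ∃ n, n = P.card := ⟨_, rfl⟩
  rw [← hn] at hf1 hf2 hf3 hcard
  have hnpos : 0 < n := by
    rw [hn]
    exact Finset.card_pos.2 ⟨i0, hi0⟩
  set S : ℕ → Finset β := fun t => U.filter fun w => N w (f t) ∧ ∀ s < t, ¬ N w (f s) with hS
  have hMsub : ∀ r ≤ n, (range r).image f ⊆ P := by
    intro r hr j hj
    obtain ⟨t, ht, rfl⟩ := Finset.mem_image.1 hj
    exact hf1 t (by rw [Finset.mem_range] at ht; omega)
  have hMP : (range n).image f = P := by
    apply Finset.eq_of_subset_of_card_le (hMsub n le_rfl)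
    rw [Finset.card_image_of_injOn, Finset.card_range, hn]
    intro s hs t ht hst
    rw [Finset.mem_coe, Finset.mem_range] at hs ht
    exact hf2 s hs t ht hst
  -- the bound for one unit
  have hunit : ∀ r ≤ n, ∀ w ∈ U, D ((range r).image f) w
      ≤ ∑ t ∈ range r, (if w ∈ S t then E (f t) else 0) := by
    intro r hr w hw
    by_cases hex : ∃ t, t < r ∧ N w (f t)
    · have h1 := Nat.find_spec hex
      set t := Nat.find hex with ht
      have h2 : ∀ s < t, ¬ N w (f s) := by
        intro s hs hNs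
        exact Nat.find_min hex hs ⟨by omega, hNs⟩
      have h3 : w ∈ S t := Finset.mem_filter.2 ⟨hw, h1.2, h2⟩
      calc D ((range r).image f) w ≤ E (f t) :=
            hle _ (hMsub r hr) w hw (f t)
              (Finset.mem_image_of_mem f (Finset.mem_range.2 h1.1)) h1.2
        _ = (if w ∈ S t then E (f t) else 0) := by rw [if_pos h3]
        _ ≤ _ := Finset.single_le_sum (f := fun t => if w ∈ S t then E (f t) else 0)
            (fun _ _ => Nat.zero_le _) (Finset.mem_range.2 h1.1)
    · rw [h0 _ (hMsub r hr) w hw]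
      · exact Nat.zero_le _
      · intro i hi hNi
        obtain ⟨t, ht, rfl⟩ := Finset.mem_image.1 hi
        exact hex ⟨t, Finset.mem_range.1 ht, hNi⟩
  have hunit0 : D P w0 + 1 ≤ ∑ t ∈ range n, (if w0 ∈ S t then E (f t) else 0) := by
    have hex : ∃ t, t < n ∧ N w0 (f t) := by
      rw [← hMP] at hi0
      obtain ⟨t, ht, rfl⟩ := Finset.mem_image.1 hi0
      exact ⟨t, Finset.mem_range.1 ht, hN0⟩
    have h1 := Nat.find_spec hex
    set t := Nat.find hex with ht
    have h2 : ∀ s < t, ¬ N w0 (f s) := by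
      intro s hs hNs
      exact Nat.find_min hex hs ⟨by omega, hNs⟩
    have h3 : w0 ∈ S t := Finset.mem_filter.2 ⟨hw0, h1.2, h2⟩
    calc D P w0 + 1 ≤ E (f t) := hstrict _ (hf1 t h1.1) h1.2
      _ = (if w0 ∈ S t then E (f t) else 0) := by rw [if_pos h3]
      _ ≤ _ := Finset.single_le_sum (f := fun t => if w0 ∈ S t then E (f t) else 0)
          (fun _ _ => Nat.zero_le _) (Finset.mem_range.2 h1.1)
  have hsw : ∀ r, ∑ w ∈ U, ∑ t ∈ range r, (if w ∈ S t then E (f t) else 0)
      = ∑ t ∈ range r, (S t).card * E (f t) := by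
    intro r
    rw [Finset.sum_comm]
    apply Finset.sum_congr rfl
    intro t _
    rw [← Finset.sum_filter, Finset.sum_const, smul_eq_mul]
    congr 2
    ext w
    simp only [Finset.mem_filter, hS]
    tauto
  have hsumf : ∀ r ≤ n, ∑ j ∈ (range r).image f, E j = ∑ t ∈ range r, E (f t) := by
    intro r hr
    rw [Finset.sum_image]
    intro s hs t ht hst
    rw [Finset.mem_coe, Finset.mem_range] at hs ht
    exact hf2 s (by omega) t (by omega) hst
  have hmain : ∀ r ≤ n, ∑ t ∈ range r, E (f t) ≤ ∑ t ∈ range r, (S t).card * E (f t) := by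
    intro r hr
    rw [← hsumf r hr, ← hsw r]
    exact (hsum _ (hMsub r hr)).trans (Finset.sum_le_sum (hunit r hr))
  have hmain' : ∑ t ∈ range n, E (f t) + 1 ≤ ∑ t ∈ range n, (S t).card * E (f t) := by
    rw [← hsumf n le_rfl, ← hsw n, hMP]
    have h1 := hsum P (Finset.Subset.refl _)
    have h2 : ∑ w ∈ U, D P w < ∑ w ∈ U, ∑ t ∈ range n, (if w ∈ S t then E (f t) else 0) := by
      apply Finset.sum_lt_sum
      · intro w hw
        have := hunit n le_rfl w hw
        rw [hMP] at this
        exact this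
      · exact ⟨w0, hw0, hunit0⟩
    omega
  -- the number of units
  have hScard : ∑ t ∈ range n, (S t).card ≤ n := by
    rw [← Finset.card_biUnion]
    · refine le_trans (Finset.card_le_card ?_) hcard
      intro w hw
      obtain ⟨t, -, ht⟩ := Finset.mem_biUnion.1 hw
      exact (Finset.mem_filter.1 ht).1
    · intro s _ t _ hst
      rw [Function.onFun, Finset.disjoint_left]
      intro w hws hwt
      obtain ⟨-, h1, h2⟩ := Finset.mem_filter.1 hws
      obtain ⟨-, h3, h4⟩ := Finset.mem_filter.1 hwt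
      rcases Nat.lt_or_gt_of_ne hst with h | h
      · exact h4 s h h1
      · exact h2 t h h3
  -- Abel summation
  obtain ⟨m, rfl⟩ : ∃ m, n = m + 1 := ⟨n - 1, by omega⟩
  have hEm : (1 : ℝ) ≤ E (f m) := by exact_mod_cast hE _ (hf1 m (by omega))
  have hEm0 : (0 : ℝ) < E (f m) := by linarith
  have habel := abel_lemma (m + 1) (fun t => E (f t))
    (fun t => ((S t).card : ℝ) - if t = m then 1 / (E (f m) : ℝ) else 0)
    (fun t ht => hE _ (hf1 t ht)) hf3 (by
      intro r hr
      rcases Nat.lt_or_ge r (m + 1) with h | h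
      · have h1 := hmain r hr
        have h2 : ∑ t ∈ range r, (((S t).card : ℝ) - if t = m then 1 / (E (f m) : ℝ) else 0)
            * (E (f t) : ℝ) = ∑ t ∈ range r, ((S t).card : ℝ) * (E (f t) : ℝ) := by
          apply Finset.sum_congr rfl
          intro t ht
          rw [Finset.mem_range] at ht
          rw [if_neg (by omega)]
          ring
        rw [h2]
        exact_mod_cast h1
      · have hr' : r = m + 1 := by omega
        subst hr'
        have h1 : (∑ t ∈ range (m + 1), (E (f t) : ℝ)) + 1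
            ≤ ∑ t ∈ range (m + 1), ((S t).card : ℝ) * (E (f t) : ℝ) := by exact_mod_cast hmain'
        have h2 : ∑ t ∈ range (m + 1), (((S t).card : ℝ) - if t = m then 1 / (E (f m) : ℝ) else 0)
            * (E (f t) : ℝ) = ∑ t ∈ range (m + 1), ((S t).card : ℝ) * (E (f t) : ℝ) - 1 := by
          rw [Finset.sum_range_succ, Finset.sum_range_succ _ m, if_pos rfl]
          have h3 : ∑ t ∈ range m, (((S t).card : ℝ) - if t = m then 1 / (E (f m) : ℝ) else 0)
              * (E (f t) : ℝ) = ∑ t ∈ range m, ((S t).card : ℝ) * (E (f t) : ℝ) := by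
            apply Finset.sum_congr rfl
            intro t ht
            rw [Finset.mem_range] at ht
            rw [if_neg (by omega)]
            ring
          rw [h3, sub_mul, one_div, inv_mul_cancel₀ hEm0.ne']
          ring
        rw [h2]
        linarith)
  have h1 : ∑ t ∈ range (m + 1), (((S t).card : ℝ) - if t = m then 1 / (E (f m) : ℝ) else 0)
      = ∑ t ∈ range (m + 1), ((S t).card : ℝ) - 1 / (E (f m) : ℝ) := by
    rw [Finset.sum_sub_distrib]
    congr 1
    rw [Finset.sum_ite_eq' (range (m + 1)) m, if_pos (Finset.mem_range.2 (by omega))]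
  rw [h1] at habel
  have h2 : (∑ t ∈ range (m + 1), ((S t).card : ℝ)) ≤ ((m + 1 : ℕ) : ℝ) := by
    exact_mod_cast hScard
  have h3 : 0 < 1 / (E (f m) : ℝ) := by positivity
  linarith

end Pool.Agent.H83.ELZ
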