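import Pool.Agent.H97.GEN.Core
import Pool.Agent.H97.GEN.Gens

/-!
# Covered generators, restricted losses, costs (MP_75f39d, degree two)
-/

set_option autoImplicit false

namespace Pool.Agent.H83.ELZ

open Finset Pool.Agent.H97.GEN

variable {α : Type*} [DecidableEq α]

/-- The covered members of `J`: those inside the union of the other members of `J`. -/
def cov (J : Finset (Finset α)) : Finset (Finset α) := J.filter fun g => g ⊆ (J.erase g).sup id

lemma mem_cov {J : Finset (Finset α)} {g : Finset α} :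
    g ∈ cov J ↔ g ∈ J ∧ ∀ p ∈ g, ∃ g' ∈ J, g' ≠ g ∧ p ∈ g' := by
  unfold cov
  rw [Finset.mem_filter]
  constructor
  · rintro ⟨h1, h2⟩
    refine ⟨h1, fun p hp => ?_⟩
    obtain ⟨g', hg', hp'⟩ := mem_sup_id.1 (h2 hp)
    obtain ⟨hne, hJ⟩ := Finset.mem_erase.1 hg'
    exact ⟨g', hJ, hne, hp'⟩
  · rintro ⟨h1, h2⟩
    refine ⟨h1, fun p hp => ?_⟩
    obtain ⟨g', hJ, hne, hp'⟩ := h2 p hp
    exact mem_sup_id.2 ⟨g', Finset.mem_erase.2 ⟨hne, hJ⟩, hp'⟩

/-- The members of `F` without `x`. -/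
def av (F : Finset (Finset α)) (x : α) : Finset (Finset α) := F.filter fun A => x ∉ A

lemma mem_av {F : Finset (Finset α)} {x : α} {A : Finset α} : A ∈ av F x ↔ A ∈ F ∧ x ∉ A :=
  Finset.mem_filter

/-- The loss of `A ↦ A ∪ j` on the members without `x`. -/
def Ex (F : Finset (Finset α)) (x : α) (j : Finset α) : ℕ :=
  (av F x).card - ((av F x).image fun A => A ∪ j).card

/-- The members with `x` that are not `A ∪ j` with a member `A` without `x`. -/
def BadS (F : Finset (Finset α)) (x : α) (j : Finset α) : Finset (Finset α) :=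
  F.filter fun B => x ∈ B ∧ ∀ A ∈ F, x ∉ A → A ∪ j ≠ B

lemma mem_BadS {F : Finset (Finset α)} {x : α} {j B : Finset α} :
    B ∈ BadS F x j ↔ B ∈ F ∧ x ∈ B ∧ ∀ A ∈ F, x ∉ A → A ∪ j ≠ B := Finset.mem_filter

lemma bad_le {J : Finset (Finset α)} {x : α} {j : Finset α} (hj : j ∈ J) (hx : x ∈ j)
    (h : 2 * fr (unions J) x ≤ (unions J).card) :
    (BadS (unions J) x j).card ≤ Ex (unions J) x j := by
  classical
  have h1 : (unions J).filter (fun B => x ∈ B)
      = BadS (unions J) x j ∪ (av (unions J) x).image fun A => A ∪ j := by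
    ext B
    rw [Finset.mem_filter, Finset.mem_union, mem_BadS, Finset.mem_image]
    constructor
    · rintro ⟨hB, hxB⟩
      by_cases hb : ∃ A ∈ av (unions J) x, A ∪ j = B
      · exact Or.inr hb
      · refine Or.inl ⟨hB, hxB, fun A hA hxA he => hb ⟨A, mem_av.2 ⟨hA, hxA⟩, he⟩⟩
    · rintro (⟨hB, hxB, -⟩ | ⟨A, hA, rfl⟩)
      · exact ⟨hB, hxB⟩
      · exact ⟨union_mem (mem_av.1 hA).1 (self_mem hj), Finset.mem_union_right _ hx⟩
  have h2 : Disjoint (BadS (unions J) x j) ((av (unions J) x).image fun A => A ∪ j) := by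
    rw [Finset.disjoint_left]
    intro B hB hB'
    obtain ⟨A, hA, he⟩ := Finset.mem_image.1 hB'
    exact (mem_BadS.1 hB).2.2 A (mem_av.1 hA).1 (mem_av.1 hA).2 he
  have h3 : fr (unions J) x = (BadS (unions J) x j).card
      + ((av (unions J) x).image fun A => A ∪ j).card := by
    unfold fr
    rw [h1, Finset.card_union_of_disjoint h2]
  have h4 := fr_add_nfr (unions J) x
  have h5 : nfr (unions J) x = (av (unions J) x).card := rfl
  unfold Ex
  omega

/-- A generator with `x` other than `j` is bad. -/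
lemma gen_mem_BadS {J : Finset (Finset α)} (hirr : ∀ g ∈ J, g ∉ unions (J.erase g)) {x : α}
    {i j : Finset α} (hi : i ∈ J) (hj : j ∈ J) (hij : i ≠ j) (hx : x ∈ i) :
    i ∈ BadS (unions J) x j := by
  refine mem_BadS.2 ⟨self_mem hi, hx, ?_⟩
  intro A hA hxA he
  apply hirr i hi
  apply mem_unions_of
  intro z hz
  rw [← he] at hz
  rcases Finset.mem_union.1 hz with h | h
  · obtain ⟨g, hg, hgA, hzg⟩ := (mem_iff hA z).1 h
    refine ⟨g, Finset.mem_erase.2 ⟨?_, hg⟩, ?_, hzg⟩
    · rintro rfl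
      exact hxA (hgA hx)
    · rw [← he]
      exact hgA.trans Finset.subset_union_left
  · exact ⟨j, Finset.mem_erase.2 ⟨hij.symm, hj⟩, by rw [← he]; exact Finset.subset_union_right, h⟩

/-- `A` is a cost set of `j` (with the point `x`). -/
def IsCost (J : Finset (Finset α)) (x : α) (j A : Finset α) : Prop :=
  ∃ w ∈ J, x ∉ w ∧ (w \ A).Nonempty ∧ w \ A ⊆ j

instance (J : Finset (Finset α)) (x : α) (j A : Finset α) : Decidable (IsCost J x j A) := by
  unfold IsCost; infer_instance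

/-- The cost sets of `j`. -/
def costs (J : Finset (Finset α)) (x : α) (j : Finset α) : Finset (Finset α) :=
  (av (unions J) x).filter fun A => IsCost J x j A

lemma mem_costs {J : Finset (Finset α)} {x : α} {j A : Finset α} :
    A ∈ costs J x j ↔ A ∈ unions J ∧ x ∉ A ∧ IsCost J x j A := by
  unfold costs
  rw [Finset.mem_filter, mem_av, and_assoc]

lemma ex_le_costs (J : Finset (Finset α)) (x : α) (j : Finset α) :
    Ex (unions J) x j ≤ (costs J x j).card := by
  classical
  set N := (av (unions J) x).filter fun A => ¬ IsCost J x j A with hN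
  have h1 : (costs J x j).card + N.card = (av (unions J) x).card := by
    have := Finset.card_filter_add_card_filter_not (s := av (unions J) x)
      (p := fun A => IsCost J x j A)
    rw [← this]
    rfl
  have h2 : N.card ≤ ((av (unions J) x).image fun A => A ∪ j).card := by
    apply Finset.card_le_card_of_injOn (fun A => A ∪ j)
    · intro A hA
      exact Finset.mem_coe.2 (Finset.mem_image_of_mem _ (Finset.mem_filter.1 hA).1)
    · have key : ∀ A ∈ N, ∀ A' ∈ N, A ∪ j = A' ∪ j → A' ⊆ A := by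
        intro A hA A' hA' he z hz
        by_contra hzA
        obtain ⟨hA1, hA2⟩ := Finset.mem_filter.1 hA
        obtain ⟨hA1', -⟩ := Finset.mem_filter.1 hA'
        obtain ⟨w, hw, hwA', hzw⟩ := (mem_iff (mem_av.1 hA1').1 z).1 hz
        apply hA2
        refine ⟨w, hw, fun h => (mem_av.1 hA1').2 (hwA' h),
          ⟨z, Finset.mem_sdiff.2 ⟨hzw, hzA⟩⟩, ?_⟩
        intro u hu
        obtain ⟨hu1, hu2⟩ := Finset.mem_sdiff.1 hu
        have : u ∈ A ∪ j := by
          rw [he]
          exact Finset.mem_union_left _ (hwA' hu1)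
        rcases Finset.mem_union.1 this with h | h
        · exact absurd h hu2
        · exact h
      intro A hA A' hA' he
      exact Finset.Subset.antisymm (key A' hA' A hA he.symm) (key A hA A' hA' he)
  unfold Ex
  omega

/-- A generator that is not in `A` but in `A ∪ j` is covered. -/
lemma cost_cov {J : Finset (Finset α)} {j w A : Finset α} (hA : A ∈ unions J) (hj : j ∈ J)
    (hw : w ∈ J) (hwj : w ≠ j) (hne : (w \ A).Nonempty) (hsub : w \ A ⊆ j) : w ∈ cov J := by
  rw [mem_cov]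
  refine ⟨hw, fun p hp => ?_⟩
  by_cases hpA : p ∈ A
  · obtain ⟨g, hg, hgA, hpg⟩ := (mem_iff hA p).1 hpA
    refine ⟨g, hg, ?_, hpg⟩
    rintro rfl
    obtain ⟨z, hz⟩ := hne
    obtain ⟨h1, h2⟩ := Finset.mem_sdiff.1 hz
    exact h2 (hgA h1)
  · exact ⟨j, hj, hwj.symm, hsub (Finset.mem_sdiff.2 ⟨hp, hpA⟩)⟩

/-- The points of `w` in no other member of `J` inside `B`. -/
def priv (J : Finset (Finset α)) (B w : Finset α) : Finset α :=
  w.filter fun z => ∀ g ∈ J, g ⊆ B → z ∈ g → g = w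

lemma mem_priv {J : Finset (Finset α)} {B w : Finset α} {z : α} :
    z ∈ priv J B w ↔ z ∈ w ∧ ∀ g ∈ J, g ⊆ B → z ∈ g → g = w := Finset.mem_filter

/-- The charged sets of the unit `w`, for the killers in `M`. -/
def DD (J : Finset (Finset α)) (xs : Finset α → α) (M : Finset (Finset α)) (w : Finset α) :
    Finset (Finset α) :=
  (unions J).filter fun B => w ⊆ B ∧ ∃ j ∈ M, j ≠ w ∧ xs j ∉ B ∧ (priv J B w).Nonempty ∧
    priv J B w ⊆ j

lemma mem_DD {J : Finset (Finset α)} {xs : Finset α → α} {M : Finset (Finset α)}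
    {w B : Finset α} :
    B ∈ DD J xs M w ↔ B ∈ unions J ∧ w ⊆ B ∧ ∃ j ∈ M, j ≠ w ∧ xs j ∉ B ∧
      (priv J B w).Nonempty ∧ priv J B w ⊆ j := Finset.mem_filter

lemma DD_sub_BadS {J : Finset (Finset α)} {xs : Finset α → α} {M : Finset (Finset α)}
    {w i : Finset α} {y : α} (hiw : i ≠ w) (hi : i ∈ J) (hyw : y ∈ w) :
    DD J xs M w ⊆ BadS (unions J) y i := by
  intro B hB
  obtain ⟨hBF, hwB, j, -, -, -, ⟨z, hz⟩, -⟩ := mem_DD.1 hB
  obtain ⟨hzw, hpr⟩ := mem_priv.1 hz
  refine mem_BadS.2 ⟨hBF, hwB hyw, ?_⟩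
  intro A hA hyA he
  have hzB : z ∈ A ∪ i := by
    rw [he]
    exact hwB hzw
  rcases Finset.mem_union.1 hzB with h | h
  · obtain ⟨g, hg, hgA, hzg⟩ := (mem_iff hA z).1 h
    have hgB : g ⊆ B := by
      rw [← he]
      exact hgA.trans Finset.subset_union_left
    have hgw := hpr g hg hgB hzg
    subst hgw
    exact hyA (hgA hyw)
  · exact hiw (hpr i hi (by rw [← he]; exact Finset.subset_union_right) h)

lemma DD_eq_empty {J : Finset (Finset α)} {xs : Finset α → α} {M : Finset (Finset α)}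
    {w : Finset α} (h : ∀ j ∈ M, ¬ (j ≠ w ∧ ∃ y ∈ w, y ∈ j)) : DD J xs M w = ∅ := by
  rw [Finset.eq_empty_iff_forall_notMem]
  intro B hB
  obtain ⟨-, -, j, hj, hjw, -, ⟨z, hz⟩, hsub⟩ := mem_DD.1 hB
  exact h j hj ⟨hjw, z, (mem_priv.1 hz).1, hsub hz⟩

end Pool.Agent.H83.ELZ
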