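import Pool.Agent.H83.ELZ.Basic

/-!
# Charging the costs to covered generators (MP_75f39d, degree two)
-/

set_option autoImplicit false

namespace Pool.Agent.H83.ELZ

open Finset Pool.Agent.H97.GEN

variable {α : Type*} [DecidableEq α]

/-- Degree two: a point in `j ∈ P` and in the covered `w ≠ j` is in no further member of `P` or
covered member of `J`. -/
def Deg2 (J P : Finset (Finset α)) : Prop :=
  ∀ z : α, ∀ j ∈ P, ∀ w ∈ cov J, ∀ g ∈ P ∪ cov J, j ≠ w → z ∈ j → z ∈ w → z ∈ g → g = j ∨ g = w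

/-- The charge of one cost set. -/
lemma step {J P : Finset (Finset α)} {xs : Finset α → α} (hPJ : P ⊆ J) (h2 : Deg2 J P)
    {j A : Finset α} (hj : j ∈ P) (hxj : xs j ∈ j) (hA : A ∈ costs J (xs j) j) :
    ∃ w ∈ cov J, w ≠ j ∧ (∃ y ∈ w, y ∈ j) ∧ A ∪ w ∈ unions J ∧ xs j ∉ A ∪ w ∧
      (priv J (A ∪ w) w).Nonempty ∧ priv J (A ∪ w) w ⊆ j ∧ (A ∪ w) \ priv J (A ∪ w) w = A := by
  classical
  obtain ⟨hAF, hxA, hcost⟩ := mem_costs.1 hA
  set W := J.filter fun w => xs j ∉ w ∧ (w \ A).Nonempty ∧ w \ A ⊆ j with hW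
  have hWne : W.Nonempty := by
    obtain ⟨w, hw, h1, h2, h3⟩ := hcost
    exact ⟨w, Finset.mem_filter.2 ⟨hw, h1, h2, h3⟩⟩
  obtain ⟨w, hwW, hmin⟩ := Finset.exists_min_image W (fun w => (w \ A).card) hWne
  obtain ⟨hwJ, hxw, hwne, hwj⟩ := Finset.mem_filter.1 hwW
  have hne : w ≠ j := by
    rintro rfl
    exact hxw hxj
  have hwc : w ∈ cov J := cost_cov hAF (hPJ hj) hwJ hne hwne hwj
  have hxB : xs j ∉ A ∪ w := by
    rw [Finset.mem_union]
    exact fun h => h.elim hxA hxw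
  have hnot : ¬ w ⊆ A := by
    obtain ⟨z, hz⟩ := hwne
    obtain ⟨h1, h2⟩ := Finset.mem_sdiff.1 hz
    exact fun h => h2 (h h1)
  -- the only generator inside `A ∪ w` and not inside `A`
  have huniq : ∀ w' ∈ J, w' ⊆ A ∪ w → ¬ w' ⊆ A → w' = w := by
    intro w' hw' hsub hnsub
    have h1 : w' \ A ⊆ w \ A := by
      intro z hz
      obtain ⟨hz1, hz2⟩ := Finset.mem_sdiff.1 hz
      rcases Finset.mem_union.1 (hsub hz1) with h | h
      · exact absurd h hz2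
      · exact Finset.mem_sdiff.2 ⟨h, hz2⟩
    have h3 : (w' \ A).Nonempty := by
      rw [Finset.sdiff_nonempty]
      exact hnsub
    have hxw' : xs j ∉ w' := fun h => hxB (hsub h)
    have h4 : w' ∈ W := Finset.mem_filter.2 ⟨hw', hxw', h3, h1.trans hwj⟩
    have h5 : w' \ A = w \ A := Finset.eq_of_subset_of_card_le h1 (hmin w' h4)
    have hne' : w' ≠ j := by
      rintro rfl
      exact hxw' hxj
    have hw'c : w' ∈ cov J := cost_cov hAF (hPJ hj) hw' hne' h3 (h1.trans hwj)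
    obtain ⟨z, hz⟩ := h3
    have hz' : z ∈ w \ A := by rw [← h5]; exact hz
    rcases h2 z j hj w hwc w' (Finset.mem_union_right _ hw'c) hne.symm (hwj hz')
      (Finset.mem_sdiff.1 hz').1 (Finset.mem_sdiff.1 hz).1 with h | h
    · exact absurd h hne'
    · exact h
  have hpriv : priv J (A ∪ w) w = w \ A := by
    ext z
    rw [mem_priv, Finset.mem_sdiff]
    constructor
    · rintro ⟨hzw, hz⟩
      refine ⟨hzw, fun hzA => ?_⟩
      obtain ⟨g, hg, hgA, hzg⟩ := (mem_iff hAF z).1 hzA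
      have := hz g hg (hgA.trans Finset.subset_union_left) hzg
      subst this
      exact hnot hgA
    · rintro ⟨hzw, hzA⟩
      exact ⟨hzw, fun g hg hgB hzg => huniq g hg hgB fun h => hzA (h hzg)⟩
  refine ⟨w, hwc, hne, ?_, union_mem hAF (self_mem hwJ), hxB, ?_, ?_, ?_⟩
  · obtain ⟨z, hz⟩ := hwne
    exact ⟨z, (Finset.mem_sdiff.1 hz).1, hwj hz⟩
  · rw [hpriv]
    exact hwne
  · rw [hpriv]
    exact hwj
  · rw [hpriv]
    ext z
    simp only [Finset.mem_sdiff, Finset.mem_union]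
    tauto

/-- The units: the covered generators that meet another member of `P`. -/
def units (J P : Finset (Finset α)) : Finset (Finset α) :=
  (cov J).filter fun w => ∃ j ∈ P, j ≠ w ∧ (j ∩ w).Nonempty

lemma mem_units {J P : Finset (Finset α)} {w : Finset α} :
    w ∈ units J P ↔ w ∈ cov J ∧ ∃ j ∈ P, j ≠ w ∧ (j ∩ w).Nonempty := Finset.mem_filter

/-- The costs are at most the charges. -/
theorem charge {J P : Finset (Finset α)} {xs : Finset α → α} (hPJ : P ⊆ J) (h2 : Deg2 J P)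
    (hxs : ∀ j ∈ P, xs j ∈ j) {M : Finset (Finset α)} (hM : M ⊆ P) :
    ∑ j ∈ M, (costs J (xs j) j).card ≤ ∑ w ∈ units J P, (DD J xs M w).card := by
  classical
  have hstep : ∀ (j A : Finset α), ∃ w : Finset α, j ∈ M → A ∈ costs J (xs j) j →
      (w ∈ cov J ∧ w ≠ j ∧ (∃ y ∈ w, y ∈ j) ∧ A ∪ w ∈ unions J ∧ xs j ∉ A ∪ w ∧
      (priv J (A ∪ w) w).Nonempty ∧ priv J (A ∪ w) w ⊆ j ∧ (A ∪ w) \ priv J (A ∪ w) w = A) := by
    intro j A
    by_cases h : j ∈ M ∧ A ∈ costs J (xs j) j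
    · obtain ⟨w, hw⟩ := step hPJ h2 (hM h.1) (hxs j (hM h.1)) h.2
      exact ⟨w, fun _ _ => hw⟩
    · exact ⟨∅, fun h1 h2 => absurd ⟨h1, h2⟩ h⟩
  choose ω hω using hstep
  rw [← Finset.card_sigma, ← Finset.card_sigma]
  apply Finset.card_le_card_of_injOn
    (fun p : (Σ _ : Finset α, Finset α) => (⟨ω p.1 p.2, p.2 ∪ ω p.1 p.2⟩ : Σ _ : Finset α, Finset α))
  · rintro ⟨j, A⟩ hp
    obtain ⟨hj, hA⟩ := Finset.mem_sigma.1 (Finset.mem_coe.1 hp)
    obtain ⟨h1, hne, ⟨y, hyw, hyj⟩, h3, h4, h5, h6, -⟩ := hω j A hj hA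
    apply Finset.mem_coe.2
    refine Finset.mem_sigma.2 ⟨mem_units.2 ⟨h1, j, hM hj, hne.symm,
      ⟨y, Finset.mem_inter.2 ⟨hyj, hyw⟩⟩⟩, ?_⟩
    exact mem_DD.2 ⟨h3, Finset.subset_union_right, j, hj, hne.symm, h4, h5, h6⟩
  · rintro ⟨j, A⟩ hp ⟨j', A'⟩ hp' he
    obtain ⟨hj, hA⟩ := Finset.mem_sigma.1 (Finset.mem_coe.1 hp)
    obtain ⟨hj', hA'⟩ := Finset.mem_sigma.1 (Finset.mem_coe.1 hp')
    obtain ⟨h1, hne, -, h3, h4, ⟨z, hz⟩, h6, h7⟩ := hω j A hj hA
    obtain ⟨h1', hne', -, h3', h4', h5', h6', h7'⟩ := hω j' A' hj' hA'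
    simp only [Sigma.mk.injEq, heq_eq_eq] at he
    obtain ⟨hw, hB⟩ := he
    rw [← hw] at h6' h7' hne' hB
    rw [← hB] at h6' h7'
    have hAA : A = A' := by rw [← h7, ← h7']
    have hzw := (mem_priv.1 hz).1
    have hjj : j' = j := by
      rcases h2 z j (hM hj) (ω j A) h1 j' (Finset.mem_union_left _ (hM hj')) hne.symm (h6 hz) hzw
        (h6' hz) with h | h
      · exact h
      · exact absurd h hne'.symm
    subst hjj
    subst hAA
    rfl

end Pool.Agent.H83.ELZ
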