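import Pool.Agent.H83.ELZ.HalfSum

/-!
# The bound for one exceptional unit (MP_75f39d)
-/

set_option autoImplicit false

namespace Pool.Agent.H83.ELZ

open Finset Pool.Agent.H97.GEN

variable {α : Type*} [DecidableEq α]

/-- The charged sets of an exceptional unit: the first direction that is not inside `A` is partial. -/
def SV (F : Finset (Finset α)) (f : ℕ → Finset α) (p : ℕ → Prop) [DecidablePred p]
    (y : Finset α → α) (r : ℕ) : Finset (Finset α) :=
  F.filter fun A => ∃ t ∈ range r, p t ∧ y (f t) ∈ A ∧ ¬ f t ⊆ A ∧ ∀ s ∈ range t, p s → f s ⊆ A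

lemma mem_SV {F : Finset (Finset α)} {f : ℕ → Finset α} {p : ℕ → Prop} [DecidablePred p]
    {y : Finset α → α} {r : ℕ} {A : Finset α} :
    A ∈ SV F f p y r ↔ A ∈ F ∧ ∃ t < r, p t ∧ y (f t) ∈ A ∧ ¬ f t ⊆ A ∧ ∀ s < t, p s → f s ⊆ A := by
  unfold SV
  rw [Finset.mem_filter]
  simp only [Finset.mem_range]

theorem SV_bound {F : Finset (Finset α)} {f : ℕ → Finset α} {p : ℕ → Prop} [DecidablePred p]
    {y : Finset α → α} {r : ℕ} (hF : ∀ s < r, p s → ∀ A ∈ F, A ∪ f s ∈ F)
    (hy : ∀ s < r, p s → y (f s) ∈ f s)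
    (hd : ∀ s < r, ∀ t < r, p s → p t → s ≠ t → Disjoint (f s) (f t)) :
    ((SV F f p y r).card : ℝ) ≤ ∑ s ∈ range r,
      (if p s then (1 / 2 : ℝ) ^ Nat.count p s else 0) * (BadS F (y (f s)) (f s)).card := by
  classical
  set Nt : ℕ → Finset (Finset α) := fun t => ((range t).filter p).image f with hNt
  have hNmem : ∀ t i, i ∈ Nt t ↔ ∃ s < t, p s ∧ f s = i := by
    intro t i
    rw [hNt]
    simp only [Finset.mem_image, Finset.mem_filter, Finset.mem_range]
    constructor
    · rintro ⟨s, ⟨h1, h2⟩, h3⟩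
      exact ⟨s, h1, h2, h3⟩
    · rintro ⟨s, h1, h2, h3⟩
      exact ⟨s, ⟨h1, h2⟩, h3⟩
  have hinj : ∀ s < r, ∀ t < r, p s → p t → f s = f t → s = t := by
    intro s hs t ht ps pt he
    by_contra hne
    have h1 := hd s hs t ht ps pt hne
    rw [he] at h1
    exact Finset.disjoint_left.1 h1 (hy t ht pt) (hy t ht pt)
  set W : Finset α → ℝ := fun B => ∑ s ∈ range r,
    (if p s then (1 / 2 : ℝ) ^ Nat.count p s else 0) *
      (if B ∈ BadS F (y (f s)) (f s) then 1 else 0) with hW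
  have hW0 : ∀ B, 0 ≤ W B := by
    intro B
    apply Finset.sum_nonneg
    intro s _
    apply mul_nonneg
    · split_ifs
      · positivity
      · exact le_refl _
    · split_ifs
      · exact zero_le_one
      · exact le_refl _
  have hch : ∀ A : Finset α, ∃ t : ℕ, A ∈ SV F f p y r →
      (t < r ∧ p t ∧ y (f t) ∈ A ∧ ¬ f t ⊆ A ∧ ∀ s < t, p s → f s ⊆ A) := by
    intro A
    by_cases h : A ∈ SV F f p y r
    · obtain ⟨-, t, ht⟩ := mem_SV.1 h
      exact ⟨t, fun _ => ht⟩
    · exact ⟨0, fun h' => absurd h' h⟩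
  choose τ hτ using hch
  have hnotmem : ∀ t < r, p t → ∀ B : Finset α, ∀ z ∈ f t, z ∉ (miss (Nt t) y B).sup id := by
    intro t ht pt B z hz h
    obtain ⟨i, hi, hzi⟩ := mem_sup_id.1 h
    obtain ⟨s, hs, ps, rfl⟩ := (hNmem t i).1 (mem_miss.1 hi).1
    exact Finset.disjoint_left.1 (hd s (by omega) t ht ps pt (by omega)) hzi hz
  -- at the sets below `A` the index `τ A` is partial
  have hpart : ∀ A ∈ SV F f p y r, ∀ B ∈ sF F (Nt (τ A)) y A,
      y (f (τ A)) ∈ B ∧ ¬ f (τ A) ⊆ B := by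
    intro A hA B hB
    obtain ⟨h1, h2, h3, h4, h5⟩ := hτ A hA
    obtain ⟨hBF, hBA, hBfull⟩ := mem_sF.1 hB
    constructor
    · have : y (f (τ A)) ∈ B ∪ (miss (Nt (τ A)) y B).sup id := by
        rw [hBA]
        exact h3
      rcases Finset.mem_union.1 this with h | h
      · exact h
      · exact absurd h (hnotmem _ h1 h2 B _ (hy _ h1 h2))
    · intro h
      apply h4
      refine h.trans ?_
      rw [← hBA]
      exact Finset.subset_union_left
  have hWB : ∀ A ∈ SV F f p y r, ∀ B ∈ sF F (Nt (τ A)) y A,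
      (1 / 2 : ℝ) ^ kk F (Nt (τ A)) y B ≤ W B := by
    intro A hA B hB
    obtain ⟨h1, h2, h3, h4, h5⟩ := hτ A hA
    obtain ⟨hBF, hBA, hBfull⟩ := mem_sF.1 hB
    obtain ⟨hyB, hnB⟩ := hpart A hA B hB
    have hbad : B ∈ BadS F (y (f (τ A))) (f (τ A)) := by
      refine mem_BadS.2 ⟨hBF, hyB, fun A' _ _ he => hnB ?_⟩
      rw [← he]
      exact Finset.subset_union_right
    have hex : ∃ s, p s ∧ B ∈ BadS F (y (f s)) (f s) := ⟨τ A, h2, hbad⟩
    obtain ⟨hps, hsbad⟩ := Nat.find_spec hex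
    have hsle : Nat.find hex ≤ τ A := Nat.find_min' hex ⟨h2, hbad⟩
    obtain ⟨s, hs⟩ : ∃ s, s = Nat.find hex := ⟨_, rfl⟩
    have hmin : ∀ s' < s, p s' → B ∉ BadS F (y (f s')) (f s') := by
      intro s' hs' ps' hb
      rw [hs] at hs'
      exact Nat.find_min hex hs' ⟨ps', hb⟩
    rw [← hs] at hps hsbad hsle
    have hcount : Nat.count p s ≤ kk F (Nt (τ A)) y B := by
      rw [Nat.count_eq_card_filter_range]
      unfold kk
      apply Finset.card_le_card_of_injOn f
      · intro s' hs'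
        obtain ⟨hs1, hs2⟩ := Finset.mem_filter.1 (Finset.mem_coe.1 hs')
        rw [Finset.mem_range] at hs1
        exact Finset.mem_coe.2 (Finset.mem_filter.2
          ⟨(hNmem _ _).2 ⟨s', by omega, hs2, rfl⟩, hmin s' hs1 hs2⟩)
      · intro s' hs' s'' hs'' he
        obtain ⟨hs1, hs2⟩ := Finset.mem_filter.1 (Finset.mem_coe.1 hs')
        obtain ⟨hs3, hs4⟩ := Finset.mem_filter.1 (Finset.mem_coe.1 hs'')
        rw [Finset.mem_range] at hs1 hs3
        exact hinj s' (by omega) s'' (by omega) hs2 hs4 he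
    calc (1 / 2 : ℝ) ^ kk F (Nt (τ A)) y B ≤ (1 / 2 : ℝ) ^ Nat.count p s :=
          pow_le_pow_of_le_one (by norm_num) (by norm_num) hcount
      _ = (if p s then (1 / 2 : ℝ) ^ Nat.count p s else 0) *
          (if B ∈ BadS F (y (f s)) (f s) then 1 else 0) := by
          rw [if_pos hps, if_pos hsbad, mul_one]
      _ ≤ W B := Finset.single_le_sum (f := fun s =>
          (if p s then (1 / 2 : ℝ) ^ Nat.count p s else 0) *
          (if B ∈ BadS F (y (f s)) (f s) then (1 : ℝ) else 0)) (by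
            intro s _
            apply mul_nonneg
            · split_ifs
              · positivity
              · exact le_refl _
            · split_ifs
              · exact zero_le_one
              · exact le_refl _) (Finset.mem_range.2 (by omega))
  have hdisj : ∀ A ∈ SV F f p y r, ∀ A' ∈ SV F f p y r, A ≠ A' →
      Disjoint (sF F (Nt (τ A)) y A) (sF F (Nt (τ A')) y A') := by
    intro A hA A' hA' hne
    rw [Finset.disjoint_left]
    intro B hB hB'
    obtain ⟨h1, h2, -, -, -⟩ := hτ A hA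
    obtain ⟨h1', h2', -, -, -⟩ := hτ A' hA'
    obtain ⟨hyB, hnB⟩ := hpart A hA B hB
    obtain ⟨hyB', hnB'⟩ := hpart A' hA' B hB'
    obtain ⟨-, hBA, hBfull⟩ := mem_sF.1 hB
    obtain ⟨-, hBA', hBfull'⟩ := mem_sF.1 hB'
    rcases Nat.lt_trichotomy (τ A) (τ A') with h | h | h
    · exact hnB (hBfull' _ ((hNmem _ _).2 ⟨τ A, h, h2, rfl⟩) hyB)
    · apply hne
      rw [← hBA, ← hBA', h]
    · exact hnB' (hBfull _ ((hNmem _ _).2 ⟨τ A', h, h2', rfl⟩) hyB')
  have hone : ∀ A ∈ SV F f p y r, (1 : ℝ) ≤ ∑ B ∈ sF F (Nt (τ A)) y A, W B := by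
    intro A hA
    obtain ⟨h1, h2, h3, h4, h5⟩ := hτ A hA
    have hhalf := half_sum F y (Nt (τ A)) (by
      intro i hi A' hA'
      obtain ⟨s, hs, ps, rfl⟩ := (hNmem _ _).1 hi
      exact hF s (by omega) ps A' hA') (by
      intro i hi
      obtain ⟨s, hs, ps, rfl⟩ := (hNmem _ _).1 hi
      exact hy s (by omega) ps) (by
      intro i hi j hj hij
      obtain ⟨s, hs, ps, rfl⟩ := (hNmem _ _).1 hi
      obtain ⟨t, ht, pt, rfl⟩ := (hNmem _ _).1 hj
      exact hd s (by omega) t (by omega) ps pt (by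
        rintro rfl
        exact hij rfl)) A (mem_SV.1 hA).1 (by
      intro i hi
      obtain ⟨s, hs, ps, rfl⟩ := (hNmem _ _).1 hi
      exact h5 s hs ps)
    exact hhalf.trans (Finset.sum_le_sum (hWB A hA))
  calc ((SV F f p y r).card : ℝ) = ∑ _A ∈ SV F f p y r, (1 : ℝ) := by
        rw [Finset.sum_const, nsmul_eq_mul, mul_one]
    _ ≤ ∑ A ∈ SV F f p y r, ∑ B ∈ sF F (Nt (τ A)) y A, W B := Finset.sum_le_sum hone
    _ = ∑ B ∈ (SV F f p y r).biUnion fun A => sF F (Nt (τ A)) y A, W B := by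
        rw [Finset.sum_biUnion]
        intro A hA A' hA' hne
        exact hdisj A (Finset.mem_coe.1 hA) A' (Finset.mem_coe.1 hA') hne
    _ ≤ ∑ B ∈ F, W B := by
        apply Finset.sum_le_sum_of_subset_of_nonneg
        · intro B hB
          obtain ⟨A, -, hBA⟩ := Finset.mem_biUnion.1 hB
          exact (mem_sF.1 hBA).1
        · intro B _ _
          exact hW0 B
    _ = ∑ s ∈ range r,
      (if p s then (1 / 2 : ℝ) ^ Nat.count p s else 0) * (BadS F (y (f s)) (f s)).card := by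
        rw [hW, Finset.sum_comm]
        apply Finset.sum_congr rfl
        intro s _
        rw [← Finset.mul_sum]
        congr 1
        rw [Finset.sum_ite_mem, Finset.sum_const, nsmul_eq_mul, mul_one]
        congr 2
        apply Finset.inter_eq_right.2
        exact Finset.filter_subset _ _

end Pool.Agent.H83.ELZ
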