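import Pool.Agent.H83.ELZ.Charge
import Pool.Agent.H83.ELZ.UnitV

/-!
# Charging the costs, with exceptional units (MP_75f39d)
-/

set_option autoImplicit false

namespace Pool.Agent.H83.ELZ

open Finset Pool.Agent.H97.GEN

variable {α : Type*} [DecidableEq α]

/-- The hypotheses of the mixed theorem, with an enumeration of `P` and chosen points. -/
structure Hyp (J P V : Finset (Finset α)) (xs : Finset α → α) (y : Finset α → Finset α → α)
    (f : ℕ → Finset α) (n : ℕ) : Prop where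
  PJ : P ⊆ J
  VC : V ⊆ cov J
  VP : ∀ v ∈ V, v ∉ P
  dis : ∀ v ∈ V, ∀ i ∈ P, ∀ j ∈ P, i ≠ j → (i ∩ v).Nonempty → (j ∩ v).Nonempty → Disjoint i j
  deg : ∀ z : α, ∀ j ∈ P, ∀ w ∈ cov J, w ∉ V → ∀ g, (g ∈ P ∨ (g ∈ cov J ∧ g ∉ V)) →
    j ≠ w → z ∈ j → z ∈ w → z ∈ g → g = j ∨ g = w
  xsj : ∀ j ∈ P, xs j ∈ j
  yv : ∀ v ∈ V, ∀ i ∈ P, (i ∩ v).Nonempty → y v i ∈ v ∧ y v i ∈ i
  fP : ∀ t < n, f t ∈ P
  finj : ∀ s < n, ∀ t < n, f s = f t → s = t

/-- `f t` meets `v`. -/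
def pv (f : ℕ → Finset α) (v : Finset α) (t : ℕ) : Prop := (f t ∩ v).Nonempty

instance (f : ℕ → Finset α) (v : Finset α) : DecidablePred (pv f v) := fun t => by
  unfold pv; infer_instance

/-- The charged sets of a unit. -/
def TT (J V : Finset (Finset α)) (xs : Finset α → α) (y : Finset α → Finset α → α)
    (f : ℕ → Finset α) (r : ℕ) (w : Finset α) : Finset (Finset α) :=
  if w ∈ V then SV (unions J) f (pv f w) (y w) r else DD J xs ((range r).image f) w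

/-- The choice of the killed generator. -/
lemma stepM {J P V : Finset (Finset α)} {xs : Finset α → α} {y : Finset α → Finset α → α}
    {f : ℕ → Finset α} {n : ℕ} (h : Hyp J P V xs y f n) {j A : Finset α} (hj : j ∈ P)
    (hA : A ∈ costs J (xs j) j) :
    ∃ w ∈ cov J, w ≠ j ∧ xs j ∉ w ∧ (w \ A).Nonempty ∧ w \ A ⊆ j ∧
      (∀ w' ∈ J, xs j ∉ w' → (w' \ A).Nonempty → w' \ A ⊆ w \ A → w' \ A = w \ A) ∧
      (w ∈ V ∨ (w ∉ V ∧ ∀ w' ∈ J, w' ⊆ A ∪ w → ¬ w' ⊆ A → w' = w)) := by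
  classical
  obtain ⟨hAF, hxA, hcost⟩ := mem_costs.1 hA
  set W := J.filter fun w => xs j ∉ w ∧ (w \ A).Nonempty ∧ w \ A ⊆ j with hW
  have hWne : W.Nonempty := by
    obtain ⟨w, hw, h1, h2, h3⟩ := hcost
    exact ⟨w, Finset.mem_filter.2 ⟨hw, h1, h2, h3⟩⟩
  have hWp : ∀ w ∈ W, w ≠ j ∧ w ∈ cov J := by
    intro w hw
    obtain ⟨hwJ, hxw, hwne, hwj⟩ := Finset.mem_filter.1 hw
    have hne : w ≠ j := by
      rintro rfl
      exact hxw (h.xsj _ hj)
    exact ⟨hne, cost_cov hAF (h.PJ hj) hwJ hne hwne hwj⟩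
  obtain ⟨w, hwW, hmin⟩ := Finset.exists_min_image W (fun w => (w \ A).card) hWne
  obtain ⟨hwJ, hxw, hwne, hwj⟩ := Finset.mem_filter.1 hwW
  have hmin' : ∀ w' ∈ J, xs j ∉ w' → (w' \ A).Nonempty → w' \ A ⊆ w \ A → w' \ A = w \ A := by
    intro w' hw' hx' hne' hsub
    exact Finset.eq_of_subset_of_card_le hsub
      (hmin w' (Finset.mem_filter.2 ⟨hw', hx', hne', hsub.trans hwj⟩))
  by_cases hex : ∃ v ∈ W, v ∈ V ∧ v \ A = w \ A
  · obtain ⟨v, hvW, hvV, hve⟩ := hex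
    obtain ⟨hvJ, hxv, hvne, hvj⟩ := Finset.mem_filter.1 hvW
    refine ⟨v, (hWp v hvW).2, (hWp v hvW).1, hxv, hvne, hvj, ?_, Or.inl hvV⟩
    rw [hve]
    exact hmin'
  · refine ⟨w, (hWp w hwW).2, (hWp w hwW).1, hxw, hwne, hwj, hmin', Or.inr ⟨?_, ?_⟩⟩
    · intro hwV
      exact hex ⟨w, hwW, hwV, rfl⟩
    · intro w' hw' hsub hnsub
      have h1 : w' \ A ⊆ w \ A := by
        intro z hz
        obtain ⟨hz1, hz2⟩ := Finset.mem_sdiff.1 hz
        rcases Finset.mem_union.1 (hsub hz1) with h' | h'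
        · exact absurd h' hz2
        · exact Finset.mem_sdiff.2 ⟨h', hz2⟩
      have h3 : (w' \ A).Nonempty := by
        rw [Finset.sdiff_nonempty]
        exact hnsub
      have hxw' : xs j ∉ w' := by
        intro h'
        rcases Finset.mem_union.1 (hsub h') with h'' | h''
        · exact hxA h''
        · exact hxw h''
      have h5 := hmin' w' hw' hxw' h3 h1
      have hw'W : w' ∈ W := Finset.mem_filter.2 ⟨hw', hxw', h3, h1.trans hwj⟩
      have hw'V : w' ∉ V := fun hv => hex ⟨w', hw'W, hv, h5⟩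
      have hwV : w ∉ V := fun hv => hex ⟨w, hwW, hv, rfl⟩
      obtain ⟨z, hz⟩ := h3
      have hz' : z ∈ w \ A := by rw [← h5]; exact hz
      rcases h.deg z j hj w (hWp w hwW).2 hwV w' (Or.inr ⟨(hWp w' hw'W).2, hw'V⟩)
        (hWp w hwW).1.symm (hwj hz') (Finset.mem_sdiff.1 hz').1 (Finset.mem_sdiff.1 hz).1
        with h' | h'
      · exact absurd h' (hWp w' hw'W).1
      · exact h'

/-- What is known about the charge `(w, B)` of `(j, A)`. -/
def Info (J V : Finset (Finset α)) (xs : Finset α → α) (y : Finset α → Finset α → α)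
    (f : ℕ → Finset α) (r : ℕ) (j A w B : Finset α) : Prop :=
  (w ∉ V ∧ w ∈ cov J ∧ j ≠ w ∧ (priv J B w).Nonempty ∧ priv J B w ⊆ j ∧ B \ priv J B w = A) ∨
  (w ∈ V ∧ B = A ∧ (w \ B).Nonempty ∧ w \ B ⊆ j) ∨
  (w ∈ V ∧ B = A ∪ w ∧ y w j ∉ A ∧ xs j ∉ B ∧ (∃ t < r, j = f t ∧ pv f w t ∧ ¬ f t ⊆ B ∧
    ∀ s < t, pv f w s → f s ⊆ B) ∧
    (∀ w' ∈ J, xs j ∉ w' → (w' \ A).Nonempty → w' \ A ⊆ w \ A → w' \ A = w \ A))

lemma info_exists {J P V : Finset (Finset α)} {xs : Finset α → α}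
    {y : Finset α → Finset α → α} {f : ℕ → Finset α} {n : ℕ} (h : Hyp J P V xs y f n) {r : ℕ}
    (hr : r ≤ n) {j A : Finset α} (hj : j ∈ (range r).image f) (hA : A ∈ costs J (xs j) j) :
    ∃ w B : Finset α, w ∈ units J P ∧ B ∈ TT J V xs y f r w ∧ Info J V xs y f r j A w B := by
  classical
  obtain ⟨t0, ht0, hjt⟩ := Finset.mem_image.1 hj
  rw [Finset.mem_range] at ht0
  have hjP : j ∈ P := by
    rw [← hjt]
    exact h.fP t0 (by omega)
  obtain ⟨w, hwc, hwj, hxw, hwne, hwsub, hmin, hcase⟩ := stepM h hjP hA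
  obtain ⟨hAF, hxA, -⟩ := mem_costs.1 hA
  have hxB : xs j ∉ A ∪ w := by
    rw [Finset.mem_union]
    exact fun h => h.elim hxA hxw
  have hwJ : w ∈ J := (mem_cov.1 hwc).1
  have hjw : (j ∩ w).Nonempty := by
    obtain ⟨z, hz⟩ := hwne
    exact ⟨z, Finset.mem_inter.2 ⟨hwsub hz, (Finset.mem_sdiff.1 hz).1⟩⟩
  have hunit : w ∈ units J P := mem_units.2 ⟨hwc, j, hjP, hwj.symm, hjw⟩
  rcases hcase with hwV | ⟨hwV, huniq⟩
  · -- exceptional unit
    have hp0 : pv f w t0 := by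
      unfold pv
      rw [hjt]
      exact hjw
    have hn0 : ¬ f t0 ⊆ A := by
      rw [hjt]
      exact fun h' => hxA (h' (h.xsj j hjP))
    have hex : ∃ t, pv f w t ∧ ¬ f t ⊆ A := ⟨t0, hp0, hn0⟩
    obtain ⟨hp1, hn1⟩ := Nat.find_spec hex
    have hle : Nat.find hex ≤ t0 := Nat.find_min' hex ⟨hp0, hn0⟩
    obtain ⟨τ, hτ⟩ : ∃ τ, τ = Nat.find hex := ⟨_, rfl⟩
    have hbefore : ∀ s < τ, pv f w s → f s ⊆ A := by
      intro s hs ps
      by_contra hcon
      rw [hτ] at hs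
      exact Nat.find_min hex hs ⟨ps, hcon⟩
    rw [← hτ] at hp1 hn1 hle
    by_cases hcase3 : τ = t0 ∧ y w j ∉ A
    · -- type 3
      obtain ⟨hτ0, hyA⟩ := hcase3
      have hyw := (h.yv w hwV j hjP hjw).1
      have hnB : ¬ f t0 ⊆ A ∪ w := by
        rw [hjt]
        exact fun h' => hxB (h' (h.xsj j hjP))
      have hbef : ∀ s < t0, pv f w s → f s ⊆ A ∪ w := fun s hs ps =>
        (hbefore s (by omega) ps).trans Finset.subset_union_left
      refine ⟨w, A ∪ w, hunit, ?_, Or.inr (Or.inr ⟨hwV, rfl, hyA, hxB,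
        ⟨t0, ht0, hjt.symm, hp0, hnB, hbef⟩, hmin⟩)⟩
      unfold TT
      rw [if_pos hwV, mem_SV]
      refine ⟨union_mem hAF (self_mem hwJ), t0, ht0, hp0, ?_, hnB, hbef⟩
      rw [hjt]
      exact Finset.mem_union_right _ hyw
    · -- types 1 and 2
      refine ⟨w, A, hunit, ?_, Or.inr (Or.inl ⟨hwV, rfl, hwne, hwsub⟩)⟩
      unfold TT
      rw [if_pos hwV, mem_SV]
      refine ⟨hAF, τ, by omega, hp1, ?_, hn1, hbefore⟩
      by_cases hτ0 : τ = t0
      · rw [hτ0, hjt]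
        by_contra hcon
        exact hcase3 ⟨hτ0, hcon⟩
      · have hfP : f τ ∈ P := h.fP τ (by omega)
        have hne : f τ ≠ j := by
          rw [← hjt]
          exact fun he => hτ0 (h.finj τ (by omega) t0 (by omega) he)
        obtain ⟨hy1, hy2⟩ := h.yv w hwV (f τ) hfP hp1
        by_contra hcon
        have hd := h.dis w hwV (f τ) hfP j hjP hne hp1 hjw
        exact Finset.disjoint_left.1 hd hy2 (hwsub (Finset.mem_sdiff.2 ⟨hy1, hcon⟩))
  · -- ordinary unit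
    have hnot : ¬ w ⊆ A := by
      obtain ⟨z, hz⟩ := hwne
      obtain ⟨h1, h2⟩ := Finset.mem_sdiff.1 hz
      exact fun h => h2 (h h1)
    have hpriv : priv J (A ∪ w) w = w \ A := by
      ext z
      rw [mem_priv, Finset.mem_sdiff]
      constructor
      · rintro ⟨hzw, hz⟩
        refine ⟨hzw, fun hzA => ?_⟩
        obtain ⟨g, hg, hgA, hzg⟩ := (mem_iff hAF z).1 hzA
        have := hz g hg (hgA.trans Finset.subset_union_left) hzg
        subst this
        exact hnot hgA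
      · rintro ⟨hzw, hzA⟩
        exact ⟨hzw, fun g hg hgB hzg => huniq g hg hgB fun h => hzA (h hzg)⟩
    refine ⟨w, A ∪ w, hunit, ?_, Or.inl ⟨hwV, hwc, hwj.symm, ?_, ?_, ?_⟩⟩
    · unfold TT
      rw [if_neg hwV, mem_DD]
      exact ⟨union_mem hAF (self_mem hwJ), Finset.subset_union_right, j, hj, hwj.symm, hxB,
        by rw [hpriv]; exact hwne, by rw [hpriv]; exact hwsub⟩
    · rw [hpriv]
      exact hwne
    · rw [hpriv]
      exact hwsub
    · rw [hpriv]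
      ext z
      simp only [Finset.mem_sdiff, Finset.mem_union]
      tauto

lemma info_inj {J P V : Finset (Finset α)} {xs : Finset α → α}
    {y : Finset α → Finset α → α} {f : ℕ → Finset α} {n : ℕ} (h : Hyp J P V xs y f n) {r : ℕ}
    (hr : r ≤ n) {j A j' A' w B : Finset α} (hj : j ∈ P) (hj' : j' ∈ P)
    (hA : A ∈ unions J) (hA' : A' ∈ unions J)
    (h1 : Info J V xs y f r j A w B) (h2 : Info J V xs y f r j' A' w B) : j = j' ∧ A = A' := by
  classical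
  rcases h1 with ⟨hwV, hwc, hjw, ⟨z, hz⟩, hsub, hB⟩ | ⟨hwV, hB, ⟨z, hz⟩, hsub⟩ |
    ⟨hwV, hB, hyA, hxB, ⟨t, ht, hjt, hpt, hnt, hbt⟩, hmin⟩
  · rcases h2 with ⟨-, -, hjw', -, hsub', hB'⟩ | ⟨hwV', -⟩ | ⟨hwV', -⟩
    · refine ⟨?_, by rw [← hB, ← hB']⟩
      rcases h.deg z j hj w hwc hwV j' (Or.inl hj') hjw (hsub hz) (mem_priv.1 hz).1 (hsub' hz)
        with h' | h'
      · exact h'.symm
      · exact absurd h' hjw'
    · exact absurd hwV' hwV
    · exact absurd hwV' hwV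
  · rcases h2 with ⟨hwV', -⟩ | ⟨-, hB', -, hsub'⟩ | ⟨-, hB', -⟩
    · exact absurd hwV hwV'
    · refine ⟨?_, by rw [← hB, ← hB']⟩
      by_contra hne
      have hzw := (Finset.mem_sdiff.1 hz).1
      exact Finset.disjoint_left.1 (h.dis w hwV j hj j' hj' hne
        ⟨z, Finset.mem_inter.2 ⟨hsub hz, hzw⟩⟩ ⟨z, Finset.mem_inter.2 ⟨hsub' hz, hzw⟩⟩)
        (hsub hz) (hsub' hz)
    · exfalso
      obtain ⟨hz1, hz2⟩ := Finset.mem_sdiff.1 hz
      apply hz2
      rw [hB']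
      exact Finset.mem_union_right _ hz1
  · rcases h2 with ⟨hwV', -⟩ | ⟨-, -, ⟨z, hz⟩, -⟩ |
      ⟨-, hB', hyA', hxB', ⟨t', ht', hjt', hpt', hnt', hbt'⟩, hmin'⟩
    · exact absurd hwV hwV'
    · exfalso
      obtain ⟨hz1, hz2⟩ := Finset.mem_sdiff.1 hz
      apply hz2
      rw [hB]
      exact Finset.mem_union_right _ hz1
    · have htt : t = t' := by
        rcases Nat.lt_trichotomy t t' with hlt | he | hlt
        · exact absurd (hbt' t hlt hpt) hnt
        · exact he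
        · exact absurd (hbt t' hlt hpt') hnt'
      have hjj : j = j' := by rw [hjt, hjt', htt]
      subst hjj
      refine ⟨rfl, ?_⟩
      -- the deleted parts agree
      have key : ∀ A1 A2 : Finset α, A2 ∈ unions J → B = A1 ∪ w → B = A2 ∪ w → y w j ∉ A2 →
          y w j ∈ w \ A1 →
          (∀ w' ∈ J, xs j ∉ w' → (w' \ A1).Nonempty → w' \ A1 ⊆ w \ A1 → w' \ A1 = w \ A1) →
          A2 ⊆ A1 := by
        intro A1 A2 hA2 hB1 hB2 hy2 hy1 hm z hz
        by_contra hzA1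
        obtain ⟨w', hw', hw'A, hzw'⟩ := (mem_iff hA2 z).1 hz
        have hw'B : w' ⊆ B := by
          rw [hB2]
          exact hw'A.trans Finset.subset_union_left
        have hsub : w' \ A1 ⊆ w \ A1 := by
          intro u hu
          obtain ⟨hu1, hu2⟩ := Finset.mem_sdiff.1 hu
          have := hw'B hu1
          rw [hB1] at this
          rcases Finset.mem_union.1 this with h' | h'
          · exact absurd h' hu2
          · exact Finset.mem_sdiff.2 ⟨h', hu2⟩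
        have he := hm w' hw' (fun h' => hxB (hw'B h')) ⟨z, Finset.mem_sdiff.2 ⟨hzw', hzA1⟩⟩ hsub
        rw [← he] at hy1
        exact hy2 (hw'A (Finset.mem_sdiff.1 hy1).1)
      have hjw : (j ∩ w).Nonempty := by
        rw [hjt]
        exact hpt
      have hyw := (h.yv w hwV j hj hjw).1
      apply Finset.Subset.antisymm
      · exact key A' A hA hB' hB hyA (Finset.mem_sdiff.2 ⟨hyw, hyA'⟩) hmin'
      · exact key A A' hA' hB hB' hyA' (Finset.mem_sdiff.2 ⟨hyw, hyA⟩) hmin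

/-- The costs are at most the charges. -/
theorem chargeM {J P V : Finset (Finset α)} {xs : Finset α → α}
    {y : Finset α → Finset α → α} {f : ℕ → Finset α} {n : ℕ} (h : Hyp J P V xs y f n) {r : ℕ}
    (hr : r ≤ n) :
    ∑ j ∈ (range r).image f, (costs J (xs j) j).card
      ≤ ∑ w ∈ units J P, (TT J V xs y f r w).card := by
  classical
  have hstep : ∀ (j A : Finset α), ∃ w B : Finset α, j ∈ (range r).image f →
      A ∈ costs J (xs j) j →
      (w ∈ units J P ∧ B ∈ TT J V xs y f r w ∧ Info J V xs y f r j A w B) := by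
    intro j A
    by_cases hc : j ∈ (range r).image f ∧ A ∈ costs J (xs j) j
    · obtain ⟨w, B, hw⟩ := info_exists h hr hc.1 hc.2
      exact ⟨w, B, fun _ _ => hw⟩
    · exact ⟨∅, ∅, fun h1 h2 => absurd ⟨h1, h2⟩ hc⟩
  choose ω β hω using hstep
  have hMP : ∀ j ∈ (range r).image f, j ∈ P := by
    intro j hj
    obtain ⟨t, ht, rfl⟩ := Finset.mem_image.1 hj
    exact h.fP t (by rw [Finset.mem_range] at ht; omega)
  rw [← Finset.card_sigma, ← Finset.card_sigma]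
  apply Finset.card_le_card_of_injOn
    (fun p : (Σ _ : Finset α, Finset α) => (⟨ω p.1 p.2, β p.1 p.2⟩ : Σ _ : Finset α, Finset α))
  · rintro ⟨j, A⟩ hp
    obtain ⟨hj, hA⟩ := Finset.mem_sigma.1 (Finset.mem_coe.1 hp)
    obtain ⟨h1, h2, -⟩ := hω j A hj hA
    exact Finset.mem_coe.2 (Finset.mem_sigma.2 ⟨h1, h2⟩)
  · rintro ⟨j, A⟩ hp ⟨j', A'⟩ hp' he
    obtain ⟨hj, hA⟩ := Finset.mem_sigma.1 (Finset.mem_coe.1 hp)
    obtain ⟨hj', hA'⟩ := Finset.mem_sigma.1 (Finset.mem_coe.1 hp')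
    obtain ⟨-, -, h1⟩ := hω j A hj hA
    obtain ⟨-, -, h2⟩ := hω j' A' hj' hA'
    simp only [Sigma.mk.injEq, heq_eq_eq] at he
    obtain ⟨hw, hB⟩ := he
    rw [← hw, ← hB] at h2
    obtain ⟨h3, h4⟩ := info_inj h hr (hMP j hj) (hMP j' hj') (mem_costs.1 hA).1
      (mem_costs.1 hA').1 h1 h2
    simp only at h3 h4
    subst h3
    subst h4
    rfl

end Pool.Agent.H83.ELZ
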