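import Pool.Agent.H83.ELZ.MainM
import Pool.Agent.H84.GEN.Final2

/-!
# The mixed local theorem for union-closed families (MP_75f39d)
-/

set_option autoImplicit false

namespace Pool.Agent.H83.ELZ

open Finset Pool.Agent.H97.GEN Pool.Agent.H84.GEN

variable {α : Type*} [DecidableEq α]

lemma not_disjoint_iff_inter {a b : Finset α} : ¬ Disjoint a b ↔ (a ∩ b).Nonempty := by
  rw [Finset.not_disjoint_iff_nonempty_inter]

/-- The local theorem with constant 2 for pairwise disjoint generators. -/
theorem local2 : Local2 α := by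
  classical
  intro J Q _ hirr hQJ hQne hQ hmeet hcard
  have hpart : ∀ w ∈ units J Q, w ∈ cov J \ Q := by
    intro w hw
    obtain ⟨hwc, j, hj, hjw, hm⟩ := mem_units.1 hw
    refine Finset.mem_sdiff.2 ⟨hwc, fun hwQ => ?_⟩
    exact not_disjoint_iff_inter.2 hm (hQ w hwQ j hj hjw)
  refine local_mixed (V := cov J \ Q) hirr hQJ hQne Finset.sdiff_subset
    (fun v hv => (Finset.mem_sdiff.1 hv).2) ?_ ?_ ?_ ?_
  · intro j hj
    obtain ⟨G', hG', hne', hnd⟩ := hmeet j hj
    exact ⟨G', hG', hne', not_disjoint_iff_inter.1 hnd⟩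
  · intro v _ i hi j hj hij _ _
    exact hQ j hj i hi hij
  · intro z j hj w hw hwV g _ hjw hzj hzw _
    exfalso
    have hwQ : w ∈ Q := by
      by_contra h
      exact hwV (Finset.mem_sdiff.2 ⟨hw, h⟩)
    exact Finset.disjoint_left.1 (hQ w hwQ j hj hjw) hzj hzw
  · have h1 : ((units J Q).filter fun w => w ∉ cov J \ Q) = ∅ := by
      rw [Finset.filter_eq_empty_iff]
      intro w hw h
      exact h (hpart w hw)
    rw [h1, Finset.card_empty, Nat.zero_add]
    refine (Nat.mul_le_mul_left 2 (Finset.card_le_card ?_)).trans hcard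
    intro w hw
    obtain ⟨hwu, hw'⟩ := Finset.mem_filter.1 hw
    obtain ⟨hwc, j, hj, hjw, hm⟩ := mem_units.1 hwu
    refine Finset.mem_filter.2 ⟨Finset.mem_sdiff.2 ⟨(mem_cov.1 hwc).1,
      (Finset.mem_sdiff.1 hw').2⟩, j, hj, ?_⟩
    rw [disjoint_comm]
    exact not_disjoint_iff_inter.2 hm

/-- The mixed local theorem for a union-closed family. -/
theorem part3_M {A : Finset (Finset α)} (hA : UnionClosed A) (P V : Finset (Finset α))
    (hP : P ⊆ meet A) (hPne : P.Nonempty) (hV : V ⊆ cov (gens A)) (hVP : Disjoint V P)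
    (hdis : ∀ v ∈ V, ∀ i ∈ P, ∀ j ∈ P, i ≠ j → ¬ Disjoint i v → ¬ Disjoint j v → Disjoint i j)
    (hdeg : ∀ z : α, (∃ j ∈ P, z ∈ j) → (∃ w ∈ cov (gens A) \ V, z ∈ w) →
      ((P ∪ (cov (gens A) \ V)).filter fun g => z ∈ g).card ≤ 2)
    (hcard : ((cov (gens A) \ V).filter fun w => ∃ j ∈ P, j ≠ w ∧ ¬ Disjoint j w).card
      + 2 * (V.filter fun v => ∃ j ∈ P, ¬ Disjoint j v).card ≤ P.card) :
    ∃ x ∈ P.sup id, A.card < 2 * fr A x := by
  classical
  have hu := unions_gens hA
  have hPg : P ⊆ gens A := hP.trans (Finset.filter_subset _ _)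
  obtain ⟨x, hx, hlt⟩ := local_mixed (J := gens A) (P := P) (V := V)
    (fun g hg => gens_irr A hg) hPg hPne hV
    (fun v hv hvP => Finset.disjoint_left.1 hVP hv hvP) (by
      intro j hj
      obtain ⟨-, G', hG', hne', hnd⟩ := Finset.mem_filter.1 (hP hj)
      exact ⟨G', hG', hne', not_disjoint_iff_inter.1 hnd⟩) (by
      intro v hv i hi j hj hij h1 h2
      exact hdis v hv i hi j hj hij (not_disjoint_iff_inter.2 h1) (not_disjoint_iff_inter.2 h2)) (by
      intro z j hj w hw hwV g hg hjw hzj hzw hzg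
      by_contra hcon
      push Not at hcon
      have hcd := hdeg z ⟨j, hj, hzj⟩ ⟨w, Finset.mem_sdiff.2 ⟨hw, hwV⟩, hzw⟩
      have hsub : ({g, j, w} : Finset (Finset α))
          ⊆ (P ∪ (cov (gens A) \ V)).filter fun g => z ∈ g := by
        intro u hu
        rw [Finset.mem_insert, Finset.mem_insert, Finset.mem_singleton] at hu
        rcases hu with rfl | rfl | rfl
        · refine Finset.mem_filter.2 ⟨?_, hzg⟩
          rcases hg with h | h
          · exact Finset.mem_union_left _ h
          · exact Finset.mem_union_right _ (Finset.mem_sdiff.2 h)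
        · exact Finset.mem_filter.2 ⟨Finset.mem_union_left _ hj, hzj⟩
        · exact Finset.mem_filter.2
            ⟨Finset.mem_union_right _ (Finset.mem_sdiff.2 ⟨hw, hwV⟩), hzw⟩
      have h3 : ({g, j, w} : Finset (Finset α)).card = 3 := by
        rw [Finset.card_eq_three]
        exact ⟨g, j, w, hcon.1, hcon.2, hjw, rfl⟩
      have := Finset.card_le_card hsub
      omega) (by
      refine le_trans (Nat.add_le_add (Finset.card_le_card ?_)
        (Nat.mul_le_mul_left 2 (Finset.card_le_card ?_))) hcard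
      · intro w hw
        obtain ⟨hwu, hwV⟩ := Finset.mem_filter.1 hw
        obtain ⟨hwc, j, hj, hjw, hm⟩ := mem_units.1 hwu
        exact Finset.mem_filter.2 ⟨Finset.mem_sdiff.2 ⟨hwc, hwV⟩, j, hj, hjw,
          not_disjoint_iff_inter.2 hm⟩
      · intro w hw
        obtain ⟨hwu, hwV⟩ := Finset.mem_filter.1 hw
        obtain ⟨hwc, j, hj, hjw, hm⟩ := mem_units.1 hwu
        exact Finset.mem_filter.2 ⟨hwV, j, hj, not_disjoint_iff_inter.2 hm⟩)
  refine ⟨x, hx, ?_⟩
  have h1 : A.card ≤ (unions (gens A)).card := by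
    rw [hu]
    exact Finset.card_le_card (Finset.subset_insert _ _)
  have h2 : fr (unions (gens A)) x = fr A x := by
    rw [hu]
    exact fr_insert_empty A x
  omega

/-- Families in which every point is in at most two covered generators. -/
theorem part4_M {A : Finset (Finset α)} (hA : UnionClosed A)
    (h : (meet A).Nonempty ∨ SepNotPower A)
    (hdeg : ∀ z : α, ((cov (gens A)).filter fun g => z ∈ g).card ≤ 2) :
    ∃ x ∈ A.sup id, A.card < 2 * fr A x := by
  classical
  have hm : (meet A).Nonempty ∨ ∃ x ∈ A.sup id, A.card < 2 * fr A x := by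
    rcases h with h | h
    · exact Or.inl h
    · exact meet_nonempty_or hA h
  rcases hm with hm | hm
  swap
  · exact hm
  have hup : ∀ P : Finset (Finset α), P ⊆ gens A →
      (∃ x ∈ P.sup id, A.card < 2 * fr A x) → ∃ x ∈ A.sup id, A.card < 2 * fr A x := by
    rintro P hP ⟨x, hx, hlt⟩
    obtain ⟨G, hG, hxG⟩ := mem_sup_id.1 hx
    exact ⟨x, mem_sup_id.2 ⟨G, gens_subset A (hP hG), hxG⟩, hlt⟩
  by_cases hc : (cov (gens A)).Nonempty
  · have hcm : cov (gens A) ⊆ meet A := by
      intro g hg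
      obtain ⟨hgJ, hg'⟩ := mem_cov.1 hg
      obtain ⟨p, hp⟩ := gens_nonempty hgJ
      obtain ⟨g', hg'J, hne, hpg'⟩ := hg' p hp
      refine Finset.mem_filter.2 ⟨hgJ, g', hg'J, hne, ?_⟩
      rw [Finset.not_disjoint_iff]
      exact ⟨p, hpg', hp⟩
    refine hup (cov (gens A)) (hcm.trans (Finset.filter_subset _ _))
      (part3_M hA (cov (gens A)) ∅ hcm hc (Finset.empty_subset _)
        (Finset.disjoint_empty_left _) (fun v hv => absurd hv (Finset.notMem_empty v)) ?_ ?_)
    · intro z _ _
      rw [Finset.sdiff_empty, Finset.union_self]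
      exact hdeg z
    · rw [Finset.sdiff_empty, Finset.filter_empty, Finset.card_empty, Nat.mul_zero, Nat.add_zero]
      exact Finset.card_filter_le _ _
  · rw [Finset.not_nonempty_iff_eq_empty] at hc
    obtain ⟨g, hg⟩ := hm
    refine hup {g} ?_ (part3_M hA {g} ∅ (Finset.singleton_subset_iff.2 hg)
      (Finset.singleton_nonempty g) (Finset.empty_subset _)
        (Finset.disjoint_empty_left _) (fun v hv => absurd hv (Finset.notMem_empty v)) ?_ ?_)
    · rw [Finset.singleton_subset_iff]
      exact (Finset.mem_filter.1 hg).1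
    · rintro z _ ⟨w, hw, -⟩
      rw [hc] at hw
      simp at hw
    · rw [hc, Finset.empty_sdiff, Finset.filter_empty, Finset.filter_empty, Finset.card_empty]
      exact Nat.zero_le _

end Pool.Agent.H83.ELZ
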