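import Pool.Agent.H83.ELZ.TMain
import Pool.Agent.H83.ELZ.FinalM

/-!
# Degree three for union-closed families (MP_75f39d)
-/

set_option autoImplicit false

namespace Pool.Agent.H83.ELZ

open Finset Pool.Agent.H97.GEN Pool.Agent.H84.GEN

variable {α : Type*} [DecidableEq α]

/-- **Theorem T for a union-closed family.** -/
theorem partT_local {A : Finset (Finset α)} (hA : UnionClosed A) (P : Finset (Finset α))
    (hP : P ⊆ cov (gens A))
    (hcl : ∀ w ∈ cov (gens A), ∀ i ∈ P, ¬ Disjoint w i → w ∈ P)
    (hdeg : ∀ z : α, (P.filter fun g => z ∈ g).card ≤ 3) (x x' : Finset α → α)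
    (hx : ∀ w ∈ P, x w ∈ w) (hx' : ∀ w ∈ P, x' w ∈ w)
    (hsep : ∀ w ∈ P, ∀ i ∈ P, i ≠ w → x w ∈ i → x' w ∉ i) :
    P.card * (A.card + 1) ≤ ∑ w ∈ P, (fr A (x w) + fr A (x' w)) := by
  classical
  have hu := unions_gens hA
  have hT : HT (gens A) P x x' := by
    refine ⟨hP, ?_, hdeg, hx, hx', low_of_sep hx hx' hsep⟩
    intro w hw i hi z hzw hzi
    exact hcl w hw i hi (Finset.not_disjoint_iff.2 ⟨z, hzw, hzi⟩)
  have h1 := hT.bias
  have h2 : A.card ≤ (unions (gens A)).card := by
    rw [hu]
    exact Finset.card_le_card (Finset.subset_insert _ _)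
  have h3 : ∀ y : α, fr (unions (gens A)) y = fr A y := by
    intro y
    rw [hu]
    exact fr_insert_empty A y
  simp only [h3] at h1
  calc P.card * (A.card + 1) = P.card * A.card + P.card := by ring
    _ ≤ P.card * (unions (gens A)).card + P.card :=
        Nat.add_le_add_right (Nat.mul_le_mul_left _ h2) _
    _ ≤ _ := h1

/-- A covered generator with one point. -/
lemma singleton_strict {A : Finset (Finset α)} (hA : UnionClosed A) {z : α}
    (hz : {z} ∈ cov (gens A)) : A.card < 2 * fr A z := by
  classical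
  have hu := unions_gens hA
  obtain ⟨hJ, hc⟩ := mem_cov.1 hz
  obtain ⟨i, hi, hne, hzi⟩ := hc z (Finset.mem_singleton_self z)
  have h2 : A.card ≤ (unions (gens A)).card := by
    rw [hu]
    exact Finset.card_le_card (Finset.subset_insert _ _)
  have h3 : fr (unions (gens A)) z = fr A z := by
    rw [hu]
    exact fr_insert_empty A z
  rw [← h3]
  by_contra hcon
  push Not at hcon
  have hcon' : 2 * fr (unions (gens A)) z ≤ (unions (gens A)).card := by omega
  have h4 := bad_le hJ (Finset.mem_singleton_self z) hcon'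
  have h5 : i ∈ BadS (unions (gens A)) z {z} :=
    gen_mem_BadS (fun g hg => gens_irr A hg) hi hJ hne hzi
  have h6 : 0 < (BadS (unions (gens A)) z {z}).card := Finset.card_pos.2 ⟨i, h5⟩
  have h7 : Ex (unions (gens A)) z {z} = 0 := by
    unfold Ex
    rw [Finset.card_image_of_injOn, Nat.sub_self]
    intro B hB B' hB' he
    rw [Finset.mem_coe] at hB hB'
    have hzB := (mem_av.1 hB).2
    have hzB' := (mem_av.1 hB').2
    have he' : B ∪ {z} = B' ∪ {z} := he
    ext y
    by_cases hy : y = z
    · subst hy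
      exact ⟨fun h => absurd h hzB, fun h => absurd h hzB'⟩
    · have : y ∈ B ∪ {z} ↔ y ∈ B' ∪ {z} := by rw [he']
      simpa [hy] using this
  omega

/-- **Degree three**: the strict form for families in which every point is in at most three covered
generators, if every covered generator has two points that are together in no other. -/
theorem partT_global {A : Finset (Finset α)} (hA : UnionClosed A)
    (h : (meet A).Nonempty ∨ SepNotPower A)
    (hdeg : ∀ z : α, ((cov (gens A)).filter fun g => z ∈ g).card ≤ 3)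
    (hsep : ∀ w ∈ cov (gens A), 2 ≤ w.card → ∃ x ∈ w, ∃ x' ∈ w, ∀ i ∈ cov (gens A), i ≠ w →
      ¬ (x ∈ i ∧ x' ∈ i)) :
    ∃ x ∈ A.sup id, A.card < 2 * fr A x := by
  classical
  have hup : ∀ P : Finset (Finset α), P ⊆ gens A →
      (∃ x ∈ P.sup id, A.card < 2 * fr A x) → ∃ x ∈ A.sup id, A.card < 2 * fr A x := by
    rintro P hP ⟨x, hx, hlt⟩
    obtain ⟨G, hG, hxG⟩ := mem_sup_id.1 hx
    exact ⟨x, mem_sup_id.2 ⟨G, gens_subset A (hP hG), hxG⟩, hlt⟩
  by_cases hc : (cov (gens A)).Nonempty
  · by_cases hs : ∃ z, {z} ∈ cov (gens A)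
    · obtain ⟨z, hz⟩ := hs
      exact ⟨z, mem_sup_id.2 ⟨{z}, gens_subset A (mem_cov.1 hz).1, Finset.mem_singleton_self z⟩,
        singleton_strict hA hz⟩
    · push Not at hs
      have hbig : ∀ w ∈ cov (gens A), 2 ≤ w.card := by
        intro w hw
        have hne := gens_nonempty (mem_cov.1 hw).1
        have h0 := hne.card_pos
        by_contra hlt
        have h1 : w.card = 1 := by omega
        obtain ⟨z, rfl⟩ := Finset.card_eq_one.1 h1
        exact hs z hw
      have hch : ∀ w : Finset α, ∃ p : α × α, w ∈ cov (gens A) → p.1 ∈ w ∧ p.2 ∈ w ∧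
          ∀ i ∈ cov (gens A), i ≠ w → ¬ (p.1 ∈ i ∧ p.2 ∈ i) := by
        intro w
        by_cases hw : w ∈ cov (gens A)
        · obtain ⟨y, hy, y', hy', hyy⟩ := hsep w hw (hbig w hw)
          exact ⟨(y, y'), fun _ => ⟨hy, hy', hyy⟩⟩
        · obtain ⟨w0, hw0⟩ := hc
          obtain ⟨y, -⟩ := gens_nonempty (mem_cov.1 hw0).1
          exact ⟨(y, y), fun h' => absurd h' hw⟩
      choose p hp using hch
      have hT : HT (gens A) (cov (gens A)) (fun w => (p w).1) (fun w => (p w).2) := by
        refine ⟨Finset.Subset.refl _, fun w hw _ _ _ _ _ => hw, hdeg, fun w hw => (hp w hw).1,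
          fun w hw => (hp w hw).2.1, low_of_sep (fun w hw => (hp w hw).1)
          (fun w hw => (hp w hw).2.1) ?_⟩
        intro w hw i hi hne h1 h2
        exact (hp w hw).2.2 i hi hne ⟨h1, h2⟩
      obtain ⟨x, hx, hlt⟩ := hT.exists_gt hc
      refine hup (cov (gens A)) (Finset.filter_subset _ _) ⟨x, hx, ?_⟩
      have hu := unions_gens hA
      have h2 : A.card ≤ (unions (gens A)).card := by
        rw [hu]
        exact Finset.card_le_card (Finset.subset_insert _ _)
      have h3 : fr (unions (gens A)) x = fr A x := by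
        rw [hu]
        exact fr_insert_empty A x
      omega
  · apply part4_M hA h
    intro z
    rw [Finset.not_nonempty_iff_eq_empty] at hc
    rw [hc]
    simp

end Pool.Agent.H83.ELZ
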