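import Pool.Agent.H83.ELZ.Basic

/-!
# The half-sum lemma (MP_75f39d)
-/

set_option autoImplicit false

namespace Pool.Agent.H83.ELZ

open Finset Pool.Agent.H97.GEN

variable {α : Type*} [DecidableEq α]

/-- The members of `N` whose point is not in `B`. -/
def miss (N : Finset (Finset α)) (y : Finset α → α) (B : Finset α) : Finset (Finset α) :=
  N.filter fun i => y i ∉ B

lemma mem_miss {N : Finset (Finset α)} {y : Finset α → α} {B i : Finset α} :
    i ∈ miss N y B ↔ i ∈ N ∧ y i ∉ B := Finset.mem_filter

/-- The number of members of `N` that are not bad at `B`. -/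
def kk (F N : Finset (Finset α)) (y : Finset α → α) (B : Finset α) : ℕ :=
  (N.filter fun i => B ∉ BadS F (y i) i).card

/-- The sets below `A`, with directions of `N` deleted. -/
def sF (F N : Finset (Finset α)) (y : Finset α → α) (A : Finset α) : Finset (Finset α) :=
  F.filter fun B => B ∪ (miss N y B).sup id = A ∧ ∀ i ∈ N, y i ∈ B → i ⊆ B

lemma mem_sF {F N : Finset (Finset α)} {y : Finset α → α} {A B : Finset α} :
    B ∈ sF F N y A ↔ B ∈ F ∧ B ∪ (miss N y B).sup id = A ∧ ∀ i ∈ N, y i ∈ B → i ⊆ B :=
  Finset.mem_filter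

lemma kk_insert {F N : Finset (Finset α)} {y : Finset α → α} {i : Finset α} (hi : i ∉ N)
    (B : Finset α) :
    kk F (insert i N) y B = kk F N y B + if B ∉ BadS F (y i) i then 1 else 0 := by
  unfold kk
  rw [Finset.filter_insert]
  by_cases h : B ∉ BadS F (y i) i
  · rw [if_pos h, if_pos h, Finset.card_insert_of_notMem]
    intro h'
    exact hi (Finset.mem_filter.1 h').1
  · rw [if_neg h, if_neg h, Nat.add_zero]

lemma sup_mem_F {F N : Finset (Finset α)} (hF : ∀ i ∈ N, ∀ A ∈ F, A ∪ i ∈ F) :
    ∀ X : Finset (Finset α), X ⊆ N → ∀ A ∈ F, A ∪ X.sup id ∈ F := by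
  classical
  intro X
  induction X using Finset.induction_on with
  | empty =>
    intro _ A hA
    simpa using hA
  | insert i X _ ih =>
    intro hX A hA
    rw [Finset.sup_insert, id_eq, Finset.sup_eq_union, ← Finset.union_assoc]
    exact ih ((Finset.subset_insert _ _).trans hX) _ (hF i (hX (Finset.mem_insert_self _ _)) A hA)

/-- The half-sum lemma. -/
theorem half_sum (F : Finset (Finset α)) (y : Finset α → α) :
    ∀ N : Finset (Finset α), (∀ i ∈ N, ∀ A ∈ F, A ∪ i ∈ F) → (∀ i ∈ N, y i ∈ i) →
      (∀ i ∈ N, ∀ j ∈ N, i ≠ j → Disjoint i j) → ∀ A ∈ F, (∀ i ∈ N, i ⊆ A) →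
      (1 : ℝ) ≤ ∑ B ∈ sF F N y A, (1 / 2 : ℝ) ^ kk F N y B := by
  classical
  intro N
  induction N using Finset.induction_on with
  | empty =>
    intro _ _ _ A hA _
    have hAs : A ∈ sF F ∅ y A := by
      refine mem_sF.2 ⟨hA, ?_, fun i hi => absurd hi (Finset.notMem_empty i)⟩
      simp [miss]
    have h1 : (1 / 2 : ℝ) ^ kk F ∅ y A = 1 := by simp [kk]
    rw [← h1]
    exact Finset.single_le_sum (f := fun B => (1 / 2 : ℝ) ^ kk F ∅ y B)
      (fun _ _ => by positivity) hAs
  | insert i N hiN ih =>
    intro hF hy hd A hA hfull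
    have hF' : ∀ i' ∈ N, ∀ A ∈ F, A ∪ i' ∈ F := fun i' hi' =>
      hF i' (Finset.mem_insert_of_mem hi')
    have hd' : ∀ i' ∈ N, Disjoint i i' := fun i' hi' =>
      hd i (Finset.mem_insert_self _ _) i' (Finset.mem_insert_of_mem hi') (by
        rintro rfl
        exact hiN hi')
    have ih' := ih hF' (fun i' hi' => hy i' (Finset.mem_insert_of_mem hi'))
      (fun i1 h1 i2 h2 => hd i1 (Finset.mem_insert_of_mem h1) i2 (Finset.mem_insert_of_mem h2))
    have hyi := hy i (Finset.mem_insert_self _ _)
    have hnot : ∀ B : Finset α, ∀ z ∈ i, z ∉ (miss N y B).sup id := by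
      intro B z hz h
      obtain ⟨i', hi', hz'⟩ := mem_sup_id.1 h
      exact Finset.disjoint_left.1 (hd' i' (mem_miss.1 hi').1) hz hz'
    have hiA : i ⊆ A := hfull i (Finset.mem_insert_self _ _)
    -- the sets from `N` at `A`
    have hsub1 : ∀ B ∈ sF F N y A, i ⊆ B := by
      intro B hB z hz
      obtain ⟨-, hBA, -⟩ := mem_sF.1 hB
      have : z ∈ B ∪ (miss N y B).sup id := by
        rw [hBA]
        exact hiA hz
      rcases Finset.mem_union.1 this with h | h
      · exact h
      · exact absurd h (hnot B z hz)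
    have hmem1 : ∀ B ∈ sF F N y A, B ∈ sF F (insert i N) y A := by
      intro B hB
      obtain ⟨hBF, hBA, hBfull⟩ := mem_sF.1 hB
      refine mem_sF.2 ⟨hBF, ?_, ?_⟩
      · have : miss (insert i N) y B = miss N y B := by
          unfold miss
          rw [Finset.filter_insert, if_neg]
          exact fun h => h (hsub1 B hB hyi)
        rw [this, hBA]
      · intro i' hi' hyB
        rcases Finset.mem_insert.1 hi' with rfl | hi'
        · exact hsub1 B hB
        · exact hBfull i' hi' hyB
    by_cases hbad : A ∈ BadS F (y i) i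
    · -- `i` is bad at `A`
      have hbad' : ∀ B ∈ sF F N y A, B ∈ BadS F (y i) i := by
        intro B hB
        obtain ⟨hBF, hBA, hBfull⟩ := mem_sF.1 hB
        refine mem_BadS.2 ⟨hBF, hsub1 B hB hyi, ?_⟩
        intro B' hB' hyB' he
        have hmF := sup_mem_F hF' (miss N y B) (Finset.filter_subset _ _) B' hB'
        refine (mem_BadS.1 hbad).2.2 _ hmF ?_ ?_
        · rw [Finset.mem_union]
          exact fun h => h.elim hyB' (hnot B _ hyi)
        · rw [← hBA, ← he, Finset.union_right_comm]
      refine (ih' A hA (fun i' hi' => hfull i' (Finset.mem_insert_of_mem hi'))).trans ?_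
      calc ∑ B ∈ sF F N y A, (1 / 2 : ℝ) ^ kk F N y B
          = ∑ B ∈ sF F N y A, (1 / 2 : ℝ) ^ kk F (insert i N) y B := by
            apply Finset.sum_congr rfl
            intro B hB
            rw [kk_insert hiN, if_neg (fun h => h (hbad' B hB)), Nat.add_zero]
        _ ≤ _ := Finset.sum_le_sum_of_subset_of_nonneg hmem1 (fun _ _ _ => by positivity)
    · -- `i` is good at `A`
      obtain ⟨A', hA', hyA', he⟩ : ∃ A' ∈ F, y i ∉ A' ∧ A' ∪ i = A := by
        by_contra hcon
        apply hbad
        refine mem_BadS.2 ⟨hA, hiA hyi, fun A' hA' hyA' he => hcon ⟨A', hA', hyA', he⟩⟩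
      have hfull' : ∀ i' ∈ N, i' ⊆ A' := by
        intro i' hi' z hz
        have : z ∈ A' ∪ i := by
          rw [he]
          exact hfull i' (Finset.mem_insert_of_mem hi') hz
        rcases Finset.mem_union.1 this with h | h
        · exact h
        · exact absurd hz (Finset.disjoint_left.1 (hd' i' hi') h)
      have hnotB : ∀ B ∈ sF F N y A', y i ∉ B := by
        intro B hB h
        apply hyA'
        rw [← (mem_sF.1 hB).2.1]
        exact Finset.mem_union_left _ h
      have hmem2 : ∀ B ∈ sF F N y A', B ∈ sF F (insert i N) y A := by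
        intro B hB
        obtain ⟨hBF, hBA, hBfull⟩ := mem_sF.1 hB
        refine mem_sF.2 ⟨hBF, ?_, ?_⟩
        · have : miss (insert i N) y B = insert i (miss N y B) := by
            unfold miss
            rw [Finset.filter_insert, if_pos (hnotB B hB)]
          rw [this, Finset.sup_insert, id_eq, Finset.sup_eq_union, ← he, ← hBA,
            Finset.union_comm i, Finset.union_assoc]
        · intro i' hi' hyB
          rcases Finset.mem_insert.1 hi' with rfl | hi'
          · exact absurd hyB (hnotB B hB)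
          · exact hBfull i' hi' hyB
      have hdisj : Disjoint (sF F N y A) (sF F N y A') := by
        rw [Finset.disjoint_left]
        intro B hB hB'
        exact hnotB B hB' (hsub1 B hB hyi)
      have h1 := ih' A hA (fun i' hi' => hfull i' (Finset.mem_insert_of_mem hi'))
      have h2 := ih' A' hA' hfull'
      have h3 : ∀ B : Finset α, (1 / 2 : ℝ) * (1 / 2 : ℝ) ^ kk F N y B
          ≤ (1 / 2 : ℝ) ^ kk F (insert i N) y B := by
        intro B
        rw [kk_insert hiN]
        by_cases hb : B ∉ BadS F (y i) i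
        · rw [if_pos hb, pow_succ, mul_comm]
        · rw [if_neg hb, Nat.add_zero]
          have : (0 : ℝ) < (1 / 2 : ℝ) ^ kk F N y B := by positivity
          linarith
      calc (1 : ℝ) ≤ (1 / 2) * ∑ B ∈ sF F N y A, (1 / 2 : ℝ) ^ kk F N y B
            + (1 / 2) * ∑ B ∈ sF F N y A', (1 / 2 : ℝ) ^ kk F N y B := by linarith
        _ = ∑ B ∈ sF F N y A ∪ sF F N y A', (1 / 2 : ℝ) * (1 / 2 : ℝ) ^ kk F N y B := by
            rw [Finset.sum_union hdisj, Finset.mul_sum, Finset.mul_sum]
        _ ≤ ∑ B ∈ sF F N y A ∪ sF F N y A', (1 / 2 : ℝ) ^ kk F (insert i N) y B :=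
            Finset.sum_le_sum fun B _ => h3 B
        _ ≤ _ := Finset.sum_le_sum_of_subset_of_nonneg (by
              intro B hB
              rcases Finset.mem_union.1 hB with h | h
              · exact hmem1 B h
              · exact hmem2 B h) (fun _ _ _ => by positivity)

end Pool.Agent.H83.ELZ
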