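import Pool.Agent.H83.ELZ.Abel
import Pool.Agent.H83.ELZ.Charge

/-!
# The local degree-two theorem (MP_75f39d)
-/

set_option autoImplicit false

namespace Pool.Agent.H83.ELZ

open Finset Pool.Agent.H97.GEN

variable {α : Type*} [DecidableEq α]

/-- Strictness for one unit. -/
theorem strict_unit {J P : Finset (Finset α)} {xs : Finset α → α} (hPJ : P ⊆ J) (h2 : Deg2 J P)
    (hxs : ∀ j ∈ P, xs j ∈ j) {w i : Finset α} {y : α} (hw : w ∈ cov J) (hi : i ∈ P)
    (hiw : i ≠ w) (hyw : y ∈ w) (hyi : y ∈ i) (hxi : xs i = y)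
    (hE : 1 ≤ Ex (unions J) y i) :
    (DD J xs P w).card < (BadS (unions J) y i).card := by
  classical
  have hwJ : w ∈ J := (mem_cov.1 hw).1
  have hiJ : i ∈ J := hPJ hi
  apply Finset.card_lt_card
  rw [Finset.ssubset_iff_of_subset (DD_sub_BadS hiw hiJ hyw)]
  by_cases hU : J.sup id ∈ BadS (unions J) y i
  · refine ⟨_, hU, fun h => ?_⟩
    obtain ⟨-, -, j, hj, -, hxj, -⟩ := mem_DD.1 h
    exact hxj (mem_sup_id.2 ⟨j, hPJ hj, hxs j hj⟩)
  · have hUF : J.sup id ∈ unions J := sup_mem_unions (Finset.Subset.refl _)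
    have hyU : y ∈ J.sup id := mem_sup_id.2 ⟨w, hwJ, hyw⟩
    obtain ⟨A, hA, hyA, he⟩ : ∃ A ∈ unions J, y ∉ A ∧ A ∪ i = J.sup id := by
      by_contra hcon
      apply hU
      refine mem_BadS.2 ⟨hUF, hyU, fun A hA hyA he => hcon ⟨A, hA, hyA, he⟩⟩
    have hgens : ∀ g ∈ J, y ∈ g → g = i ∨ g = w := by
      intro g hg hyg
      by_cases hgi : g = i
      · exact Or.inl hgi
      · have hsub : g \ A ⊆ i := by
          intro z hz
          obtain ⟨hz1, hz2⟩ := Finset.mem_sdiff.1 hz
          have : z ∈ A ∪ i := by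
            rw [he]
            exact mem_sup_id.2 ⟨g, hg, hz1⟩
          rcases Finset.mem_union.1 this with h | h
          · exact absurd h hz2
          · exact h
        have hgc : g ∈ cov J := cost_cov hA hiJ hg hgi
          ⟨y, Finset.mem_sdiff.2 ⟨hyg, hyA⟩⟩ hsub
        exact h2 y i hi w hw g (Finset.mem_union_right _ hgc) hiw hyi hyw hyg
    have hnsub : ¬ i ⊆ w := by
      intro hiw'
      have h1 := ex_le_costs J y i
      have h3 : (costs J y i).Nonempty := Finset.card_pos.1 (by omega)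
      obtain ⟨A', hA'⟩ := h3
      obtain ⟨hA'F, -, w', hw', hyw', ⟨z, hz⟩, hsub⟩ := mem_costs.1 hA'
      have hne : w' ≠ i := by
        rintro rfl
        exact hyw' hyi
      have hc : w' ∈ cov J := cost_cov hA'F hiJ hw' hne ⟨z, hz⟩ hsub
      rcases h2 z i hi w hw w' (Finset.mem_union_right _ hc) hiw (hsub hz) (hiw' (hsub hz))
        (Finset.mem_sdiff.1 hz).1 with h | h
      · exact hne h
      · rw [h] at hyw'
        exact hyw' hyw
    obtain ⟨v, hvi, hvw⟩ := Finset.not_subset.1 hnsub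
    set B := (J.filter fun g => v ∉ g).sup id with hB
    have hBF : B ∈ unions J := sup_mem_unions (Finset.filter_subset _ _)
    have hvB : v ∉ B := by
      intro h
      obtain ⟨g, hg, hvg⟩ := mem_sup_id.1 h
      exact (Finset.mem_filter.1 hg).2 hvg
    have hwB : w ⊆ B := Finset.le_sup (f := id) (Finset.mem_filter.2 ⟨hwJ, hvw⟩)
    refine ⟨B, mem_BadS.2 ⟨hBF, hwB hyw, fun A' _ _ he' => hvB ?_⟩, fun h => ?_⟩
    · rw [← he']
      exact Finset.mem_union_right _ hvi
    · obtain ⟨-, -, j, hj, hjw, hxj, -, hsub⟩ := mem_DD.1 h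
      have hyp : y ∈ priv J B w := by
        refine mem_priv.2 ⟨hyw, fun g hg hgB hyg => ?_⟩
        rcases hgens g hg hyg with h' | h'
        · rw [h'] at hgB
          exact absurd (hgB hvi) hvB
        · exact h'
      rcases hgens j (hPJ hj) (hsub hyp) with h' | h'
      · apply hxj
        rw [h', hxi]
        exact hwB hyw
      · exact hjw h'

/-- **Local theorem.**  `J` is a finite irreducible generating set, `P` a nonempty subset such that every
member of `P` meets another member of `J`, a point in a member of `P` and in another covered generator is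
in no third member of `P` or covered generator, and at most `|P|` covered generators meet another
member of `P`.  Then some point of `P.sup id` is in more than half of the unions of members of `J`. -/
theorem local_two {J P : Finset (Finset α)} (hirr : ∀ g ∈ J, g ∉ unions (J.erase g)) (hPJ : P ⊆ J)
    (hP : P.Nonempty) (hmeet : ∀ j ∈ P, ∃ i ∈ J, i ≠ j ∧ (i ∩ j).Nonempty) (h2 : Deg2 J P)
    (hcard : (units J P).card ≤ P.card) :
    ∃ x ∈ P.sup id, (unions J).card < 2 * fr (unions J) x := by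
  classical
  by_contra hcon
  push Not at hcon
  have hfr : ∀ j ∈ P, ∀ x ∈ j, 2 * fr (unions J) x ≤ (unions J).card := by
    intro j hj x hx
    exact hcon x (mem_sup_id.2 ⟨j, hj, hx⟩)
  set F := unions J with hF
  set Em : Finset α → ℕ := fun j => j.sup fun x => Ex F x j with hEm
  have hle : ∀ j, ∀ x ∈ j, Ex F x j ≤ Em j := fun j x hx =>
    Finset.le_sup (f := fun x => Ex F x j) hx
  have hEpos : ∀ j ∈ P, 1 ≤ Em j := by
    intro j hj
    obtain ⟨i, hi, hij, x, hx⟩ := hmeet j hj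
    obtain ⟨hxi, hxj⟩ := Finset.mem_inter.1 hx
    have h1 := gen_mem_BadS hirr hi (hPJ hj) hij hxi
    have h3 : 1 ≤ (BadS F x j).card := Finset.card_pos.2 ⟨i, h1⟩
    exact h3.trans ((bad_le (hPJ hj) hxj (hfr j hj x hxj)).trans (hle j x hxj))
  -- a choice of points with maximal loss, with a prescribed value at one place
  have hchoice : ∀ (i : Finset α) (y : α), i ∈ P → y ∈ i → Ex F y i = Em i →
      ∃ xs : Finset α → α, (∀ j ∈ P, xs j ∈ j) ∧ (∀ j ∈ P, Ex F (xs j) j = Em j) ∧ xs i = y := by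
    intro i y hi hy hey
    have h1 : ∀ j : Finset α, ∃ x : α, j ∈ P → x ∈ j ∧ Ex F x j = Em j := by
      intro j
      by_cases hj : j ∈ P
      · obtain ⟨i', hi', -, x, hx⟩ := hmeet j hj
        have hne : j.Nonempty := ⟨x, (Finset.mem_inter.1 hx).2⟩
        obtain ⟨z, hz, hz'⟩ := Finset.exists_mem_eq_sup j hne (fun x => Ex F x j)
        exact ⟨z, fun _ => ⟨hz, hz'.symm⟩⟩
      · exact ⟨y, fun h => absurd h hj⟩
    choose xs hxs using h1
    refine ⟨Function.update xs i y, ?_, ?_, Function.update_self _ _ _⟩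
    · intro j hj
      by_cases hji : j = i
      · subst hji
        rw [Function.update_self]
        exact hy
      · rw [Function.update_of_ne hji]
        exact (hxs j hj).1
    · intro j hj
      by_cases hji : j = i
      · subst hji
        rw [Function.update_self]
        exact hey
      · rw [Function.update_of_ne hji]
        exact (hxs j hj).2
  -- the main inequality for a choice of points
  have hsum : ∀ xs : Finset α → α, (∀ j ∈ P, xs j ∈ j) → (∀ j ∈ P, Ex F (xs j) j = Em j) →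
      ∀ M ⊆ P, ∑ j ∈ M, Em j ≤ ∑ w ∈ units J P, (DD J xs M w).card := by
    intro xs hxs hmax M hM
    refine le_trans ?_ (charge hPJ h2 hxs hM)
    apply Finset.sum_le_sum
    intro j hj
    rw [← hmax j (hM hj)]
    exact ex_le_costs J _ j
  -- the points to start with
  obtain ⟨j0, hj0⟩ := hP
  obtain ⟨z0, hz0, hz0'⟩ : ∃ z ∈ j0, Ex F z j0 = Em j0 := by
    obtain ⟨i', hi', -, x, hx⟩ := hmeet j0 hj0
    have hne : j0.Nonempty := ⟨x, (Finset.mem_inter.1 hx).2⟩
    obtain ⟨z, hz, hz'⟩ := Finset.exists_mem_eq_sup j0 hne (fun x => Ex F x j0)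
    exact ⟨z, hz, hz'.symm⟩
  obtain ⟨xs0, hx1, hx2, -⟩ := hchoice j0 z0 hj0 hz0 hz0'
  have hune : (units J P).Nonempty := by
    rw [Finset.nonempty_iff_ne_empty]
    intro hu
    have h1 := hsum xs0 hx1 hx2 P (Finset.Subset.refl _)
    rw [hu, Finset.sum_empty] at h1
    have h3 : Em j0 ≤ ∑ j ∈ P, Em j :=
      Finset.single_le_sum (f := Em) (fun _ _ => Nat.zero_le _) hj0
    have := hEpos j0 hj0
    omega
  obtain ⟨w0, hw0⟩ := hune
  obtain ⟨hw0c, j1, hj1, hj1w, hj1m⟩ := mem_units.1 hw0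
  set T := P.filter fun i => i ≠ w0 ∧ (i ∩ w0).Nonempty with hT
  have hTne : T.Nonempty := ⟨j1, Finset.mem_filter.2 ⟨hj1, hj1w, hj1m⟩⟩
  obtain ⟨i, hiT, himin⟩ := Finset.exists_min_image T Em hTne
  obtain ⟨hi, hiw, y, hy⟩ := Finset.mem_filter.1 hiT
  obtain ⟨hyi, hyw⟩ := Finset.mem_inter.1 hy
  have hDle : ∀ (xs : Finset α → α) (M : Finset (Finset α)), M ⊆ P → ∀ w ∈ units J P, ∀ i ∈ M,
      (i ≠ w ∧ (i ∩ w).Nonempty) → (DD J xs M w).card ≤ Em i := by
    intro xs M hM w _ i hi ⟨hiw, y, hy⟩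
    obtain ⟨hyi, hyw⟩ := Finset.mem_inter.1 hy
    exact (Finset.card_le_card (DD_sub_BadS hiw (hPJ (hM hi)) hyw)).trans
      ((bad_le (hPJ (hM hi)) hyi (hfr i (hM hi) y hyi)).trans (hle i y hyi))
  have hD0 : ∀ (xs : Finset α → α) (M : Finset (Finset α)), M ⊆ P → ∀ w ∈ units J P,
      (∀ i ∈ M, ¬ (i ≠ w ∧ (i ∩ w).Nonempty)) → (DD J xs M w).card = 0 := by
    intro xs M _ w _ h
    rw [Finset.card_eq_zero]
    apply DD_eq_empty
    rintro j hj ⟨hjw, y, hyw, hyj⟩
    exact h j hj ⟨hjw, y, Finset.mem_inter.2 ⟨hyj, hyw⟩⟩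
  have : Inhabited (Finset α) := ⟨∅⟩
  have hfin : ∀ xs : Finset α → α, (∀ j ∈ P, xs j ∈ j) → (∀ j ∈ P, Ex F (xs j) j = Em j) →
      (DD J xs P w0).card < Em i → False := by
    intro xs hxs hmax hlt
    refine abel_units P (units J P) Em (fun w i => i ≠ w ∧ (i ∩ w).Nonempty)
      (fun M w => (DD J xs M w).card) hEpos (hsum xs hxs hmax) (hDle xs) (hD0 xs) hcard w0 hw0 i hi
      ⟨hiw, y, hy⟩ ?_
    intro i' hi' hN
    exact lt_of_lt_of_le hlt (himin i' (Finset.mem_filter.2 ⟨hi', hN⟩))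
  by_cases hey : Ex F y i = Em i
  · obtain ⟨xs, hx1', hx2', hxi⟩ := hchoice i y hi hyi hey
    apply hfin xs hx1' hx2'
    have h1 := strict_unit hPJ h2 hx1' hw0c hi hiw hyw hyi hxi
      (by rw [← hF, hey]; exact hEpos i hi)
    exact lt_of_lt_of_le h1 ((bad_le (hPJ hi) hyi (hfr i hi y hyi)).trans (hle i y hyi))
  · apply hfin xs0 hx1 hx2
    have h1 := Finset.card_le_card (DD_sub_BadS (xs := xs0) (M := P) hiw (hPJ hi) hyw)
    have h3 := bad_le (hPJ hi) hyi (hfr i hi y hyi)
    have h4 := hle i y hyi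
    rw [← hF] at h1 h3
    omega

end Pool.Agent.H83.ELZ
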