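import Pool.Agent.H83.ELZ.Main
import Pool.Agent.H83.ELZ.ChargeM

/-!
# The mixed local theorem (MP_75f39d)
-/

set_option autoImplicit false

namespace Pool.Agent.H83.ELZ

open Finset Pool.Agent.H97.GEN

variable {α : Type*} [DecidableEq α]

lemma half_geom (m : ℕ) : ∑ k ∈ range m, (1 / 2 : ℝ) ^ k < 2 := by
  have h : ∑ k ∈ range m, (1 / 2 : ℝ) ^ k = 2 - 2 * (1 / 2 : ℝ) ^ m := by
    induction m with
    | zero => simp
    | succ m ih =>
      rw [Finset.sum_range_succ, ih, pow_succ]
      ring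
  rw [h]
  have : (0 : ℝ) < (1 / 2 : ℝ) ^ m := by positivity
  linarith

/-- **Mixed local theorem.**  `J` is a finite irreducible generating set, `P ⊆ J` is nonempty, every member
of `P` meets another member of `J`, and `V` is a set of covered generators outside `P`.  The members of
`P` that meet a given member of `V` are pairwise disjoint; a point in a member of `P` and in another
covered generator outside `V` is in no third member of `P ∪ (cov J \ V)`; the number of covered generators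
outside `V` that meet another member of `P`, plus twice the number of the members of `V` that meet a member
of `P`, is at most `|P|`.  Then some point of `P.sup id` is in more than half of the unions. -/
theorem local_mixed {J P V : Finset (Finset α)} (hirr : ∀ g ∈ J, g ∉ unions (J.erase g))
    (hPJ : P ⊆ J) (hP : P.Nonempty) (hVC : V ⊆ cov J) (hVP : ∀ v ∈ V, v ∉ P)
    (hmeet : ∀ j ∈ P, ∃ i ∈ J, i ≠ j ∧ (i ∩ j).Nonempty)
    (hdis : ∀ v ∈ V, ∀ i ∈ P, ∀ j ∈ P, i ≠ j → (i ∩ v).Nonempty → (j ∩ v).Nonempty →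
      Disjoint i j)
    (hdeg : ∀ z : α, ∀ j ∈ P, ∀ w ∈ cov J, w ∉ V → ∀ g, (g ∈ P ∨ (g ∈ cov J ∧ g ∉ V)) →
      j ≠ w → z ∈ j → z ∈ w → z ∈ g → g = j ∨ g = w)
    (hcard : ((units J P).filter fun w => w ∉ V).card
      + 2 * ((units J P).filter fun w => w ∈ V).card ≤ P.card) :
    ∃ x ∈ P.sup id, (unions J).card < 2 * fr (unions J) x := by
  classical
  set UO := (units J P).filter fun w => w ∉ V with hUO
  set UV := (units J P).filter fun w => w ∈ V with hUV
  by_cases hUVe : UV = ∅
  · have hnV : ∀ w ∈ units J P, w ∉ V := by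
      intro w hw hwV
      have : w ∈ UV := Finset.mem_filter.2 ⟨hw, hwV⟩
      rw [hUVe] at this
      exact absurd this (Finset.notMem_empty w)
    apply local_two hirr hPJ hP hmeet
    · intro z j hj w hw g hg hjw hzj hzw hzg
      have hu : ∀ w' ∈ cov J, w' ≠ j → z ∈ w' → w' ∉ V := by
        intro w' hw' hne hz
        exact hnV w' (mem_units.2 ⟨hw', j, hj, hne.symm, ⟨z, Finset.mem_inter.2 ⟨hzj, hz⟩⟩⟩)
      by_cases hgj : g = j
      · exact Or.inl hgj
      · refine hdeg z j hj w hw (hu w hw hjw.symm hzw) g ?_ hjw hzj hzw hzg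
        rcases Finset.mem_union.1 hg with h | h
        · exact Or.inl h
        · exact Or.inr ⟨h, hu g h hgj hzg⟩
    · have : units J P = UO := by
        rw [hUO]
        symm
        apply Finset.filter_true_of_mem
        exact hnV
      rw [this]
      omega
  by_contra hcon
  push Not at hcon
  have hfr : ∀ j ∈ P, ∀ x ∈ j, 2 * fr (unions J) x ≤ (unions J).card := by
    intro j hj x hx
    exact hcon x (mem_sup_id.2 ⟨j, hj, hx⟩)
  set F := unions J with hF
  set Em : Finset α → ℕ := fun j => j.sup fun x => Ex F x j with hEm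
  have hle : ∀ j, ∀ x ∈ j, Ex F x j ≤ Em j := fun j x hx =>
    Finset.le_sup (f := fun x => Ex F x j) hx
  have hEpos : ∀ j ∈ P, 1 ≤ Em j := by
    intro j hj
    obtain ⟨i, hi, hij, x, hx⟩ := hmeet j hj
    obtain ⟨hxi, hxj⟩ := Finset.mem_inter.1 hx
    have h1 := gen_mem_BadS hirr hi (hPJ hj) hij hxi
    have h3 : 1 ≤ (BadS F x j).card := Finset.card_pos.2 ⟨i, h1⟩
    exact h3.trans ((bad_le (hPJ hj) hxj (hfr j hj x hxj)).trans (hle j x hxj))
  -- the points
  obtain ⟨j0, hj0⟩ := hP
  obtain ⟨z0, hz0⟩ : ∃ z : α, z ∈ j0 := by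
    obtain ⟨i', hi', -, x, hx⟩ := hmeet j0 hj0
    exact ⟨x, (Finset.mem_inter.1 hx).2⟩
  have h1 : ∀ j : Finset α, ∃ x : α, j ∈ P → x ∈ j ∧ Ex F x j = Em j := by
    intro j
    by_cases hj : j ∈ P
    · obtain ⟨i', hi', -, x, hx⟩ := hmeet j hj
      have hne : j.Nonempty := ⟨x, (Finset.mem_inter.1 hx).2⟩
      obtain ⟨z, hz, hz'⟩ := Finset.exists_mem_eq_sup j hne (fun x => Ex F x j)
      exact ⟨z, fun _ => ⟨hz, hz'.symm⟩⟩
    · exact ⟨z0, fun h => absurd h hj⟩
  choose xs hxs using h1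
  have h2 : ∀ v i : Finset α, ∃ x : α, (i ∩ v).Nonempty → x ∈ v ∧ x ∈ i := by
    intro v i
    by_cases h : (i ∩ v).Nonempty
    · obtain ⟨x, hx⟩ := h
      exact ⟨x, fun _ => ⟨(Finset.mem_inter.1 hx).2, (Finset.mem_inter.1 hx).1⟩⟩
    · exact ⟨z0, fun h' => absurd h' h⟩
  choose y hy using h2
  have : Inhabited (Finset α) := ⟨∅⟩
  obtain ⟨f, hf1, hf2, hf3⟩ := exists_enum P Em
  obtain ⟨n, hn⟩ : ∃ n, n = P.card := ⟨_, rfl⟩
  rw [← hn] at hf1 hf2 hf3 hcard
  have hyp : Hyp J P V xs y f n :=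
    { PJ := hPJ
      VC := hVC
      VP := hVP
      dis := hdis
      deg := hdeg
      xsj := fun j hj => (hxs j hj).1
      yv := fun v _ i _ h => hy v i h
      fP := hf1
      finj := hf2 }
  set N : Finset α → Finset α → Prop := fun w i => i ≠ w ∧ (i ∩ w).Nonempty with hN
  set S : ℕ → Finset (Finset α) := fun t =>
    UO.filter fun w => N w (f t) ∧ ∀ s < t, ¬ N w (f s) with hS
  set κ : ℕ → ℝ := fun t => ((S t).card : ℝ) + ∑ v ∈ UV,
    (if pv f v t then (1 / 2 : ℝ) ^ Nat.count (pv f v) t else 0) with hκ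
  have hMsub : ∀ r ≤ n, (range r).image f ⊆ P := by
    intro r hr j hj
    obtain ⟨t, ht, rfl⟩ := Finset.mem_image.1 hj
    exact hf1 t (by rw [Finset.mem_range] at ht; omega)
  -- ordinary units
  have hunit : ∀ r ≤ n, ∀ w ∈ UO, (TT J V xs y f r w).card
      ≤ ∑ t ∈ range r, (if w ∈ S t then Em (f t) else 0) := by
    intro r hr w hw
    obtain ⟨hwu, hwV⟩ := Finset.mem_filter.1 hw
    have hTT : TT J V xs y f r w = DD J xs ((range r).image f) w := by
      unfold TT
      rw [if_neg hwV]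
    rw [hTT]
    by_cases hex : ∃ t, t < r ∧ N w (f t)
    · have h1 := Nat.find_spec hex
      set t := Nat.find hex with ht
      have h2 : ∀ s < t, ¬ N w (f s) := by
        intro s hs hNs
        exact Nat.find_min hex hs ⟨by omega, hNs⟩
      have h3 : w ∈ S t := Finset.mem_filter.2 ⟨hw, h1.2, h2⟩
      obtain ⟨hne, x, hx⟩ := h1.2
      obtain ⟨hxi, hxw⟩ := Finset.mem_inter.1 hx
      have hfP := hf1 t (by omega)
      calc (DD J xs ((range r).image f) w).card ≤ (BadS F x (f t)).card :=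
            Finset.card_le_card (DD_sub_BadS hne (hPJ hfP) hxw)
        _ ≤ Ex F x (f t) := bad_le (hPJ hfP) hxi (hfr (f t) hfP x hxi)
        _ ≤ Em (f t) := hle (f t) x hxi
        _ = (if w ∈ S t then Em (f t) else 0) := by rw [if_pos h3]
        _ ≤ _ := Finset.single_le_sum (f := fun t => if w ∈ S t then Em (f t) else 0)
            (fun _ _ => Nat.zero_le _) (Finset.mem_range.2 h1.1)
    · rw [DD_eq_empty]
      · exact Nat.zero_le _
      · rintro i hi ⟨hne, x, hxw, hxi⟩
        obtain ⟨t, ht, rfl⟩ := Finset.mem_image.1 hi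
        exact hex ⟨t, Finset.mem_range.1 ht, hne, x, Finset.mem_inter.2 ⟨hxi, hxw⟩⟩
  -- exceptional units
  have hunitV : ∀ r ≤ n, ∀ v ∈ UV, ((TT J V xs y f r v).card : ℝ)
      ≤ ∑ t ∈ range r, (if pv f v t then (1 / 2 : ℝ) ^ Nat.count (pv f v) t else 0)
        * (Em (f t) : ℝ) := by
    intro r hr v hv
    obtain ⟨hvu, hvV⟩ := Finset.mem_filter.1 hv
    have hTT : TT J V xs y f r v = SV F f (pv f v) (y v) r := by
      unfold TT
      rw [if_pos hvV]
    rw [hTT]
    refine (SV_bound ?_ ?_ ?_).trans ?_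
    · intro s hs _ A hA
      exact union_mem hA (self_mem (hPJ (hf1 s (by omega))))
    · intro s _ ps
      exact (hy v (f s) ps).2
    · intro s hs t ht ps pt hst
      exact hdis v hvV (f s) (hf1 s (by omega)) (f t) (hf1 t (by omega))
        (fun he => hst (hf2 s (by omega) t (by omega) he)) ps pt
    · apply Finset.sum_le_sum
      intro s hs
      rw [Finset.mem_range] at hs
      by_cases ps : pv f v s
      · rw [if_pos ps]
        apply mul_le_mul_of_nonneg_left _ (by positivity)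
        have hfP := hf1 s (by omega)
        have := (bad_le (hPJ hfP) (hy v (f s) ps).2 (hfr (f s) hfP _ (hy v (f s) ps).2)).trans
          (hle (f s) _ (hy v (f s) ps).2)
        exact_mod_cast this
      · rw [if_neg ps, zero_mul, zero_mul]
  have hsw : ∀ r, ∑ w ∈ UO, ∑ t ∈ range r, (if w ∈ S t then Em (f t) else 0)
      = ∑ t ∈ range r, (S t).card * Em (f t) := by
    intro r
    rw [Finset.sum_comm]
    apply Finset.sum_congr rfl
    intro t _
    rw [← Finset.sum_filter, Finset.sum_const, smul_eq_mul]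
    congr 2
    ext w
    simp only [Finset.mem_filter, hS]
    tauto
  have hmain : ∀ r ≤ n, ∑ t ∈ range r, ((Em (f t) : ℕ) : ℝ)
      ≤ ∑ t ∈ range r, κ t * (Em (f t) : ℕ) := by
    intro r hr
    have e1 : ∑ t ∈ range r, ((Em (f t) : ℕ) : ℝ)
        = ((∑ j ∈ (range r).image f, Em j : ℕ) : ℝ) := by
      rw [Finset.sum_image]
      · push_cast; rfl
      · intro s hs t ht hst
        rw [Finset.mem_coe, Finset.mem_range] at hs ht
        exact hf2 s (by omega) t (by omega) hst
    have e2 : ∑ j ∈ (range r).image f, Em j ≤ ∑ w ∈ units J P, (TT J V xs y f r w).card := by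
      refine le_trans ?_ (chargeM hyp hr)
      apply Finset.sum_le_sum
      intro j hj
      rw [← (hxs j (hMsub r hr hj)).2]
      exact ex_le_costs J _ j
    have e3 : ∑ w ∈ units J P, (TT J V xs y f r w).card
        = ∑ w ∈ UO, (TT J V xs y f r w).card + ∑ v ∈ UV, (TT J V xs y f r v).card := by
      rw [add_comm, hUO, hUV, Finset.sum_filter_add_sum_filter_not]
    have e4 : ∑ w ∈ UO, (TT J V xs y f r w).card ≤ ∑ t ∈ range r, (S t).card * Em (f t) := by
      rw [← hsw r]
      exact Finset.sum_le_sum (hunit r hr)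
    have e5 : ((∑ v ∈ UV, (TT J V xs y f r v).card : ℕ) : ℝ)
        ≤ ∑ t ∈ range r, (∑ v ∈ UV,
          (if pv f v t then (1 / 2 : ℝ) ^ Nat.count (pv f v) t else 0)) * (Em (f t) : ℝ) := by
      push_cast
      refine (Finset.sum_le_sum (hunitV r hr)).trans (le_of_eq ?_)
      rw [Finset.sum_comm]
      apply Finset.sum_congr rfl
      intro t _
      rw [Finset.sum_mul]
    have e6 : ((∑ w ∈ UO, (TT J V xs y f r w).card : ℕ) : ℝ)
        ≤ ∑ t ∈ range r, ((S t).card : ℝ) * (Em (f t) : ℝ) := by exact_mod_cast e4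
    have e7 : (((∑ j ∈ (range r).image f, Em j : ℕ)) : ℝ)
        ≤ ((∑ w ∈ UO, (TT J V xs y f r w).card : ℕ) : ℝ)
          + ((∑ v ∈ UV, (TT J V xs y f r v).card : ℕ) : ℝ) := by
      rw [e3] at e2
      exact_mod_cast e2
    rw [e1]
    refine e7.trans ((add_le_add e6 e5).trans (le_of_eq ?_))
    rw [← Finset.sum_add_distrib]
    apply Finset.sum_congr rfl
    intro t _
    rw [hκ]
    ring
  have habel := abel_lemma n (fun t => Em (f t)) κ (fun t ht => hEpos _ (hf1 t ht)) hf3 hmain
  -- the sum of the weights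
  have hScard : ∑ t ∈ range n, (S t).card ≤ UO.card := by
    rw [← Finset.card_biUnion]
    · apply Finset.card_le_card
      intro w hw
      obtain ⟨t, -, ht⟩ := Finset.mem_biUnion.1 hw
      exact (Finset.mem_filter.1 ht).1
    · intro s _ t _ hst
      rw [Function.onFun, Finset.disjoint_left]
      intro w hws hwt
      obtain ⟨-, h1, h2⟩ := Finset.mem_filter.1 hws
      obtain ⟨-, h3, h4⟩ := Finset.mem_filter.1 hwt
      rcases Nat.lt_or_gt_of_ne hst with h | h
      · exact h4 s h h1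
      · exact h2 t h h3
  have hVsum : ∑ v ∈ UV, ∑ t ∈ range n,
      (if pv f v t then (1 / 2 : ℝ) ^ Nat.count (pv f v) t else 0) < 2 * UV.card := by
    have h1 : (2 : ℝ) * UV.card = ∑ _v ∈ UV, (2 : ℝ) := by
      rw [Finset.sum_const, nsmul_eq_mul, mul_comm]
    rw [h1]
    apply Finset.sum_lt_sum_of_nonempty (Finset.nonempty_iff_ne_empty.2 hUVe)
    intro v _
    rw [count_sum (pv f v) (fun k => (1 / 2 : ℝ) ^ k) n]
    exact half_geom _
  have hκs : ∑ t ∈ range n, κ t = ((∑ t ∈ range n, (S t).card : ℕ) : ℝ) + ∑ v ∈ UV,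
      ∑ t ∈ range n, (if pv f v t then (1 / 2 : ℝ) ^ Nat.count (pv f v) t else 0) := by
    rw [hκ, Finset.sum_add_distrib, Finset.sum_comm (s := range n)]
    push_cast
    rfl
  have h3 : ((∑ t ∈ range n, (S t).card : ℕ) : ℝ) ≤ (UO.card : ℝ) := by exact_mod_cast hScard
  have h4 : (UO.card : ℝ) + 2 * (UV.card : ℝ) ≤ (n : ℝ) := by exact_mod_cast hcard
  linarith

end Pool.Agent.H83.ELZ
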