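import Pool.Agent.H83.ELZ.FinalT

/-!
# Degree three: nested generators and triangles (MP_75f39d)
-/

set_option autoImplicit false

namespace Pool.Agent.H83.ELZ

open Finset Pool.Agent.H97.GEN Pool.Agent.H84.GEN

variable {α : Type*} [DecidableEq α]

/-- **Nested generators.**  If `w` is inside another generator, and every generator meeting `w`
contains `y` or `y'`, two points of `w`, then one of them is in more than half. -/
theorem two_hit {J : Finset (Finset α)} (hirr : ∀ g ∈ J, g ∉ unions (J.erase g))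
    {w i : Finset α} (hw : w ∈ J) (hi : i ∈ J) (hiw : i ≠ w) (hsub : w ⊆ i) {y y' : α}
    (hy : y ∈ w) (hy' : y' ∈ w) (hit : ∀ g ∈ J, ¬ Disjoint g w → y ∈ g ∨ y' ∈ g) :
    (unions J).card < fr (unions J) y + fr (unions J) y' := by
  classical
  set U2 := (unions J).filter fun A => y ∉ A ∧ y' ∉ A with hU2
  set U0 := (unions J).filter fun A => y ∈ A ∧ y' ∈ A with hU0
  have hdis : ∀ A ∈ U2, ∀ z ∈ w, z ∉ A := by
    intro A hA z hz hzA
    obtain ⟨hAF, h1, h2⟩ := Finset.mem_filter.1 hA
    obtain ⟨g, hg, hgA, hzg⟩ := (mem_iff hAF z).1 hzA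
    rcases hit g hg (Finset.not_disjoint_iff.2 ⟨z, hzg, hz⟩) with h | h
    · exact h1 (hgA h)
    · exact h2 (hgA h)
  have hcard : U2.card ≤ (U0.erase i).card := by
    apply Finset.card_le_card_of_injOn (fun A => A ∪ w)
    · intro A hA
      rw [Finset.mem_coe] at hA
      obtain ⟨hAF, h1, h2⟩ := Finset.mem_filter.1 hA
      rw [Finset.mem_coe, Finset.mem_erase]
      refine ⟨?_, Finset.mem_filter.2 ⟨union_mem hAF (self_mem hw),
        Finset.mem_union_right _ hy, Finset.mem_union_right _ hy'⟩⟩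
      intro he
      have he' : A ∪ w = i := he
      apply hirr i hi
      apply mem_unions_of
      intro z hz
      have hz' : z ∈ A ∪ w := by
        rw [he']
        exact hz
      rcases Finset.mem_union.1 hz' with h | h
      · obtain ⟨g, hg, hgA, hzg⟩ := (mem_iff hAF z).1 h
        refine ⟨g, Finset.mem_erase.2 ⟨?_, hg⟩, ?_, hzg⟩
        · rintro rfl
          exact h1 (hgA (hsub hy))
        · rw [← he']
          exact hgA.trans Finset.subset_union_left
      · exact ⟨w, Finset.mem_erase.2 ⟨hiw.symm, hw⟩, hsub, h⟩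
    · intro A hA A' hA' he
      rw [Finset.mem_coe] at hA hA'
      have he' : A ∪ w = A' ∪ w := he
      ext z
      by_cases hz : z ∈ w
      · exact ⟨fun h => absurd h (hdis A hA z hz), fun h => absurd h (hdis A' hA' z hz)⟩
      · have : z ∈ A ∪ w ↔ z ∈ A' ∪ w := by rw [he']
        simpa [hz] using this
  have hiU : i ∈ U0 := Finset.mem_filter.2 ⟨self_mem hi, hsub hy, hsub hy'⟩
  have h1 := Finset.card_erase_add_one hiU
  have h2 : fr (unions J) y + fr (unions J) y' + U2.card = (unions J).card + U0.card := by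
    unfold fr
    rw [hU2, hU0, Finset.card_filter, Finset.card_filter, Finset.card_filter,
      Finset.card_filter, Finset.card_eq_sum_ones, ← Finset.sum_add_distrib,
      ← Finset.sum_add_distrib, ← Finset.sum_add_distrib]
    apply Finset.sum_congr rfl
    intro A _
    by_cases h1 : y ∈ A <;> by_cases h2 : y' ∈ A <;> simp [h1, h2]
  omega

/-- The choice of the two points when no generator is inside another one. -/
lemma exists_low {J : Finset (Finset α)} (hne : ∀ g ∈ J, g.Nonempty)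
    (hdeg : ∀ z : α, (J.filter fun g => z ∈ g).card ≤ 3)
    (hanti : ∀ w ∈ J, ∀ i ∈ J, i ≠ w → ¬ w ⊆ i) {w : Finset α} (hw : w ∈ cov J) :
    ∃ y ∈ w, ∃ y' ∈ w, ∀ A ∈ unions J, ∀ i ∈ cov J, Lf w i A → y ∈ A ∨ y' ∈ A := by
  classical
  have hwJ := (mem_cov.1 hw).1
  have deg4 : ∀ (z : α) (a b c d : Finset α), a ∈ J → b ∈ J → c ∈ J → d ∈ J → a ≠ b → a ≠ c →
      b ≠ c → z ∈ a → z ∈ b → z ∈ c → z ∈ d → d = a ∨ d = b ∨ d = c := by
    intro z a b c d ha hb hc hd hab hac hbc za zb zc zd
    by_contra hcon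
    push Not at hcon
    have hsub : ({d, a, b, c} : Finset (Finset α)) ⊆ J.filter fun g => z ∈ g := by
      intro g hg
      rw [Finset.mem_insert, Finset.mem_insert, Finset.mem_insert, Finset.mem_singleton] at hg
      rcases hg with rfl | rfl | rfl | rfl
      · exact Finset.mem_filter.2 ⟨hd, zd⟩
      · exact Finset.mem_filter.2 ⟨ha, za⟩
      · exact Finset.mem_filter.2 ⟨hb, zb⟩
      · exact Finset.mem_filter.2 ⟨hc, zc⟩
    have hcard : ({d, a, b, c} : Finset (Finset α)).card = 4 := by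
      rw [Finset.card_insert_of_notMem, Finset.card_eq_three.2 ⟨a, b, c, hab, hac, hbc, rfl⟩]
      rw [Finset.mem_insert, Finset.mem_insert, Finset.mem_singleton]
      rintro (h' | h' | h')
      · exact hcon.1 h'
      · exact hcon.2.1 h'
      · exact hcon.2.2 h'
    have := Finset.card_le_card hsub
    have := hdeg z
    omega
  have hPJ : ∀ g ∈ cov J, g ∈ J := fun g hg => (mem_cov.1 hg).1
  by_cases hsep : ∃ y ∈ w, ∃ y' ∈ w, ∀ i ∈ cov J, i ≠ w → ¬ (y ∈ i ∧ y' ∈ i)
  · obtain ⟨y, hy, y', hy', hs⟩ := hsep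
    refine ⟨y, hy, y', hy', ?_⟩
    intro A _ i hi hL
    by_contra hcon
    push Not at hcon
    exact hs i hi hL.1.symm ⟨hL.2.2 (Finset.mem_sdiff.2 ⟨hy, hcon.1⟩),
      hL.2.2 (Finset.mem_sdiff.2 ⟨hy', hcon.2⟩)⟩
  · push Not at hsep
    obtain ⟨y, hy⟩ := hne w hwJ
    obtain ⟨a, ha, haw, hya, -⟩ := hsep y hy y hy
    obtain ⟨y', hy', hy'a⟩ := Finset.not_subset.1 (hanti w hwJ a (hPJ a ha) haw)
    obtain ⟨b, hb, hbw, hyb, hy'b⟩ := hsep y hy y' hy'
    have hab : a ≠ b := by
      rintro rfl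
      exact hy'a hy'b
    obtain ⟨p, hp, hpb⟩ := Finset.not_subset.1 (hanti w hwJ b (hPJ b hb) hbw)
    have hpa : p ∈ a := by
      obtain ⟨g, hg, hgw, hyg, hpg⟩ := hsep y hy p hp
      rcases deg4 y w a b g hwJ (hPJ a ha) (hPJ b hb) (hPJ g hg) haw.symm hbw.symm hab hy hya hyb
        hyg with h | h | h
      · exact absurd h hgw
      · rw [← h]
        exact hpg
      · rw [h] at hpg
        exact absurd hpg hpb
    obtain ⟨c, hc, hcw, hy'c, hpc⟩ := hsep y' hy' p hp
    have hca : a ≠ c := by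
      rintro rfl
      exact hy'a hy'c
    have hcb : b ≠ c := by
      rintro rfl
      exact hpb hpc
    refine ⟨y, hy, y', hy', ?_⟩
    intro A hA i hi hL
    by_contra hcon
    push Not at hcon
    obtain ⟨h1, h2⟩ := hcon
    have hyi : y ∈ i := hL.2.2 (Finset.mem_sdiff.2 ⟨hy, h1⟩)
    have hy'i : y' ∈ i := hL.2.2 (Finset.mem_sdiff.2 ⟨hy', h2⟩)
    have hib : i = b := by
      rcases deg4 y w a b i hwJ (hPJ a ha) (hPJ b hb) (hPJ i hi) haw.symm hbw.symm hab hy hya hyb
        hyi with h | h | h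
      · exact absurd h.symm hL.1
      · rw [h] at hy'i
        exact absurd hy'i hy'a
      · exact h
    have hpA : p ∈ A := by
      by_contra hpA
      have := hL.2.2 (Finset.mem_sdiff.2 ⟨hp, hpA⟩)
      rw [hib] at this
      exact hpb this
    obtain ⟨g, hg, hgA, hpg⟩ := (mem_iff hA p).1 hpA
    rcases deg4 p w a c g hwJ (hPJ a ha) (hPJ c hc) hg haw.symm hcw.symm hca hp hpa hpc hpg
      with h | h | h
    · rw [h] at hgA
      exact hL.2.1 hgA
    · rw [h] at hgA
      exact h1 (hgA hya)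
    · rw [h] at hgA
      exact h2 (hgA hy'c)

/-- **Degree three**: every point in at most three generators; a generator inside another one has two
points such that every generator meeting it contains one of them. -/
theorem partT_three {A : Finset (Finset α)} (hA : UnionClosed A)
    (h : (meet A).Nonempty ∨ SepNotPower A)
    (hdeg : ∀ z : α, ((gens A).filter fun g => z ∈ g).card ≤ 3)
    (hnest : ∀ w ∈ gens A, ∀ i ∈ gens A, i ≠ w → w ⊆ i → ∃ y ∈ w, ∃ y' ∈ w, ∀ g ∈ gens A,
      ¬ Disjoint g w → y ∈ g ∨ y' ∈ g) :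
    ∃ x ∈ A.sup id, A.card < 2 * fr A x := by
  classical
  have hup : ∀ P : Finset (Finset α), P ⊆ gens A →
      (∃ x ∈ P.sup id, A.card < 2 * fr A x) → ∃ x ∈ A.sup id, A.card < 2 * fr A x := by
    rintro P hP ⟨x, hx, hlt⟩
    obtain ⟨G, hG, hxG⟩ := mem_sup_id.1 hx
    exact ⟨x, mem_sup_id.2 ⟨G, gens_subset A (hP hG), hxG⟩, hlt⟩
  have hu := unions_gens hA
  have h2 : A.card ≤ (unions (gens A)).card := by
    rw [hu]
    exact Finset.card_le_card (Finset.subset_insert _ _)
  have h3 : ∀ x, fr (unions (gens A)) x = fr A x := by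
    intro x
    rw [hu]
    exact fr_insert_empty A x
  by_cases hc : (cov (gens A)).Nonempty
  swap
  · apply part4_M hA h
    intro z
    rw [Finset.not_nonempty_iff_eq_empty] at hc
    rw [hc]
    simp
  by_cases hn : ∃ w ∈ gens A, ∃ i ∈ gens A, i ≠ w ∧ w ⊆ i
  · obtain ⟨w, hw, i, hi, hiw, hsub⟩ := hn
    obtain ⟨y, hy, y', hy', hit⟩ := hnest w hw i hi hiw hsub
    have hlt := two_hit (fun g hg => gens_irr A hg) hw hi hiw hsub hy hy' hit
    rw [h3, h3] at hlt
    have hyA : y ∈ A.sup id := mem_sup_id.2 ⟨w, gens_subset A hw, hy⟩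
    have hyA' : y' ∈ A.sup id := mem_sup_id.2 ⟨w, gens_subset A hw, hy'⟩
    by_cases hcase : A.card < 2 * fr A y
    · exact ⟨y, hyA, hcase⟩
    · refine ⟨y', hyA', ?_⟩
      omega
  · push Not at hn
    have hch : ∀ w : Finset α, ∃ p : α × α, w ∈ cov (gens A) → p.1 ∈ w ∧ p.2 ∈ w ∧
        ∀ B ∈ unions (gens A), ∀ i ∈ cov (gens A), Lf w i B → p.1 ∈ B ∨ p.2 ∈ B := by
      intro w
      by_cases hw : w ∈ cov (gens A)
      · obtain ⟨y, hy, y', hy', hyy⟩ := exists_low (fun g hg => gens_nonempty hg) hdeg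
          (fun w hw i hi hne => hn w hw i hi hne) hw
        exact ⟨(y, y'), fun _ => ⟨hy, hy', hyy⟩⟩
      · obtain ⟨w0, hw0⟩ := hc
        obtain ⟨y, -⟩ := gens_nonempty (mem_cov.1 hw0).1
        exact ⟨(y, y), fun h' => absurd h' hw⟩
    choose p hp using hch
    have hT : HT (gens A) (cov (gens A)) (fun w => (p w).1) (fun w => (p w).2) := by
      refine ⟨Finset.Subset.refl _, fun w hw _ _ _ _ _ => hw, ?_, fun w hw => (hp w hw).1,
        fun w hw => (hp w hw).2.1, ?_⟩
      · intro z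
        refine le_trans (Finset.card_le_card ?_) (hdeg z)
        exact Finset.filter_subset_filter _ (Finset.filter_subset _ _)
      · intro B hB w hw i hi hL
        have hor := (hp w hw).2.2 B hB i hi hL
        unfold uu
        rcases hor with hor | hor
        · rw [if_pos hor]
          split_ifs <;> omega
        · rw [if_pos hor]
          split_ifs <;> omega
    obtain ⟨x, hx, hlt⟩ := hT.exists_gt hc
    refine hup (cov (gens A)) (Finset.filter_subset _ _) ⟨x, hx, ?_⟩
    rw [h3] at hlt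
    omega

end Pool.Agent.H83.ELZ
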