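import Pool.Agent.H83.ELZ.T8Defs

/-!
# Degree three with nested generators (MP_75f39d): the capacity of the simple pairs
-/

set_option autoImplicit false

namespace Pool.Agent.H83.ELZ

open Finset Pool.Agent.H97.GEN

variable {α : Type*} [DecidableEq α]

section

variable {J P : Finset (Finset α)} {x x' : Finset α → α} {w1 w2 : Finset α → Finset α}

/-- At most two demands swallow `w`. -/
lemma H8.card_II (h : H8 J P x x' w1 w2) {A w : Finset α} (hw : w ∈ P) (hn : ¬ w ⊆ A) :
    (II J P x x' A w).card ≤ 2 := by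
  classical
  obtain ⟨z, hz⟩ := Finset.sdiff_nonempty.2 hn
  have hwn : w ∉ II J P x x' A w := fun hmem => (mem_II.1 hmem).2.2.1 rfl
  have hsub : insert w (II J P x x' A w) ⊆ P.filter fun g => z ∈ g := by
    intro g hg
    rcases Finset.mem_insert.1 hg with rfl | hg
    · exact Finset.mem_filter.2 ⟨hw, (Finset.mem_sdiff.1 hz).1⟩
    · obtain ⟨h1, -, h3⟩ := mem_II.1 hg
      exact Finset.mem_filter.2 ⟨h1, h3.2.2 hz⟩
  have h1 := Finset.card_le_card hsub
  rw [Finset.card_insert_of_notMem hwn] at h1
  have := h.deg z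
  omega

lemma b1_le_two (A w i : Finset α) : b1 J P x x' A w i ≤ 2 := by
  unfold b1
  split_ifs <;> omega

/-- The capacity of a simple pair. -/
lemma H8.cap1 (h : H8 J P x x' w1 w2) {A w : Finset α} (hw : w ∈ P) (hn : ¬ w ⊆ A) :
    ∑ i ∈ P.filter (fun i => Dem J x x' A i), b1 J P x x' A w i
      ≤ 2 * (2 - uu x x' w A) := by
  classical
  have hII : ∑ i ∈ P.filter (fun i => Dem J x x' A i), b1 J P x x' A w i
      = ∑ i ∈ II J P x x' A w, b1 J P x x' A w i := by
    symm
    apply Finset.sum_subset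
    · intro i hi
      obtain ⟨h1, h2, -⟩ := mem_II.1 hi
      exact Finset.mem_filter.2 ⟨h1, h2⟩
    · intro i hi hi'
      obtain ⟨h1, h2⟩ := Finset.mem_filter.1 hi
      unfold b1
      rw [if_neg]
      rintro ⟨h3, -⟩
      exact hi' (mem_II.2 ⟨h1, h2, h3⟩)
  rw [hII]
  have hcard := h.card_II hw hn
  by_cases hu2 : uu x x' w A ≤ 1
  · by_cases hu0 : uu x x' w A = 0
    · rw [hu0]
      calc ∑ i ∈ II J P x x' A w, b1 J P x x' A w i ≤ ∑ i ∈ II J P x x' A w, 2 :=
            Finset.sum_le_sum fun i _ => b1_le_two A w i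
        _ = (II J P x x' A w).card * 2 := by rw [Finset.sum_const, smul_eq_mul]
        _ ≤ 2 * (2 - 0) := by omega
    · have hu : uu x x' w A = 1 := by omega
      rw [hu]
      by_cases hc1 : (II J P x x' A w).card ≤ 1
      · calc ∑ i ∈ II J P x x' A w, b1 J P x x' A w i ≤ ∑ i ∈ II J P x x' A w, 2 :=
              Finset.sum_le_sum fun i _ => b1_le_two A w i
          _ = (II J P x x' A w).card * 2 := by rw [Finset.sum_const, smul_eq_mul]
          _ ≤ 2 * (2 - 1) := by omega
      · have hnot : ∀ i ∈ II J P x x' A w, ¬ Uq J P x x' A w i := by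
          intro i hi huq
          apply hc1
          rw [Finset.card_le_one]
          intro a ha b hb
          obtain ⟨ha1, ha2, ha3⟩ := mem_II.1 ha
          obtain ⟨hb1, hb2, hb3⟩ := mem_II.1 hb
          rw [huq a ha1 ha2 ha3, huq b hb1 hb2 hb3]
        calc ∑ i ∈ II J P x x' A w, b1 J P x x' A w i ≤ ∑ i ∈ II J P x x' A w, 1 := by
              apply Finset.sum_le_sum
              intro i hi
              unfold b1
              have : ¬ (uu x x' w A = 0 ∨ Uq J P x x' A w i) := by
                rintro (h' | h')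
                · omega
                · exact hnot i hi h'
              rw [if_neg this]
              split_ifs <;> omega
          _ = (II J P x x' A w).card * 1 := by rw [Finset.sum_const, smul_eq_mul]
          _ ≤ 2 * (2 - 1) := by omega
  · have : ∑ i ∈ II J P x x' A w, b1 J P x x' A w i = 0 := by
      apply Finset.sum_eq_zero
      intro i _
      unfold b1
      rw [if_neg]
      rintro ⟨-, -, h3⟩
      exact hu2 h3
    omega

/-- The tokens from the simple pairs of `w`. -/
lemma H8.sum_b1_le (h : H8 J P x x' w1 w2) {w : Finset α} (hw : w ∈ P) :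
    ∑ A ∈ unions J, ∑ i ∈ P.filter (fun i => Dem J x x' A i), b1 J P x x' A w i
      ≤ ∑ A ∈ (unions J).filter (fun A => ¬ w ⊆ A ∧ Sim J A w), 2 * (2 - uu x x' w A) := by
  classical
  have hz : ∑ A ∈ unions J, ∑ i ∈ P.filter (fun i => Dem J x x' A i), b1 J P x x' A w i
      = ∑ A ∈ (unions J).filter (fun A => ¬ w ⊆ A ∧ Sim J A w),
        ∑ i ∈ P.filter (fun i => Dem J x x' A i), b1 J P x x' A w i := by
    symm
    apply Finset.sum_subset (Finset.filter_subset _ _)
    intro A hA hA'
    apply Finset.sum_eq_zero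
    intro i _
    unfold b1
    rw [if_neg]
    rintro ⟨hL, hS, -⟩
    exact hA' (Finset.mem_filter.2 ⟨hA, hL.2.1, hS⟩)
  rw [hz]
  apply Finset.sum_le_sum
  intro A hA
  obtain ⟨-, hA1, -⟩ := Finset.mem_filter.1 hA
  exact h.cap1 hw hA1

end

end Pool.Agent.H83.ELZ
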