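import Pool.Agent.H83.ELZ.T8Defs

/-!
# Degree three with nested generators (MP_75f39d): the choice of the points and of the guests
-/

set_option autoImplicit false

namespace Pool.Agent.H83.ELZ

open Finset Pool.Agent.H97.GEN

variable {α : Type*} [DecidableEq α]

/-- A point is in at most three members of `J`. -/
lemma deg4J {J : Finset (Finset α)} {z : α} (hdeg : (J.filter fun g => z ∈ g).card ≤ 3)
    {a b c d : Finset α} (ha : a ∈ J) (hb : b ∈ J) (hc : c ∈ J) (hd : d ∈ J)
    (hab : a ≠ b) (hac : a ≠ c) (hbc : b ≠ c) (za : z ∈ a) (zb : z ∈ b) (zc : z ∈ c)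
    (zd : z ∈ d) : d = a ∨ d = b ∨ d = c := by
  by_contra hcon
  push Not at hcon
  have hsub : ({d, a, b, c} : Finset (Finset α)) ⊆ J.filter fun g => z ∈ g := by
    intro g hg
    rw [Finset.mem_insert, Finset.mem_insert, Finset.mem_insert, Finset.mem_singleton] at hg
    rcases hg with rfl | rfl | rfl | rfl
    · exact Finset.mem_filter.2 ⟨hd, zd⟩
    · exact Finset.mem_filter.2 ⟨ha, za⟩
    · exact Finset.mem_filter.2 ⟨hb, zb⟩
    · exact Finset.mem_filter.2 ⟨hc, zc⟩
  have hcard : ({d, a, b, c} : Finset (Finset α)).card = 4 := by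
    rw [Finset.card_insert_of_notMem, Finset.card_eq_three.2 ⟨a, b, c, hab, hac, hbc, rfl⟩]
    rw [Finset.mem_insert, Finset.mem_insert, Finset.mem_singleton]
    rintro (h' | h' | h')
    · exact hcon.1 h'
    · exact hcon.2.1 h'
    · exact hcon.2.2 h'
  have := Finset.card_le_card hsub
  omega

/-- **Hit pairs.**  If every covered generator meeting the covered generator `w` contains `y` or
`y'`, two points of `w` that are together in another generator, then one of them is in more than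
half. -/
theorem two_hit_cov {J : Finset (Finset α)} (hirr : ∀ g ∈ J, g ∉ unions (J.erase g))
    {w i : Finset α} (hwc : w ∈ cov J) (hi : i ∈ J) (hiw : i ≠ w) {y y' : α}
    (hy : y ∈ w) (hy' : y' ∈ w) (hyi : y ∈ i) (hyi' : y' ∈ i)
    (hit : ∀ g ∈ cov J, ¬ Disjoint g w → y ∈ g ∨ y' ∈ g) :
    (unions J).card < fr (unions J) y + fr (unions J) y' := by
  classical
  have hw : w ∈ J := (mem_cov.1 hwc).1
  set U2 := (unions J).filter fun A => y ∉ A ∧ y' ∉ A with hU2
  set U0 := (unions J).filter fun A => y ∈ A ∧ y' ∈ A with hU0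
  -- private points
  have hpriv : ∀ g ∈ J, g ∉ cov J → ∃ p ∈ g, ∀ g' ∈ J, p ∈ g' → g' = g := by
    intro g hg hgc
    by_contra hcon
    push Not at hcon
    apply hgc
    refine mem_cov.2 ⟨hg, fun p hp => ?_⟩
    obtain ⟨g', h1, h2, h3⟩ := hcon p hp
    exact ⟨g', h1, h3, h2⟩
  have hstep : ∀ A ∈ U2, ∀ A' ∈ U2, A ∪ w = A' ∪ w → A ⊆ A' := by
    intro A hA A' hA' he z hz
    obtain ⟨hAF, h1, h2⟩ := Finset.mem_filter.1 hA
    obtain ⟨hAF', -, -⟩ := Finset.mem_filter.1 hA'
    obtain ⟨g, hg, hgA, hzg⟩ := (mem_iff hAF z).1 hz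
    by_cases hgc : g ∈ cov J
    · have hdis : Disjoint g w := by
        by_contra hnd
        rcases hit g hgc hnd with h | h
        · exact h1 (hgA h)
        · exact h2 (hgA h)
      have hz2 : z ∈ A' ∪ w := by
        rw [← he]
        exact Finset.mem_union_left _ hz
      rcases Finset.mem_union.1 hz2 with h | h
      · exact h
      · exact absurd h (Finset.disjoint_left.1 hdis hzg)
    · obtain ⟨p, hp, huniq⟩ := hpriv g hg hgc
      have hpw : p ∉ w := by
        intro h
        have := huniq w hw h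
        rw [← this] at hgc
        exact hgc hwc
      have hp2 : p ∈ A' ∪ w := by
        rw [← he]
        exact Finset.mem_union_left _ (hgA hp)
      rcases Finset.mem_union.1 hp2 with h | h
      · obtain ⟨g', hg', hgA', hpg'⟩ := (mem_iff hAF' p).1 h
        have := huniq g' hg' hpg'
        rw [this] at hgA'
        exact hgA' hzg
      · exact absurd h hpw
  have hcard : U2.card ≤ (U0.erase i).card := by
    apply Finset.card_le_card_of_injOn (fun A => A ∪ w)
    · intro A hA
      rw [Finset.mem_coe] at hA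
      obtain ⟨hAF, h1, h2⟩ := Finset.mem_filter.1 hA
      rw [Finset.mem_coe, Finset.mem_erase]
      refine ⟨?_, Finset.mem_filter.2 ⟨union_mem hAF (self_mem hw),
        Finset.mem_union_right _ hy, Finset.mem_union_right _ hy'⟩⟩
      intro he
      have he' : A ∪ w = i := he
      have hsub : w ⊆ i := by
        rw [← he']
        exact Finset.subset_union_right
      apply hirr i hi
      apply mem_unions_of
      intro z hz
      have hz' : z ∈ A ∪ w := by
        rw [he']
        exact hz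
      rcases Finset.mem_union.1 hz' with h | h
      · obtain ⟨g, hg, hgA, hzg⟩ := (mem_iff hAF z).1 h
        refine ⟨g, Finset.mem_erase.2 ⟨?_, hg⟩, ?_, hzg⟩
        · rintro rfl
          exact h1 (hgA hyi)
        · rw [← he']
          exact hgA.trans Finset.subset_union_left
      · exact ⟨w, Finset.mem_erase.2 ⟨hiw.symm, hw⟩, hsub, h⟩
    · intro A hA A' hA' he
      rw [Finset.mem_coe] at hA hA'
      have he' : A ∪ w = A' ∪ w := he
      exact Finset.Subset.antisymm (hstep A hA A' hA' he') (hstep A' hA' A hA he'.symm)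
  have hiU : i ∈ U0 := Finset.mem_filter.2 ⟨self_mem hi, hyi, hyi'⟩
  have h1 := Finset.card_erase_add_one hiU
  have h2 : fr (unions J) y + fr (unions J) y' + U2.card = (unions J).card + U0.card := by
    unfold fr
    rw [hU2, hU0, Finset.card_filter, Finset.card_filter, Finset.card_filter,
      Finset.card_filter, Finset.card_eq_sum_ones, ← Finset.sum_add_distrib,
      ← Finset.sum_add_distrib, ← Finset.sum_add_distrib]
    apply Finset.sum_congr rfl
    intro A _
    by_cases h1 : y ∈ A <;> by_cases h2 : y' ∈ A <;> simp [h1, h2]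
  omega

/-- No member of `P` has a hit pair. -/
def NoHit (J P : Finset (Finset α)) : Prop :=
  ∀ w ∈ P, ∀ i ∈ J, i ≠ w → ∀ y ∈ w, ∀ y' ∈ w, y ∈ i → y' ∈ i →
    ∃ g ∈ cov J, ¬ Disjoint g w ∧ y ∉ g ∧ y' ∉ g

/-- The choice of the two points of a member of `P` that is not inside another one. -/
lemma exists_sep {J P : Finset (Finset α)} (hne : ∀ g ∈ J, g.Nonempty)
    (hdeg : ∀ z : α, (P.filter fun g => z ∈ g).card ≤ 3)
    (PC : P ⊆ cov J) (comp : ∀ w ∈ cov J, ∀ i ∈ P, ∀ z, z ∈ w → z ∈ i → w ∈ P)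
    (hnd : NoHit J P) {w : Finset α} (hw : w ∈ P) (hanti : ∀ i ∈ P, i ≠ w → ¬ w ⊆ i) :
    ∃ y ∈ w, ∃ y' ∈ w, ∀ i ∈ P, i ≠ w → ¬ (y ∈ i ∧ y' ∈ i) := by
  classical
  have hPJ : ∀ g ∈ P, g ∈ J := fun g hg => (mem_cov.1 (PC hg)).1
  by_contra hsep
  push Not at hsep
  obtain ⟨y, hy⟩ := hne w (hPJ w hw)
  obtain ⟨a, ha, haw, hya, -⟩ := hsep y hy y hy
  obtain ⟨y', hy', hy'a⟩ := Finset.not_subset.1 (hanti a ha haw)
  obtain ⟨b, hb, hbw, hyb, hy'b⟩ := hsep y hy y' hy'
  have hab : a ≠ b := by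
    rintro rfl
    exact hy'a hy'b
  obtain ⟨p, hp, hpb⟩ := Finset.not_subset.1 (hanti b hb hbw)
  have hpa : p ∈ a := by
    obtain ⟨g, hg, hgw, hyg, hpg⟩ := hsep y hy p hp
    rcases deg4J (hdeg y) hw ha hb hg haw.symm hbw.symm hab hy hya hyb hyg with h | h | h
    · exact absurd h hgw
    · rw [← h]
      exact hpg
    · rw [h] at hpg
      exact absurd hpg hpb
  obtain ⟨c, hc, hcw, hy'c, hpc⟩ := hsep y' hy' p hp
  have hca : a ≠ c := by
    rintro rfl
    exact hy'a hy'c
  have hcb : b ≠ c := by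
    rintro rfl
    exact hpb hpc
  -- every point of `w` is in two of `a`, `b`, `c`
  obtain ⟨g, hg, hgd, hyg, hy'g⟩ := hnd w hw b (hPJ b hb) hbw y hy y' hy' hyb hy'b
  obtain ⟨z, hzg, hzw⟩ := Finset.not_disjoint_iff.1 hgd
  have hgP : g ∈ P := comp g hg w hw z hzg hzw
  have hgw : g ≠ w := by
    rintro rfl
    exact hyg hy
  have hga : g ≠ a := by
    rintro rfl
    exact hyg hya
  have hgb : g ≠ b := by
    rintro rfl
    exact hyg hyb
  have hgc : g ≠ c := by
    rintro rfl
    exact hy'g hy'c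
  -- `z` is in `a` or `b`, in `b` or `c`, in `a` or `c`
  have h1 : z ∈ a ∨ z ∈ b := by
    obtain ⟨k, hk, hkw, hyk, hzk⟩ := hsep y hy z hzw
    rcases deg4J (hdeg y) hw ha hb hk haw.symm hbw.symm hab hy hya hyb hyk with h | h | h
    · exact absurd h hkw
    · rw [← h]
      exact Or.inl hzk
    · rw [← h]
      exact Or.inr hzk
  have h2 : z ∈ b ∨ z ∈ c := by
    obtain ⟨k, hk, hkw, hyk, hzk⟩ := hsep y' hy' z hzw
    rcases deg4J (hdeg y') hw hb hc hk hbw.symm hcw.symm hcb hy' hy'b hy'c hyk with h | h | h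
    · exact absurd h hkw
    · rw [← h]
      exact Or.inl hzk
    · rw [← h]
      exact Or.inr hzk
  have h3 : z ∈ a ∨ z ∈ c := by
    obtain ⟨k, hk, hkw, hyk, hzk⟩ := hsep p hp z hzw
    rcases deg4J (hdeg p) hw ha hc hk haw.symm hcw.symm hca hp hpa hpc hyk with h | h | h
    · exact absurd h hkw
    · rw [← h]
      exact Or.inl hzk
    · rw [← h]
      exact Or.inr hzk
  have key : ∀ u ∈ P, ∀ v ∈ P, u ≠ w → v ≠ w → u ≠ v → z ∈ u → z ∈ v → g = u ∨ g = v := by
    intro u hu v hv huw hvw huv hzu hzv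
    rcases deg4J (hdeg z) hw hu hv hgP huw.symm hvw.symm huv hzw hzu hzv hzg with h | h | h
    · exact absurd h hgw
    · exact Or.inl h
    · exact Or.inr h
  by_cases hza : z ∈ a
  · rcases h2 with h | h
    · rcases key a ha b hb haw hbw hab hza h with h' | h'
      · exact hga h'
      · exact hgb h'
    · rcases key a ha c hc haw hcw hca hza h with h' | h'
      · exact hga h'
      · exact hgc h'
  · rcases key b hb c hc hbw hcw hcb (h1.resolve_left hza) (h3.resolve_left hza) with h' | h'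
    · exact hgb h'
    · exact hgc h'

/-- A member of `P` inside another one meets a member of `P` that avoids two given sets. -/
lemma exists_third {J P : Finset (Finset α)} (hne : ∀ g ∈ J, g.Nonempty)
    (hdeg : ∀ z : α, (P.filter fun g => z ∈ g).card ≤ 3)
    (PC : P ⊆ cov J) (comp : ∀ w ∈ cov J, ∀ i ∈ P, ∀ z, z ∈ w → z ∈ i → w ∈ P)
    (hnd : NoHit J P) {w i : Finset α} (hw : w ∈ P) (hi : i ∈ P) (hiw : i ≠ w) (hsub : w ⊆ i)
    (u v : Finset α) :
    ∃ c ∈ P, ∃ z ∈ w, z ∈ c ∧ c ≠ w ∧ c ≠ i ∧ c ≠ u ∧ c ≠ v ∧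
      ∀ g ∈ P, z ∈ g → g = w ∨ g = i ∨ g = c := by
  classical
  have hPJ : ∀ g ∈ P, g ∈ J := fun g hg => (mem_cov.1 (PC hg)).1
  obtain ⟨y0, hy0⟩ := hne w (hPJ w hw)
  have hch : ∀ u : Finset α, ∃ y ∈ w, ¬ Disjoint u w → y ∈ u := by
    intro u
    by_cases hd : Disjoint u w
    · exact ⟨y0, hy0, fun h => absurd hd h⟩
    · obtain ⟨y, h1, h2⟩ := Finset.not_disjoint_iff.1 hd
      exact ⟨y, h2, fun _ => h1⟩
  obtain ⟨y, hy, hyu⟩ := hch u
  obtain ⟨y', hy', hyv⟩ := hch v
  obtain ⟨c, hc, hcd, hyc, hyc'⟩ := hnd w hw i (hPJ i hi) hiw y hy y' hy' (hsub hy) (hsub hy')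
  obtain ⟨z, hzc, hzw⟩ := Finset.not_disjoint_iff.1 hcd
  have hcP : c ∈ P := comp c hc w hw z hzc hzw
  have hcw : c ≠ w := by
    rintro rfl
    exact hyc hy
  have hci : c ≠ i := by
    rintro rfl
    exact hyc (hsub hy)
  have hcu : c ≠ u := by
    rintro rfl
    exact hyc (hyu hcd)
  have hcv : c ≠ v := by
    rintro rfl
    exact hyc' (hyv hcd)
  refine ⟨c, hcP, z, hzw, hzc, hcw, hci, hcu, hcv, ?_⟩
  intro g hg hzg
  exact deg4J (hdeg z) hw hi hcP hg hiw.symm hcw.symm hci.symm hzw (hsub hzw) hzc hzg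

/-- **The choice of the points and of the selected guests.** -/
theorem exists_H8 {J P : Finset (Finset α)} (hne : ∀ g ∈ J, g.Nonempty)
    (hdeg : ∀ z : α, (P.filter fun g => z ∈ g).card ≤ 3)
    (PC : P ⊆ cov J) (comp : ∀ w ∈ cov J, ∀ i ∈ P, ∀ z, z ∈ w → z ∈ i → w ∈ P)
    (hP : P.Nonempty) (hnd : NoHit J P) :
    ∃ (x x' : Finset α → α) (w1 w2 : Finset α → Finset α), H8 J P x x' w1 w2 := by
  classical
  have hPJ : ∀ g ∈ P, g ∈ J := fun g hg => (mem_cov.1 (PC hg)).1
  have third := fun {w i : Finset α} (hw : w ∈ P) (hi : i ∈ P) (hiw : i ≠ w) (hsub : w ⊆ i)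
    (u v : Finset α) => exists_third hne hdeg PC comp hnd hw hi hiw hsub u v
  -- unique hosts
  have host : ∀ w i k, w ∈ P → i ∈ P → k ∈ P → w ≠ i → w ≠ k → w ⊆ i → w ⊆ k → i = k := by
    intro w i k hw hi hk hwi hwk hsi hsk
    obtain ⟨c, hc, z, hzw, hzc, hcw, hci, hck, -, hz⟩ := third hw hi hwi.symm hsi k k
    rcases hz k hk (hsk hzw) with h | h | h
    · exact absurd h.symm hwk
    · exact h.symm
    · exact absurd h.symm hck
  -- the selected guests
  have hsel : ∀ i : Finset α, ∃ p : Finset α × Finset α, Hat P i →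
      Gst P p.1 i ∧ Gst P p.2 i ∧ (p.1 = p.2 → ∀ w, Gst P w i → w = p.1) := by
    intro i
    by_cases hH : Hat P i
    · obtain ⟨v, hv⟩ := hH
      by_cases h2 : ∃ v', Gst P v' i ∧ v' ≠ v
      · obtain ⟨v', hv', hvv⟩ := h2
        exact ⟨(v, v'), fun _ => ⟨hv, hv', fun he => absurd he.symm hvv⟩⟩
      · push Not at h2
        exact ⟨(v, v), fun _ => ⟨hv, hv, fun _ w hw => h2 w hw⟩⟩
    · exact ⟨(i, i), fun h => absurd h hH⟩
  choose q hq using hsel
  obtain ⟨y0, -⟩ := hne _ (hPJ _ hP.choose_spec)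
  -- the points
  have hpt : ∀ w : Finset α, ∃ p : α × α, w ∈ P → (p.1 ∈ w ∧ p.2 ∈ w) ∧
      (¬ Hat P w → (∀ i, ¬ Gst P w i) → ∀ A ∈ unions J, ∀ i ∈ P, Lf w i A →
        p.1 ∈ A ∨ p.2 ∈ A) ∧
      (∀ i, Gst P w i → (∀ g ∈ P, g ≠ w → g ≠ i → p.1 ∈ g → p.2 ∉ g) ∧ p.1 ≠ p.2 ∧
        (∃ c ∈ P, c ≠ w ∧ c ≠ i ∧ (p.1 ∈ c ∨ p.2 ∈ c)) ∧
        (w ≠ (q i).1 → p.1 ∉ (q i).1 ∧ p.2 ∉ (q i).1)) ∧
      (Hat P w → (∀ g ∈ P, g ≠ w → p.1 ∈ g → p.2 ∉ g) ∧ p.1 ∈ (q w).1 ∧
        ((q w).1 ≠ (q w).2 → p.2 ∈ (q w).2 ∧ ∃ c ∈ P, ∃ c' ∈ P, c ≠ c' ∧ c ≠ w ∧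
          c ≠ (q w).1 ∧ c ≠ (q w).2 ∧ p.1 ∈ c ∧ c' ≠ w ∧ c' ≠ (q w).1 ∧ c' ≠ (q w).2 ∧
          p.2 ∈ c')) := by
    intro w
    by_cases hw : w ∈ P
    swap
    · exact ⟨(y0, y0), fun h => absurd h hw⟩
    by_cases hH : Hat P w
    · -- a hat
      obtain ⟨g1, g2, g3⟩ := hq w hH
      -- a hat is not a guest
      have hng : ∀ i, ¬ Gst P w i := by
        rintro i ⟨-, h2, h3, h4⟩
        have hne1 : (q w).1 ≠ i := by
          intro he
          apply h3
          apply Finset.Subset.antisymm h4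
          rw [← he]
          exact g1.2.2.2
        exact h3 (host (q w).1 w i g1.1 hw h2 g1.2.2.1 hne1 g1.2.2.2 (g1.2.2.2.trans h4))
      by_cases h12 : (q w).1 = (q w).2
      · -- one guest
        obtain ⟨z', hz'w, hz'1⟩ : ∃ z' ∈ w, z' ∉ (q w).1 := by
          by_contra hcon
          push Not at hcon
          exact g1.2.2.1 (Finset.Subset.antisymm g1.2.2.2 hcon)
        -- the other members containing `z'`
        obtain ⟨a, b, hab⟩ : ∃ a b : Finset α, ∀ g ∈ P, z' ∈ g → g = w ∨ g = a ∨ g = b := by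
          by_cases ha : ∃ a ∈ P, z' ∈ a ∧ a ≠ w
          · obtain ⟨a, haP, hza, haw⟩ := ha
            by_cases hb : ∃ b ∈ P, z' ∈ b ∧ b ≠ w ∧ b ≠ a
            · obtain ⟨b, hbP, hzb, hbw, hba⟩ := hb
              refine ⟨a, b, fun g hg hzg => ?_⟩
              exact deg4J (hdeg z') hw haP hbP hg haw.symm hbw.symm hba.symm hz'w hza hzb hzg
            · push Not at hb
              refine ⟨a, a, fun g hg hzg => ?_⟩
              by_cases hgw : g = w
              · exact Or.inl hgw
              · exact Or.inr (Or.inl (hb g hg hzg hgw))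
          · push Not at ha
            exact ⟨w, w, fun g hg hzg => Or.inl (ha g hg hzg)⟩
        obtain ⟨c, hc, z, hz1, hzc, hc1, hcw, hca, hcb, hz⟩ :=
          third g1.1 hw g1.2.2.1.symm g1.2.2.2 a b
        refine ⟨(z, z'), fun _ => ⟨⟨g1.2.2.2 hz1, hz'w⟩, fun h => absurd hH h,
          fun i hi => absurd hi (hng i), fun _ => ⟨?_, hz1, fun h => absurd h12 h⟩⟩⟩
        intro g hg hgw hzg hz'g
        have e1 := hz g hg hzg
        have e2 := hab g hg hz'g
        rcases e1 with h | h | h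
        · rw [h] at hz'g
          exact hz'1 hz'g
        · exact hgw h
        · rcases e2 with h' | h' | h'
          · exact hgw h'
          · exact hca (h.symm.trans h')
          · exact hcb (h.symm.trans h')
      · -- at least two guests
        obtain ⟨c, hc, z, hz1, hzc, hc1, hcw, hc2, -, hz⟩ :=
          third g1.1 hw g1.2.2.1.symm g1.2.2.2 (q w).2 (q w).2
        obtain ⟨c', hc', z', hz'2, hz'c, hc'2, hc'w, hc'1, hc'c, hz'⟩ :=
          third g2.1 hw g2.2.2.1.symm g2.2.2.2 (q w).1 c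
        refine ⟨(z, z'), fun _ => ⟨⟨g1.2.2.2 hz1, g2.2.2.2 hz'2⟩, fun h => absurd hH h,
          fun i hi => absurd hi (hng i), fun _ => ⟨?_, hz1, fun _ => ⟨hz'2, c, hc, c', hc',
            hc'c.symm, hcw, hc1, hc2, hzc, hc'w, hc'1, hc'2, hz'c⟩⟩⟩⟩
        intro g hg hgw hzg hz'g
        have e1 := hz g hg hzg
        have e2 := hz' g hg hz'g
        rcases e1 with h | h | h
        · rcases e2 with h' | h' | h'
          · exact h12 (h.symm.trans h')
          · exact hgw h'
          · exact hc'1 (h'.symm.trans h)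
        · exact hgw h
        · rcases e2 with h' | h' | h'
          · exact hc2 (h.symm.trans h')
          · exact hgw h'
          · exact hc'c (h'.symm.trans h)
    · -- not a hat
      by_cases hins : ∃ i, Gst P w i
      · obtain ⟨i, -, hi, hwi', hwi⟩ := hins
        have hiw : i ≠ w := hwi'.symm
        obtain ⟨c, hc, z, hz1, hzc, hcw, hci, hcq, -, hz⟩ := third hw hi hiw hwi (q i).1 (q i).1
        obtain ⟨c', hc', z', hz'1, hz'c, hc'w, hc'i, hc'c, hc'q, hz'⟩ :=
          third hw hi hiw hwi c (q i).1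
        have hsep : ∀ g ∈ P, g ≠ w → g ≠ i → z ∈ g → z' ∉ g := by
          intro g hg hgw hgi hzg hz'g
          have e1 := hz g hg hzg
          have e2 := hz' g hg hz'g
          rcases e1 with h | h | h
          · exact hgw h
          · exact hgi h
          · rcases e2 with h' | h' | h'
            · exact hgw h'
            · exact hgi h'
            · exact hc'c (h'.symm.trans h)
        refine ⟨(z, z'), fun _ => ⟨⟨hz1, hz'1⟩, ?_, ?_, fun h => absurd h hH⟩⟩
        · intro _ hng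
          exact absurd ⟨hw, hi, hwi', hwi⟩ (hng i)
        · rintro k ⟨-, hk, hwk, hsk⟩
          have hki : k = i := host w k i hw hk hi hwk hiw.symm hsk hwi
          subst hki
          refine ⟨hsep, ?_, ⟨c, hc, hcw, hci, Or.inl hzc⟩, ?_⟩
          · intro he
            have he' : z = z' := he
            rcases hz c' hc' (by rw [he']; exact hz'c) with h | h | h
            · exact hc'w h
            · exact hc'i h
            · exact hc'c h
          · intro hwq
            have hHk : Hat P k := ⟨w, hw, hk, hwk, hsk⟩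
            obtain ⟨g1, -, -⟩ := hq k hHk
            constructor
            · intro hmem
              rcases hz _ g1.1 hmem with h | h | h
              · exact hwq h.symm
              · exact g1.2.2.1 h
              · exact hcq h.symm
            · intro hmem
              rcases hz' _ g1.1 hmem with h | h | h
              · exact hwq h.symm
              · exact g1.2.2.1 h
              · exact hc'q h.symm
      · obtain ⟨y, hy, y', hy', hyy⟩ := exists_sep hne hdeg PC comp hnd hw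
          (fun i hi hiw hs => hins ⟨i, hw, hi, hiw.symm, hs⟩)
        refine ⟨(y, y'), fun _ => ⟨⟨hy, hy'⟩, ?_, fun i hi => absurd ⟨i, hi⟩ hins,
          fun h => absurd h hH⟩⟩
        intro _ _ A _ i hi hL
        by_contra hcon
        push Not at hcon
        exact hyy i hi hL.1.symm ⟨hL.2.2 (Finset.mem_sdiff.2 ⟨hy, hcon.1⟩),
          hL.2.2 (Finset.mem_sdiff.2 ⟨hy', hcon.2⟩)⟩
  choose p hp using hpt
  refine ⟨fun w => (p w).1, fun w => (p w).2, fun w => (q w).1, fun w => (q w).2, ?_⟩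
  exact
    { PC := PC
      comp := comp
      deg := hdeg
      hx := fun w hw => (hp w hw).1.1
      hx' := fun w hw => (hp w hw).1.2
      host := fun w i k h1 h2 => host w i k h1.1 h1.2.1 h2.2.1 h1.2.2.1
        h2.2.2.1 h1.2.2.2 h2.2.2.2
      low := by
        intro w hw hH hG A hA i hi hL
        have hor := (hp w hw).2.1 hH hG A hA i hi hL
        unfold uu
        rcases hor with hor | hor
        · rw [if_pos hor]
          split_ifs <;> omega
        · rw [if_pos hor]
          split_ifs <;> omega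
      sepG := fun w i hG => ((hp w hG.1).2.2.1 i hG).1
      neG := fun w i hG => ((hp w hG.1).2.2.1 i hG).2.1
      thG := fun w i hG => ((hp w hG.1).2.2.1 i hG).2.2.1
      sepH := fun i hH => ((hp i hH.choose_spec.2.1).2.2.2 hH).1
      sel1 := fun i hH => ⟨(hq i hH).1, ((hp i hH.choose_spec.2.1).2.2.2 hH).2.1⟩
      sel2 := fun i hH => (hq i hH).2.1
      one := fun i hH => (hq i hH).2.2
      two := fun i hH h12 => ⟨(((hp i hH.choose_spec.2.1).2.2.2 hH).2.2 h12).1,
        fun v hv hv1 => ((hp v hv.1).2.2.1 i hv).2.2.2 hv1⟩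
      thH := fun i hH h12 => (((hp i hH.choose_spec.2.1).2.2.2 hH).2.2 h12).2 }

end Pool.Agent.H83.ELZ
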