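import Pool.Agent.H83.ELZ.T8Defs

/-!
# Degree three with nested generators (MP_75f39d): completeness of the token scheme
-/

set_option autoImplicit false

namespace Pool.Agent.H83.ELZ

open Finset Pool.Agent.H97.GEN

variable {α : Type*} [DecidableEq α]

section

variable {J P : Finset (Finset α)} {x x' : Finset α → α} {w1 w2 : Finset α → Finset α}

lemma US_one {A o i B : Finset α} {y : α} {g : Finset α} (hB : B ∈ unions J) (hg : g ∈ J)
    (hy : y ∈ g) (hU : Use J P x x' w1 w2 o A i B y) : 1 ≤ (US J P x x' w1 w2 A o i).card :=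
  Finset.card_pos.2 ⟨(B, y), mem_US.2 ⟨⟨hB, mem_sup_id.2 ⟨g, hg, hy⟩⟩, hU⟩⟩

lemma US_two {A o i B : Finset α} {y y' : α} {g : Finset α} (hB : B ∈ unions J) (hg : g ∈ J)
    (hy : y ∈ g) (hy' : y' ∈ g) (hne : y ≠ y') (hU : Use J P x x' w1 w2 o A i B y)
    (hU' : Use J P x x' w1 w2 o A i B y') : 2 ≤ (US J P x x' w1 w2 A o i).card := by
  classical
  have hsub : ({(B, y), (B, y')} : Finset (Finset α × α)) ⊆ US J P x x' w1 w2 A o i := by
    intro s hs
    rw [Finset.mem_insert, Finset.mem_singleton] at hs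
    rcases hs with rfl | rfl
    · exact mem_US.2 ⟨⟨hB, mem_sup_id.2 ⟨g, hg, hy⟩⟩, hU⟩
    · exact mem_US.2 ⟨⟨hB, mem_sup_id.2 ⟨g, hg, hy'⟩⟩, hU'⟩
  have h2 : ({(B, y), (B, y')} : Finset (Finset α × α)).card = 2 := by
    rw [Finset.card_pair]
    intro he
    exact hne (Prod.mk.inj he).2
  rw [← h2]
  exact Finset.card_le_card hsub

/-- The tokens from `o`. -/
noncomputable def tt (J P : Finset (Finset α)) (x x' : Finset α → α)
    (w1 w2 : Finset α → Finset α) (A i o : Finset α) : ℕ :=
  b1 J P x x' A o i + b2 J P x x' w1 w2 A o i + (US J P x x' w1 w2 A o i).card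

lemma b1_pos {A w i : Finset α} (hL : Lf w i A) (hS : Sim J A w) (hu : uu x x' w A ≤ 1) :
    1 ≤ b1 J P x x' A w i := by
  classical
  unfold b1
  rw [if_pos ⟨hL, hS, hu⟩]
  split_ifs <;> omega

lemma b1_two {A w i : Finset α} (hL : Lf w i A) (hS : Sim J A w) (hu : uu x x' w A ≤ 1)
    (h : uu x x' w A = 0 ∨ Uq J P x x' A w i) : 2 ≤ b1 J P x x' A w i := by
  classical
  unfold b1
  rw [if_pos ⟨hL, hS, hu⟩, if_pos h]

lemma b2_pos {A w i : Finset α} (hL : Lf w i A) (hS : ¬ Sim J A w) (hu : uu x x' w A = 0)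
    (hG : GI P w A) : 1 ≤ b2 J P x x' w1 w2 A w i := by
  classical
  unfold b2
  rw [if_pos ⟨hL, hS, hu, hG⟩]
  split_ifs <;> omega

lemma b2_two {A w i : Finset α} (hL : Lf w i A) (hS : ¬ Sim J A w) (hu : uu x x' w A = 0)
    (hG : GI P w A) (hH : ¬ Hat P w) : 2 ≤ b2 J P x x' w1 w2 A w i := by
  classical
  unfold b2
  rw [if_pos ⟨hL, hS, hu, hG⟩, if_neg (fun h => hH h.1)]

lemma sy_mem8 (h : H8 J P x x' w1 w2) {w A : Finset α} (hw : w ∈ P) : sy x x' w A ∈ w := by
  unfold sy
  by_cases hxA : x w ∉ A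
  · rw [if_pos hxA]
    exact h.hx w hw
  · rw [if_neg hxA]
    exact h.hx' w hw

/-- Own pairs: a guest and its host with the same trace. -/
lemma H8.own_two (h : H8 J P x x' w1 w2) {A i w k : Finset α} (hA : A ∈ unions J)
    (hL : Lf w i A) (hG : Gst P w k) (hk : k ⊆ A ∪ w) (hkA : ¬ k ⊆ A)
    (hu : uu x x' w A ≤ 1) : 2 ≤ tt J P x x' w1 w2 A i w := by
  have hS : ¬ Sim J A w := by
    intro hS
    rcases hS k (h.PJ hG.2.1) hk with h' | h'
    · exact hkA h'
    · exact hG.2.2.1 h'.symm
  have hnH := h.not_hat hG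
  by_cases h0 : uu x x' w A = 0
  · have := b2_two (w1 := w1) (w2 := w2) hL hS h0 (fun v hv => absurd ⟨v, hv⟩ hnH) hnH
    unfold tt
    omega
  · have hu1 : uu x x' w A = 1 := by omega
    have := US_two (g := w) (union_mem hA (self_mem (h.PJ hG.1))) (h.PJ hG.1) (h.hx w hG.1)
      (h.hx' w hG.1) (h.neG w k hG) (Use.k2 (J := J) (w1 := w1) (w2 := w2) w A i k (x w) hL hu1 hG hk (Or.inl rfl))
      (Use.k2 (w1 := w1) (w2 := w2) w A i k (x' w) hL hu1 hG hk (Or.inr rfl))
    unfold tt
    omega

/-- A member of a pair with the same trace, not an own pair, gives one token. -/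
lemma H8.tw_one (h : H8 J P x x' w1 w2) {A i g v : Finset α} (hA : A ∈ unions J) (hi : i ∈ P)
    (hd : Dem J x x' A i) (hg : g ∈ P) (hv : v ∈ P) (hgv : g ≠ v) (hL : Lf g i A)
    (hLv : Lf v i A) (htr : v \ A = g \ A) (hT : Tight J A g) (hu : uu x x' g A ≤ 1)
    (h1 : ¬ Gst P g v) (h2 : ¬ Gst P v g) (h3 : ¬ Gst P i g) :
    1 ≤ tt J P x x' w1 w2 A i g := by
  have hvsub : v ⊆ A ∪ g := by
    intro z hz
    by_cases hzA : z ∈ A
    · exact Finset.mem_union_left _ hzA
    · have : z ∈ v \ A := Finset.mem_sdiff.2 ⟨hz, hzA⟩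
      rw [htr] at this
      exact Finset.mem_union_right _ (Finset.mem_sdiff.1 this).1
  have hS : ¬ Sim J A g := by
    intro hS
    rcases hS v (h.PJ hv) hvsub with h' | h'
    · exact hLv.2.1 h'
    · exact hgv h'.symm
  obtain ⟨z, hz⟩ := hL.nonempty
  have hzg := (Finset.mem_sdiff.1 hz).1
  have hzv : z ∈ v := by
    rw [← htr] at hz
    exact (Finset.mem_sdiff.1 hz).1
  have hzi := hL.2.2 hz
  have four : ∀ u ∈ P, u \ A = g \ A → u = g ∨ u = v ∨ u = i := by
    intro u hu' hutr
    have hzu : z ∈ u := by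
      rw [← hutr] at hz
      exact (Finset.mem_sdiff.1 hz).1
    exact h.deg4 hg hv hi hu' hgv hL.1 hLv.1 hzg hzv hzi hzu
  have hG : GI P g A := by
    intro u hu'
    by_contra huA
    have hutr : u \ A = g \ A :=
      hT u (h.PJ hu'.1) (hu'.2.2.2.trans Finset.subset_union_right) huA
    rcases four u hu'.1 hutr with h' | h' | h'
    · exact hu'.2.2.1 h'
    · rw [h'] at hu'
      exact h2 hu'
    · rw [h'] at hu'
      exact h3 hu'
  by_cases h0 : uu x x' g A = 0
  · have := b2_pos (w1 := w1) (w2 := w2) hL hS h0 hG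
    unfold tt
    omega
  · have hu1 : uu x x' g A = 1 := by omega
    have hh : ∀ k, Gst P g k → ¬ k ⊆ A ∪ g := by
      intro k hk hksub
      have hkA : ¬ k ⊆ A := fun hkA => hL.2.1 (hk.2.2.2.trans hkA)
      have hktr : k \ A = g \ A := hT k (h.PJ hk.2.1) hksub hkA
      rcases four k hk.2.1 hktr with h' | h' | h'
      · exact hk.2.2.1 h'.symm
      · rw [h'] at hk
        exact h1 hk
      · rw [h'] at hksub
        have hLi : Lf i g A := ⟨hL.1.symm, hd.1, (sdiff_sub_of hksub).trans Finset.sdiff_subset⟩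
        exact h3 (h.gst_of_Lf hA hi hg hd hLi)
    have := US_one (g := g) (union_mem hA (self_mem (h.PJ hg))) (h.PJ hg) (sy_mem8 h hg)
      (Use.k1 (w1 := w1) (w2 := w2) g A i hL hS hu1 hT hG hh)
    unfold tt
    omega

lemma tt_le_sum {A i g : Finset α} (hg : g ∈ P) :
    tt J P x x' w1 w2 A i g ≤ ∑ o ∈ P, tt J P x x' w1 w2 A i o :=
  Finset.single_le_sum (f := fun o => tt J P x x' w1 w2 A i o) (fun _ _ => Nat.zero_le _) hg

lemma tt_two {A i g g' : Finset α} (hg : g ∈ P) (hg' : g' ∈ P) (hne : g ≠ g')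
    (h1 : 1 ≤ tt J P x x' w1 w2 A i g) (h2 : 1 ≤ tt J P x x' w1 w2 A i g') :
    2 ≤ ∑ o ∈ P, tt J P x x' w1 w2 A i o := by
  have hsub : ({g, g'} : Finset (Finset α)) ⊆ P := by
    intro u hu
    rw [Finset.mem_insert, Finset.mem_singleton] at hu
    rcases hu with rfl | rfl
    · exact hg
    · exact hg'
  calc 2 ≤ tt J P x x' w1 w2 A i g + tt J P x x' w1 w2 A i g' := by omega
    _ = ∑ o ∈ ({g, g'} : Finset (Finset α)), tt J P x x' w1 w2 A i o := by
        rw [Finset.sum_pair hne]
    _ ≤ _ := Finset.sum_le_sum_of_subset hsub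

/-- A tight good member that is not simple. -/
lemma H8.tight_two (h : H8 J P x x' w1 w2) {A i g : Finset α} (hA : A ∈ unions J) (hi : i ∈ P)
    (hd : Dem J x x' A i) (hg : g ∈ P) (hL : Lf g i A) (hu : uu x x' g A ≤ 1)
    (hS : ¬ Sim J A g) (hT : Tight J A g) (hgi : ¬ Gst P i g) :
    2 ≤ ∑ o ∈ P, tt J P x x' w1 w2 A i o := by
  obtain ⟨v, hvJ, hsub, hn, hvg⟩ := not_sim hS
  have hvi : v ≠ i := by
    rintro rfl
    exact hgi (h.gst_of_Lf hA hi hg hd ⟨hvg, hn, (sdiff_sub_of hsub).trans Finset.sdiff_subset⟩)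
  have hLv := Lf_of_sub hL hsub hn hvi
  have hv := h.Lf_mem hA hi hvJ hLv
  have htr : v \ A = g \ A := hT v hvJ hsub hn
  have huv : uu x x' v A ≤ 1 := by
    rcases h.good_or hA hv hi hLv with h' | h'
    · exact h'
    · by_contra hcon
      have h2 := uu_le_two (x := x) (x' := x') v A
      have h3 : uu x x' v A = 2 := by omega
      rw [uu_eq_two] at h3
      have e1 : x v ∈ g := by
        have : x v ∈ v \ A := Finset.mem_sdiff.2 ⟨h.hx v hv, h3.1⟩
        rw [htr] at this
        exact (Finset.mem_sdiff.1 this).1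
      have e2 : x' v ∈ g := by
        have : x' v ∈ v \ A := Finset.mem_sdiff.2 ⟨h.hx' v hv, h3.2⟩
        rw [htr] at this
        exact (Finset.mem_sdiff.1 this).1
      exact h.sepG v i h' g hg hvg.symm hL.1 e1 e2
  have hgsub : g ⊆ A ∪ v := by
    intro z hz
    by_cases hzA : z ∈ A
    · exact Finset.mem_union_left _ hzA
    · have : z ∈ g \ A := Finset.mem_sdiff.2 ⟨hz, hzA⟩
      rw [← htr] at this
      exact Finset.mem_union_right _ (Finset.mem_sdiff.1 this).1
  have hTv : Tight J A v := by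
    intro u hu' hsubu hnu
    rw [htr]
    apply hT u hu' _ hnu
    intro z hz
    rcases Finset.mem_union.1 (hsubu hz) with h' | h'
    · exact Finset.mem_union_left _ h'
    · exact hsub h'
  by_cases o1 : Gst P g v
  · exact (h.own_two hA hL o1 hsub hn hu).trans (tt_le_sum hg)
  · by_cases o2 : Gst P v g
    · exact (h.own_two hA hLv o2 hgsub hL.2.1 huv).trans (tt_le_sum hv)
    · have h3v : ¬ Gst P i v := by
        intro hiv
        have h3 := hd.2.2
        rw [uu_eq_two] at h3
        have key : ∀ z ∈ i, z ∉ A → z ∈ g := by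
          intro z hz hzA
          have : z ∈ v \ A := Finset.mem_sdiff.2 ⟨hiv.2.2.2 hz, hzA⟩
          rw [htr] at this
          exact (Finset.mem_sdiff.1 this).1
        exact h.sepG i v hiv g hg hL.1 hvg.symm (key _ (h.hx i hi) h3.1)
          (key _ (h.hx' i hi) h3.2)
      exact tt_two hg hv hvg.symm
        (h.tw_one hA hi hd hg hv hvg.symm hL hLv htr hT hu o1 o2 hgi)
        (h.tw_one hA hi hd hv hg hvg hLv hL htr.symm hTv huv o2 o1 h3v)

/-- Completeness for guests. -/
lemma H8.complete_guest (h : H8 J P x x' w1 w2) {A i k : Finset α} (hA : A ∈ unions J)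
    (hd : Dem J x x' A i) (hG : Gst P i k) :
    2 ≤ ∑ o ∈ P, tt J P x x' w1 w2 A i o := by
  have hi := hG.1
  have hnH := h.not_hat hG
  have good : ∀ g ∈ P, Lf g i A → uu x x' g A ≤ 1 := by
    intro g hg hL
    rcases h.good_or hA hg hi hL with h' | h'
    · exact h'
    · exact absurd ⟨g, h'⟩ hnH
  have simp' : ∀ g ∈ P, Lf g i A → g ≠ k → Sim J A g := by
    intro g hg hL hgk
    by_contra hS
    obtain ⟨v, hvJ, hsub, hn, hvg⟩ := not_sim hS
    have hni : ¬ i ⊆ A ∪ g := by
      intro hig
      have := h.gst_of_Lf hA hi hg hd ⟨hL.1.symm, hd.1, (sdiff_sub_of hig).trans Finset.sdiff_subset⟩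
      exact hgk (h.host i g k this hG)
    have hvi : v ≠ i := by
      rintro rfl
      exact hni hsub
    have hvk : v ≠ k := by
      rintro rfl
      exact hni (hG.2.2.2.trans hsub)
    have hLv := Lf_of_sub hL hsub hn hvi
    have hv := h.Lf_mem hA hi hvJ hLv
    obtain ⟨z, hz⟩ := hLv.nonempty
    have hzg := (Finset.mem_sdiff.1 (sdiff_sub_of hsub hz)).1
    have hzi := hLv.2.2 hz
    rcases h.deg4 hg hi hG.2.1 hv hL.1 hgk hG.2.2.1 hzg hzi (hG.2.2.2 hzi)
      (Finset.mem_sdiff.1 hz).1 with h' | h' | h'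
    · exact hvg h'
    · exact hvi h'
    · exact hvk h'
  by_cases hex : ∃ g ∈ P, Lf g i A ∧ g ≠ k
  · obtain ⟨g, hg, hL, hgk⟩ := hex
    have hS := simp' g hg hL hgk
    have hu := good g hg hL
    by_cases h0 : uu x x' g A = 0 ∨ Uq J P x x' A g i
    · have := b1_two hL hS hu h0
      refine le_trans ?_ (tt_le_sum hg)
      unfold tt
      omega
    · push Not at h0
      obtain ⟨h0, hUq⟩ := h0
      have hu1 : uu x x' g A = 1 := by omega
      have hUq' := hUq
      unfold Uq at hUq
      push Not at hUq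
      obtain ⟨d, hdP, hdd, hdL, hdi⟩ := hUq
      obtain ⟨z, hz⟩ := hL.nonempty
      have hzi := hL.2.2 hz
      have hdk : d = k := by
        rcases h.deg4 hg hi hG.2.1 hdP hL.1 hgk hG.2.2.1 (Finset.mem_sdiff.1 hz).1 hzi
          (hG.2.2.2 hzi) (hdL.2.2 hz) with h' | h' | h'
        · exact absurd h'.symm hdL.1
        · exact absurd h' hdi
        · exact h'
      have hkL : ¬ Lf k i A := by
        intro hkL
        rw [hdk] at hdd
        have := h.gst_of_Lf hA hG.2.1 hi hdd hkL
        exact hG.2.2.1 (Finset.Subset.antisymm hG.2.2.2 this.2.2.2)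
      by_cases hall : ∀ g' ∈ P, Lf g' i A → g' = g
      · have e1 := b1_pos (P := P) hL hS hu
        have e2 := US_one (g := g) (union_mem hA (self_mem (h.PJ hi))) (h.PJ hg) (sy_mem8 h hg)
          (Use.k3 (w1 := w1) (w2 := w2) g A i hL hS hu1 hUq' hall hnH)
        refine le_trans ?_ (tt_le_sum hg)
        unfold tt
        omega
      · push Not at hall
        obtain ⟨g', hg', hL', hg'g⟩ := hall
        have hg'k : g' ≠ k := by
          rintro rfl
          exact hkL hL'
        apply tt_two hg hg' hg'g.symm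
        · have := b1_pos (P := P) hL hS hu
          unfold tt
          omega
        · have := b1_pos (P := P) hL' (simp' g' hg' hL' hg'k) (good g' hg' hL')
          unfold tt
          omega
  · push Not at hex
    obtain ⟨g, hgJ, hsub, hn, hgi⟩ := not_sim hd.2.1
    have hLg : Lf g i A := ⟨hgi, hn, (sdiff_sub_of hsub).trans Finset.sdiff_subset⟩
    have hgk := hex g (h.Lf_mem hA hi hgJ hLg) hLg
    rw [hgk] at hsub
    have := US_two (g := i) (union_mem hA (self_mem (h.PJ hi))) (h.PJ hi) (h.hx i hi)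
      (h.hx' i hi) (h.neG i k hG)
      (Use.k4 (w1 := w1) (w2 := w2) A i k (x i) hG hsub hex (Or.inl rfl))
      (Use.k4 (w1 := w1) (w2 := w2) A i k (x' i) hG hsub hex (Or.inr rfl))
    refine le_trans ?_ (tt_le_sum hi)
    unfold tt
    omega

lemma AA_memJ {A i : Finset α} (hA : A ∈ unions J) (h1 : w1 i ∈ J) (h2 : w2 i ∈ J) :
    AA w1 w2 A i ∈ unions J := by
  unfold AA
  exact union_mem hA (union_mem (self_mem h1) (self_mem h2))

/-- The selected guests are swallowed by a hat demand. -/
lemma H8.w1_Lf (h : H8 J P x x' w1 w2) {A i : Finset α} (hH : Hat P i)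
    (hd : Dem J x x' A i) : Lf (w1 i) i A := by
  have h3 := hd.2.2
  rw [uu_eq_two] at h3
  obtain ⟨hG, hxw⟩ := h.sel1 i hH
  exact ⟨hG.2.2.1, fun hs => h3.1 (hs hxw), Finset.sdiff_subset.trans hG.2.2.2⟩

lemma H8.w2_Lf (h : H8 J P x x' w1 w2) {A i : Finset α} (hH : Hat P i)
    (hd : Dem J x x' A i) : Lf (w2 i) i A := by
  by_cases h12 : w1 i = w2 i
  · rw [← h12]
    exact h.w1_Lf hH hd
  · have h3 := hd.2.2
    rw [uu_eq_two] at h3
    have hG := h.sel2 i hH
    exact ⟨hG.2.2.1, fun hs => h3.2 (hs (h.two i hH h12).1), Finset.sdiff_subset.trans hG.2.2.2⟩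

/-- The tokens of a hat demand beyond those of the good members. -/
lemma H8.hat_need (h : H8 J P x x' w1 w2) {A i : Finset α} (hA : A ∈ unions J) (hi : i ∈ P)
    (hd : Dem J x x' A i) (hH : Hat P i) :
    (Empt P x x' A i → 2 ≤ ∑ o ∈ P, (US J P x x' w1 w2 A o i).card + bo J P x x' w1 w2 A i) ∧
    ((∃ g, Lonely J P x x' A i g) →
      1 ≤ ∑ o ∈ P, (US J P x x' w1 w2 A o i).card + bo J P x x' w1 w2 A i) := by
  classical
  obtain ⟨hG1, hx1⟩ := h.sel1 i hH
  have hG2 := h.sel2 i hH
  have hJ1 := h.PJ hG1.1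
  have hJ2 := h.PJ hG2.1
  have sum1 : ∀ o ∈ P, (US J P x x' w1 w2 A o i).card ≤ ∑ o ∈ P, (US J P x x' w1 w2 A o i).card :=
    fun o ho => Finset.single_le_sum (f := fun o => (US J P x x' w1 w2 A o i).card)
      (fun _ _ => Nat.zero_le _) ho
  have hEL : Empt P x x' A i → ¬ ∃ g, Lonely J P x x' A i g := by
    rintro hE ⟨g, hg⟩
    exact hE g hg.1 hg.2.1 (by rw [hg.2.2.2.2.1])
  have hxi : x i ≠ x' i := by
    intro he
    have := h.sepH i hH (w1 i) hG1.1 hG1.2.2.1 hx1
    rw [← he] at this
    exact this hx1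
  by_cases hO : Only P w1 w2 A i
  · by_cases hin : i ⊆ AA w1 w2 A i
    · have h12 : w1 i ≠ w2 i := by
        intro h12
        have hin' : i ⊆ A ∪ w1 i := by
          intro z hz
          have := hin hz
          unfold AA at this
          rw [← h12, Finset.union_self] at this
          exact this
        have := h.gst_of_Lf hA hi hG1.1 hd
          ⟨hG1.2.2.1.symm, hd.1, (sdiff_sub_of hin').trans Finset.sdiff_subset⟩
        exact h.not_gst hH this
      have hb : ¬ Blk J P x x' w1 w2 A i := by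
        rintro ⟨g, hg, hg1, hg2, -⟩
        rcases hO g hg.1 hg.2.1 with h' | h'
        · exact hg1 h'
        · exact hg2 h'
      constructor
      · intro hE
        have := US_two (g := i) (AA_memJ hA hJ1 hJ2) (h.PJ hi) (h.hx i hi) (h.hx' i hi) hxi
          (Use.k9 A i (x i) hH h12 hin hb (Or.inl ⟨hE, Or.inl rfl⟩))
          (Use.k9 A i (x' i) hH h12 hin hb (Or.inl ⟨hE, Or.inr rfl⟩))
        have := sum1 i hi
        omega
      · intro hg
        have := US_one (g := i) (AA_memJ hA hJ1 hJ2) (h.PJ hi) (h.hx i hi)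
          (Use.k9 A i (x i) hH h12 hin hb (Or.inr ⟨hg, rfl⟩))
        have := sum1 i hi
        omega
    · constructor
      · intro hE
        have := US_two (g := w1 i) (union_mem hA (self_mem (h.PJ hi))) hJ1 (h.hx _ hG1.1)
          (h.hx' _ hG1.1) (h.neG _ _ hG1)
          (Use.k5 A i (x (w1 i)) hH hO hin (Or.inl ⟨hE, Or.inl rfl⟩))
          (Use.k5 A i (x' (w1 i)) hH hO hin (Or.inl ⟨hE, Or.inr rfl⟩))
        have := sum1 (w1 i) hG1.1
        omega
      · intro hg
        have := US_one (g := w1 i) (union_mem hA (self_mem (h.PJ hi))) hJ1 (h.hx _ hG1.1)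
          (Use.k5 A i (x (w1 i)) hH hO hin (Or.inr ⟨hg, rfl⟩))
        have := sum1 (w1 i) hG1.1
        omega
  · by_cases h12 : w1 i = w2 i
    · -- one guest
      have hO' := hO
      unfold Only at hO'
      push Not at hO'
      obtain ⟨g0, hg0, hL0, hne1, -⟩ := hO'
      have hgood : uu x x' g0 A ≤ 1 := by
        rcases h.good_or hA hg0 hi hL0 with h' | h'
        · exact h'
        · exact absurd (h.one i hH h12 g0 h') hne1
      constructor
      · intro hE
        exact absurd hgood (hE g0 hg0 hL0)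
      · rintro ⟨g, hg⟩
        have hgg : g0 = g := hg.2.2.1 g0 hg0 hL0 hgood
        have hg1 : g ≠ w1 i := by
          rw [← hgg]
          exact hne1
        by_cases hr : i ⊆ ((K J (A ∪ i)).erase i).sup id
        · have := US_one (g := i) (union_mem hA (self_mem (h.PJ hi))) (h.PJ hi) (h.hx i hi)
            (Use.k6 A i g hH h12 hg hg1 hr)
          have := sum1 i hi
          omega
        · have := US_one (g := g) (union_mem hA (self_mem (h.PJ hi))) (h.PJ hg.1)
            (sy_mem8 h hg.1) (Use.k7 A i g hH h12 hg hg1 hr)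
          have := sum1 g hg.1
          omega
    · by_cases hb : Blk J P x x' w1 w2 A i
      · obtain ⟨g, hg, hg1, hg2, hgA⟩ := hb
        constructor
        · intro hE
          exact absurd ⟨g, hg⟩ (hEL hE)
        · intro _
          have := US_one (g := g) (AA_memJ hA hJ1 hJ2) (h.PJ hg.1)
            (sy_mem8 h hg.1) (Use.k8 A i g hH h12 hg hg1 hg2 hgA)
          have := sum1 g hg.1
          omega
      · by_cases hin : i ⊆ AA w1 w2 A i
        · constructor
          · intro hE
            have := US_two (g := i) (AA_memJ hA hJ1 hJ2) (h.PJ hi) (h.hx i hi) (h.hx' i hi) hxi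
              (Use.k9 A i (x i) hH h12 hin hb (Or.inl ⟨hE, Or.inl rfl⟩))
              (Use.k9 A i (x' i) hH h12 hin hb (Or.inl ⟨hE, Or.inr rfl⟩))
            have := sum1 i hi
            omega
          · intro hg
            have := US_one (g := i) (AA_memJ hA hJ1 hJ2) (h.PJ hi) (h.hx i hi)
              (Use.k9 A i (x i) hH h12 hin hb (Or.inr ⟨hg, rfl⟩))
            have := sum1 i hi
            omega
        · constructor
          · intro hE
            have : bo J P x x' w1 w2 A i = 2 := by
              unfold bo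
              rw [if_pos ⟨hH, h12, hin, hO, hb⟩, if_pos hE]
            omega
          · intro hg
            have hE : ¬ Empt P x x' A i := fun hE => hEL hE hg
            have : bo J P x x' w1 w2 A i = 1 := by
              unfold bo
              rw [if_pos ⟨hH, h12, hin, hO, hb⟩, if_neg hE, if_pos hg]
            omega

/-- **Completeness**: every demand receives two tokens. -/
theorem H8.complete (h : H8 J P x x' w1 w2) {A i : Finset α} (hA : A ∈ unions J) (hi : i ∈ P)
    (hd : Dem J x x' A i) :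
    2 ≤ ∑ o ∈ P, tt J P x x' w1 w2 A i o + bo J P x x' w1 w2 A i := by
  classical
  by_cases hguest : ∃ k, Gst P i k
  · obtain ⟨k, hk⟩ := hguest
    have := h.complete_guest hA hd hk
    omega
  push Not at hguest
  -- anything swallowed by a good member is good
  have key : ∀ g ∈ P, Lf g i A → ∀ v ∈ J, v ⊆ A ∪ g → ¬ v ⊆ A → v ≠ g →
      v ∈ P ∧ Lf v i A ∧ uu x x' v A ≤ 1 := by
    intro g hg hL v hvJ hsub hn hvg
    have hvi : v ≠ i := by
      rintro rfl
      exact hguest g (h.gst_of_Lf hA hi hg hd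
        ⟨hvg, hn, (sdiff_sub_of hsub).trans Finset.sdiff_subset⟩)
    have hLv := Lf_of_sub hL hsub hn hvi
    have hv := h.Lf_mem hA hi hvJ hLv
    refine ⟨hv, hLv, ?_⟩
    rcases h.good_or hA hv hi hLv with h' | h'
    · exact h'
    · by_contra hcon
      have h2 := uu_le_two (x := x) (x' := x') v A
      have h3 : uu x x' v A = 2 := by omega
      rw [uu_eq_two] at h3
      have e1 : x v ∈ g := (Finset.mem_sdiff.1 (sdiff_sub_of hsub
        (Finset.mem_sdiff.2 ⟨h.hx v hv, h3.1⟩))).1
      have e2 : x' v ∈ g := (Finset.mem_sdiff.1 (sdiff_sub_of hsub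
        (Finset.mem_sdiff.2 ⟨h.hx' v hv, h3.2⟩))).1
      exact h.sepG v i h' g hg hvg.symm hL.1 e1 e2
  have sums : ∀ g ∈ P, b1 J P x x' A g i + (∑ o ∈ P, (US J P x x' w1 w2 A o i).card)
      ≤ ∑ o ∈ P, tt J P x x' w1 w2 A i o := by
    intro g hg
    unfold tt
    rw [Finset.sum_add_distrib, Finset.sum_add_distrib]
    have := Finset.single_le_sum (f := fun o => b1 J P x x' A o i)
      (fun _ _ => Nat.zero_le _) hg
    omega
  have sums0 : (∑ o ∈ P, (US J P x x' w1 w2 A o i).card)
      ≤ ∑ o ∈ P, tt J P x x' w1 w2 A i o := (Nat.le_add_left _ _).trans (sums i hi)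
  set L := P.filter fun g => Lf g i A ∧ uu x x' g A ≤ 1 with hLdef
  by_cases hLne : L.Nonempty
  · obtain ⟨g, hgL, hmin⟩ := Finset.exists_min_image L (fun w => (w \ A).card) hLne
    obtain ⟨hg, hL, hu⟩ := Finset.mem_filter.1 hgL
    by_cases hS : Sim J A g
    · by_cases h0 : uu x x' g A = 0 ∨ Uq J P x x' A g i
      · have := b1_two hL hS hu h0
        have := sums g hg
        omega
      · push Not at h0
        obtain ⟨h0, hUq⟩ := h0
        have hu1 : uu x x' g A = 1 := by omega
        have hb := b1_pos (P := P) hL hS hu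
        have hUq' := hUq
        unfold Uq at hUq
        push Not at hUq
        obtain ⟨d, hdP, hdd, hdL, hdi⟩ := hUq
        by_cases hall : ∀ g' ∈ P, Lf g' i A → uu x x' g' A ≤ 1 → g' = g
        · have hlon : Lonely J P x x' A i g := ⟨hg, hL, hall, hS, hu1, hUq'⟩
          by_cases hH : Hat P i
          · have := (h.hat_need hA hi hd hH).2 ⟨g, hlon⟩
            have := sums g hg
            omega
          · have hall' : ∀ g' ∈ P, Lf g' i A → g' = g := by
              intro g' hg' hL'
              rcases h.good_or hA hg' hi hL' with h' | h'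
              · exact hall g' hg' hL' h'
              · exact absurd ⟨g', h'⟩ hH
            have e2 := US_one (g := g) (union_mem hA (self_mem (h.PJ hi))) (h.PJ hg)
              (sy_mem8 h hg) (Use.k3 (w1 := w1) (w2 := w2) g A i hL hS hu1 hUq' hall' hH)
            have e3 := Finset.single_le_sum (f := fun o => (US J P x x' w1 w2 A o i).card)
              (fun _ _ => Nat.zero_le _) hg
            have := sums g hg
            omega
        · push Not at hall
          obtain ⟨g1, hg1, hL1, hu1', hg1g⟩ := hall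
          have hL'ne : (L.erase g).Nonempty :=
            ⟨g1, Finset.mem_erase.2 ⟨hg1g, Finset.mem_filter.2 ⟨hg1, hL1, hu1'⟩⟩⟩
          obtain ⟨g', hg'L, hmin'⟩ :=
            Finset.exists_min_image (L.erase g) (fun w => (w \ A).card) hL'ne
          obtain ⟨hg'g, hg'L'⟩ := Finset.mem_erase.1 hg'L
          obtain ⟨hg', hL', hu'⟩ := Finset.mem_filter.1 hg'L'
          by_cases hS' : Sim J A g'
          · have : 2 ≤ ∑ o ∈ P, tt J P x x' w1 w2 A i o := by
              apply tt_two hg hg' hg'g.symm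
              · unfold tt
                omega
              · have := b1_pos (P := P) hL' hS' hu'
                unfold tt
                omega
            omega
          · have hT : Tight J A g' := by
              intro v hvJ hsub hn
              by_cases hvg' : v = g'
              · rw [hvg']
              · obtain ⟨hv, hLv, huv⟩ := key g' hg' hL' v hvJ hsub hn hvg'
                have hvg : v ≠ g := by
                  intro hvg
                  rw [hvg] at hsub
                  obtain ⟨z, hz⟩ := hL.nonempty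
                  have hzg' := (Finset.mem_sdiff.1 (sdiff_sub_of hsub hz)).1
                  rcases h.deg4 hg hi hdP hg' hL.1 hdL.1 hdi.symm (Finset.mem_sdiff.1 hz).1
                    (hL.2.2 hz) (hdL.2.2 hz) hzg' with h' | h' | h'
                  · exact hg'g h'
                  · exact hL'.1 h'
                  · rw [h'] at hu'
                    have := hdd.2.2
                    omega
                exact Finset.eq_of_subset_of_card_le (sdiff_sub_of hsub)
                  (hmin' v (Finset.mem_erase.2 ⟨hvg, Finset.mem_filter.2 ⟨hv, hLv, huv⟩⟩))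
            have := h.tight_two hA hi hd hg' hL' hu' hS' hT (hguest g')
            omega
    · have hT : Tight J A g := by
        intro v hvJ hsub hn
        by_cases hvg : v = g
        · rw [hvg]
        · obtain ⟨hv, hLv, huv⟩ := key g hg hL v hvJ hsub hn hvg
          exact Finset.eq_of_subset_of_card_le (sdiff_sub_of hsub)
            (hmin v (Finset.mem_filter.2 ⟨hv, hLv, huv⟩))
      have := h.tight_two hA hi hd hg hL hu hS hT (hguest g)
      omega
  · have hE : Empt P x x' A i := by
      intro g hg hL hu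
      exact hLne ⟨g, Finset.mem_filter.2 ⟨hg, hL, hu⟩⟩
    by_cases hH : Hat P i
    · have := (h.hat_need hA hi hd hH).1 hE
      omega
    · exfalso
      obtain ⟨g, hgJ, hsub, hn, hgi⟩ := not_sim hd.2.1
      have hLg : Lf g i A := ⟨hgi, hn, (sdiff_sub_of hsub).trans Finset.sdiff_subset⟩
      have hgP := h.Lf_mem hA hi hgJ hLg
      rcases h.good_or hA hgP hi hLg with h' | h'
      · exact hE g hgP hLg h'
      · exact hH ⟨g, h'⟩

end

end Pool.Agent.H83.ELZ
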