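import Pool.Agent.H83.ELZ.TCap

/-!
# Degree three with nested generators (MP_75f39d): definitions
-/

set_option autoImplicit false

namespace Pool.Agent.H83.ELZ

open Finset Pool.Agent.H97.GEN

variable {α : Type*} [DecidableEq α]

/-- `w` is a guest of `i` (and `i` the host of `w`). -/
def Gst (P : Finset (Finset α)) (w i : Finset α) : Prop := w ∈ P ∧ i ∈ P ∧ w ≠ i ∧ w ⊆ i

/-- `i` is a hat: it has a guest. -/
def Hat (P : Finset (Finset α)) (i : Finset α) : Prop := ∃ w, Gst P w i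

/-- The hypotheses: `x w`, `x' w` are the chosen points, `w1 i`, `w2 i` the selected guests of a hat
(equal if there is only one guest). -/
structure H8 (J P : Finset (Finset α)) (x x' : Finset α → α) (w1 w2 : Finset α → Finset α) :
    Prop where
  PC : P ⊆ cov J
  comp : ∀ w ∈ cov J, ∀ i ∈ P, ∀ z, z ∈ w → z ∈ i → w ∈ P
  deg : ∀ z : α, (P.filter fun g => z ∈ g).card ≤ 3
  hx : ∀ w ∈ P, x w ∈ w
  hx' : ∀ w ∈ P, x' w ∈ w
  host : ∀ w i k, Gst P w i → Gst P w k → i = k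
  low : ∀ w ∈ P, ¬ Hat P w → (∀ i, ¬ Gst P w i) → ∀ A ∈ unions J, ∀ i ∈ P, Lf w i A →
    uu x x' w A ≤ 1
  sepG : ∀ w i, Gst P w i → ∀ g ∈ P, g ≠ w → g ≠ i → x w ∈ g → x' w ∉ g
  neG : ∀ w i, Gst P w i → x w ≠ x' w
  thG : ∀ w i, Gst P w i → ∃ c ∈ P, c ≠ w ∧ c ≠ i ∧ (x w ∈ c ∨ x' w ∈ c)
  sepH : ∀ i, Hat P i → ∀ g ∈ P, g ≠ i → x i ∈ g → x' i ∉ g
  sel1 : ∀ i, Hat P i → Gst P (w1 i) i ∧ x i ∈ w1 i
  sel2 : ∀ i, Hat P i → Gst P (w2 i) i
  one : ∀ i, Hat P i → w1 i = w2 i → ∀ w, Gst P w i → w = w1 i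
  two : ∀ i, Hat P i → w1 i ≠ w2 i → x' i ∈ w2 i ∧
    ∀ v, Gst P v i → v ≠ w1 i → x v ∉ w1 i ∧ x' v ∉ w1 i
  thH : ∀ i, Hat P i → w1 i ≠ w2 i → ∃ c ∈ P, ∃ c' ∈ P, c ≠ c' ∧ c ≠ i ∧ c ≠ w1 i ∧ c ≠ w2 i ∧
    x i ∈ c ∧ c' ≠ i ∧ c' ≠ w1 i ∧ c' ≠ w2 i ∧ x' i ∈ c'

/-- All guests of `w` are inside `A`. -/
def GI (P : Finset (Finset α)) (w A : Finset α) : Prop := ∀ v, Gst P v w → v ⊆ A

/-- `g` is the only good member swallowed by `i`, and it is simple, with one chosen point outside, and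
swallowed by another demand. -/
def Lonely (J P : Finset (Finset α)) (x x' : Finset α → α) (A i g : Finset α) : Prop :=
  g ∈ P ∧ Lf g i A ∧ (∀ g' ∈ P, Lf g' i A → uu x x' g' A ≤ 1 → g' = g) ∧ Sim J A g ∧
    uu x x' g A = 1 ∧ ¬ Uq J P x x' A g i

/-- No good member is swallowed by `i`. -/
def Empt (P : Finset (Finset α)) (x x' : Finset α → α) (A i : Finset α) : Prop :=
  ∀ g ∈ P, Lf g i A → ¬ uu x x' g A ≤ 1

/-- `A` with the selected guests of `i`. -/
def AA (w1 w2 : Finset α → Finset α) (A i : Finset α) : Finset α := A ∪ (w1 i ∪ w2 i)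

/-- Only selected guests are swallowed by `i`. -/
def Only (P : Finset (Finset α)) (w1 w2 : Finset α → Finset α) (A i : Finset α) : Prop :=
  ∀ g ∈ P, Lf g i A → g = w1 i ∨ g = w2 i

/-- The lonely member is inside the union of `A` and the selected guests. -/
def Blk (J P : Finset (Finset α)) (x x' : Finset α → α) (w1 w2 : Finset α → Finset α)
    (A i : Finset α) : Prop :=
  ∃ g, Lonely J P x x' A i g ∧ g ≠ w1 i ∧ g ≠ w2 i ∧ g ⊆ AA w1 w2 A i

/-- The demand `(A, i)` uses the slot `(B, o, y)`. -/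
inductive Use (J P : Finset (Finset α)) (x x' : Finset α → α) (w1 w2 : Finset α → Finset α) :
    Finset α → Finset α → Finset α → Finset α → α → Prop
  | k1 (o A i : Finset α) (hL : Lf o i A) (hS : ¬ Sim J A o) (hu : uu x x' o A = 1)
      (hT : Tight J A o) (hG : GI P o A) (hh : ∀ k, Gst P o k → ¬ k ⊆ A ∪ o) :
      Use J P x x' w1 w2 o A i (A ∪ o) (sy x x' o A)
  | k2 (o A i k : Finset α) (y : α) (hL : Lf o i A) (hu : uu x x' o A = 1) (hG : Gst P o k)
      (hk : k ⊆ A ∪ o) (hy : y = x o ∨ y = x' o) :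
      Use J P x x' w1 w2 o A i (A ∪ o) y
  | k3 (o A i : Finset α) (hL : Lf o i A) (hS : Sim J A o) (hu : uu x x' o A = 1)
      (hU : ¬ Uq J P x x' A o i) (hall : ∀ g ∈ P, Lf g i A → g = o) (hi : ¬ Hat P i) :
      Use J P x x' w1 w2 o A i (A ∪ i) (sy x x' o A)
  | k4 (A i k : Finset α) (y : α) (hG : Gst P i k) (hk : k ⊆ A ∪ i)
      (hall : ∀ g ∈ P, Lf g i A → g = k) (hy : y = x i ∨ y = x' i) :
      Use J P x x' w1 w2 i A i (A ∪ i) y
  | k5 (A i : Finset α) (y : α) (hi : Hat P i) (ho : Only P w1 w2 A i)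
      (hn : ¬ i ⊆ AA w1 w2 A i)
      (hy : (Empt P x x' A i ∧ (y = x (w1 i) ∨ y = x' (w1 i))) ∨
        ((∃ g, Lonely J P x x' A i g) ∧ y = x (w1 i))) :
      Use J P x x' w1 w2 (w1 i) A i (A ∪ i) y
  | k6 (A i g : Finset α) (hi : Hat P i) (h12 : w1 i = w2 i) (hg : Lonely J P x x' A i g)
      (hg1 : g ≠ w1 i) (hr : i ⊆ ((K J (A ∪ i)).erase i).sup id) :
      Use J P x x' w1 w2 i A i (A ∪ i) (x i)
  | k7 (A i g : Finset α) (hi : Hat P i) (h12 : w1 i = w2 i) (hg : Lonely J P x x' A i g)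
      (hg1 : g ≠ w1 i) (hr : ¬ i ⊆ ((K J (A ∪ i)).erase i).sup id) :
      Use J P x x' w1 w2 g A i (A ∪ i) (sy x x' g A)
  | k8 (A i g : Finset α) (hi : Hat P i) (h12 : w1 i ≠ w2 i) (hg : Lonely J P x x' A i g)
      (hg1 : g ≠ w1 i) (hg2 : g ≠ w2 i) (hgA : g ⊆ AA w1 w2 A i) :
      Use J P x x' w1 w2 g A i (AA w1 w2 A i) (sy x x' g A)
  | k9 (A i : Finset α) (y : α) (hi : Hat P i) (h12 : w1 i ≠ w2 i)
      (hin : i ⊆ AA w1 w2 A i) (hb : ¬ Blk J P x x' w1 w2 A i)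
      (hy : (Empt P x x' A i ∧ (y = x i ∨ y = x' i)) ∨
        ((∃ g, Lonely J P x x' A i g) ∧ y = x i)) :
      Use J P x x' w1 w2 i A i (AA w1 w2 A i) y

open Classical in
/-- Tokens from the simple pairs. -/
noncomputable def b1 (J P : Finset (Finset α)) (x x' : Finset α → α) (A w i : Finset α) : ℕ :=
  if Lf w i A ∧ Sim J A w ∧ uu x x' w A ≤ 1 then
    (if uu x x' w A = 0 ∨ Uq J P x x' A w i then 2 else 1) else 0

open Classical in
/-- Tokens from the nonnegative not simple terms. -/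
noncomputable def b2 (J P : Finset (Finset α)) (x x' : Finset α → α)
    (w1 w2 : Finset α → Finset α) (A w i : Finset α) : ℕ :=
  if Lf w i A ∧ ¬ Sim J A w ∧ uu x x' w A = 0 ∧ GI P w A then
    (if Hat P w ∧ w1 w ≠ w2 w then 1 else 2) else 0

open Classical in
/-- Tokens for a hat with several guests, from its own term at `AA A i`. -/
noncomputable def bo (J P : Finset (Finset α)) (x x' : Finset α → α)
    (w1 w2 : Finset α → Finset α) (A i : Finset α) : ℕ :=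
  if Hat P i ∧ w1 i ≠ w2 i ∧ ¬ i ⊆ AA w1 w2 A i ∧ ¬ Only P w1 w2 A i ∧
      ¬ Blk J P x x' w1 w2 A i then
    (if Empt P x x' A i then 2 else if ∃ g, Lonely J P x x' A i g then 1 else 0) else 0

open Classical in
/-- The slots of `o` used by the demand `(A, i)`. -/
noncomputable def US (J P : Finset (Finset α)) (x x' : Finset α → α)
    (w1 w2 : Finset α → Finset α) (A o i : Finset α) : Finset (Finset α × α) :=
  ((unions J) ×ˢ (J.sup id)).filter fun s => Use J P x x' w1 w2 o A i s.1 s.2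

section

variable {J P : Finset (Finset α)} {x x' : Finset α → α} {w1 w2 : Finset α → Finset α}

lemma H8.PJ (h : H8 J P x x' w1 w2) {w : Finset α} (hw : w ∈ P) : w ∈ J :=
  (mem_cov.1 (h.PC hw)).1

/-- A point is in at most three members of `P`. -/
lemma H8.deg4 (h : H8 J P x x' w1 w2) {z : α} {a b c d : Finset α} (ha : a ∈ P) (hb : b ∈ P)
    (hc : c ∈ P) (hd : d ∈ P) (hab : a ≠ b) (hac : a ≠ c) (hbc : b ≠ c) (za : z ∈ a) (zb : z ∈ b)
    (zc : z ∈ c) (zd : z ∈ d) : d = a ∨ d = b ∨ d = c := by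
  by_contra hcon
  push Not at hcon
  have hsub : ({d, a, b, c} : Finset (Finset α)) ⊆ P.filter fun g => z ∈ g := by
    intro g hg
    rw [Finset.mem_insert, Finset.mem_insert, Finset.mem_insert, Finset.mem_singleton] at hg
    rcases hg with rfl | rfl | rfl | rfl
    · exact Finset.mem_filter.2 ⟨hd, zd⟩
    · exact Finset.mem_filter.2 ⟨ha, za⟩
    · exact Finset.mem_filter.2 ⟨hb, zb⟩
    · exact Finset.mem_filter.2 ⟨hc, zc⟩
  have hcard : ({d, a, b, c} : Finset (Finset α)).card = 4 := by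
    rw [Finset.card_insert_of_notMem, Finset.card_eq_three.2 ⟨a, b, c, hab, hac, hbc, rfl⟩]
    rw [Finset.mem_insert, Finset.mem_insert, Finset.mem_singleton]
    rintro (h' | h' | h')
    · exact hcon.1 h'
    · exact hcon.2.1 h'
    · exact hcon.2.2 h'
  have := Finset.card_le_card hsub
  have := h.deg z
  omega

lemma H8.Lf_mem (h : H8 J P x x' w1 w2) {w i A : Finset α} (hA : A ∈ unions J) (hi : i ∈ P)
    (hw : w ∈ J) (hL : Lf w i A) : w ∈ P := by
  obtain ⟨z, hz⟩ := hL.nonempty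
  exact h.comp w (cost_cov hA (h.PJ hi) hw hL.1 hL.nonempty hL.2.2) i hi z
    (Finset.mem_sdiff.1 hz).1 (hL.2.2 hz)

/-- A host is not a guest. -/
lemma H8.not_gst (h : H8 J P x x' w1 w2) {i k : Finset α} (hi : Hat P i) : ¬ Gst P i k := by
  rintro ⟨h1, h2, h3, h4⟩
  obtain ⟨w, g1, g2, g3, g4⟩ := hi
  have hwk : w ≠ k := by
    rintro rfl
    exact h3 (Finset.Subset.antisymm h4 g4)
  exact h3 (h.host w i k ⟨g1, g2, g3, g4⟩ ⟨g1, h2, hwk, g4.trans h4⟩)

/-- A guest is not a host. -/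
lemma H8.not_hat (h : H8 J P x x' w1 w2) {w i : Finset α} (hw : Gst P w i) : ¬ Hat P w :=
  fun hH => h.not_gst hH hw

/-- A swallowed member is good, or a guest. -/
lemma H8.good_or (h : H8 J P x x' w1 w2) {g i A : Finset α} (hA : A ∈ unions J) (hg : g ∈ P)
    (hi : i ∈ P) (hL : Lf g i A) : uu x x' g A ≤ 1 ∨ Gst P g i := by
  have h2 := uu_le_two (x := x) (x' := x') g A
  by_cases hu : uu x x' g A ≤ 1
  · exact Or.inl hu
  · right
    have h3 : uu x x' g A = 2 := by omega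
    rw [uu_eq_two] at h3
    have e1 := hL.2.2 (Finset.mem_sdiff.2 ⟨h.hx g hg, h3.1⟩)
    have e2 := hL.2.2 (Finset.mem_sdiff.2 ⟨h.hx' g hg, h3.2⟩)
    by_cases hH : Hat P g
    · exact absurd e2 (h.sepH g hH i hi hL.1.symm e1)
    · by_cases hk : ∃ k, Gst P g k
      · obtain ⟨k, hk⟩ := hk
        by_cases hik : i = k
        · rw [hik]
          exact hk
        · exact absurd e2 (h.sepG g k hk i hi hL.1.symm hik e1)
      · push Not at hk
        exact absurd (h.low g hg hH hk A hA i hi hL) hu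

/-- A demand is swallowed only by its host. -/
lemma H8.gst_of_Lf (h : H8 J P x x' w1 w2) {i k A : Finset α} (hA : A ∈ unions J) (hi : i ∈ P)
    (hk : k ∈ P) (hd : Dem J x x' A i) (hL : Lf i k A) : Gst P i k := by
  rcases h.good_or hA hi hk hL with h' | h'
  · have := hd.2.2
    omega
  · exact h'

/-- If `A ∪ g` swallows `v`, and `i` swallows `g`, then `i` swallows `v`, or `v = i`. -/
lemma Lf_of_sub {g i v A : Finset α} (hL : Lf g i A) (hsub : v ⊆ A ∪ g) (hn : ¬ v ⊆ A)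
    (hvi : v ≠ i) : Lf v i A :=
  ⟨hvi, hn, (sdiff_sub_of hsub).trans hL.2.2⟩

lemma mem_US {A o i B : Finset α} {y : α} : (B, y) ∈ US J P x x' w1 w2 A o i ↔
    (B ∈ unions J ∧ y ∈ J.sup id) ∧ Use J P x x' w1 w2 o A i B y := by
  classical
  unfold US
  rw [Finset.mem_filter, Finset.mem_product]

end

end Pool.Agent.H83.ELZ
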