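import Pool.Agent.H83.ELZ.TCap

/-!
# Degree three by explicit weights (MP_75f39d): the theorem
-/

set_option autoImplicit false

namespace Pool.Agent.H83.ELZ

open Finset Pool.Agent.H97.GEN

variable {α : Type*} [DecidableEq α]

section

variable {J P : Finset (Finset α)} {x x' : Finset α → α}

/-- The tokens from `w`. -/
def tok (J P : Finset (Finset α)) (x x' : Finset α → α) (w : Finset α) : ℕ :=
  ∑ A ∈ unions J, ∑ i ∈ P.filter (fun i => Dem J x x' A i), aa J P x x' A w i

/-- The members of `unions J` without `w`. -/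
def OUT (J : Finset (Finset α)) (w : Finset α) : Finset (Finset α) :=
  (unions J).filter fun A => ¬ w ⊆ A

/-- The members of `unions J` with `w`. -/
def IN (J : Finset (Finset α)) (w : Finset α) : Finset (Finset α) :=
  (unions J).filter fun A => w ⊆ A

lemma a1_of_sub {A w i : Finset α} (hs : w ⊆ A) : a1 J P x x' A w i = 0 := by
  unfold a1
  rw [if_neg]
  rintro ⟨hL, -⟩
  exact hL.2.1 hs

lemma a2_of_sub {A w i : Finset α} (hs : w ⊆ A) : a2 J x x' A w i = 0 := by
  unfold a2
  rw [if_neg]
  rintro ⟨hL, -⟩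
  exact hL.2.1 hs

/-- The tokens from `w` are bounded by the three capacities. -/
lemma HT.tok_le (h : HT J P x x') {w : Finset α} (hw : w ∈ P) :
    tok J P x x' w ≤ ∑ A ∈ (OUT J w).filter (fun A => Sim J A w), 2 * (2 - uu x x' w A)
      + 2 * (((OUT J w).filter fun A => ¬ Sim J A w).filter fun A => uu x x' w A = 0).card
      + (XX J P x x' w).card := by
  classical
  have h3 : ∑ A ∈ unions J, ∑ i ∈ P.filter (fun i => Dem J x x' A i),
      ((if C3 J x x' A w i then 1 else 0) + (if C4 J P x x' A w i then 1 else 0))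
      = (XX J P x x' w).card := by
    rw [Finset.card_eq_sum_ones]
    unfold XX
    rw [Finset.sum_filter, Finset.sum_product]
    apply Finset.sum_congr rfl
    intro A _
    rw [Finset.sum_filter]
    apply Finset.sum_congr rfl
    intro i _
    by_cases hd : Dem J x x' A i
    · by_cases hS : Sim J A w
      · have n3 : ¬ C3 J x x' A w i := fun hC => hC.2.1 hS
        by_cases n4 : C4 J P x x' A w i <;> simp [hd, n3, n4]
      · have n4 : ¬ C4 J P x x' A w i := fun hC => hS hC.2.1
        by_cases n3 : C3 J x x' A w i <;> simp [hd, n3, n4]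
    · simp [hd]
  have h1 : ∑ A ∈ unions J, ∑ i ∈ P.filter (fun i => Dem J x x' A i), a1 J P x x' A w i
      ≤ ∑ A ∈ (OUT J w).filter (fun A => Sim J A w), 2 * (2 - uu x x' w A) := by
    have hz : ∑ A ∈ unions J, ∑ i ∈ P.filter (fun i => Dem J x x' A i), a1 J P x x' A w i
        = ∑ A ∈ (OUT J w).filter (fun A => Sim J A w),
          ∑ i ∈ P.filter (fun i => Dem J x x' A i), a1 J P x x' A w i := by
      symm
      apply Finset.sum_subset ((Finset.filter_subset _ _).trans (Finset.filter_subset _ _))
      intro A hA hA'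
      apply Finset.sum_eq_zero
      intro i _
      unfold a1
      rw [if_neg]
      rintro ⟨hL, hS⟩
      exact hA' (Finset.mem_filter.2 ⟨Finset.mem_filter.2 ⟨hA, hL.2.1⟩, hS⟩)
    rw [hz]
    apply Finset.sum_le_sum
    intro A hA
    obtain ⟨hA1, hA2⟩ := Finset.mem_filter.1 hA
    exact h.cap1 (Finset.mem_filter.1 hA1).1 hw (Finset.mem_filter.1 hA1).2
  have h2 : ∑ A ∈ unions J, ∑ i ∈ P.filter (fun i => Dem J x x' A i), a2 J x x' A w i
      ≤ 2 * (((OUT J w).filter fun A => ¬ Sim J A w).filter fun A => uu x x' w A = 0).card := by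
    have hz : ∑ A ∈ unions J, ∑ i ∈ P.filter (fun i => Dem J x x' A i), a2 J x x' A w i
        = ∑ A ∈ ((OUT J w).filter fun A => ¬ Sim J A w).filter (fun A => uu x x' w A = 0),
          ∑ i ∈ P.filter (fun i => Dem J x x' A i), a2 J x x' A w i := by
      symm
      apply Finset.sum_subset
        (((Finset.filter_subset _ _).trans (Finset.filter_subset _ _)).trans
          (Finset.filter_subset _ _))
      intro A hA hA'
      apply Finset.sum_eq_zero
      intro i _
      unfold a2
      rw [if_neg]
      rintro ⟨hL, hS, hu⟩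
      exact hA' (Finset.mem_filter.2 ⟨Finset.mem_filter.2
        ⟨Finset.mem_filter.2 ⟨hA, hL.2.1⟩, hS⟩, hu⟩)
    rw [hz, Finset.card_eq_sum_ones, Finset.mul_sum]
    apply Finset.sum_le_sum
    intro A hA
    obtain ⟨hA1, -⟩ := Finset.mem_filter.1 hA
    obtain ⟨hA2, hA3⟩ := Finset.mem_filter.1 hA1
    exact (h.cap2 (Finset.mem_filter.1 hA2).1 hw hA3).trans (by norm_num)
  have hsplit : tok J P x x' w
      = ∑ A ∈ unions J, ∑ i ∈ P.filter (fun i => Dem J x x' A i), a1 J P x x' A w i
        + ∑ A ∈ unions J, ∑ i ∈ P.filter (fun i => Dem J x x' A i), a2 J x x' A w i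
        + ∑ A ∈ unions J, ∑ i ∈ P.filter (fun i => Dem J x x' A i),
          ((if C3 J x x' A w i then 1 else 0) + (if C4 J P x x' A w i then 1 else 0)) := by
    unfold tok
    rw [← Finset.sum_add_distrib, ← Finset.sum_add_distrib]
    apply Finset.sum_congr rfl
    intro A _
    rw [← Finset.sum_add_distrib, ← Finset.sum_add_distrib]
    apply Finset.sum_congr rfl
    intro i _
    unfold aa
    omega
  rw [hsplit, h3]
  omega

/-- The members with `w`: the simple ones and the redundant ones. -/
lemma in_ge (J : Finset (Finset α)) {w : Finset α} (hw : w ∈ J) :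
    ((OUT J w).filter fun A => Sim J A w).card + (RR J w).card ≤ (IN J w).card := by
  classical
  have hK : ∀ A ∈ (OUT J w).filter (fun A => Sim J A w),
      ((K J (A ∪ w)).erase w).sup id = A := by
    intro A hA
    obtain ⟨hA1, hS⟩ := Finset.mem_filter.1 hA
    obtain ⟨hAF, hn⟩ := Finset.mem_filter.1 hA1
    apply Finset.Subset.antisymm
    · intro z hz
      obtain ⟨g, hg, hzg⟩ := mem_sup_id.1 hz
      obtain ⟨hgw, hgK⟩ := Finset.mem_erase.1 hg
      obtain ⟨hgJ, hgA⟩ := mem_K.1 hgK
      rcases hS g hgJ hgA with h | h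
      · exact h hzg
      · exact absurd h hgw
    · intro z hz
      obtain ⟨g, hg, hgA, hzg⟩ := (mem_iff hAF z).1 hz
      refine mem_sup_id.2 ⟨g, Finset.mem_erase.2 ⟨?_, mem_K.2
        ⟨hg, hgA.trans Finset.subset_union_left⟩⟩, hzg⟩
      rintro rfl
      exact hn hgA
  have himg : (((OUT J w).filter fun A => Sim J A w).image fun A => A ∪ w).card
      = ((OUT J w).filter fun A => Sim J A w).card := by
    apply Finset.card_image_of_injOn
    intro A hA A' hA' he
    rw [Finset.mem_coe] at hA hA'
    have he' : A ∪ w = A' ∪ w := he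
    rw [← hK A hA, ← hK A' hA', he']
  have hdis : Disjoint (((OUT J w).filter fun A => Sim J A w).image fun A => A ∪ w)
      (RR J w) := by
    rw [Finset.disjoint_left]
    intro B hB hB'
    obtain ⟨A, hA, rfl⟩ := Finset.mem_image.1 hB
    have h1 := (mem_RR.1 hB').2.2
    rw [hK A hA] at h1
    exact (Finset.mem_filter.1 (Finset.mem_filter.1 hA).1).2 h1
  have hsub : (((OUT J w).filter fun A => Sim J A w).image fun A => A ∪ w) ∪ RR J w
      ⊆ IN J w := by
    apply Finset.union_subset
    · intro B hB
      obtain ⟨A, hA, rfl⟩ := Finset.mem_image.1 hB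
      have hAF := (Finset.mem_filter.1 (Finset.mem_filter.1 hA).1).1
      exact Finset.mem_filter.2 ⟨union_mem hAF (self_mem hw), Finset.subset_union_right⟩
    · intro B hB
      obtain ⟨h1, h2, -⟩ := mem_RR.1 hB
      exact Finset.mem_filter.2 ⟨h1, h2⟩
  have h1 := Finset.card_le_card hsub
  rw [Finset.card_union_of_disjoint hdis, himg] at h1
  exact h1

/-- The top is a redundant term. -/
lemma top_mem_RR {w : Finset α} (hw : w ∈ cov J) : J.sup id ∈ RR J w := by
  classical
  obtain ⟨hwJ, hwc⟩ := mem_cov.1 hw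
  refine mem_RR.2 ⟨?_, Finset.le_sup (f := id) hwJ, ?_⟩
  · apply mem_unions_of
    intro z hz
    obtain ⟨g, hg, hzg⟩ := mem_sup_id.1 hz
    exact ⟨g, hg, Finset.le_sup (f := id) hg, hzg⟩
  · intro z hz
    obtain ⟨g, hg, hgw, hzg⟩ := hwc z hz
    exact mem_sup_id.2 ⟨g, Finset.mem_erase.2 ⟨hgw, mem_K.2 ⟨hg, Finset.le_sup (f := id) hg⟩⟩,
      hzg⟩

omit [DecidableEq α] in
lemma count_two (N : Finset (Finset α)) (u : Finset α → ℕ) (hu : ∀ A ∈ N, u A ≤ 2) :
    ∑ A ∈ N, u A + (N.filter fun A => u A = 0).card
      = N.card + (N.filter fun A => u A = 2).card := by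
  rw [Finset.card_filter, Finset.card_filter, Finset.card_eq_sum_ones,
    ← Finset.sum_add_distrib, ← Finset.sum_add_distrib]
  apply Finset.sum_congr rfl
  intro A hA
  have hu := hu A hA
  by_cases h0 : u A = 0
  · simp [h0]
  · by_cases h1 : u A = 1
    · simp [h1]
    · have h2 : u A = 2 := by omega
      simp [h2]

/-- The count for one `w`. -/
lemma HT.per_w (h : HT J P x x') {w : Finset α} (hw : w ∈ P) :
    2 * (∑ A ∈ unions J, uu x x' w A) + tok J P x x' w + 2
      ≤ 2 * (unions J).card + 2 * ((unions J).filter fun A => Dem J x x' A w).card := by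
  classical
  set S := (OUT J w).filter fun A => Sim J A w with hSdef
  set N := (OUT J w).filter fun A => ¬ Sim J A w with hNdef
  have e1 : (IN J w).card + (OUT J w).card = (unions J).card := by
    unfold IN OUT
    exact Finset.card_filter_add_card_filter_not _
  have e2 : S.card + N.card = (OUT J w).card := by
    rw [hSdef, hNdef]
    exact Finset.card_filter_add_card_filter_not _
  have e3 := in_ge J (h.PJ hw)
  rw [← hSdef] at e3
  have e4 : ∑ A ∈ unions J, uu x x' w A = ∑ A ∈ S, uu x x' w A + ∑ A ∈ N, uu x x' w A := by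
    have f1 : ∑ A ∈ unions J, uu x x' w A
        = ∑ A ∈ IN J w, uu x x' w A + ∑ A ∈ OUT J w, uu x x' w A := by
      unfold IN OUT
      exact (Finset.sum_filter_add_sum_filter_not _ _ _).symm
    have f2 : ∑ A ∈ IN J w, uu x x' w A = 0 := by
      apply Finset.sum_eq_zero
      intro A hA
      have hs := (Finset.mem_filter.1 hA).2
      unfold uu
      rw [if_pos (hs (h.hx w hw)), if_pos (hs (h.hx' w hw)), Nat.add_zero]
    have f3 : ∑ A ∈ OUT J w, uu x x' w A = ∑ A ∈ S, uu x x' w A + ∑ A ∈ N, uu x x' w A := by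
      rw [hSdef, hNdef]
      exact (Finset.sum_filter_add_sum_filter_not _ _ _).symm
    rw [f1, f2, f3, Nat.zero_add]
  have e5 : ∑ A ∈ N, uu x x' w A + (N.filter fun A => uu x x' w A = 0).card
      = N.card + ((unions J).filter fun A => Dem J x x' A w).card := by
    have f1 : ((unions J).filter fun A => Dem J x x' A w)
        = N.filter fun A => uu x x' w A = 2 := by
      ext A
      rw [Finset.mem_filter, Finset.mem_filter, hNdef, Finset.mem_filter]
      unfold OUT Dem
      rw [Finset.mem_filter]
      tauto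
    rw [f1]
    exact count_two N _ fun A _ => uu_le_two (x := x) (x' := x') w A
  have e6 : ∑ A ∈ S, 2 * (2 - uu x x' w A) + 2 * ∑ A ∈ S, uu x x' w A = 4 * S.card := by
    rw [Finset.mul_sum, ← Finset.sum_add_distrib, Finset.card_eq_sum_ones, Finset.mul_sum]
    apply Finset.sum_congr rfl
    intro A _
    have hu := uu_le_two (x := x) (x' := x') w A
    omega
  have e7 := h.tok_le hw
  rw [← hSdef, ← hNdef] at e7
  have e8 := h.cap3 hw
  have e9 : ((RR J w).erase (J.sup id)).card + 1 = (RR J w).card :=
    Finset.card_erase_add_one (top_mem_RR (h.PC hw))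
  omega

/-- **The count for degree three.** -/
theorem HT.main (h : HT J P x x') :
    ∑ w ∈ P, ∑ A ∈ unions J, uu x x' w A + P.card ≤ P.card * (unions J).card := by
  classical
  have h1 : ∑ w ∈ P, (2 * (∑ A ∈ unions J, uu x x' w A) + tok J P x x' w + 2)
      ≤ ∑ w ∈ P, (2 * (unions J).card
        + 2 * ((unions J).filter fun A => Dem J x x' A w).card) :=
    Finset.sum_le_sum fun w hw => h.per_w hw
  rw [Finset.sum_add_distrib, Finset.sum_add_distrib, Finset.sum_add_distrib,
    Finset.sum_const, Finset.sum_const, smul_eq_mul, smul_eq_mul, ← Finset.mul_sum,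
    ← Finset.mul_sum] at h1
  have h2 : ∑ w ∈ P, ((unions J).filter fun A => Dem J x x' A w).card
      = ∑ A ∈ unions J, (P.filter fun i => Dem J x x' A i).card := by
    simp_rw [Finset.card_filter]
    exact Finset.sum_comm
  have h3 : ∑ w ∈ P, tok J P x x' w
      = ∑ A ∈ unions J, ∑ i ∈ P.filter (fun i => Dem J x x' A i),
        ∑ w ∈ P, aa J P x x' A w i := by
    unfold tok
    rw [Finset.sum_comm]
    apply Finset.sum_congr rfl
    intro A _
    exact Finset.sum_comm
  have h4 : 2 * ∑ A ∈ unions J, (P.filter fun i => Dem J x x' A i).card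
      ≤ ∑ w ∈ P, tok J P x x' w := by
    rw [h3, Finset.mul_sum]
    apply Finset.sum_le_sum
    intro A hA
    rw [Finset.card_eq_sum_ones, Finset.mul_sum]
    apply Finset.sum_le_sum
    intro i hi
    obtain ⟨hiP, hd⟩ := Finset.mem_filter.1 hi
    exact h.complete hA hiP hd
  rw [h2] at h1
  have h5 : P.card * (2 * (unions J).card) = 2 * (P.card * (unions J).card) := by ring
  omega

lemma sum_uu (w : Finset α) :
    ∑ A ∈ unions J, uu x x' w A = nfr (unions J) (x w) + nfr (unions J) (x' w) := by
  unfold uu nfr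
  rw [Finset.sum_add_distrib, Finset.card_filter, Finset.card_filter]
  congr 1
  · apply Finset.sum_congr rfl
    intro A _
    by_cases hA : x w ∈ A <;> simp [hA]
  · apply Finset.sum_congr rfl
    intro A _
    by_cases hA : x' w ∈ A <;> simp [hA]

/-- **Theorem T**: the sum of the biases at the chosen points is at least the number of members
of `P`. -/
theorem HT.bias (h : HT J P x x') :
    P.card * (unions J).card + P.card
      ≤ ∑ w ∈ P, (fr (unions J) (x w) + fr (unions J) (x' w)) := by
  classical
  have h1 := h.main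
  have h2 : ∑ w ∈ P, ∑ A ∈ unions J, uu x x' w A
      + ∑ w ∈ P, (fr (unions J) (x w) + fr (unions J) (x' w))
      = 2 * (P.card * (unions J).card) := by
    rw [← Finset.sum_add_distrib]
    have : ∀ w ∈ P, ∑ A ∈ unions J, uu x x' w A
        + (fr (unions J) (x w) + fr (unions J) (x' w)) = 2 * (unions J).card := by
      intro w _
      rw [sum_uu]
      have e1 := fr_add_nfr (unions J) (x w)
      have e2 := fr_add_nfr (unions J) (x' w)
      omega
    rw [Finset.sum_congr rfl this, Finset.sum_const, smul_eq_mul]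
    ring
  omega

/-- Some chosen point is in more than half of the family. -/
theorem HT.exists_gt (h : HT J P x x') (hP : P.Nonempty) :
    ∃ z ∈ P.sup id, (unions J).card < 2 * fr (unions J) z := by
  classical
  by_contra hcon
  push Not at hcon
  have h1 := h.bias
  have h2 : ∑ w ∈ P, (fr (unions J) (x w) + fr (unions J) (x' w))
      ≤ ∑ w ∈ P, (unions J).card := by
    apply Finset.sum_le_sum
    intro w hw
    have e1 := hcon (x w) (mem_sup_id.2 ⟨w, hw, h.hx w hw⟩)
    have e2 := hcon (x' w) (mem_sup_id.2 ⟨w, hw, h.hx' w hw⟩)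
    omega
  rw [Finset.sum_const, smul_eq_mul] at h2
  have := hP.card_pos
  omega

end

end Pool.Agent.H83.ELZ
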