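import Pool.Agent.H83.ELZ.T8Defs
import Pool.Agent.H83.ELZ.TMain

/-!
# Degree three with nested generators (MP_75f39d): capacity of the nonnegative terms
(helper84)
-/

set_option autoImplicit false

namespace Pool.Agent.H83.ELZ

open Finset Pool.Agent.H97.GEN

variable {α : Type*} [DecidableEq α]

section

variable {J P : Finset (Finset α)} {x x' : Finset α → α} {w1 w2 : Finset α → Finset α}

/-- The nonnegative terms of `o` that are not simple. -/
def N0 (J : Finset (Finset α)) (x x' : Finset α → α) (o : Finset α) : Finset (Finset α) :=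
  ((OUT J o).filter fun A => ¬ Sim J A o).filter fun A => uu x x' o A = 0

lemma mem_N0 {o A : Finset α} :
    A ∈ N0 J x x' o ↔ A ∈ unions J ∧ ¬ o ⊆ A ∧ ¬ Sim J A o ∧ uu x x' o A = 0 := by
  unfold N0 OUT
  rw [Finset.mem_filter, Finset.mem_filter, Finset.mem_filter]
  tauto

/-- If `o` is not simple at `A`, at most one demand swallows `o`. -/
lemma H8.uniq_dem (h : H8 J P x x' w1 w2) {A o i j : Finset α} (hA : A ∈ unions J) (ho : o ∈ P)
    (hS : ¬ Sim J A o) (hi : i ∈ P) (hid : Dem J x x' A i) (hiL : Lf o i A)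
    (hj : j ∈ P) (hjd : Dem J x x' A j) (hjL : Lf o j A) : i = j := by
  obtain ⟨g, hg, hsub, hgn, hgo⟩ := not_sim hS
  -- a demand is not swallowed by `o`, if `o` is swallowed by another demand
  have key : ∀ a b : Finset α, a ∈ P → b ∈ P → Dem J x x' A a → Lf o b A → a ≠ b → a ≠ o →
      ¬ a ⊆ A ∪ o := by
    intro a b ha hb had hob hab hao hsubo
    have hLab : Lf a b A := Lf_of_sub hob hsubo had.1 hab
    have hG := h.gst_of_Lf hA ha hb had hLab
    have h3 := (uu_eq_two (x := x) (x' := x')).1 had.2.2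
    have hxo : x a ∈ o := by
      rcases Finset.mem_union.1 (hsubo (h.hx a ha)) with h' | h'
      · exact absurd h' h3.1
      · exact h'
    have hxo' : x' a ∈ o := by
      rcases Finset.mem_union.1 (hsubo (h.hx' a ha)) with h' | h'
      · exact absurd h' h3.2
      · exact h'
    exact h.sepG a b hG o ho hao.symm hob.1 hxo hxo'
  by_contra hij
  have hgi : g ≠ i := by
    rintro rfl
    exact key g j hi hj hid hjL hij hiL.1.symm hsub
  have hgj : g ≠ j := by
    rintro rfl
    exact key g i hj hi hjd hiL (fun h' => hij h'.symm) hjL.1.symm hsub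
  have hLg : Lf g i A := Lf_of_sub hiL hsub hgn hgi
  have hgP := h.Lf_mem hA hi hg hLg
  obtain ⟨z, hz⟩ := hLg.nonempty
  have hzo : z ∈ o := (Finset.mem_sdiff.1 (sdiff_sub_of hsub hz)).1
  have hzA : z ∉ A := (Finset.mem_sdiff.1 hz).2
  have hzj : z ∈ j := hjL.2.2 (Finset.mem_sdiff.2 ⟨hzo, hzA⟩)
  rcases h.deg4 ho hgP hi hj hgo.symm hiL.1 hgi hzo (Finset.mem_sdiff.1 hz).1
    (hLg.2.2 hz) hzj with h' | h' | h'
  · exact hjL.1 h'.symm
  · exact hgj h'.symm
  · exact hij h'.symm

/-- The tokens of the second kind at `A`: nonzero only at the terms in `N0` with all guests inside. -/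
lemma b2_zero {A o : Finset α} (hA : A ∈ unions J)
    (hN : ¬ (A ∈ N0 J x x' o ∧ GI P o A)) :
    ∑ i ∈ P.filter (fun i => Dem J x x' A i), b2 J P x x' w1 w2 A o i = 0 := by
  apply Finset.sum_eq_zero
  intro i _
  unfold b2
  rw [if_neg]
  rintro ⟨hL, hS, hu, hG⟩
  exact hN ⟨mem_N0.2 ⟨hA, hL.2.1, hS, hu⟩, hG⟩

/-- The tokens of the second kind at `A`. -/
lemma H8.b2_le (h : H8 J P x x' w1 w2) {A o : Finset α} (hA : A ∈ unions J) (ho : o ∈ P)
    (hS : ¬ Sim J A o) (c : ℕ) (hc : ∀ i, b2 J P x x' w1 w2 A o i ≤ c) :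
    ∑ i ∈ P.filter (fun i => Dem J x x' A i), b2 J P x x' w1 w2 A o i ≤ c := by
  classical
  have hII : ∑ i ∈ P.filter (fun i => Dem J x x' A i), b2 J P x x' w1 w2 A o i
      = ∑ i ∈ II J P x x' A o, b2 J P x x' w1 w2 A o i := by
    symm
    apply Finset.sum_subset
    · intro i hi
      obtain ⟨h1, h2, -⟩ := mem_II.1 hi
      exact Finset.mem_filter.2 ⟨h1, h2⟩
    · intro i hi hi'
      obtain ⟨h1, h2⟩ := Finset.mem_filter.1 hi
      unfold b2
      rw [if_neg]
      rintro ⟨h3, -⟩
      exact hi' (mem_II.2 ⟨h1, h2, h3⟩)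
  rw [hII]
  have hcard : (II J P x x' A o).card ≤ 1 := by
    rw [Finset.card_le_one]
    intro i hi j hj
    obtain ⟨hiP, hid, hiL⟩ := mem_II.1 hi
    obtain ⟨hjP, hjd, hjL⟩ := mem_II.1 hj
    exact h.uniq_dem hA ho hS hiP hid hiL hjP hjd hjL
  calc ∑ i ∈ II J P x x' A o, b2 J P x x' w1 w2 A o i ≤ ∑ i ∈ II J P x x' A o, c :=
        Finset.sum_le_sum fun i _ => hc i
    _ = (II J P x x' A o).card * c := by rw [Finset.sum_const, smul_eq_mul]
    _ ≤ 1 * c := Nat.mul_le_mul_right _ hcard
    _ = c := Nat.one_mul c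

lemma b2_le_one {A o : Finset α} (hH : Hat P o ∧ w1 o ≠ w2 o) (i : Finset α) :
    b2 J P x x' w1 w2 A o i ≤ 1 := by
  unfold b2
  rw [if_pos hH]
  split_ifs <;> omega

lemma b2_le_two {A o : Finset α} (i : Finset α) : b2 J P x x' w1 w2 A o i ≤ 2 := by
  unfold b2
  split_ifs <;> omega

/-- The demands of `o` that use a nonnegative term of `o`. -/
def XO (J P : Finset (Finset α)) (x x' : Finset α → α) (w1 w2 : Finset α → Finset α)
    (o A : Finset α) : Prop :=
  A ∈ unions J ∧ Dem J x x' A o ∧ Hat P o ∧ w1 o ≠ w2 o ∧ ¬ o ⊆ AA w1 w2 A o ∧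
    ¬ Only P w1 w2 A o ∧ ¬ Blk J P x x' w1 w2 A o ∧
    (Empt P x x' A o ∨ ∃ g, Lonely J P x x' A o g)

/-- No swallowed member is inside `AA A o`, except the selected guests. -/
lemma H8.not_sub_AA (h : H8 J P x x' w1 w2) {A o g : Finset α} (ho : o ∈ P)
    (hX : XO J P x x' w1 w2 o A) (hg : g ∈ P) (hL : Lf g o A) (h1 : g ≠ w1 o) (h2 : g ≠ w2 o) :
    ¬ g ⊆ AA w1 w2 A o := by
  obtain ⟨hA, hd, hH, h12, hn, hO, hB, hE⟩ := hX
  intro hsub
  by_cases hu : uu x x' g A ≤ 1
  · rcases hE with hE | ⟨g0, hg0⟩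
    · exact hE g hg hL hu
    · have := hg0.2.2.1 g hg hL hu
      subst this
      exact hB ⟨g, hg0, h1, h2, hsub⟩
  · have hG : Gst P g o := (h.good_or hA hg ho hL).resolve_left hu
    have h3 : uu x x' g A = 2 := by
      have := uu_le_two (x := x) (x' := x') g A
      omega
    rw [uu_eq_two] at h3
    obtain ⟨-, htwo⟩ := h.two o hH h12
    obtain ⟨t1, t2⟩ := htwo g hG h1
    have e1 : x g ∈ w2 o := by
      rcases Finset.mem_union.1 (hsub (h.hx g hg)) with h' | h'
      · exact absurd h' h3.1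
      · rcases Finset.mem_union.1 h' with h'' | h''
        · exact absurd h'' t1
        · exact h''
    have e2 : x' g ∈ w2 o := by
      rcases Finset.mem_union.1 (hsub (h.hx' g hg)) with h' | h'
      · exact absurd h' h3.2
      · rcases Finset.mem_union.1 h' with h'' | h''
        · exact absurd h'' t2
        · exact h''
    have hG2 := h.sel2 o hH
    exact h.sepG g o hG (w2 o) hG2.1 (fun h' => h2 h'.symm) hG2.2.2.1 e1 e2

lemma AA_memG {J P : Finset (Finset α)} {x x' : Finset α → α} {w1 w2 : Finset α → Finset α}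
    (h : H8 J P x x' w1 w2) {A o : Finset α} (hA : A ∈ unions J) (hH : Hat P o) :
    AA w1 w2 A o ∈ unions J := by
  unfold AA
  have e1 := self_mem (h.PJ (h.sel1 o hH).1.1)
  have e2 := self_mem (h.PJ (h.sel2 o hH).1)
  exact union_mem hA (union_mem e1 e2)

/-- The term used by the demand. -/
lemma H8.AA_N0 (h : H8 J P x x' w1 w2) {A o : Finset α} (ho : o ∈ P)
    (hX : XO J P x x' w1 w2 o A) : AA w1 w2 A o ∈ N0 J x x' o := by
  have hX' := hX
  obtain ⟨hA, hd, hH, h12, hn, hO, hB, hE⟩ := hX'
  refine mem_N0.2 ⟨AA_memG h hA hH, hn, ?_, ?_⟩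
  · intro hS
    apply hO
    intro g hg hL
    by_contra hcon
    push Not at hcon
    have hns := h.not_sub_AA ho hX hg hL hcon.1 hcon.2
    have hsub : g ⊆ AA w1 w2 A o ∪ o := by
      intro z hz
      by_cases hzA : z ∈ A
      · exact Finset.mem_union_left _ (Finset.mem_union_left _ hzA)
      · exact Finset.mem_union_right _ (hL.2.2 (Finset.mem_sdiff.2 ⟨hz, hzA⟩))
    rcases hS g (h.PJ hg) hsub with h' | h'
    · exact hns h'
    · exact hL.1 h'
  · have e1 : x o ∈ AA w1 w2 A o :=
      Finset.mem_union_right _ (Finset.mem_union_left _ (h.sel1 o hH).2)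
    have e2 : x' o ∈ AA w1 w2 A o :=
      Finset.mem_union_right _ (Finset.mem_union_right _ (h.two o hH h12).1)
    unfold uu
    rw [if_pos e1, if_pos e2]

/-- `A` is determined by the term. -/
lemma H8.AA_rec (h : H8 J P x x' w1 w2) {A o : Finset α} (ho : o ∈ P)
    (hX : XO J P x x' w1 w2 o A) :
    A = ((K J (AA w1 w2 A o)).filter fun g => g ≠ w1 o ∧ g ≠ w2 o).sup id := by
  have hX' := hX
  obtain ⟨hA, hd, hH, h12, hn, hO, hB, hE⟩ := hX'
  have h3 := (uu_eq_two (x := x) (x' := x')).1 hd.2.2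
  apply rec_A hA Finset.subset_union_left
  · intro hs
    exact h3.1 (hs (h.sel1 o hH).2)
  · intro hs
    exact h3.2 (hs (h.two o hH h12).1)
  · intro g hg hsub hgn
    by_contra hcon
    push Not at hcon
    have hgo : g ≠ o := by
      rintro rfl
      exact hn hsub
    have hL : Lf g o A := by
      refine ⟨hgo, hgn, ?_⟩
      intro z hz
      obtain ⟨hz1, hz2⟩ := Finset.mem_sdiff.1 hz
      rcases Finset.mem_union.1 (hsub hz1) with h' | h'
      · exact absurd h' hz2
      · rcases Finset.mem_union.1 h' with h'' | h''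
        · exact (h.sel1 o hH).1.2.2.2 h''
        · exact (h.sel2 o hH).2.2.2 h''
    exact h.not_sub_AA ho hX (h.Lf_mem hA ho hg hL) hL hcon.1 hcon.2 hsub

lemma H8.AA_inj (h : H8 J P x x' w1 w2) {A A' o : Finset α} (ho : o ∈ P)
    (hX : XO J P x x' w1 w2 o A) (hX' : XO J P x x' w1 w2 o A')
    (he : AA w1 w2 A o = AA w1 w2 A' o) : A = A' := by
  rw [h.AA_rec ho hX, h.AA_rec ho hX', he]

/-- If both halves are used, some guest is outside. -/
lemma H8.AA_GI (h : H8 J P x x' w1 w2) {A o : Finset α} (ho : o ∈ P)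
    (hX : XO J P x x' w1 w2 o A) (hE : Empt P x x' A o) : ¬ GI P o (AA w1 w2 A o) := by
  have hX' := hX
  obtain ⟨hA, hd, hH, h12, hn, hO, hB, -⟩ := hX'
  intro hG
  apply hO
  intro g hg hL
  by_contra hcon
  push Not at hcon
  have hGst : Gst P g o := (h.good_or hA hg ho hL).resolve_left (hE g hg hL)
  exact h.not_sub_AA ho hX hg hL hcon.1 hcon.2 (hG g hGst)

/-- **The capacity of the nonnegative terms that are not simple.** -/
theorem H8.gamma (h : H8 J P x x' w1 w2) {o : Finset α} (ho : o ∈ P) :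
    ∑ A ∈ unions J, ∑ i ∈ P.filter (fun i => Dem J x x' A i), b2 J P x x' w1 w2 A o i
      + ∑ A ∈ (unions J).filter (fun A => Dem J x x' A o), bo J P x x' w1 w2 A o
      ≤ 2 * (((OUT J o).filter fun A => ¬ Sim J A o).filter fun A => uu x x' o A = 0).card := by
  classical
  change _ ≤ 2 * (N0 J x x' o).card
  set Q := (N0 J x x' o).filter fun A => GI P o A with hQ
  have hb2 : ∀ c : ℕ, (∀ A i, b2 J P x x' w1 w2 A o i ≤ c) →
      ∑ A ∈ unions J, ∑ i ∈ P.filter (fun i => Dem J x x' A i), b2 J P x x' w1 w2 A o i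
        ≤ Q.card * c := by
    intro c hc
    have e1 : ∑ A ∈ unions J, ∑ i ∈ P.filter (fun i => Dem J x x' A i),
        b2 J P x x' w1 w2 A o i
        = ∑ A ∈ Q, ∑ i ∈ P.filter (fun i => Dem J x x' A i), b2 J P x x' w1 w2 A o i := by
      symm
      apply Finset.sum_subset
      · intro A hA
        exact (mem_N0.1 (Finset.mem_filter.1 hA).1).1
      · intro A hA hA'
        exact b2_zero hA fun hcon => hA' (Finset.mem_filter.2 hcon)
    rw [e1]
    calc ∑ A ∈ Q, ∑ i ∈ P.filter (fun i => Dem J x x' A i), b2 J P x x' w1 w2 A o i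
        ≤ ∑ A ∈ Q, c := by
          apply Finset.sum_le_sum
          intro A hA
          obtain ⟨h1, -, h3, -⟩ := mem_N0.1 (Finset.mem_filter.1 hA).1
          exact h.b2_le h1 ho h3 c (hc A)
      _ = Q.card * c := by rw [Finset.sum_const, smul_eq_mul]
  by_cases hH : Hat P o ∧ w1 o ≠ w2 o
  · have hb2' := hb2 1 fun A i => b2_le_one hH i
    set X2 := (unions J).filter fun A => XO J P x x' w1 w2 o A ∧ Empt P x x' A o with hX2
    set X1 := (unions J).filter fun A => XO J P x x' w1 w2 o A ∧ ¬ Empt P x x' A o with hX1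
    have hbo : ∑ A ∈ (unions J).filter (fun A => Dem J x x' A o), bo J P x x' w1 w2 A o
        ≤ 2 * X2.card + X1.card := by
      have e1 : ∑ A ∈ (unions J).filter (fun A => Dem J x x' A o), bo J P x x' w1 w2 A o
          ≤ ∑ A ∈ unions J, ((if XO J P x x' w1 w2 o A ∧ Empt P x x' A o then 2 else 0)
            + (if XO J P x x' w1 w2 o A ∧ ¬ Empt P x x' A o then 1 else 0)) := by
        rw [Finset.sum_filter]
        apply Finset.sum_le_sum
        intro A hA
        by_cases hd : Dem J x x' A o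
        · rw [if_pos hd]
          by_cases c1 : Hat P o ∧ w1 o ≠ w2 o ∧ ¬ o ⊆ AA w1 w2 A o ∧ ¬ Only P w1 w2 A o ∧
              ¬ Blk J P x x' w1 w2 A o
          · by_cases c2 : Empt P x x' A o
            · have hX : XO J P x x' w1 w2 o A :=
                ⟨hA, hd, c1.1, c1.2.1, c1.2.2.1, c1.2.2.2.1, c1.2.2.2.2, Or.inl c2⟩
              have : bo J P x x' w1 w2 A o ≤ 2 := by
                unfold bo
                split_ifs <;> omega
              rw [if_pos ⟨hX, c2⟩]
              omega
            · by_cases c3 : ∃ g, Lonely J P x x' A o g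
              · have hX : XO J P x x' w1 w2 o A :=
                  ⟨hA, hd, c1.1, c1.2.1, c1.2.2.1, c1.2.2.2.1, c1.2.2.2.2, Or.inr c3⟩
                have : bo J P x x' w1 w2 A o ≤ 1 := by
                  unfold bo
                  rw [if_neg c2]
                  split_ifs <;> omega
                rw [if_pos (show XO J P x x' w1 w2 o A ∧ ¬ Empt P x x' A o from ⟨hX, c2⟩)]
                omega
              · have : bo J P x x' w1 w2 A o = 0 := by
                  unfold bo
                  rw [if_neg c2, if_neg c3]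
                  split_ifs <;> rfl
                omega
          · have : bo J P x x' w1 w2 A o = 0 := by
              unfold bo
              rw [if_neg c1]
            omega
        · rw [if_neg hd]
          exact Nat.zero_le _
      refine e1.trans (le_of_eq ?_)
      rw [Finset.sum_add_distrib, ← Finset.sum_filter, ← Finset.sum_filter, Finset.sum_const,
        Finset.sum_const, smul_eq_mul, smul_eq_mul, ← hX2, ← hX1]
      omega
    -- the images
    have i2 : (X2.image fun A => AA w1 w2 A o).card = X2.card := by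
      apply Finset.card_image_of_injOn
      intro A hA A' hA' he
      rw [Finset.mem_coe] at hA hA'
      exact h.AA_inj ho (Finset.mem_filter.1 hA).2.1 (Finset.mem_filter.1 hA').2.1 he
    have i1 : ((X1 ∪ X2).image fun A => AA w1 w2 A o).card = (X1 ∪ X2).card := by
      apply Finset.card_image_of_injOn
      intro A hA A' hA' he
      rw [Finset.mem_coe, Finset.mem_union] at hA hA'
      have f1 : XO J P x x' w1 w2 o A := by
        rcases hA with hA | hA
        · exact (Finset.mem_filter.1 hA).2.1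
        · exact (Finset.mem_filter.1 hA).2.1
      have f2 : XO J P x x' w1 w2 o A' := by
        rcases hA' with hA' | hA'
        · exact (Finset.mem_filter.1 hA').2.1
        · exact (Finset.mem_filter.1 hA').2.1
      exact h.AA_inj ho f1 f2 he
    have d12 : Disjoint X1 X2 := by
      rw [Finset.disjoint_left]
      intro A h1 h2
      exact (Finset.mem_filter.1 h1).2.2 (Finset.mem_filter.1 h2).2.2
    have s1 : (X1 ∪ X2).image (fun A => AA w1 w2 A o) ⊆ N0 J x x' o := by
      intro B hB
      obtain ⟨A, hA, rfl⟩ := Finset.mem_image.1 hB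
      rcases Finset.mem_union.1 hA with hA | hA
      · exact h.AA_N0 ho (Finset.mem_filter.1 hA).2.1
      · exact h.AA_N0 ho (Finset.mem_filter.1 hA).2.1
    have c1 := Finset.card_le_card s1
    rw [i1, Finset.card_union_of_disjoint d12] at c1
    have s2 : Q ∪ (X2.image fun A => AA w1 w2 A o) ⊆ N0 J x x' o := by
      apply Finset.union_subset
      · exact Finset.filter_subset _ _
      · intro B hB
        obtain ⟨A, hA, rfl⟩ := Finset.mem_image.1 hB
        exact h.AA_N0 ho (Finset.mem_filter.1 hA).2.1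
    have dQ : Disjoint Q (X2.image fun A => AA w1 w2 A o) := by
      rw [Finset.disjoint_left]
      intro B hB hB'
      obtain ⟨A, hA, rfl⟩ := Finset.mem_image.1 hB'
      obtain ⟨-, hA1, hA2⟩ := Finset.mem_filter.1 hA
      exact h.AA_GI ho hA1 hA2 (Finset.mem_filter.1 hB).2
    have c2 := Finset.card_le_card s2
    rw [Finset.card_union_of_disjoint dQ, i2] at c2
    omega
  · have hb2' := hb2 2 fun A i => b2_le_two i
    have hbo : ∑ A ∈ (unions J).filter (fun A => Dem J x x' A o), bo J P x x' w1 w2 A o = 0 := by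
      apply Finset.sum_eq_zero
      intro A _
      unfold bo
      rw [if_neg]
      rintro ⟨h1, h2, -⟩
      exact hH ⟨h1, h2⟩
    have c1 : Q.card ≤ (N0 J x x' o).card := Finset.card_le_card (Finset.filter_subset _ _)
    omega

end

end Pool.Agent.H83.ELZ
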