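import Pool.Agent.H83.ELZ.T8Alpha
import Pool.Agent.H83.ELZ.TMain

/-!
# Degree three with nested generators (MP_75f39d): the assembly
-/

set_option autoImplicit false

namespace Pool.Agent.H83.ELZ

open Finset Pool.Agent.H97.GEN

variable {α : Type*} [DecidableEq α]

section

variable {J P : Finset (Finset α)} {x x' : Finset α → α} {w1 w2 : Finset α → Finset α}

/-- Completeness of the token scheme. -/
def Cmpl (J P : Finset (Finset α)) (x x' : Finset α → α) (w1 w2 : Finset α → Finset α) : Prop :=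
  ∀ A ∈ unions J, ∀ i ∈ P, Dem J x x' A i →
    2 ≤ ∑ o ∈ P, (b1 J P x x' A o i + b2 J P x x' w1 w2 A o i
      + (US J P x x' w1 w2 A o i).card) + bo J P x x' w1 w2 A i

/-- The capacity of the terms that are not simple. -/
def GamCap (J P : Finset (Finset α)) (x x' : Finset α → α) (w1 w2 : Finset α → Finset α) : Prop :=
  ∀ o ∈ P, ∑ A ∈ unions J, ∑ i ∈ P.filter (fun i => Dem J x x' A i), b2 J P x x' w1 w2 A o i
      + ∑ A ∈ (unions J).filter (fun A => Dem J x x' A o), bo J P x x' w1 w2 A o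
    ≤ 2 * (((OUT J o).filter fun A => ¬ Sim J A o).filter fun A => uu x x' o A = 0).card

/-- The slots are redundant terms. -/
def SlotOK (J P : Finset (Finset α)) (x x' : Finset α → α) (w1 w2 : Finset α → Finset α) : Prop :=
  ∀ o ∈ P, ∀ i ∈ P, ∀ A ∈ unions J, Dem J x x' A i → ∀ (B : Finset α) (y : α),
    Use J P x x' w1 w2 o A i B y → B ∈ (RR J o).erase (J.sup id) ∧ (y = x o ∨ y = x' o)

/-- A slot is used by one demand only. -/
def SlotInj (J P : Finset (Finset α)) (x x' : Finset α → α) (w1 w2 : Finset α → Finset α) : Prop :=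
  ∀ o ∈ P, ∀ i ∈ P, ∀ i' ∈ P, ∀ A ∈ unions J, ∀ A' ∈ unions J, Dem J x x' A i →
    Dem J x x' A' i' → ∀ (B : Finset α) (y : α), Use J P x x' w1 w2 o A i B y →
    Use J P x x' w1 w2 o A' i' B y → A = A' ∧ i = i'

/-- The tokens from the slots of `o`. -/
lemma slots_le (hs : SlotOK J P x x' w1 w2) (hi : SlotInj J P x x' w1 w2) {o : Finset α}
    (ho : o ∈ P) :
    ∑ A ∈ unions J, ∑ i ∈ P.filter (fun i => Dem J x x' A i), (US J P x x' w1 w2 A o i).card
      ≤ 2 * ((RR J o).erase (J.sup id)).card := by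
  classical
  -- all demands
  set D : Finset (Finset α × Finset α) :=
    (unions J ×ˢ P).filter fun t => Dem J x x' t.1 t.2 with hD
  have mD : ∀ t : Finset α × Finset α,
      t ∈ D ↔ (t.1 ∈ unions J ∧ t.2 ∈ P) ∧ Dem J x x' t.1 t.2 := by
    intro t
    rw [hD, Finset.mem_filter, Finset.mem_product]
  have e1 : ∑ A ∈ unions J, ∑ i ∈ P.filter (fun i => Dem J x x' A i),
      (US J P x x' w1 w2 A o i).card = ∑ t ∈ D, (US J P x x' w1 w2 t.1 o t.2).card := by
    rw [hD, Finset.sum_filter, Finset.sum_product]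
    apply Finset.sum_congr rfl
    intro A _
    rw [Finset.sum_filter]
  have hdis : ∀ t ∈ D, ∀ s ∈ D, t ≠ s →
      Disjoint (US J P x x' w1 w2 t.1 o t.2) (US J P x x' w1 w2 s.1 o s.2) := by
    intro t ht s hs' hne
    rw [Finset.disjoint_left]
    rintro ⟨B, y⟩ h1 h2
    obtain ⟨⟨t1, t2⟩, t3⟩ := (mD t).1 ht
    obtain ⟨⟨s1, s2⟩, s3⟩ := (mD s).1 hs'
    obtain ⟨a1, a2⟩ := hi o ho t.2 t2 s.2 s2 t.1 t1 s.1 s1 t3 s3 B y (mem_US.1 h1).2
      (mem_US.1 h2).2
    exact hne (Prod.ext a1 a2)
  have e2 : ∑ t ∈ D, (US J P x x' w1 w2 t.1 o t.2).card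
      = (D.biUnion fun t => US J P x x' w1 w2 t.1 o t.2).card :=
    (Finset.card_biUnion hdis).symm
  have e3 : (D.biUnion fun t => US J P x x' w1 w2 t.1 o t.2)
      ⊆ ((RR J o).erase (J.sup id)) ×ˢ ({x o, x' o} : Finset α) := by
    rintro ⟨B, y⟩ hBy
    obtain ⟨t, ht, hBy'⟩ := Finset.mem_biUnion.1 hBy
    obtain ⟨⟨t1, t2⟩, t3⟩ := (mD t).1 ht
    obtain ⟨a1, a2⟩ := hs o ho t.2 t2 t.1 t1 t3 B y (mem_US.1 hBy').2
    rw [Finset.mem_product, Finset.mem_insert, Finset.mem_singleton]
    exact ⟨a1, a2⟩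
  have e4 := Finset.card_le_card e3
  rw [Finset.card_product] at e4
  have e5 : ({x o, x' o} : Finset α).card ≤ 2 := Finset.card_le_two
  rw [e1, e2]
  calc _ ≤ ((RR J o).erase (J.sup id)).card * ({x o, x' o} : Finset α).card := e4
    _ ≤ ((RR J o).erase (J.sup id)).card * 2 := Nat.mul_le_mul_left _ e5
    _ = _ := Nat.mul_comm _ _

/-- The tokens from `w`. -/
noncomputable def tok8 (J P : Finset (Finset α)) (x x' : Finset α → α)
    (w1 w2 : Finset α → Finset α) (w : Finset α) : ℕ :=
  ∑ A ∈ unions J, ∑ i ∈ P.filter (fun i => Dem J x x' A i),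
      (b1 J P x x' A w i + b2 J P x x' w1 w2 A w i + (US J P x x' w1 w2 A w i).card)
    + ∑ A ∈ (unions J).filter (fun A => Dem J x x' A w), bo J P x x' w1 w2 A w

/-- The tokens from `w` are bounded by the three capacities. -/
lemma H8.tok_le (h : H8 J P x x' w1 w2) (hg : GamCap J P x x' w1 w2)
    (hs : SlotOK J P x x' w1 w2) (hi : SlotInj J P x x' w1 w2) {w : Finset α} (hw : w ∈ P) :
    tok8 J P x x' w1 w2 w ≤ ∑ A ∈ (OUT J w).filter (fun A => Sim J A w), 2 * (2 - uu x x' w A)
      + 2 * (((OUT J w).filter fun A => ¬ Sim J A w).filter fun A => uu x x' w A = 0).card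
      + 2 * ((RR J w).erase (J.sup id)).card := by
  classical
  have h1 := h.sum_b1_le hw
  have h2 := hg w hw
  have h3 := slots_le hs hi hw
  have hfil : (unions J).filter (fun A => ¬ w ⊆ A ∧ Sim J A w)
      = (OUT J w).filter (fun A => Sim J A w) := by
    unfold OUT
    rw [Finset.filter_filter]
  rw [hfil] at h1
  have hsplit : tok8 J P x x' w1 w2 w
      = ∑ A ∈ unions J, ∑ i ∈ P.filter (fun i => Dem J x x' A i), b1 J P x x' A w i
        + ∑ A ∈ unions J, ∑ i ∈ P.filter (fun i => Dem J x x' A i), b2 J P x x' w1 w2 A w i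
        + ∑ A ∈ unions J, ∑ i ∈ P.filter (fun i => Dem J x x' A i),
            (US J P x x' w1 w2 A w i).card
        + ∑ A ∈ (unions J).filter (fun A => Dem J x x' A w), bo J P x x' w1 w2 A w := by
    unfold tok8
    congr 1
    rw [← Finset.sum_add_distrib, ← Finset.sum_add_distrib]
    apply Finset.sum_congr rfl
    intro A _
    rw [← Finset.sum_add_distrib, ← Finset.sum_add_distrib]
  rw [hsplit]
  omega

/-- The count for one `w`. -/
lemma H8.per_w (h : H8 J P x x' w1 w2) (hg : GamCap J P x x' w1 w2)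
    (hs : SlotOK J P x x' w1 w2) (hi : SlotInj J P x x' w1 w2) {w : Finset α} (hw : w ∈ P) :
    2 * (∑ A ∈ unions J, uu x x' w A) + tok8 J P x x' w1 w2 w + 2
      ≤ 2 * (unions J).card + 2 * ((unions J).filter fun A => Dem J x x' A w).card := by
  classical
  set S := (OUT J w).filter fun A => Sim J A w with hSdef
  set N := (OUT J w).filter fun A => ¬ Sim J A w with hNdef
  have e1 : (IN J w).card + (OUT J w).card = (unions J).card := by
    unfold IN OUT
    exact Finset.card_filter_add_card_filter_not _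
  have e2 : S.card + N.card = (OUT J w).card := by
    rw [hSdef, hNdef]
    exact Finset.card_filter_add_card_filter_not _
  have e3 := in_ge J (h.PJ hw)
  rw [← hSdef] at e3
  have e4 : ∑ A ∈ unions J, uu x x' w A = ∑ A ∈ S, uu x x' w A + ∑ A ∈ N, uu x x' w A := by
    have f1 : ∑ A ∈ unions J, uu x x' w A
        = ∑ A ∈ IN J w, uu x x' w A + ∑ A ∈ OUT J w, uu x x' w A := by
      unfold IN OUT
      exact (Finset.sum_filter_add_sum_filter_not _ _ _).symm
    have f2 : ∑ A ∈ IN J w, uu x x' w A = 0 := by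
      apply Finset.sum_eq_zero
      intro A hA
      have hs' := (Finset.mem_filter.1 hA).2
      unfold uu
      rw [if_pos (hs' (h.hx w hw)), if_pos (hs' (h.hx' w hw)), Nat.add_zero]
    have f3 : ∑ A ∈ OUT J w, uu x x' w A = ∑ A ∈ S, uu x x' w A + ∑ A ∈ N, uu x x' w A := by
      rw [hSdef, hNdef]
      exact (Finset.sum_filter_add_sum_filter_not _ _ _).symm
    rw [f1, f2, f3, Nat.zero_add]
  have e5 : ∑ A ∈ N, uu x x' w A + (N.filter fun A => uu x x' w A = 0).card
      = N.card + ((unions J).filter fun A => Dem J x x' A w).card := by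
    have f1 : ((unions J).filter fun A => Dem J x x' A w)
        = N.filter fun A => uu x x' w A = 2 := by
      ext A
      rw [Finset.mem_filter, Finset.mem_filter, hNdef, Finset.mem_filter]
      unfold OUT Dem
      rw [Finset.mem_filter]
      tauto
    rw [f1]
    exact count_two N _ fun A _ => uu_le_two (x := x) (x' := x') w A
  have e6 : ∑ A ∈ S, 2 * (2 - uu x x' w A) + 2 * ∑ A ∈ S, uu x x' w A = 4 * S.card := by
    rw [Finset.mul_sum, ← Finset.sum_add_distrib, Finset.card_eq_sum_ones, Finset.mul_sum]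
    apply Finset.sum_congr rfl
    intro A _
    have hu := uu_le_two (x := x) (x' := x') w A
    omega
  have e7 := h.tok_le hg hs hi hw
  rw [← hSdef, ← hNdef] at e7
  have e9 : ((RR J w).erase (J.sup id)).card + 1 = (RR J w).card :=
    Finset.card_erase_add_one (top_mem_RR (h.PC hw))
  omega

/-- **The count for degree three, with nested generators.** -/
theorem H8.main (h : H8 J P x x' w1 w2) (hc : Cmpl J P x x' w1 w2)
    (hg : GamCap J P x x' w1 w2) (hs : SlotOK J P x x' w1 w2) (hi : SlotInj J P x x' w1 w2) :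
    ∑ w ∈ P, ∑ A ∈ unions J, uu x x' w A + P.card ≤ P.card * (unions J).card := by
  classical
  have h1 : ∑ w ∈ P, (2 * (∑ A ∈ unions J, uu x x' w A) + tok8 J P x x' w1 w2 w + 2)
      ≤ ∑ w ∈ P, (2 * (unions J).card
        + 2 * ((unions J).filter fun A => Dem J x x' A w).card) :=
    Finset.sum_le_sum fun w hw => h.per_w hg hs hi hw
  rw [Finset.sum_add_distrib, Finset.sum_add_distrib, Finset.sum_add_distrib,
    Finset.sum_const, Finset.sum_const, smul_eq_mul, smul_eq_mul, ← Finset.mul_sum,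
    ← Finset.mul_sum] at h1
  have h2 : ∑ w ∈ P, ((unions J).filter fun A => Dem J x x' A w).card
      = ∑ A ∈ unions J, (P.filter fun i => Dem J x x' A i).card := by
    simp_rw [Finset.card_filter]
    exact Finset.sum_comm
  have h3 : ∑ w ∈ P, tok8 J P x x' w1 w2 w
      = ∑ A ∈ unions J, ∑ i ∈ P.filter (fun i => Dem J x x' A i),
        (∑ o ∈ P, (b1 J P x x' A o i + b2 J P x x' w1 w2 A o i
          + (US J P x x' w1 w2 A o i).card) + bo J P x x' w1 w2 A i) := by
    unfold tok8
    rw [Finset.sum_add_distrib]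
    have g1 : ∑ w ∈ P, ∑ A ∈ unions J, ∑ i ∈ P.filter (fun i => Dem J x x' A i),
        (b1 J P x x' A w i + b2 J P x x' w1 w2 A w i + (US J P x x' w1 w2 A w i).card)
        = ∑ A ∈ unions J, ∑ i ∈ P.filter (fun i => Dem J x x' A i),
          ∑ o ∈ P, (b1 J P x x' A o i + b2 J P x x' w1 w2 A o i
            + (US J P x x' w1 w2 A o i).card) := by
      rw [Finset.sum_comm]
      apply Finset.sum_congr rfl
      intro A _
      exact Finset.sum_comm
    have g2 : ∑ w ∈ P, ∑ A ∈ (unions J).filter (fun A => Dem J x x' A w),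
        bo J P x x' w1 w2 A w
        = ∑ A ∈ unions J, ∑ i ∈ P.filter (fun i => Dem J x x' A i),
          bo J P x x' w1 w2 A i := by
      simp_rw [Finset.sum_filter]
      exact Finset.sum_comm
    rw [g1, g2, ← Finset.sum_add_distrib]
    apply Finset.sum_congr rfl
    intro A _
    rw [← Finset.sum_add_distrib]
  have h4 : 2 * ∑ A ∈ unions J, (P.filter fun i => Dem J x x' A i).card
      ≤ ∑ w ∈ P, tok8 J P x x' w1 w2 w := by
    rw [h3, Finset.mul_sum]
    apply Finset.sum_le_sum
    intro A hA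
    rw [Finset.card_eq_sum_ones, Finset.mul_sum]
    apply Finset.sum_le_sum
    intro i hi'
    obtain ⟨hiP, hd⟩ := Finset.mem_filter.1 hi'
    exact hc A hA i hiP hd
  rw [h2] at h1
  have h5 : P.card * (2 * (unions J).card) = 2 * (P.card * (unions J).card) := by ring
  omega

/-- The sum of the biases at the chosen points is at least the number of members of `P`. -/
theorem H8.bias (h : H8 J P x x' w1 w2) (hc : Cmpl J P x x' w1 w2)
    (hg : GamCap J P x x' w1 w2) (hs : SlotOK J P x x' w1 w2) (hi : SlotInj J P x x' w1 w2) :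
    P.card * (unions J).card + P.card
      ≤ ∑ w ∈ P, (fr (unions J) (x w) + fr (unions J) (x' w)) := by
  classical
  have h1 := h.main hc hg hs hi
  have h2 : ∑ w ∈ P, ∑ A ∈ unions J, uu x x' w A
      + ∑ w ∈ P, (fr (unions J) (x w) + fr (unions J) (x' w))
      = 2 * (P.card * (unions J).card) := by
    rw [← Finset.sum_add_distrib]
    have : ∀ w ∈ P, ∑ A ∈ unions J, uu x x' w A
        + (fr (unions J) (x w) + fr (unions J) (x' w)) = 2 * (unions J).card := by
      intro w _
      rw [sum_uu]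
      have e1 := fr_add_nfr (unions J) (x w)
      have e2 := fr_add_nfr (unions J) (x' w)
      omega
    rw [Finset.sum_congr rfl this, Finset.sum_const, smul_eq_mul]
    ring
  omega

/-- Some chosen point is in more than half of the family. -/
theorem H8.exists_gt (h : H8 J P x x' w1 w2) (hc : Cmpl J P x x' w1 w2)
    (hg : GamCap J P x x' w1 w2) (hs : SlotOK J P x x' w1 w2) (hi : SlotInj J P x x' w1 w2)
    (hP : P.Nonempty) :
    ∃ z ∈ P.sup id, (unions J).card < 2 * fr (unions J) z := by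
  classical
  by_contra hcon
  push Not at hcon
  have h1 := h.bias hc hg hs hi
  have h2 : ∑ w ∈ P, (fr (unions J) (x w) + fr (unions J) (x' w))
      ≤ ∑ w ∈ P, (unions J).card := by
    apply Finset.sum_le_sum
    intro w hw
    have e1 := hcon (x w) (mem_sup_id.2 ⟨w, hw, h.hx w hw⟩)
    have e2 := hcon (x' w) (mem_sup_id.2 ⟨w, hw, h.hx' w hw⟩)
    omega
  rw [Finset.sum_const, smul_eq_mul] at h2
  have := hP.card_pos
  omega

end

end Pool.Agent.H83.ELZ
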