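import Pool.Agent.H83.ELZ.T8Defs

/-!
# Degree three with nested generators (MP_75f39d): every slot that is used is a redundant term
-/

set_option autoImplicit false

namespace Pool.Agent.H83.ELZ

open Finset Pool.Agent.H97.GEN

variable {α : Type*} [DecidableEq α]

section

variable {J P : Finset (Finset α)} {x x' : Finset α → α} {w1 w2 : Finset α → Finset α}

lemma T8S_sy (w A : Finset α) : sy x x' w A = x w ∨ sy x x' w A = x' w := by
  unfold sy
  by_cases h : x w ∉ A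
  · rw [if_pos h]
    exact Or.inl rfl
  · rw [if_neg h]
    exact Or.inr rfl

/-- The criterion for a redundant term. -/
lemma T8S_red {A B o b : Finset α} (hA : A ∈ unions J) (hB : B ∈ unions J) (hAB : A ⊆ B)
    (hoB : o ⊆ B) (hoA : ¬ o ⊆ A) (hc : ∀ z ∈ o, z ∉ A → ∃ a ∈ J, a ≠ o ∧ a ⊆ B ∧ z ∈ a)
    (hb : b ∈ J) (hbB : ¬ b ⊆ B) : B ∈ (RR J o).erase (J.sup id) := by
  refine Finset.mem_erase.2 ⟨?_, mem_RR.2 ⟨hB, hoB, ?_⟩⟩
  · rintro rfl
    exact hbB (Finset.le_sup (f := id) hb)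
  · intro z hz
    by_cases hzA : z ∈ A
    · obtain ⟨g, hg, hgA, hzg⟩ := (mem_iff hA z).1 hzA
      refine mem_sup_id.2 ⟨g, Finset.mem_erase.2 ⟨?_, mem_K.2 ⟨hg, hgA.trans hAB⟩⟩, hzg⟩
      rintro rfl
      exact hoA hgA
    · obtain ⟨a, ha, hao, haB, hza⟩ := hc z hz hzA
      exact mem_sup_id.2 ⟨a, Finset.mem_erase.2 ⟨hao, mem_K.2 ⟨ha, haB⟩⟩, hza⟩

/-- The same with one generator that contains the trace. -/
lemma T8S_red1 {A B o a b : Finset α} (hA : A ∈ unions J) (hB : B ∈ unions J) (hAB : A ⊆ B)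
    (hoB : o ⊆ B) (hoA : ¬ o ⊆ A) (ha : a ∈ J) (hao : a ≠ o) (haB : a ⊆ B) (hoa : o \ A ⊆ a)
    (hb : b ∈ J) (hbB : ¬ b ⊆ B) : B ∈ (RR J o).erase (J.sup id) :=
  T8S_red hA hB hAB hoB hoA
    (fun _ hz hzA => ⟨a, ha, hao, haB, hoa (Finset.mem_sdiff.2 ⟨hz, hzA⟩)⟩) hb hbB

lemma T8S_dem {A i : Finset α} (hd : Dem J x x' A i) : x i ∉ A ∧ x' i ∉ A :=
  uu_eq_two.1 hd.2.2

/-- A generator inside `A ∪ i`, not inside `A`, different from `i`, is swallowed by `i`. -/
lemma T8S_Lf {A i c : Finset α} (hci : c ≠ i) (hcA : ¬ c ⊆ A) (hc : c ⊆ A ∪ i) : Lf c i A :=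
  ⟨hci, hcA, (sdiff_sub_of hc).trans Finset.sdiff_subset⟩

/-- The other demand of a lonely member. -/
lemma T8S_other {A g i : Finset α} (hU : ¬ Uq J P x x' A g i) :
    ∃ d ∈ P, Dem J x x' A d ∧ Lf g d A ∧ d ≠ i := by
  by_contra hcon
  push Not at hcon
  apply hU
  intro g' hg' hgd hgL
  exact hcon g' hg' hgd hgL

/-- `AA` is in the family. -/
lemma H8.AA_mem (h : H8 J P x x' w1 w2) {A i : Finset α} (hA : A ∈ unions J) (hi : Hat P i) :
    AA w1 w2 A i ∈ unions J := by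
  unfold AA
  exact union_mem hA (union_mem (self_mem (h.PJ (h.sel1 i hi).1.1))
    (self_mem (h.PJ (h.sel2 i hi).1)))

/-- A bad guest that is not `w1` is not inside `AA`. -/
lemma H8.bad_AA (h : H8 J P x x' w1 w2) {A i c : Finset α} (hi : Hat P i)
    (h12 : w1 i ≠ w2 i) (hc : Gst P c i) (hu : uu x x' c A = 2) (hc1 : c ≠ w1 i)
    (hc2 : c ≠ w2 i) : ¬ c ⊆ AA w1 w2 A i := by
  intro hsub
  obtain ⟨hx1, hx2⟩ := uu_eq_two.1 hu
  obtain ⟨-, hv⟩ := h.two i hi h12
  obtain ⟨n1, n2⟩ := hv c hc hc1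
  have e1 : x c ∈ w2 i := by
    rcases Finset.mem_union.1 (hsub (h.hx c hc.1)) with h' | h'
    · exact absurd h' hx1
    · rcases Finset.mem_union.1 h' with h' | h'
      · exact absurd h' n1
      · exact h'
  have e2 : x' c ∈ w2 i := by
    rcases Finset.mem_union.1 (hsub (h.hx' c hc.1)) with h' | h'
    · exact absurd h' hx2
    · rcases Finset.mem_union.1 h' with h' | h'
      · exact absurd h' n2
      · exact h'
  obtain ⟨g1, -, g3, -⟩ := h.sel2 i hi
  exact h.sepG c i hc (w2 i) g1 hc2.symm g3 e1 e2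

/-- `AA` is not everything. -/
lemma H8.top_AA (h : H8 J P x x' w1 w2) {A i g0 : Finset α} (hA : A ∈ unions J) (hiP : i ∈ P)
    (hd : Dem J x x' A i) (hi : Hat P i) (h12 : w1 i ≠ w2 i)
    (hg0 : ∀ g' ∈ P, Lf g' i A → uu x x' g' A ≤ 1 → g' = g0) :
    ∃ b ∈ P, ¬ b ⊆ AA w1 w2 A i := by
  obtain ⟨c, hc, c', hc', hcc, hci, hc1, hc2, hxc, hci', hc1', hc2', hxc'⟩ := h.thH i hi h12
  obtain ⟨hx1, hx2⟩ := T8S_dem hd
  have hw1i : w1 i ⊆ i := (h.sel1 i hi).1.2.2.2
  have hw2i : w2 i ⊆ i := (h.sel2 i hi).2.2.2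
  have key : ∀ c ∈ P, c ≠ i → c ≠ w1 i → c ≠ w2 i → ¬ c ⊆ A → c ≠ g0 →
      ¬ c ⊆ AA w1 w2 A i := by
    intro c hc hci hc1 hc2 hcA hcg hsub
    have hL : Lf c i A := by
      refine ⟨hci, hcA, ?_⟩
      intro z hz
      obtain ⟨hz1, hz2⟩ := Finset.mem_sdiff.1 hz
      rcases Finset.mem_union.1 (hsub hz1) with h' | h'
      · exact absurd h' hz2
      · rcases Finset.mem_union.1 h' with h' | h'
        · exact hw1i h'
        · exact hw2i h'
    have h2 := uu_le_two (x := x) (x' := x') c A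
    by_cases hu : uu x x' c A ≤ 1
    · exact hcg (hg0 c hc hL hu)
    · have hG := (h.good_or hA hc hiP hL).resolve_left hu
      exact h.bad_AA hi h12 hG (by omega) hc1 hc2 hsub
  by_cases hcg : c = g0
  · refine ⟨c', hc', key c' hc' hci' hc1' hc2' (fun hs => hx2 (hs hxc')) ?_⟩
    rintro rfl
    exact hcc hcg
  · exact ⟨c, hc, key c hc hci hc1 hc2 (fun hs => hx1 (hs hxc)) hcg⟩

/-- **Every used slot is a redundant term, not the top.** -/
theorem H8.slot_mem (h : H8 J P x x' w1 w2) {A o i B : Finset α} {y : α} (hA : A ∈ unions J)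
    (hiP : i ∈ P) (hoP : o ∈ P) (hd : Dem J x x' A i) (hU : Use J P x x' w1 w2 o A i B y) :
    B ∈ (RR J o).erase (J.sup id) ∧ (y = x o ∨ y = x' o) := by
  have hiJ := h.PJ hiP
  have hoJ := h.PJ hoP
  have hAi : A ∪ i ∈ unions J := union_mem hA (self_mem hiJ)
  have hAo : A ∪ o ∈ unions J := union_mem hA (self_mem hoJ)
  obtain ⟨hx1, hx2⟩ := T8S_dem hd
  cases hU with
  | k1 _ _ _ hL hS hu hT hG hh =>
    refine ⟨?_, T8S_sy _ _⟩
    obtain ⟨g, hg, hsub, hgn, hgo⟩ := not_sim hS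
    have htr : g \ A = o \ A := hT g hg hsub hgn
    refine T8S_red1 hA hAo Finset.subset_union_left Finset.subset_union_right hL.2.1 hg hgo hsub
      ?_ hiJ ?_
    · rw [← htr]
      exact Finset.sdiff_subset
    · intro hib
      have hL' := T8S_Lf hL.1.symm hd.1 hib
      exact hd.1 (hG i (h.gst_of_Lf hA hiP hoP hd hL'))
  | k2 _ _ _ k _ hL hu hG hk hy =>
    refine ⟨?_, hy⟩
    refine T8S_red1 hA hAo Finset.subset_union_left Finset.subset_union_right hL.2.1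
      (h.PJ hG.2.1) hG.2.2.1.symm hk (Finset.sdiff_subset.trans hG.2.2.2) hiJ ?_
    intro hib
    have hL' := T8S_Lf hL.1.symm hd.1 hib
    exact h.not_hat hG ⟨i, h.gst_of_Lf hA hiP hoP hd hL'⟩
  | k3 _ _ _ hL hS hu hUq hall hi =>
    refine ⟨?_, T8S_sy _ _⟩
    obtain ⟨d, hdP, hdd, hdL, hdi⟩ := T8S_other hUq
    have hoB : o ⊆ A ∪ i := by
      intro z hz
      by_cases hzA : z ∈ A
      · exact Finset.mem_union_left _ hzA
      · exact Finset.mem_union_right _ (hL.2.2 (Finset.mem_sdiff.2 ⟨hz, hzA⟩))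
    refine T8S_red1 hA hAi Finset.subset_union_left hoB hL.2.1 hiJ hL.1.symm
      Finset.subset_union_right hL.2.2 (h.PJ hdP) ?_
    intro hdB
    exact hdL.1 (hall d hdP (T8S_Lf hdi hdd.1 hdB)).symm
  | k4 _ _ k _ hG hk hall hy =>
    refine ⟨?_, hy⟩
    obtain ⟨c, hc, hci, hck, hcx⟩ := h.thG _ k hG
    refine T8S_red1 hA hAi Finset.subset_union_left Finset.subset_union_right hd.1
      (h.PJ hG.2.1) hG.2.2.1.symm hk (Finset.sdiff_subset.trans hG.2.2.2) (h.PJ hc) ?_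
    intro hcB
    refine hck (hall c hc (T8S_Lf hci ?_ hcB))
    intro hcA
    rcases hcx with h' | h'
    · exact hx1 (hcA h')
    · exact hx2 (hcA h')
  | k5 _ _ _ hi ho hn hy =>
    obtain ⟨hG1, hx1w⟩ := h.sel1 _ hi
    have hw1A : ¬ w1 i ⊆ A := fun hs => hx1 (hs hx1w)
    have hy' : y = x (w1 i) ∨ y = x' (w1 i) := by
      rcases hy with ⟨-, h'⟩ | ⟨-, h'⟩
      · exact h'
      · exact Or.inl h'
    refine ⟨?_, hy'⟩
    -- a member outside
    obtain ⟨b, hbJ, hbB⟩ : ∃ b ∈ J, ¬ b ⊆ A ∪ i := by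
      by_cases h12 : w1 i = w2 i
      · rcases hy with ⟨hE, -⟩ | ⟨⟨g, hg⟩, -⟩
        · obtain ⟨c, hc, hcw, hci, hcx⟩ := h.thG _ _ hG1
          refine ⟨c, h.PJ hc, ?_⟩
          intro hcB
          have hLw : Lf (w1 i) i A :=
            ⟨hG1.2.2.1, hw1A, Finset.sdiff_subset.trans hG1.2.2.2⟩
          have hbad : uu x x' (w1 i) A = 2 := by
            have e1 := hE _ hG1.1 hLw
            have e2 := uu_le_two (x := x) (x' := x') (w1 i) A
            omega
          obtain ⟨hz1, hz2⟩ := uu_eq_two.1 hbad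
          have hcA : ¬ c ⊆ A := by
            intro hcA
            rcases hcx with h' | h'
            · exact hz1 (hcA h')
            · exact hz2 (hcA h')
          rcases ho c hc (T8S_Lf hci hcA hcB) with h' | h'
          · exact hcw h'
          · rw [← h12] at h'
            exact hcw h'
        · obtain ⟨hgP, hgL, hgu, hgS, hg1, hgU⟩ := hg
          obtain ⟨d, hdP, hdd, hdL, hdi⟩ := T8S_other hgU
          refine ⟨d, h.PJ hdP, ?_⟩
          intro hdB
          have hg' : g = w1 i := by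
            rcases ho g hgP hgL with h' | h'
            · exact h'
            · rw [h12]
              exact h'
          have hd' : d = w1 i := by
            rcases ho d hdP (T8S_Lf hdi hdd.1 hdB) with h' | h'
            · exact h'
            · rw [h12]
              exact h'
          rw [hg', hd'] at hdL
          exact hdL.1 rfl
      · obtain ⟨c, hc, c', hc', hcc, hci, hc1, hc2, hxc, -⟩ := h.thH i hi h12
        refine ⟨c, h.PJ hc, ?_⟩
        intro hcB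
        rcases ho c hc (T8S_Lf hci (fun hs => hx1 (hs hxc)) hcB) with h' | h'
        · exact hc1 h'
        · exact hc2 h'
    exact T8S_red1 hA hAi Finset.subset_union_left
      (hG1.2.2.2.trans Finset.subset_union_right) hw1A hiJ hG1.2.2.1.symm
      Finset.subset_union_right (Finset.sdiff_subset.trans hG1.2.2.2) hbJ hbB
  | k6 _ _ g hi h12 hg hg1 hr =>
    refine ⟨?_, Or.inl rfl⟩
    obtain ⟨hgP, hgL, hgu, hgS, hgu1, hgU⟩ := hg
    obtain ⟨d, hdP, hdd, hdL, hdi⟩ := T8S_other hgU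
    refine Finset.mem_erase.2 ⟨?_, mem_RR.2 ⟨hAi, Finset.subset_union_right, hr⟩⟩
    intro htop
    have hdB : d ⊆ A ∪ o := by
      rw [htop]
      exact Finset.le_sup (f := id) (h.PJ hdP)
    have hdL' := T8S_Lf hdi hdd.1 hdB
    have hdG := h.gst_of_Lf hA hdP hiP hdd hdL'
    have hdw := h.one o hi h12 d hdG
    obtain ⟨hG1, hx1w⟩ := h.sel1 _ hi
    have hx'w : x' o ∉ w1 o := h.sepH o hi _ hG1.1 hG1.2.2.1 hx1w
    obtain ⟨c, hc, hzc⟩ := mem_sup_id.1 (hr (h.hx' o hiP))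
    obtain ⟨hci, hcK⟩ := Finset.mem_erase.1 hc
    obtain ⟨hcJ, hcB⟩ := mem_K.1 hcK
    have hcA : ¬ c ⊆ A := fun hs => hx2 (hs hzc)
    have hcL := T8S_Lf hci hcA hcB
    have hcP := h.Lf_mem hA hiP hcJ hcL
    rcases h.good_or hA hcP hiP hcL with h' | h'
    · have hcg := hgu c hcP hcL h'
      rw [hcg] at hzc
      apply hx'w
      rw [← hdw]
      exact hdL.2.2 (Finset.mem_sdiff.2 ⟨hzc, hx2⟩)
    · rw [h.one o hi h12 c h'] at hzc
      exact hx'w hzc
  | k7 _ _ _ hi h12 hg hg1 hr =>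
    refine ⟨?_, T8S_sy _ _⟩
    obtain ⟨hgP, hgL, -⟩ := hg
    have hcov := (mem_cov.1 (h.PC hiP)).2
    obtain ⟨b, hbJ, hbB⟩ : ∃ b ∈ J, ¬ b ⊆ A ∪ i := by
      by_contra hcon
      push Not at hcon
      apply hr
      intro z hz
      obtain ⟨c, hc, hci, hzc⟩ := hcov z hz
      exact mem_sup_id.2 ⟨c, Finset.mem_erase.2 ⟨hci, mem_K.2 ⟨hc, hcon c hc⟩⟩, hzc⟩
    have hoB : o ⊆ A ∪ i := by
      intro z hz
      by_cases hzA : z ∈ A
      · exact Finset.mem_union_left _ hzA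
      · exact Finset.mem_union_right _ (hgL.2.2 (Finset.mem_sdiff.2 ⟨hz, hzA⟩))
    exact T8S_red1 hA hAi Finset.subset_union_left hoB hgL.2.1 hiJ hgL.1.symm
      Finset.subset_union_right hgL.2.2 hbJ hbB
  | k8 _ _ _ hi h12 hg hg1 hg2 hgA =>
    refine ⟨?_, T8S_sy _ _⟩
    obtain ⟨hgP, hgL, hgu, -⟩ := hg
    obtain ⟨b, hb, hbB⟩ := h.top_AA hA hiP hd hi h12 hgu
    refine T8S_red hA (h.AA_mem hA hi) Finset.subset_union_left hgA hgL.2.1 ?_ (h.PJ hb) hbB
    intro z hz hzA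
    rcases Finset.mem_union.1 (hgA hz) with h' | h'
    · exact absurd h' hzA
    · rcases Finset.mem_union.1 h' with h' | h'
      · exact ⟨w1 i, h.PJ (h.sel1 i hi).1.1, hg1.symm,
          Finset.subset_union_left.trans Finset.subset_union_right, h'⟩
      · exact ⟨w2 i, h.PJ (h.sel2 i hi).1, hg2.symm,
          Finset.subset_union_right.trans Finset.subset_union_right, h'⟩
  | k9 _ _ _ hi h12 hin hb hy =>
    have hy' : y = x o ∨ y = x' o := by
      rcases hy with ⟨-, h'⟩ | ⟨-, h'⟩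
      · exact h'
      · exact Or.inl h'
    refine ⟨?_, hy'⟩
    obtain ⟨b, hb', hbB⟩ : ∃ b ∈ P, ¬ b ⊆ AA w1 w2 A o := by
      rcases hy with ⟨hE, -⟩ | ⟨⟨g, hg⟩, -⟩
      · exact h.top_AA (g0 := o) hA hiP hd hi h12 (fun g' hg' hL hu => absurd hu (hE g' hg' hL))
      · exact h.top_AA hA hiP hd hi h12 hg.2.2.1
    refine T8S_red hA (h.AA_mem hA hi) Finset.subset_union_left hin hd.1 ?_ (h.PJ hb') hbB
    intro z hz hzA
    rcases Finset.mem_union.1 (hin hz) with h' | h'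
    · exact absurd h' hzA
    · rcases Finset.mem_union.1 h' with h' | h'
      · exact ⟨w1 o, h.PJ (h.sel1 o hi).1.1, (h.sel1 o hi).1.2.2.1,
          Finset.subset_union_left.trans Finset.subset_union_right, h'⟩
      · exact ⟨w2 o, h.PJ (h.sel2 o hi).1, (h.sel2 o hi).2.2.1,
          Finset.subset_union_right.trans Finset.subset_union_right, h'⟩

end

end Pool.Agent.H83.ELZ
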