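import Pool.Agent.H83.ELZ.T8Inj

/-!
# Degree three with nested generators (MP_75f39d): a slot determines its demand
-/

set_option autoImplicit false

namespace Pool.Agent.H83.ELZ

open Finset Pool.Agent.H97.GEN

variable {α : Type*} [DecidableEq α]

section

variable {J P : Finset (Finset α)} {x x' : Finset α → α} {w1 w2 : Finset α → Finset α}

lemma H8.ni_ni (h : H8 J P x x' w1 w2) {A A' i i' o B : Finset α} (hi : i ∈ P) (hi' : i' ∈ P)
    (h1 : NI J P x x' w1 w2 o B A i) (h2 : NI J P x x' w1 w2 o B A' i') : A = A' ∧ i = i' := by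
  obtain ⟨k, hk, hkB, h1⟩ := h1
  obtain ⟨k', hk', hkB', h2⟩ := h2
  have hkk := h.host o k k' hk hk'
  subst hkk
  have hsub : rem J B {o, k} ⊆ rem J B {k} := by
    apply rem_anti
    intro s hs
    exact Finset.mem_insert_of_mem hs
  rcases h1 with ⟨a1, a2, a3, a4⟩ | ⟨a1, a2, a3⟩ | ⟨a1, a2, a3⟩
  · rcases h2 with ⟨b1, b2, b3, b4⟩ | ⟨b1, b2, b3⟩ | ⟨b1, b2, b3⟩
    · have hAA : A = A' := a3.trans b3.symm
      refine ⟨hAA, ?_⟩
      subst hAA
      rcases a4 with ⟨c1, c2, c3, c4, c5⟩ | ⟨c1, c2⟩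
      · rcases b4 with ⟨d1, d2, d3, d4, d5⟩ | ⟨d1, d2⟩
        · obtain ⟨z, hz⟩ := Finset.sdiff_nonempty.2 c2
          have hzo := (Finset.mem_sdiff.1 hz).1
          rcases h.deg4 hk.1 hk.2.1 hi hi' hk.2.2.1 c3.symm c4.symm hzo (hk.2.2.2 hzo) (c5 hz)
            (d5 hz) with h' | h' | h'
          · exact absurd h' d3
          · exact absurd h' d4
          · exact h'.symm
        · omega
      · rcases b4 with ⟨d1, d2, d3, d4, d5⟩ | ⟨d1, d2⟩
        · omega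
        · rw [c2, d2]
    · exact absurd a2 b1
    · exact absurd b1 a1
  · rcases h2 with ⟨b1, b2, b3, b4⟩ | ⟨b1, b2, b3⟩ | ⟨b1, b2, b3⟩
    · exact absurd b2 a1
    · exact ⟨a2.trans b2.symm, a3.trans b3.symm⟩
    · exact absurd (b1.trans hsub) a1
  · rcases h2 with ⟨b1, b2, b3, b4⟩ | ⟨b1, b2, b3⟩ | ⟨b1, b2, b3⟩
    · exact absurd a1 b1
    · exact absurd (a1.trans hsub) b1
    · exact ⟨a2.trans b2.symm, a3.trans b3.symm⟩

/-- `IV1` and `IV8`, `IV3` and `IV8` are incompatible. -/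
lemma H8.iv8_aux (h : H8 J P x x' w1 w2) {o B a b A1 : Finset α}
    (hA1 : A1 = rem J B {o, a}) (hu : uu x x' b A1 = 2) (hH : Hat P b) (h12 : w1 b ≠ w2 b)
    (ha : a = w1 b ∨ a = w2 b) (hB1 : w1 b ⊆ B) (hB2 : w2 b ⊆ B) (ho1 : w1 b ≠ o)
    (ho2 : w2 b ≠ o) : False := by
  rw [uu_eq_two] at hu
  obtain ⟨hG1, hx1⟩ := h.sel1 b hH
  have hG2 := h.sel2 b hH
  have hx2 := (h.two b hH h12).1
  rcases ha with ha | ha
  · apply hu.2
    rw [hA1]
    refine sub_rem (h.PJ hG2.1) hB2 ?_ hx2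
    rw [Finset.mem_insert, Finset.mem_singleton, ha]
    rintro (h' | h')
    · exact ho2 h'
    · exact h12 h'.symm
  · apply hu.1
    rw [hA1]
    refine sub_rem (h.PJ hG1.1) hB1 ?_ hx1
    rw [Finset.mem_insert, Finset.mem_singleton, ha]
    rintro (h' | h')
    · exact ho1 h'
    · exact h12 h'

lemma H8.niv_niv (h : H8 J P x x' w1 w2) {A A' i i' o B : Finset α} {y : α} (ho : o ∈ P)
    (h1 : NIV J P x x' w1 w2 o B y A i) (h2 : NIV J P x x' w1 w2 o B y A' i') :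
    A = A' ∧ i = i' := by
  obtain ⟨-, -, hyo, a, ha, b, hb, hao, hbo, hab, hya, hyb, haB, h1⟩ := h1
  obtain ⟨-, -, -, a', ha', b', hb', hao', hbo', hab', hya', hyb', haB', h2⟩ := h2
  have ea : a' = a ∨ a' = b := by
    rcases h.deg4 ho ha hb ha' hao.symm hbo.symm hab hyo hya hyb hya' with h' | h' | h'
    · exact absurd h' hao'
    · exact Or.inl h'
    · exact Or.inr h'
  have eb : b' = a ∨ b' = b := by
    rcases h.deg4 ho ha hb hb' hao.symm hbo.symm hab hyo hya hyb hyb' with h' | h' | h'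
    · exact absurd h' hbo'
    · exact Or.inl h'
    · exact Or.inr h'
  rcases h1 with ⟨hbB, h1⟩ | ⟨hbB, hG, hib, h1⟩
  · have ea' : a' = a := by
      rcases ea with h' | h'
      · exact h'
      · rw [h'] at haB'
        exact absurd haB' hbB
    have eb' : b' = b := by
      rcases eb with h' | h'
      · exact absurd (ea'.trans h'.symm) hab'
      · exact h'
    subst ea' eb'
    rcases h2 with ⟨-, h2⟩ | ⟨hbB', -⟩
    swap
    · exact absurd hbB' hbB
    rcases h1 with ⟨a1, a2, a3, a4, a5⟩ | ⟨a1, a2, a3, a4, a5⟩ | ⟨a1, a2, a3, a4⟩ |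
      ⟨a1, a2, a3, a4, a5, a6, a7, a8, a9⟩
    · rcases h2 with ⟨b1, b2, b3, b4, b5⟩ | ⟨b1, b2, b3, b4, b5⟩ | ⟨b1, b2, b3, b4⟩ |
        ⟨b1, b2, b3, b4, b5, b6, b7, b8, b9⟩
      · exact ⟨a2.trans b2.symm, a1.trans b1.symm⟩
      · rw [a2] at a3
        rw [b2] at b3
        exact absurd b3 a3
      · exact absurd a4 b4
      · exact (h.iv8_aux a2 a5 b3 b4 b5 b6 b7 b8 b9).elim
    · rcases h2 with ⟨b1, b2, b3, b4, b5⟩ | ⟨b1, b2, b3, b4, b5⟩ | ⟨b1, b2, b3, b4⟩ |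
        ⟨b1, b2, b3, b4, b5, b6, b7, b8, b9⟩
      · rw [a2] at a3
        rw [b2] at b3
        exact absurd a3 b3
      · exact ⟨a2.trans b2.symm, a1.trans b1.symm⟩
      · exact absurd b3 a4
      · exact (h.iv8_aux a2 a5 b3 b4 b5 b6 b7 b8 b9).elim
    · rcases h2 with ⟨b1, b2, b3, b4, b5⟩ | ⟨b1, b2, b3, b4, b5⟩ | ⟨b1, b2, b3, b4⟩ |
        ⟨b1, b2, b3, b4, b5, b6, b7, b8, b9⟩
      · exact absurd b4 a4
      · exact absurd a3 b4
      · exact ⟨a2.trans b2.symm, a1.trans b1.symm⟩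
      · exfalso
        rcases b5 with h' | h'
        · have := (h.sel1 _ b3).1
          rw [← h'] at this
          exact h.not_gst a3 this
        · have := h.sel2 _ b3
          rw [← h'] at this
          exact h.not_gst a3 this
    · rcases h2 with ⟨b1, b2, b3, b4, b5⟩ | ⟨b1, b2, b3, b4, b5⟩ | ⟨b1, b2, b3, b4⟩ |
        ⟨b1, b2, b3, b4, b5, b6, b7, b8, b9⟩
      · exact (h.iv8_aux b2 b5 a3 a4 a5 a6 a7 a8 a9).elim
      · exact (h.iv8_aux b2 b5 a3 a4 a5 a6 a7 a8 a9).elim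
      · exfalso
        rcases a5 with h' | h'
        · have := (h.sel1 _ a3).1
          rw [← h'] at this
          exact h.not_gst b3 this
        · have := h.sel2 _ a3
          rw [← h'] at this
          exact h.not_gst b3 this
      · exact ⟨a2.trans b2.symm, a1.trans b1.symm⟩
  · rcases h2 with ⟨hbB', -⟩ | ⟨-, hG', hib', h2⟩
    · exfalso
      rcases eb with h' | h'
      · rw [h'] at hbB'
        exact hbB' haB
      · rw [h'] at hbB'
        exact hbB' hbB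
    · have ebb : b' = b := by
        rcases eb with h' | h'
        · have haa : a' = b := by
            rcases ea with h'' | h''
            · exact absurd (h''.trans h'.symm) hab'
            · exact h''
          rw [h', haa] at hG'
          exact absurd hG' (h.not_gst ⟨a, hG⟩)
        · exact h'
      subst ebb
      rcases h1 with ⟨a1, a2⟩ | ⟨a1, a2⟩
      · rcases h2 with ⟨b1, b2⟩ | ⟨b1, b2⟩
        · exact ⟨a2.trans b2.symm, hib.trans hib'.symm⟩
        · exact absurd a1 b1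
      · rcases h2 with ⟨b1, b2⟩ | ⟨b1, b2⟩
        · exact absurd b1 a1
        · exact ⟨a2.trans b2.symm, hib.trans hib'.symm⟩

/-- **A slot determines its demand.** -/
theorem H8.use_inj (h : H8 J P x x' w1 w2) {A A' i i' o B : Finset α} {y : α}
    (ho : o ∈ P) (hA : A ∈ unions J) (hi : i ∈ P) (hd : Dem J x x' A i)
    (hU : Use J P x x' w1 w2 o A i B y) (hA' : A' ∈ unions J) (hi' : i' ∈ P)
    (hd' : Dem J x x' A' i') (hU' : Use J P x x' w1 w2 o A' i' B y) : A = A' ∧ i = i' := by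
  rcases h.class_of hA hi ho hd hU with c | c | c | c <;>
    rcases h.class_of hA' hi' ho hd' hU' with c' | c' | c' | c'
  · exact h.ni_ni hi hi' c c'
  · obtain ⟨k, hk, -⟩ := c
    exact absurd hk (h.not_gst c'.1)
  · obtain ⟨k, hk, -⟩ := c
    exact absurd hk (h.not_gst c'.1)
  · obtain ⟨k, hk, hkB, -⟩ := c
    exact absurd hkB (c'.1 k hk)
  · obtain ⟨k, hk, -⟩ := c'
    exact absurd hk (h.not_gst c.1)
  · exact ⟨c.2.2.2.trans c'.2.2.2.symm, c.2.2.1.trans c'.2.2.1.symm⟩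
  · exact absurd c'.2.1 c.2.1
  · exact absurd (c'.2.1 c.1).1 c.2.1
  · obtain ⟨k, hk, -⟩ := c'
    exact absurd hk (h.not_gst c.1)
  · exact absurd c.2.1 c'.2.1
  · obtain ⟨h1, h2, h3, h4, g, hg, hgo, hgB, hxg, huni, hAr⟩ := c
    obtain ⟨h1', h2', h3', h4', g', hg', hgo', hgB', hxg', huni', hAr'⟩ := c'
    have := huni g' hg' hgB' hgo' hxg'
    subst this
    exact ⟨hAr.trans hAr'.symm, h4.trans h4'.symm⟩
  · exact absurd c.2.2.1 (c'.2.1 c.1).2
  · obtain ⟨k, hk, hkB, -⟩ := c'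
    exact absurd hkB (c.1 k hk)
  · exact absurd (c.2.1 c'.1).1 c'.2.1
  · exact absurd c'.2.2.1 (c.2.1 c'.1).2
  · exact h.niv_niv ho c c'

/-- The number of slots of `o` in use. -/
theorem H8.slots (h : H8 J P x x' w1 w2) {o : Finset α} (ho : o ∈ P)
    (hslot : ∀ A ∈ unions J, ∀ i ∈ P, Dem J x x' A i → ∀ B y,
      Use J P x x' w1 w2 o A i B y → B ∈ (RR J o).erase (J.sup id) ∧ (y = x o ∨ y = x' o)) :
    ∑ A ∈ unions J, ∑ i ∈ P.filter (fun i => Dem J x x' A i), (US J P x x' w1 w2 A o i).card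
      ≤ 2 * ((RR J o).erase (J.sup id)).card := by
  classical
  set D := ((unions J) ×ˢ P).filter fun t => Dem J x x' t.1 t.2 with hD
  have h1 : ∑ A ∈ unions J, ∑ i ∈ P.filter (fun i => Dem J x x' A i),
      (US J P x x' w1 w2 A o i).card = ∑ t ∈ D, (US J P x x' w1 w2 t.1 o t.2).card := by
    rw [hD, Finset.sum_filter, Finset.sum_product]
    apply Finset.sum_congr rfl
    intro A _
    rw [Finset.sum_filter]
  have hmemD : ∀ t ∈ D, (t.1 ∈ unions J ∧ t.2 ∈ P) ∧ Dem J x x' t.1 t.2 := by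
    intro t ht
    obtain ⟨h2, h3⟩ := Finset.mem_filter.1 ht
    exact ⟨Finset.mem_product.1 h2, h3⟩
  have hdis : ∀ t ∈ D, ∀ s ∈ D, t ≠ s →
      Disjoint (US J P x x' w1 w2 t.1 o t.2) (US J P x x' w1 w2 s.1 o s.2) := by
    intro t ht s hs hts
    rw [Finset.disjoint_left]
    rintro ⟨B, y⟩ hB hB'
    obtain ⟨⟨hA, hi⟩, hd⟩ := hmemD t ht
    obtain ⟨⟨hA', hi'⟩, hd'⟩ := hmemD s hs
    obtain ⟨e1, e2⟩ := h.use_inj ho hA hi hd (mem_US.1 hB).2 hA' hi' hd' (mem_US.1 hB').2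
    exact hts (Prod.ext e1 e2)
  rw [h1, ← Finset.card_biUnion hdis]
  have hsub : D.biUnion (fun t => US J P x x' w1 w2 t.1 o t.2)
      ⊆ ((RR J o).erase (J.sup id)) ×ˢ ({x o, x' o} : Finset α) := by
    rintro ⟨B, y⟩ hB
    obtain ⟨t, ht, hBt⟩ := Finset.mem_biUnion.1 hB
    obtain ⟨⟨hA, hi⟩, hd⟩ := hmemD t ht
    obtain ⟨f1, f2⟩ := hslot t.1 hA t.2 hi hd B y (mem_US.1 hBt).2
    rw [Finset.mem_product]
    refine ⟨f1, ?_⟩
    rw [Finset.mem_insert, Finset.mem_singleton]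
    exact f2
  have h2 := Finset.card_le_card hsub
  rw [Finset.card_product] at h2
  have h3 : ({x o, x' o} : Finset α).card ≤ 2 := Finset.card_le_two
  calc _ ≤ ((RR J o).erase (J.sup id)).card * ({x o, x' o} : Finset α).card := h2
    _ ≤ ((RR J o).erase (J.sup id)).card * 2 := Nat.mul_le_mul_left _ h3
    _ = _ := Nat.mul_comm _ _

end

end Pool.Agent.H83.ELZ
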