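import Pool.Agent.H83.ELZ.T8Choice
import Pool.Agent.H83.ELZ.T8Main
import Pool.Agent.H83.ELZ.T8Comp
import Pool.Agent.H83.ELZ.T8Slot
import Pool.Agent.H83.ELZ.T8Gamma
import Pool.Agent.H83.ELZ.T8Uniq
import Pool.Agent.H83.ELZ.FinalM

/-!
# Degree three (MP_75f39d): the theorem for union-closed families
-/

set_option autoImplicit false

namespace Pool.Agent.H83.ELZ

open Finset Pool.Agent.H97.GEN Pool.Agent.H84.GEN

variable {α : Type*} [DecidableEq α]

/-- A nonempty set `P` of covered generators, closed under meeting, such that every point is in at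
most three members of `P`: some point of it is in more than half. -/
theorem three_local {J P : Finset (Finset α)} (hirr : ∀ g ∈ J, g ∉ unions (J.erase g))
    (hP : P.Nonempty) (PC : P ⊆ cov J)
    (comp : ∀ w ∈ cov J, ∀ i ∈ P, ∀ z, z ∈ w → z ∈ i → w ∈ P)
    (hdeg : ∀ z : α, (P.filter fun g => z ∈ g).card ≤ 3) :
    ∃ z ∈ P.sup id, (unions J).card < 2 * fr (unions J) z := by
  classical
  have hne : ∀ g ∈ J, g.Nonempty := by
    intro g hg
    rw [Finset.nonempty_iff_ne_empty]
    rintro rfl
    exact hirr _ hg (empty_mem _)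
  by_cases hnd : NoHit J P
  · obtain ⟨x, x', w1, w2, h⟩ := exists_H8 hne hdeg PC comp hP hnd
    exact h.exists_gt (fun A hA i hi hd => h.complete hA hi hd) (fun o ho => h.gamma ho)
      (fun o ho i hi A hA hd B y hU => h.slot_mem hA hi ho hd hU)
      (fun o ho i hi i' hi' A hA A' hA' hd hd' B y hU hU' =>
        h.use_inj ho hA hi hd hU hA' hi' hd' hU') hP
  · unfold NoHit at hnd
    push Not at hnd
    obtain ⟨w, hw, i, hi, hiw, y, hy, y', hy', hyi, hyi', hit⟩ := hnd
    have hlt := two_hit_cov hirr (PC hw) hi hiw hy hy' hyi hyi' (by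
      intro g hg hd
      by_contra hcon
      push Not at hcon
      exact hcon.2 (hit g hg hd hcon.1))
    by_cases hc : (unions J).card < 2 * fr (unions J) y
    · exact ⟨y, mem_sup_id.2 ⟨w, hw, hy⟩, hc⟩
    · exact ⟨y', mem_sup_id.2 ⟨w, hw, hy'⟩, by omega⟩

/-- **Degree three.** -/
theorem three_all {A : Finset (Finset α)} (hA : UnionClosed A)
    (h : (meet A).Nonempty ∨ SepNotPower A)
    (hdeg : ∀ z : α, ((cov (gens A)).filter fun g => z ∈ g).card ≤ 3) :
    ∃ x ∈ A.sup id, A.card < 2 * fr A x := by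
  classical
  have hu := unions_gens hA
  have h2 : A.card ≤ (unions (gens A)).card := by
    rw [hu]
    exact Finset.card_le_card (Finset.subset_insert _ _)
  have h3 : ∀ x, fr (unions (gens A)) x = fr A x := by
    intro x
    rw [hu]
    exact fr_insert_empty A x
  by_cases hc : (cov (gens A)).Nonempty
  · obtain ⟨x, hx, hlt⟩ := three_local (fun g hg => gens_irr A hg) hc (Finset.Subset.refl _)
      (fun w hw _ _ _ _ _ => hw) hdeg
    obtain ⟨G, hG, hxG⟩ := mem_sup_id.1 hx
    rw [h3] at hlt
    exact ⟨x, mem_sup_id.2 ⟨G, gens_subset A (mem_cov.1 hG).1, hxG⟩, by omega⟩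
  · apply part4_M hA h
    intro z
    rw [Finset.not_nonempty_iff_eq_empty] at hc
    rw [hc]
    simp

end Pool.Agent.H83.ELZ
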