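import Pool.Agent.H83.ELZ.T8Defs

/-!
# Degree three with nested generators (MP_75f39d): no slot is used twice
-/

set_option autoImplicit false

namespace Pool.Agent.H83.ELZ

open Finset Pool.Agent.H97.GEN

variable {α : Type*} [DecidableEq α]

/-- The union of the members of `J` inside `B` that are not in `S`. -/
def rem (J : Finset (Finset α)) (B : Finset α) (S : Finset (Finset α)) : Finset α :=
  ((K J B).filter fun g => g ∉ S).sup id

section

variable {J P : Finset (Finset α)} {x x' : Finset α → α} {w1 w2 : Finset α → Finset α}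

lemma rec_gen {A B : Finset α} {S : Finset (Finset α)} (hA : A ∈ unions J) (hAB : A ⊆ B)
    (hS : ∀ s ∈ S, ¬ s ⊆ A) (hin : ∀ u ∈ J, u ⊆ B → ¬ u ⊆ A → u ∈ S) : A = rem J B S := by
  unfold rem
  apply Finset.Subset.antisymm
  · intro z hz
    obtain ⟨g, hg, hgA, hzg⟩ := (mem_iff hA z).1 hz
    exact mem_sup_id.2 ⟨g, Finset.mem_filter.2 ⟨mem_K.2 ⟨hg, hgA.trans hAB⟩,
      fun hgS => hS g hgS hgA⟩, hzg⟩
  · intro z hz
    obtain ⟨g, hg, hzg⟩ := mem_sup_id.1 hz
    obtain ⟨hgK, hgS⟩ := Finset.mem_filter.1 hg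
    obtain ⟨hgJ, hgB⟩ := mem_K.1 hgK
    by_contra hzA
    exact hgS (hin g hgJ hgB fun hsub => hzA (hsub hzg))

lemma sub_rem {B u : Finset α} {S : Finset (Finset α)} (hu : u ∈ J) (huB : u ⊆ B)
    (hS : u ∉ S) : u ⊆ rem J B S := by
  intro z hz
  exact mem_sup_id.2 ⟨u, Finset.mem_filter.2 ⟨mem_K.2 ⟨hu, huB⟩, hS⟩, hz⟩

lemma rem_anti {B : Finset α} {S S' : Finset (Finset α)} (h : S ⊆ S') :
    rem J B S' ⊆ rem J B S := by
  intro z hz
  obtain ⟨g, hg, hzg⟩ := mem_sup_id.1 hz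
  obtain ⟨hgK, hgS⟩ := Finset.mem_filter.1 hg
  exact mem_sup_id.2 ⟨g, Finset.mem_filter.2 ⟨hgK, fun h' => hgS (h h')⟩, hzg⟩

lemma rem_singleton (B i : Finset α) : ((K J B).erase i).sup id = rem J B {i} := by
  unfold rem
  congr 1
  ext g
  rw [Finset.mem_erase, Finset.mem_filter, Finset.mem_singleton, and_comm]

/-- First class: the owner is a guest whose host is inside `B`. -/
def NI (J P : Finset (Finset α)) (x x' : Finset α → α) (w1 w2 : Finset α → Finset α)
    (o B A i : Finset α) : Prop :=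
  ∃ k, Gst P o k ∧ k ⊆ B ∧
    ((¬ k ⊆ rem J B {o, k} ∧ k ⊆ rem J B {k} ∧ A = rem J B {o, k} ∧
        ((uu x x' o A = 1 ∧ ¬ o ⊆ A ∧ i ≠ o ∧ i ≠ k ∧ o \ A ⊆ i) ∨ (uu x x' o A = 2 ∧ i = o))) ∨
      (¬ k ⊆ rem J B {k} ∧ A = rem J B {k, w1 k, w2 k} ∧ i = k) ∨
      (k ⊆ rem J B {o, k} ∧ A = rem J B {o, k, w1 k, w2 k} ∧ i = k))

/-- Second class: the owner is a hat with several guests. -/
def NII (J P : Finset (Finset α)) (w1 w2 : Finset α → Finset α) (o B A i : Finset α) : Prop :=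
  Hat P o ∧ w1 o ≠ w2 o ∧ i = o ∧ A = rem J B {o, w1 o, w2 o}

/-- Third class: the owner is a hat with one guest, and the point is in the guest. -/
def NIII (J P : Finset (Finset α)) (x x' : Finset α → α) (w1 w2 : Finset α → Finset α)
    (o B : Finset α) (y : α) (A i : Finset α) : Prop :=
  Hat P o ∧ w1 o = w2 o ∧ y = x o ∧ i = o ∧ ∃ g ∈ J, g ≠ o ∧ g ⊆ B ∧ x' o ∈ g ∧
    (∀ u ∈ J, u ⊆ B → u ≠ o → x' o ∈ u → u = g) ∧ A = rem J B {o, g, w1 o}

/-- Fourth class. -/
def NIV (J P : Finset (Finset α)) (x x' : Finset α → α) (w1 w2 : Finset α → Finset α)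
    (o B : Finset α) (y : α) (A i : Finset α) : Prop :=
  (∀ k, Gst P o k → ¬ k ⊆ B) ∧ (Hat P o → w1 o = w2 o ∧ y ≠ x o) ∧ y ∈ o ∧
    ∃ a ∈ P, ∃ b ∈ P, a ≠ o ∧ b ≠ o ∧ a ≠ b ∧ y ∈ a ∧ y ∈ b ∧ a ⊆ B ∧
      ((¬ b ⊆ B ∧
        ((i = b ∧ A = rem J B {o, a} ∧ ¬ Sim J A o ∧ a ⊆ rem J B {a} ∧ uu x x' b A = 2) ∨
         (i = a ∧ A = rem J B {o, a} ∧ Sim J A o ∧ ¬ Hat P a ∧ uu x x' b A = 2) ∨
         (i = a ∧ A = rem J B {a, o, w1 a} ∧ Hat P a ∧ ¬ a ⊆ rem J B {a}) ∨
         (i = b ∧ A = rem J B {o, b, w1 b, w2 b} ∧ Hat P b ∧ w1 b ≠ w2 b ∧ (a = w1 b ∨ a = w2 b) ∧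
            w1 b ⊆ B ∧ w2 b ⊆ B ∧ w1 b ≠ o ∧ w2 b ≠ o))) ∨
       (b ⊆ B ∧ Gst P a b ∧ i = b ∧
        ((w1 b = w2 b ∧ A = rem J B {b, o, w1 b}) ∨
         (w1 b ≠ w2 b ∧ A = rem J B {o, b, w1 b, w2 b}))))

lemma second {A i g : Finset α} (hUq : ¬ Uq J P x x' A g i) :
    ∃ d ∈ P, Dem J x x' A d ∧ Lf g d A ∧ d ≠ i := by
  unfold Uq at hUq
  push Not at hUq
  obtain ⟨d, h1, h2, h3, h4⟩ := hUq
  exact ⟨d, h1, h2, h3, h4⟩

lemma GI_of_Sim (h : H8 J P x x' w1 w2) {A o : Finset α} (hS : Sim J A o) : GI P o A := by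
  intro v hv
  rcases hS v (h.PJ hv.1) (hv.2.2.2.trans Finset.subset_union_right) with h' | h'
  · exact h'
  · exact absurd h' hv.2.2.1

/-- A hat with a chosen point outside `A` whose guests are inside `A`. -/
lemma H8.cls (h : H8 J P x x' w1 w2) {A o : Finset α} (hu : uu x x' o A = 1) (hG : GI P o A)
    (hH : Hat P o) : w1 o = w2 o ∧ sy x x' o A ≠ x o := by
  obtain ⟨hG1, hx1⟩ := h.sel1 o hH
  have hxA : x o ∈ A := hG _ hG1 hx1
  constructor
  · by_contra h12
    have hxA' : x' o ∈ A := hG _ (h.sel2 o hH) (h.two o hH h12).1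
    unfold uu at hu
    rw [if_pos hxA, if_pos hxA'] at hu
    omega
  · intro he
    exact sy_notMem hu (by rw [he]; exact hxA)

lemma sy_mem8' (h : H8 J P x x' w1 w2) {w A : Finset α} (hw : w ∈ P) : sy x x' w A ∈ w := by
  unfold sy
  by_cases hxA : x w ∉ A
  · rw [if_pos hxA]
    exact h.hx w hw
  · rw [if_neg hxA]
    exact h.hx' w hw

lemma Lf_i {u i A : Finset α} (hsub : u ⊆ A ∪ i) (hn : ¬ u ⊆ A) (hui : u ≠ i) : Lf u i A :=
  ⟨hui, hn, (sdiff_sub_of hsub).trans Finset.sdiff_subset⟩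

/-- `i` is not inside `A ∪ o`, unless it is a guest of `o`. -/
lemma H8.out (h : H8 J P x x' w1 w2) {A i o : Finset α} (hA : A ∈ unions J) (hi : i ∈ P)
    (ho : o ∈ P) (hd : Dem J x x' A i) (hio : i ≠ o) (hsub : i ⊆ A ∪ o) : Gst P i o :=
  h.gst_of_Lf hA hi ho hd (Lf_i hsub hd.1 hio)

lemma H8.nf1 (h : H8 J P x x' w1 w2) {A i o : Finset α} (hA : A ∈ unions J) (hi : i ∈ P)
    (hd : Dem J x x' A i) (ho : o ∈ P) (hL : Lf o i A) (hS : ¬ Sim J A o)
    (hu : uu x x' o A = 1) (hT : Tight J A o) (hG : GI P o A)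
    (hh : ∀ k, Gst P o k → ¬ k ⊆ A ∪ o) :
    NIV J P x x' w1 w2 o (A ∪ o) (sy x x' o A) A i := by
  have hyo := sy_mem8' h (A := A) ho
  have hyD : sy x x' o A ∈ o \ A := Finset.mem_sdiff.2 ⟨hyo, sy_notMem hu⟩
  have hib : ¬ i ⊆ A ∪ o := fun hsub => hd.1 (hG i (h.out hA hi ho hd hL.1.symm hsub))
  obtain ⟨a, haJ, hasub, han, hao⟩ := not_sim hS
  have hai : a ≠ i := by
    rintro rfl
    exact hib hasub
  have hLa := Lf_of_sub hL hasub han hai
  have ha := h.Lf_mem hA hi haJ hLa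
  have htr : a \ A = o \ A := hT a haJ hasub han
  have hya : sy x x' o A ∈ a := by
    rw [← htr] at hyD
    exact (Finset.mem_sdiff.1 hyD).1
  have hrec : A = rem J (A ∪ o) {o, a} := by
    apply rec_gen hA Finset.subset_union_left
    · intro s hs
      rw [Finset.mem_insert, Finset.mem_singleton] at hs
      rcases hs with rfl | rfl
      · exact hL.2.1
      · exact han
    · intro u huJ husub hun
      rw [Finset.mem_insert, Finset.mem_singleton]
      have hui : u ≠ i := by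
        rintro rfl
        exact hib husub
      have hLu := Lf_of_sub hL husub hun hui
      have huP := h.Lf_mem hA hi huJ hLu
      have hyu : sy x x' o A ∈ u := by
        have := hT u huJ husub hun
        rw [← this] at hyD
        exact (Finset.mem_sdiff.1 hyD).1
      rcases h.deg4 ho ha hi huP hao.symm hL.1 hai hyo hya (hL.2.2 hyD) hyu with h' | h' | h'
      · exact Or.inl h'
      · exact Or.inr h'
      · exact absurd h' hui
  refine ⟨hh, h.cls hu hG, hyo, a, ha, i, hi, hao, hL.1.symm, hai, hya, hL.2.2 hyD, hasub,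
    Or.inl ⟨hib, Or.inl ⟨rfl, hrec, hS, ?_, hd.2.2⟩⟩⟩
  intro z hz
  rcases Finset.mem_union.1 (hasub hz) with h' | h'
  · have h1 : z ∈ rem J (A ∪ o) {o, a} := by
      rw [← hrec]
      exact h'
    refine rem_anti (S := {a}) ?_ h1
    intro s hs
    exact Finset.mem_insert_of_mem hs
  · refine sub_rem (h.PJ ho) Finset.subset_union_right ?_ h'
    rw [Finset.mem_singleton]
    exact hao.symm

lemma H8.nf2 (h : H8 J P x x' w1 w2) {A i o k : Finset α} (hA : A ∈ unions J) (hi : i ∈ P)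
    (hd : Dem J x x' A i) (hL : Lf o i A) (hu : uu x x' o A = 1) (hG : Gst P o k)
    (hk : k ⊆ A ∪ o) : NI J P x x' w1 w2 o (A ∪ o) A i := by
  have ho := hG.1
  have hib : ¬ i ⊆ A ∪ o := by
    intro hsub
    exact h.not_hat hG ⟨i, h.out hA hi ho hd hL.1.symm hsub⟩
  have hki : k ≠ i := by
    rintro rfl
    exact hib hk
  have hkA : ¬ k ⊆ A := fun hkA => hL.2.1 (hG.2.2.2.trans hkA)
  have hrec : A = rem J (A ∪ o) {o, k} := by
    apply rec_gen hA Finset.subset_union_left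
    · intro s hs
      rw [Finset.mem_insert, Finset.mem_singleton] at hs
      rcases hs with rfl | rfl
      · exact hL.2.1
      · exact hkA
    · intro u huJ husub hun
      rw [Finset.mem_insert, Finset.mem_singleton]
      have hui : u ≠ i := by
        rintro rfl
        exact hib husub
      have hLu := Lf_of_sub hL husub hun hui
      have huP := h.Lf_mem hA hi huJ hLu
      obtain ⟨z, hz⟩ := hLu.nonempty
      have hzo := (Finset.mem_sdiff.1 (sdiff_sub_of husub hz)).1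
      rcases h.deg4 ho hG.2.1 hi huP hG.2.2.1 hL.1 hki hzo (hG.2.2.2 hzo) (hLu.2.2 hz)
        (Finset.mem_sdiff.1 hz).1 with h' | h' | h'
      · exact Or.inl h'
      · exact Or.inr h'
      · exact absurd h' hui
  refine ⟨k, hG, hk, Or.inl ⟨?_, ?_, hrec, Or.inl ⟨hu, hL.2.1, hL.1.symm, hki.symm, hL.2.2⟩⟩⟩
  · rw [← hrec]
    exact hkA
  · intro z hz
    rcases Finset.mem_union.1 (hk hz) with h' | h'
    · have h1 : z ∈ rem J (A ∪ o) {o, k} := by
        rw [← hrec]
        exact h'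
      refine rem_anti (S := {k}) ?_ h1
      intro s hs
      exact Finset.mem_insert_of_mem hs
    · refine sub_rem (h.PJ ho) Finset.subset_union_right ?_ h'
      rw [Finset.mem_singleton]
      exact hG.2.2.1

lemma H8.nf3 (h : H8 J P x x' w1 w2) {A i o : Finset α} (hA : A ∈ unions J) (hi : i ∈ P)
    (ho : o ∈ P) (hL : Lf o i A) (hd : Dem J x x' A i) (hS : Sim J A o)
    (hu : uu x x' o A = 1) (hU : ¬ Uq J P x x' A o i) (hall : ∀ g ∈ P, Lf g i A → g = o)
    (hH : ¬ Hat P i) : NIV J P x x' w1 w2 o (A ∪ i) (sy x x' o A) A i := by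
  have hyo := sy_mem8' h (A := A) ho
  have hyD : sy x x' o A ∈ o \ A := Finset.mem_sdiff.2 ⟨hyo, sy_notMem hu⟩
  obtain ⟨d, hdP, hdd, hdL, hdi⟩ := second hU
  have hdb : ¬ d ⊆ A ∪ i := by
    intro hsub
    exact hdL.1 (hall d hdP (Lf_i hsub hdd.1 hdi)).symm
  have hyi := hL.2.2 hyD
  have hyd := hdL.2.2 hyD
  have hrec : A = rem J (A ∪ i) {o, i} := by
    apply rec_gen hA Finset.subset_union_left
    · intro s hs
      rw [Finset.mem_insert, Finset.mem_singleton] at hs
      rcases hs with rfl | rfl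
      · exact hL.2.1
      · exact hd.1
    · intro u huJ husub hun
      rw [Finset.mem_insert, Finset.mem_singleton]
      by_cases hui : u = i
      · exact Or.inr hui
      · left
        have hLu := Lf_i husub hun hui
        exact hall u (h.Lf_mem hA hi huJ hLu) hLu
  refine ⟨?_, h.cls hu (GI_of_Sim h hS), hyo, i, hi, d, hdP, hL.1.symm, hdL.1.symm, hdi.symm, hyi,
    hyd, Finset.subset_union_right, Or.inl ⟨hdb, Or.inr (Or.inl ⟨rfl, hrec, hS, hH, hdd.2.2⟩)⟩⟩
  intro k hk hksub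
  rcases h.deg4 ho hi hdP hk.2.1 hL.1 hdL.1 hdi.symm hyo hyi hyd (hk.2.2.2 hyo)
    with h' | h' | h'
  · exact hk.2.2.1 h'.symm
  · rw [h'] at hk
    exact hH ⟨o, hk⟩
  · rw [h'] at hksub
    exact hdb hksub

lemma H8.nf4 (h : H8 J P x x' w1 w2) {A i k : Finset α} (hA : A ∈ unions J)
    (hd : Dem J x x' A i) (hG : Gst P i k) (hk : k ⊆ A ∪ i)
    (hall : ∀ g ∈ P, Lf g i A → g = k) : NI J P x x' w1 w2 i (A ∪ i) A i := by
  have hi := hG.1
  have hkA : ¬ k ⊆ A := fun hkA => hd.1 (hG.2.2.2.trans hkA)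
  have hrec : A = rem J (A ∪ i) {i, k} := by
    apply rec_gen hA Finset.subset_union_left
    · intro s hs
      rw [Finset.mem_insert, Finset.mem_singleton] at hs
      rcases hs with rfl | rfl
      · exact hd.1
      · exact hkA
    · intro u huJ husub hun
      rw [Finset.mem_insert, Finset.mem_singleton]
      by_cases hui : u = i
      · exact Or.inl hui
      · right
        have hLu := Lf_i husub hun hui
        exact hall u (h.Lf_mem hA hi huJ hLu) hLu
  refine ⟨k, hG, hk, Or.inl ⟨?_, ?_, hrec, Or.inr ⟨hd.2.2, rfl⟩⟩⟩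
  · rw [← hrec]
    exact hkA
  · intro z hz
    rcases Finset.mem_union.1 (hk hz) with h' | h'
    · have h1 : z ∈ rem J (A ∪ i) {i, k} := by
        rw [← hrec]
        exact h'
      refine rem_anti (S := {k}) ?_ h1
      intro s hs
      exact Finset.mem_insert_of_mem hs
    · refine sub_rem (h.PJ hi) Finset.subset_union_right ?_ h'
      rw [Finset.mem_singleton]
      exact hG.2.2.1

/-- The selected guests are swallowed by a hat demand. -/
lemma H8.w1_Lf' (h : H8 J P x x' w1 w2) {A i : Finset α} (hH : Hat P i)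
    (hd : Dem J x x' A i) : Lf (w1 i) i A := by
  have h3 := hd.2.2
  rw [uu_eq_two] at h3
  obtain ⟨hG, hxw⟩ := h.sel1 i hH
  exact ⟨hG.2.2.1, fun hs => h3.1 (hs hxw), Finset.sdiff_subset.trans hG.2.2.2⟩

lemma H8.w2_Lf' (h : H8 J P x x' w1 w2) {A i : Finset α} (hH : Hat P i)
    (hd : Dem J x x' A i) : Lf (w2 i) i A := by
  by_cases h12 : w1 i = w2 i
  · rw [← h12]
    exact h.w1_Lf' hH hd
  · have h3 := hd.2.2
    rw [uu_eq_two] at h3
    have hG := h.sel2 i hH
    exact ⟨hG.2.2.1, fun hs => h3.2 (hs (h.two i hH h12).1), Finset.sdiff_subset.trans hG.2.2.2⟩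

lemma H8.nf5 (h : H8 J P x x' w1 w2) {A i : Finset α} (hA : A ∈ unions J) (hi : i ∈ P)
    (hd : Dem J x x' A i) (hH : Hat P i) (hO : Only P w1 w2 A i)
    (hn : ¬ i ⊆ AA w1 w2 A i) : NI J P x x' w1 w2 (w1 i) (A ∪ i) A i := by
  obtain ⟨hG1, hx1⟩ := h.sel1 i hH
  have hin : ∀ u ∈ J, u ⊆ A ∪ i → ¬ u ⊆ A → u = i ∨ u = w1 i ∨ u = w2 i := by
    intro u huJ husub hun
    by_cases hui : u = i
    · exact Or.inl hui
    · right
      have hLu := Lf_i husub hun hui
      exact hO u (h.Lf_mem hA hi huJ hLu) hLu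
  have hrec : A = rem J (A ∪ i) {i, w1 i, w2 i} := by
    apply rec_gen hA Finset.subset_union_left
    · intro s hs
      rw [Finset.mem_insert, Finset.mem_insert, Finset.mem_singleton] at hs
      rcases hs with rfl | rfl | rfl
      · exact hd.1
      · exact (h.w1_Lf' hH hd).2.1
      · exact (h.w2_Lf' hH hd).2.1
    · intro u huJ husub hun
      rw [Finset.mem_insert, Finset.mem_insert, Finset.mem_singleton]
      exact hin u huJ husub hun
  refine ⟨i, hG1, Finset.subset_union_right, Or.inr (Or.inl ⟨?_, hrec, rfl⟩)⟩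
  intro hsub
  apply hn
  refine hsub.trans ?_
  intro z hz
  obtain ⟨g, hg, hzg⟩ := mem_sup_id.1 hz
  obtain ⟨hgK, hgS⟩ := Finset.mem_filter.1 hg
  obtain ⟨hgJ, hgB⟩ := mem_K.1 hgK
  rw [Finset.mem_singleton] at hgS
  unfold AA
  by_cases hgA : g ⊆ A
  · exact Finset.mem_union_left _ (hgA hzg)
  · rcases hin g hgJ hgB hgA with h' | h' | h'
    · exact absurd h' hgS
    · rw [h'] at hzg
      exact Finset.mem_union_right _ (Finset.mem_union_left _ hzg)
    · rw [h'] at hzg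
      exact Finset.mem_union_right _ (Finset.mem_union_right _ hzg)

/-- One guest and a lonely member: everything swallowed. -/
lemma H8.in_one (h : H8 J P x x' w1 w2) {A i g : Finset α} (hA : A ∈ unions J) (hi : i ∈ P)
    (hH : Hat P i) (h12 : w1 i = w2 i) (hg : Lonely J P x x' A i g) :
    ∀ u ∈ J, u ⊆ A ∪ i → ¬ u ⊆ A → u = i ∨ u = g ∨ u = w1 i := by
  intro u huJ husub hun
  by_cases hui : u = i
  · exact Or.inl hui
  · right
    have hLu := Lf_i husub hun hui
    have huP := h.Lf_mem hA hi huJ hLu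
    by_cases hgood : uu x x' u A ≤ 1
    · exact Or.inl (hg.2.2.1 u huP hLu hgood)
    · right
      rcases h.good_or hA huP hi hLu with h' | h'
      · exact absurd h' hgood
      · exact h.one i hH h12 u h'

lemma H8.rec_one (h : H8 J P x x' w1 w2) {A i g : Finset α} (hA : A ∈ unions J) (hi : i ∈ P)
    (hd : Dem J x x' A i) (hH : Hat P i) (h12 : w1 i = w2 i) (hg : Lonely J P x x' A i g) :
    A = rem J (A ∪ i) {i, g, w1 i} := by
  apply rec_gen hA Finset.subset_union_left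
  · intro s hs
    rw [Finset.mem_insert, Finset.mem_insert, Finset.mem_singleton] at hs
    rcases hs with rfl | rfl | rfl
    · exact hd.1
    · exact hg.2.1.2.1
    · exact (h.w1_Lf' hH hd).2.1
  · intro u huJ husub hun
    rw [Finset.mem_insert, Finset.mem_insert, Finset.mem_singleton]
    exact h.in_one hA hi hH h12 hg u huJ husub hun

lemma Lf.sub {g i A : Finset α} (hL : Lf g i A) : g ⊆ A ∪ i := by
  intro z hz
  by_cases hzA : z ∈ A
  · exact Finset.mem_union_left _ hzA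
  · exact Finset.mem_union_right _ (hL.2.2 (Finset.mem_sdiff.2 ⟨hz, hzA⟩))

lemma H8.nf6 (h : H8 J P x x' w1 w2) {A i g : Finset α} (hA : A ∈ unions J) (hi : i ∈ P)
    (hd : Dem J x x' A i) (hH : Hat P i) (h12 : w1 i = w2 i) (hg : Lonely J P x x' A i g)
    (hr : i ⊆ ((K J (A ∪ i)).erase i).sup id) :
    NIII J P x x' w1 w2 i (A ∪ i) (x i) A i := by
  obtain ⟨hG1, hx1⟩ := h.sel1 i hH
  have h3 := hd.2.2
  rw [uu_eq_two] at h3
  have hx'w : x' i ∉ w1 i := h.sepH i hH (w1 i) hG1.1 hG1.2.2.1 hx1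
  have huni : ∀ u ∈ J, u ⊆ A ∪ i → u ≠ i → x' i ∈ u → u = g := by
    intro u huJ husub hui hxu
    have hun : ¬ u ⊆ A := fun hs => h3.2 (hs hxu)
    rcases h.in_one hA hi hH h12 hg u huJ husub hun with h' | h' | h'
    · exact absurd h' hui
    · exact h'
    · rw [h'] at hxu
      exact absurd hxu hx'w
  have hxg : x' i ∈ g := by
    obtain ⟨u, hu, hxu⟩ := mem_sup_id.1 (hr (h.hx' i hi))
    obtain ⟨hui, huK⟩ := Finset.mem_erase.1 hu
    obtain ⟨huJ, huB⟩ := mem_K.1 huK
    rw [← huni u huJ huB hui hxu]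
    exact hxu
  exact ⟨hH, h12, rfl, rfl, g, h.PJ hg.1, hg.2.1.1, hg.2.1.sub, hxg, huni,
    h.rec_one hA hi hd hH h12 hg⟩

lemma H8.nf7 (h : H8 J P x x' w1 w2) {A i g : Finset α} (hA : A ∈ unions J) (hi : i ∈ P)
    (hd : Dem J x x' A i) (hH : Hat P i) (h12 : w1 i = w2 i) (hg : Lonely J P x x' A i g)
    (hg1 : g ≠ w1 i) (hr : ¬ i ⊆ ((K J (A ∪ i)).erase i).sup id) :
    NIV J P x x' w1 w2 g (A ∪ i) (sy x x' g A) A i := by
  obtain ⟨hgP, hL, hlon, hS, hu, hU⟩ := hg
  have hg : Lonely J P x x' A i g := ⟨hgP, hL, hlon, hS, hu, hU⟩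
  have hyg := sy_mem8' h (A := A) hgP
  have hyD : sy x x' g A ∈ g \ A := Finset.mem_sdiff.2 ⟨hyg, sy_notMem hu⟩
  obtain ⟨d, hdP, hdd, hdL, hdi⟩ := second hU
  have hyi := hL.2.2 hyD
  have hyd := hdL.2.2 hyD
  have hdw : d ⊆ A ∪ i → d = w1 i := by
    intro hsub
    rcases h.in_one hA hi hH h12 hg d (h.PJ hdP) hsub hdd.1 with h' | h' | h'
    · exact absurd h' hdi
    · exact absurd h'.symm hdL.1
    · exact h'
  have hG1 := (h.sel1 i hH).1
  have hnI : ∀ k, Gst P g k → ¬ k ⊆ A ∪ i := by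
    intro k hk hksub
    rcases h.deg4 hgP hi hdP hk.2.1 hL.1 hdL.1 hdi.symm hyg hyi hyd (hk.2.2.2 hyg)
      with h' | h' | h'
    · exact hk.2.2.1 h'.symm
    · rw [h'] at hk
      exact hg1 (h.one i hH h12 g hk)
    · rw [h'] at hksub hk
      rw [hdw hksub] at hk
      exact h.not_hat hG1 ⟨g, hk⟩
  have hrec := h.rec_one hA hi hd hH h12 hg
  by_cases hdB : d ⊆ A ∪ i
  · have hdw' := hdw hdB
    refine ⟨hnI, h.cls hu (GI_of_Sim h hS), hyg, d, hdP, i, hi, hdL.1.symm, hL.1.symm, hdi, hyd,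
      hyi, hdB, Or.inr ⟨Finset.subset_union_right, ?_, rfl, Or.inl ⟨h12, hrec⟩⟩⟩
    rw [hdw']
    exact hG1
  · refine ⟨hnI, h.cls hu (GI_of_Sim h hS), hyg, i, hi, d, hdP, hL.1.symm, hdL.1.symm, hdi.symm,
      hyi, hyd, Finset.subset_union_right,
      Or.inl ⟨hdB, Or.inr (Or.inr (Or.inl ⟨rfl, hrec, hH, ?_⟩))⟩⟩
    rw [← rem_singleton]
    exact hr

lemma AA_sub (A i : Finset α) : A ⊆ AA w1 w2 A i := Finset.subset_union_left

lemma w1_AA (A i : Finset α) : w1 i ⊆ AA w1 w2 A i :=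
  Finset.subset_union_left.trans Finset.subset_union_right

lemma w2_AA (A i : Finset α) : w2 i ⊆ AA w1 w2 A i :=
  Finset.subset_union_right.trans Finset.subset_union_right

/-- Several guests: what is inside `AA A i`. -/
lemma H8.in_two (h : H8 J P x x' w1 w2) {A i : Finset α} (hA : A ∈ unions J) (hi : i ∈ P)
    (hH : Hat P i) (h12 : w1 i ≠ w2 i) :
    ∀ u ∈ J, u ⊆ AA w1 w2 A i → ¬ u ⊆ A → u = i ∨ u = w1 i ∨ u = w2 i ∨
      (u ∈ P ∧ Lf u i A ∧ uu x x' u A ≤ 1) := by
  intro u huJ husub hun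
  have hG1 := (h.sel1 i hH).1
  have hG2 := h.sel2 i hH
  by_cases hui : u = i
  · exact Or.inl hui
  · by_cases hu1 : u = w1 i
    · exact Or.inr (Or.inl hu1)
    · by_cases hu2 : u = w2 i
      · exact Or.inr (Or.inr (Or.inl hu2))
      · right; right; right
        have hAA : AA w1 w2 A i ⊆ A ∪ i := by
          unfold AA
          apply Finset.union_subset Finset.subset_union_left
          exact (Finset.union_subset hG1.2.2.2 hG2.2.2.2).trans Finset.subset_union_right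
        have hLu := Lf_i (husub.trans hAA) hun hui
        have huP := h.Lf_mem hA hi huJ hLu
        refine ⟨huP, hLu, ?_⟩
        rcases h.good_or hA huP hi hLu with h' | h'
        · exact h'
        · by_contra hcon
          have h2 := uu_le_two (x := x) (x' := x') u A
          have h3 : uu x x' u A = 2 := by omega
          rw [uu_eq_two] at h3
          obtain ⟨-, hsp⟩ := h.two i hH h12
          obtain ⟨e1, e2⟩ := hsp u h' hu1
          have f1 : x u ∈ w2 i := by
            have := husub (h.hx u huP)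
            unfold AA at this
            rcases Finset.mem_union.1 this with h4 | h4
            · exact absurd h4 h3.1
            · rcases Finset.mem_union.1 h4 with h5 | h5
              · exact absurd h5 e1
              · exact h5
          have f2 : x' u ∈ w2 i := by
            have := husub (h.hx' u huP)
            unfold AA at this
            rcases Finset.mem_union.1 this with h4 | h4
            · exact absurd h4 h3.2
            · rcases Finset.mem_union.1 h4 with h5 | h5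
              · exact absurd h5 e2
              · exact h5
          exact h.sepG u i h' (w2 i) hG2.1 (Ne.symm hu2) hG2.2.2.1 f1 f2

lemma H8.nf8 (h : H8 J P x x' w1 w2) {A i g : Finset α} (hA : A ∈ unions J) (hi : i ∈ P)
    (hd : Dem J x x' A i) (hH : Hat P i) (h12 : w1 i ≠ w2 i) (hg : Lonely J P x x' A i g)
    (hg1 : g ≠ w1 i) (hg2 : g ≠ w2 i) (hgA : g ⊆ AA w1 w2 A i) :
    NI J P x x' w1 w2 g (AA w1 w2 A i) A i ∨
      NIV J P x x' w1 w2 g (AA w1 w2 A i) (sy x x' g A) A i := by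
  obtain ⟨hgP, hL, hlon, hS, hu, hU⟩ := hg
  have hyg := sy_mem8' h (A := A) hgP
  have hyA : sy x x' g A ∉ A := sy_notMem hu
  have hyD : sy x x' g A ∈ g \ A := Finset.mem_sdiff.2 ⟨hyg, hyA⟩
  obtain ⟨d, hdP, hdd, hdL, hdi⟩ := second hU
  have hyi := hL.2.2 hyD
  have hyd := hdL.2.2 hyD
  have hG1 := (h.sel1 i hH).1
  have hG2 := h.sel2 i hH
  have hdw : d = w1 i ∨ d = w2 i := by
    have := hgA hyg
    unfold AA at this
    rcases Finset.mem_union.1 this with h4 | h4
    · exact absurd h4 hyA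
    · rcases Finset.mem_union.1 h4 with h5 | h5
      · left
        rcases h.deg4 hgP hi hG1.1 hdP hL.1 hg1 hG1.2.2.1.symm hyg hyi h5 hyd with h' | h' | h'
        · exact absurd h'.symm hdL.1
        · exact absurd h' hdi
        · exact h'
      · right
        rcases h.deg4 hgP hi hG2.1 hdP hL.1 hg2 hG2.2.2.1.symm hyg hyi h5 hyd with h' | h' | h'
        · exact absurd h'.symm hdL.1
        · exact absurd h' hdi
        · exact h'
  have hdG : Gst P d i := by
    rcases hdw with h' | h'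
    · rw [h']
      exact hG1
    · rw [h']
      exact hG2
  have hdB : d ⊆ AA w1 w2 A i := by
    rcases hdw with h' | h'
    · rw [h']
      exact w1_AA A i
    · rw [h']
      exact w2_AA A i
  have hrec : A = rem J (AA w1 w2 A i) {g, i, w1 i, w2 i} := by
    apply rec_gen hA (AA_sub A i)
    · intro s hs
      rw [Finset.mem_insert, Finset.mem_insert, Finset.mem_insert, Finset.mem_singleton] at hs
      rcases hs with rfl | rfl | rfl | rfl
      · exact hL.2.1
      · exact hd.1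
      · exact (h.w1_Lf' hH hd).2.1
      · exact (h.w2_Lf' hH hd).2.1
    · intro u huJ husub hun
      rw [Finset.mem_insert, Finset.mem_insert, Finset.mem_insert, Finset.mem_singleton]
      rcases h.in_two hA hi hH h12 u huJ husub hun with h' | h' | h' | h'
      · exact Or.inr (Or.inl h')
      · exact Or.inr (Or.inr (Or.inl h'))
      · exact Or.inr (Or.inr (Or.inr h'))
      · exact Or.inl (hlon u h'.1 h'.2.1 h'.2.2)
  have hhost : ∀ k, Gst P g k → k = i := by
    intro k hk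
    rcases h.deg4 hgP hi hdP hk.2.1 hL.1 hdL.1 hdi.symm hyg hyi hyd (hk.2.2.2 hyg)
      with h' | h' | h'
    · exact absurd h'.symm hk.2.2.1
    · exact h'
    · rw [h'] at hk
      exact absurd ⟨g, hk⟩ (h.not_hat hdG)
  by_cases hcase : Gst P g i ∧ i ⊆ AA w1 w2 A i
  · left
    refine ⟨i, hcase.1, hcase.2, Or.inr (Or.inr ⟨?_, hrec, rfl⟩)⟩
    intro z hz
    have hz' := hcase.2 hz
    unfold AA at hz'
    rcases Finset.mem_union.1 hz' with h4 | h4
    · have h1 : z ∈ rem J (AA w1 w2 A i) {g, i, w1 i, w2 i} := by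
        rw [← hrec]
        exact h4
      refine rem_anti (S := {g, i}) ?_ h1
      intro s hs
      rw [Finset.mem_insert, Finset.mem_singleton] at hs
      rw [Finset.mem_insert, Finset.mem_insert]
      rcases hs with hs | hs
      · exact Or.inl hs
      · exact Or.inr (Or.inl hs)
    · rcases Finset.mem_union.1 h4 with h5 | h5
      · refine sub_rem (h.PJ hG1.1) (w1_AA A i) ?_ h5
        rw [Finset.mem_insert, Finset.mem_singleton]
        rintro (h' | h')
        · exact hg1 h'.symm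
        · exact hG1.2.2.1 h'
      · refine sub_rem (h.PJ hG2.1) (w2_AA A i) ?_ h5
        rw [Finset.mem_insert, Finset.mem_singleton]
        rintro (h' | h')
        · exact hg2 h'.symm
        · exact hG2.2.2.1 h'
  · right
    have hnI : ∀ k, Gst P g k → ¬ k ⊆ AA w1 w2 A i := by
      intro k hk hksub
      have := hhost k hk
      rw [this] at hk hksub
      exact hcase ⟨hk, hksub⟩
    refine ⟨hnI, h.cls hu (GI_of_Sim h hS), hyg, d, hdP, i, hi, hdL.1.symm, hL.1.symm, hdi, hyd,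
      hyi, hdB, ?_⟩
    by_cases hiB : i ⊆ AA w1 w2 A i
    · exact Or.inr ⟨hiB, hdG, rfl, Or.inr ⟨h12, hrec⟩⟩
    · exact Or.inl ⟨hiB, Or.inr (Or.inr (Or.inr ⟨rfl, hrec, hH, h12, hdw, w1_AA A i, w2_AA A i,
        hg1.symm, hg2.symm⟩))⟩

lemma H8.nf9 (h : H8 J P x x' w1 w2) {A i : Finset α} (hA : A ∈ unions J) (hi : i ∈ P)
    (hd : Dem J x x' A i) (hH : Hat P i) (h12 : w1 i ≠ w2 i)
    (hb : ¬ Blk J P x x' w1 w2 A i)
    (hy : Empt P x x' A i ∨ ∃ g, Lonely J P x x' A i g) :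
    NII J P w1 w2 i (AA w1 w2 A i) A i := by
  refine ⟨hH, h12, rfl, ?_⟩
  apply rec_gen hA (AA_sub A i)
  · intro s hs
    rw [Finset.mem_insert, Finset.mem_insert, Finset.mem_singleton] at hs
    rcases hs with rfl | rfl | rfl
    · exact hd.1
    · exact (h.w1_Lf' hH hd).2.1
    · exact (h.w2_Lf' hH hd).2.1
  · intro u huJ husub hun
    rw [Finset.mem_insert, Finset.mem_insert, Finset.mem_singleton]
    rcases h.in_two hA hi hH h12 u huJ husub hun with h' | h' | h' | h'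
    · exact Or.inl h'
    · exact Or.inr (Or.inl h')
    · exact Or.inr (Or.inr h')
    · rcases hy with hE | ⟨g, hg⟩
      · exact absurd h'.2.2 (hE u h'.1 h'.2.1)
      · have hug := hg.2.2.1 u h'.1 h'.2.1 h'.2.2
        by_cases hu1 : u = w1 i
        · exact Or.inr (Or.inl hu1)
        · by_cases hu2 : u = w2 i
          · exact Or.inr (Or.inr hu2)
          · exfalso
            apply hb
            rw [hug] at hu1 hu2 husub
            exact ⟨g, hg, hu1, hu2, husub⟩

/-- The class of a use. -/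
theorem H8.class_of (h : H8 J P x x' w1 w2) {A i o B : Finset α} {y : α} (hA : A ∈ unions J)
    (hi : i ∈ P) (ho : o ∈ P) (hd : Dem J x x' A i) (hU : Use J P x x' w1 w2 o A i B y) :
    NI J P x x' w1 w2 o B A i ∨ NII J P w1 w2 o B A i ∨ NIII J P x x' w1 w2 o B y A i ∨
      NIV J P x x' w1 w2 o B y A i := by
  cases hU with
  | k1 _ _ _ hL hS hu hT hG hh =>
    exact Or.inr (Or.inr (Or.inr (h.nf1 hA hi hd ho hL hS hu hT hG hh)))
  | k2 _ _ _ k _ hL hu hG hk hy => exact Or.inl (h.nf2 hA hi hd hL hu hG hk)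
  | k3 _ _ _ hL hS hu hUq hall hH =>
    exact Or.inr (Or.inr (Or.inr (h.nf3 hA hi ho hL hd hS hu hUq hall hH)))
  | k4 _ _ k _ hG hk hall hy => exact Or.inl (h.nf4 hA hd hG hk hall)
  | k5 _ _ _ hH hO hn hy => exact Or.inl (h.nf5 hA hi hd hH hO hn)
  | k6 _ _ g hH h12 hg hg1 hr =>
    exact Or.inr (Or.inr (Or.inl (h.nf6 hA hi hd hH h12 hg hr)))
  | k7 _ _ _ hH h12 hg hg1 hr =>
    exact Or.inr (Or.inr (Or.inr (h.nf7 hA hi hd hH h12 hg hg1 hr)))
  | k8 _ _ _ hH h12 hg hg1 hg2 hgA =>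
    rcases h.nf8 hA hi hd hH h12 hg hg1 hg2 hgA with h' | h'
    · exact Or.inl h'
    · exact Or.inr (Or.inr (Or.inr h'))
  | k9 _ _ _ hH h12 hin hb hy =>
    refine Or.inr (Or.inl (h.nf9 hA hi hd hH h12 hb ?_))
    rcases hy with h' | h'
    · exact Or.inl h'.1
    · exact Or.inr h'.1

end

end Pool.Agent.H83.ELZ
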