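import Pool.Agent.H83.ELZ.TDefs

/-!
# Degree three by explicit weights (MP_75f39d): capacities
-/

set_option autoImplicit false

namespace Pool.Agent.H83.ELZ

open Finset Pool.Agent.H97.GEN

variable {α : Type*} [DecidableEq α]

section

variable {J P : Finset (Finset α)} {x x' : Finset α → α}

/-- The demands that swallow `w`. -/
def II (J P : Finset (Finset α)) (x x' : Finset α → α) (A w : Finset α) : Finset (Finset α) :=
  P.filter fun i => Dem J x x' A i ∧ Lf w i A

lemma mem_II {A w i : Finset α} :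
    i ∈ II J P x x' A w ↔ i ∈ P ∧ Dem J x x' A i ∧ Lf w i A := Finset.mem_filter

/-- At most two demands swallow `w`. -/
lemma HT.card_II (h : HT J P x x') {A w : Finset α} (hw : w ∈ P) (hn : ¬ w ⊆ A) :
    (II J P x x' A w).card ≤ 2 := by
  classical
  obtain ⟨z, hz⟩ := Finset.sdiff_nonempty.2 hn
  have hwn : w ∉ II J P x x' A w := fun hmem => (mem_II.1 hmem).2.2.1 rfl
  have hsub : insert w (II J P x x' A w) ⊆ P.filter fun g => z ∈ g := by
    intro g hg
    rcases Finset.mem_insert.1 hg with rfl | hg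
    · exact Finset.mem_filter.2 ⟨hw, (Finset.mem_sdiff.1 hz).1⟩
    · obtain ⟨h1, -, h3⟩ := mem_II.1 hg
      exact Finset.mem_filter.2 ⟨h1, h3.2.2 hz⟩
  have h1 := Finset.card_le_card hsub
  rw [Finset.card_insert_of_notMem hwn] at h1
  have := h.deg z
  omega

/-- The capacity of a simple pair. -/
lemma HT.cap1 (h : HT J P x x') {A w : Finset α} (hA : A ∈ unions J) (hw : w ∈ P)
    (hn : ¬ w ⊆ A) :
    ∑ i ∈ P.filter (fun i => Dem J x x' A i), a1 J P x x' A w i
      ≤ 2 * (2 - uu x x' w A) := by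
  classical
  have hII : ∑ i ∈ P.filter (fun i => Dem J x x' A i), a1 J P x x' A w i
      = ∑ i ∈ II J P x x' A w, a1 J P x x' A w i := by
    symm
    apply Finset.sum_subset
    · intro i hi
      obtain ⟨h1, h2, -⟩ := mem_II.1 hi
      exact Finset.mem_filter.2 ⟨h1, h2⟩
    · intro i hi hi'
      obtain ⟨h1, h2⟩ := Finset.mem_filter.1 hi
      unfold a1
      rw [if_neg]
      rintro ⟨h3, -⟩
      exact hi' (mem_II.2 ⟨h1, h2, h3⟩)
  rw [hII]
  have hcard := h.card_II hw hn
  by_cases hne : (II J P x x' A w).Nonempty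
  · obtain ⟨i0, hi0⟩ := hne
    obtain ⟨hi0P, hd0, hL0⟩ := mem_II.1 hi0
    have hu1 := h.uu_le_one hA hw hi0P hL0
    by_cases hu0 : uu x x' w A = 0
    · rw [hu0]
      calc ∑ i ∈ II J P x x' A w, a1 J P x x' A w i ≤ ∑ i ∈ II J P x x' A w, 2 := by
            apply Finset.sum_le_sum
            intro i _
            unfold a1
            split_ifs <;> omega
        _ = (II J P x x' A w).card * 2 := by rw [Finset.sum_const, smul_eq_mul]
        _ ≤ 2 * (2 - 0) := by omega
    · have hu : uu x x' w A = 1 := by omega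
      rw [hu]
      by_cases hc1 : (II J P x x' A w).card ≤ 1
      · calc ∑ i ∈ II J P x x' A w, a1 J P x x' A w i ≤ ∑ i ∈ II J P x x' A w, 2 := by
              apply Finset.sum_le_sum
              intro i _
              unfold a1
              split_ifs <;> omega
          _ = (II J P x x' A w).card * 2 := by rw [Finset.sum_const, smul_eq_mul]
          _ ≤ 2 * (2 - 1) := by omega
      · have hnot : ∀ i ∈ II J P x x' A w, ¬ Uq J P x x' A w i := by
          intro i hi huq
          apply hc1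
          rw [Finset.card_le_one]
          intro a ha b hb
          obtain ⟨ha1, ha2, ha3⟩ := mem_II.1 ha
          obtain ⟨hb1, hb2, hb3⟩ := mem_II.1 hb
          rw [huq a ha1 ha2 ha3, huq b hb1 hb2 hb3]
        calc ∑ i ∈ II J P x x' A w, a1 J P x x' A w i ≤ ∑ i ∈ II J P x x' A w, 1 := by
              apply Finset.sum_le_sum
              intro i hi
              unfold a1
              have : ¬ (uu x x' w A = 0 ∨ Uq J P x x' A w i) := by
                rintro (h' | h')
                · omega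
                · exact hnot i hi h'
              rw [if_neg this]
              split_ifs <;> omega
          _ = (II J P x x' A w).card * 1 := by rw [Finset.sum_const, smul_eq_mul]
          _ ≤ 2 * (2 - 1) := by omega
  · rw [Finset.not_nonempty_iff_eq_empty] at hne
    rw [hne, Finset.sum_empty]
    exact Nat.zero_le _

/-- The capacity of a nonnegative term that is not simple. -/
lemma HT.cap2 (h : HT J P x x') {A w : Finset α} (hA : A ∈ unions J) (hw : w ∈ P)
    (hS : ¬ Sim J A w) :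
    ∑ i ∈ P.filter (fun i => Dem J x x' A i), a2 J x x' A w i ≤ 2 := by
  classical
  have hII : ∑ i ∈ P.filter (fun i => Dem J x x' A i), a2 J x x' A w i
      = ∑ i ∈ II J P x x' A w, a2 J x x' A w i := by
    symm
    apply Finset.sum_subset
    · intro i hi
      obtain ⟨h1, h2, -⟩ := mem_II.1 hi
      exact Finset.mem_filter.2 ⟨h1, h2⟩
    · intro i hi hi'
      obtain ⟨h1, h2⟩ := Finset.mem_filter.1 hi
      unfold a2
      rw [if_neg]
      rintro ⟨h3, -⟩
      exact hi' (mem_II.2 ⟨h1, h2, h3⟩)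
  rw [hII]
  have hcard : (II J P x x' A w).card ≤ 1 := by
    rw [Finset.card_le_one]
    intro i hi j hj
    obtain ⟨hiP, hid, hiL⟩ := mem_II.1 hi
    obtain ⟨hjP, hjd, hjL⟩ := mem_II.1 hj
    obtain ⟨g, hg, hsub, hgn, hgw⟩ := not_sim hS
    have hgi := h.Lf_of_swallow hA hw hiP hid hiL hsub hgn hgw
    have hgj := h.Lf_of_swallow hA hw hjP hjd hjL hsub hgn hgw
    have hgP := h.Lf_mem hA hiP hg hgi
    obtain ⟨z, hz⟩ := hgi.nonempty
    have hzw : z ∈ w := (Finset.mem_sdiff.1 (sdiff_sub_of hsub hz)).1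
    rcases h.deg4 hw hgP hiP hjP hgw.symm hiL.1 hgi.1 hzw (Finset.mem_sdiff.1 hz).1
      (hgi.2.2 hz) (hgj.2.2 hz) with h' | h' | h'
    · exact absurd h'.symm hjL.1
    · exact absurd h'.symm hgj.1
    · exact h'.symm
  calc ∑ i ∈ II J P x x' A w, a2 J x x' A w i ≤ ∑ i ∈ II J P x x' A w, 2 := by
        apply Finset.sum_le_sum
        intro i _
        unfold a2
        split_ifs <;> omega
    _ = (II J P x x' A w).card * 2 := by rw [Finset.sum_const, smul_eq_mul]
    _ ≤ 2 := by omega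

/-! ### The redundant terms -/

/-- The members of `unions J` that contain `w` without needing it. -/
def RR (J : Finset (Finset α)) (w : Finset α) : Finset (Finset α) :=
  (unions J).filter fun B => w ⊆ B ∧ w ⊆ ((K J B).erase w).sup id

lemma mem_RR {w B : Finset α} :
    B ∈ RR J w ↔ B ∈ unions J ∧ w ⊆ B ∧ w ⊆ ((K J B).erase w).sup id := Finset.mem_filter

/-- The set of the slot of a token. -/
def sB (J : Finset (Finset α)) (w A i : Finset α) : Finset α :=
  if Sim J A w then A ∪ i else A ∪ w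

/-- The point of the slot of a token. -/
def sy (x x' : Finset α → α) (w A : Finset α) : α := if x w ∉ A then x w else x' w

/-- The tokens of the third and fourth kind from `w`. -/
def XX (J P : Finset (Finset α)) (x x' : Finset α → α) (w : Finset α) :
    Finset (Finset α × Finset α) :=
  (unions J ×ˢ P).filter fun t => Dem J x x' t.1 t.2 ∧ (C3 J x x' t.1 w t.2 ∨
    C4 J P x x' t.1 w t.2)

lemma mem_XX {w : Finset α} {t : Finset α × Finset α} :
    t ∈ XX J P x x' w ↔ (t.1 ∈ unions J ∧ t.2 ∈ P) ∧ Dem J x x' t.1 t.2 ∧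
      (C3 J x x' t.1 w t.2 ∨ C4 J P x x' t.1 w t.2) := by
  unfold XX
  rw [Finset.mem_filter, Finset.mem_product]

lemma sy_notMem {w A : Finset α} (hu : uu x x' w A = 1) : sy x x' w A ∉ A := by
  unfold sy
  unfold uu at hu
  by_cases h1 : x w ∈ A
  · rw [if_neg (by simpa using h1)]
    intro h2
    simp [h1, h2] at hu
  · rw [if_pos h1]
    exact h1

lemma HT.sy_mem (h : HT J P x x') {w A : Finset α} (hw : w ∈ P) : sy x x' w A ∈ w := by
  unfold sy
  by_cases hxA : x w ∉ A
  · rw [if_pos hxA]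
    exact h.hx w hw
  · rw [if_neg hxA]
    exact h.hx' w hw

/-- Recovering `A` from the members inside `B`. -/
lemma rec_A {A B w a : Finset α} (hA : A ∈ unions J) (hAB : A ⊆ B) (hwA : ¬ w ⊆ A)
    (haA : ¬ a ⊆ A) (hin : ∀ g ∈ J, g ⊆ B → ¬ g ⊆ A → g = w ∨ g = a) :
    A = ((K J B).filter fun g => g ≠ w ∧ g ≠ a).sup id := by
  apply Finset.Subset.antisymm
  · intro z hz
    obtain ⟨g, hg, hgA, hzg⟩ := (mem_iff hA z).1 hz
    refine mem_sup_id.2 ⟨g, Finset.mem_filter.2 ⟨mem_K.2 ⟨hg, hgA.trans hAB⟩, ?_, ?_⟩, hzg⟩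
    · rintro rfl
      exact hwA hgA
    · rintro rfl
      exact haA hgA
  · intro z hz
    obtain ⟨g, hg, hzg⟩ := mem_sup_id.1 hz
    obtain ⟨hgK, hgw, hga⟩ := Finset.mem_filter.1 hg
    obtain ⟨hgJ, hgB⟩ := mem_K.1 hgK
    by_contra hzA
    have hgA : ¬ g ⊆ A := fun hsub => hzA (hsub hzg)
    rcases hin g hgJ hgB hgA with h' | h'
    · exact hgw h'
    · exact hga h'

/-- What a slot knows about its token. -/
lemma HT.slot (h : HT J P x x') {w A i : Finset α} (hw : w ∈ P) (hA : A ∈ unions J)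
    (hi : i ∈ P) (hd : Dem J x x' A i) (hC : C3 J x x' A w i ∨ C4 J P x x' A w i) :
    sB J w A i ∈ (RR J w).erase (J.sup id) ∧ sy x x' w A ∈ w ∧
      ∃ a ∈ P, ∃ b ∈ P, a ≠ w ∧ b ≠ w ∧ sy x x' w A ∈ a ∧ sy x x' w A ∈ b ∧
        a ⊆ sB J w A i ∧ ¬ b ⊆ sB J w A i ∧
        A = ((K J (sB J w A i)).filter fun g => g ≠ w ∧ g ≠ a).sup id ∧
        ((uu x x' a A ≤ 1 ∧ i = b) ∨ (uu x x' a A = 2 ∧ i = a)) := by
  classical
  have hyw : sy x x' w A ∈ w := h.sy_mem hw
  -- a common criterion for membership in the set of redundant terms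
  have hred : ∀ (B a b : Finset α), B ∈ unions J → A ⊆ B → w ⊆ B → ¬ w ⊆ A → a ∈ J → a ≠ w →
      a ⊆ B → w \ A ⊆ a → b ∈ J → ¬ b ⊆ B → B ∈ (RR J w).erase (J.sup id) := by
    intro B a b hB hAB hwB hwA ha haw haB hwa hb hbB
    refine Finset.mem_erase.2 ⟨?_, mem_RR.2 ⟨hB, hwB, ?_⟩⟩
    · rintro rfl
      exact hbB (Finset.le_sup (f := id) hb)
    · intro z hz
      by_cases hzA : z ∈ A
      · obtain ⟨g, hg, hgA, hzg⟩ := (mem_iff hA z).1 hzA
        refine mem_sup_id.2 ⟨g, Finset.mem_erase.2 ⟨?_, mem_K.2 ⟨hg, hgA.trans hAB⟩⟩, hzg⟩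
        rintro rfl
        exact hwA hgA
      · exact mem_sup_id.2 ⟨a, Finset.mem_erase.2 ⟨haw, mem_K.2 ⟨ha, haB⟩⟩,
          hwa (Finset.mem_sdiff.2 ⟨hz, hzA⟩)⟩
  rcases hC with hC | hC
  · obtain ⟨hL, hS, hu, hT⟩ := hC
    have hyA : sy x x' w A ∉ A := sy_notMem hu
    have hyD : sy x x' w A ∈ w \ A := Finset.mem_sdiff.2 ⟨hyw, hyA⟩
    have hB : sB J w A i = A ∪ w := by
      unfold sB
      rw [if_neg hS]
    rw [hB]
    obtain ⟨g, hg, hsub, hgn, hgw⟩ := not_sim hS
    have hLg := h.Lf_of_swallow hA hw hi hd hL hsub hgn hgw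
    have hgP := h.Lf_mem hA hi hg hLg
    have htr : g \ A = w \ A := hT g hg hsub hgn
    have hib : ¬ i ⊆ A ∪ w := by
      intro hib
      exact h.not_Lf hA hw hi hd ⟨hL.1.symm, hd.1, (sdiff_sub_of hib).trans Finset.sdiff_subset⟩
    have hyg : sy x x' w A ∈ g := by
      rw [← htr] at hyD
      exact (Finset.mem_sdiff.1 hyD).1
    refine ⟨hred (A ∪ w) g i (union_mem hA (self_mem (h.PJ hw))) Finset.subset_union_left
      Finset.subset_union_right hL.2.1 hg hgw hsub ?_ (h.PJ hi) hib, hyw, g, hgP, i, hi, hgw,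
      hL.1.symm, hyg, hL.2.2 hyD, hsub, hib, ?_, Or.inl ⟨h.uu_le_one hA hgP hi hLg, rfl⟩⟩
    · rw [← htr]
      exact Finset.sdiff_subset
    · apply rec_A hA Finset.subset_union_left hL.2.1 hgn
      intro u hu' hsubu hnu
      by_cases huw : u = w
      · exact Or.inl huw
      · right
        have hLu := h.Lf_of_swallow hA hw hi hd hL hsubu hnu huw
        have huP := h.Lf_mem hA hi hu' hLu
        have hyu : sy x x' w A ∈ u := by
          have := hT u hu' hsubu hnu
          rw [← this] at hyD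
          exact (Finset.mem_sdiff.1 hyD).1
        rcases h.deg4 hw hgP hi huP hgw.symm hL.1 hLg.1 hyw hyg (hL.2.2 hyD) hyu
          with h' | h' | h'
        · exact absurd h' huw
        · exact h'
        · exact absurd h' hLu.1
  · obtain ⟨hL, hS, hu, hUq, hall⟩ := hC
    have hyA : sy x x' w A ∉ A := sy_notMem hu
    have hyD : sy x x' w A ∈ w \ A := Finset.mem_sdiff.2 ⟨hyw, hyA⟩
    have hB : sB J w A i = A ∪ i := by
      unfold sB
      rw [if_pos hS]
    rw [hB]
    obtain ⟨g, hgP, hgd, hgL, hgi⟩ : ∃ g ∈ P, Dem J x x' A g ∧ Lf w g A ∧ g ≠ i := by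
      by_contra hcon
      push Not at hcon
      apply hUq
      intro g hg hgd hgL
      exact hcon g hg hgd hgL
    have hgb : ¬ g ⊆ A ∪ i := by
      intro hgb
      exact hgL.1 (hall g hgP ⟨hgi, hgd.1, (sdiff_sub_of hgb).trans Finset.sdiff_subset⟩).symm
    have hwB : w ⊆ A ∪ i := by
      intro z hz
      by_cases hzA : z ∈ A
      · exact Finset.mem_union_left _ hzA
      · exact Finset.mem_union_right _ (hL.2.2 (Finset.mem_sdiff.2 ⟨hz, hzA⟩))
    refine ⟨hred (A ∪ i) i g (union_mem hA (self_mem (h.PJ hi))) Finset.subset_union_left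
      hwB hL.2.1 (h.PJ hi) hL.1.symm Finset.subset_union_right hL.2.2 (h.PJ hgP) hgb, hyw,
      i, hi, g, hgP, hL.1.symm, hgL.1.symm, hL.2.2 hyD, hgL.2.2 hyD,
      Finset.subset_union_right, hgb, ?_, Or.inr ⟨hd.2.2, rfl⟩⟩
    apply rec_A hA Finset.subset_union_left hL.2.1 hd.1
    intro u hu' hsubu hnu
    by_cases hui : u = i
    · exact Or.inr hui
    · left
      have hLu : Lf u i A := ⟨hui, hnu, (sdiff_sub_of hsubu).trans Finset.sdiff_subset⟩
      exact hall u (h.Lf_mem hA hi hu' hLu) hLu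

/-- The capacity of the redundant terms. -/
lemma HT.cap3 (h : HT J P x x') {w : Finset α} (hw : w ∈ P) :
    (XX J P x x' w).card ≤ 2 * ((RR J w).erase (J.sup id)).card := by
  classical
  have h1 : (XX J P x x' w).card
      ≤ (((RR J w).erase (J.sup id)) ×ˢ ({x w, x' w} : Finset α)).card := by
    apply Finset.card_le_card_of_injOn (fun t => (sB J w t.1 t.2, sy x x' w t.1))
    · intro t ht
      rw [Finset.mem_coe] at ht
      obtain ⟨⟨hA, hi⟩, hd, hC⟩ := mem_XX.1 ht
      obtain ⟨hB, -, -⟩ := h.slot hw hA hi hd hC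
      rw [Finset.mem_coe, Finset.mem_product]
      refine ⟨hB, ?_⟩
      rw [Finset.mem_insert, Finset.mem_singleton]
      show sy x x' w t.1 = x w ∨ sy x x' w t.1 = x' w
      unfold sy
      by_cases hxA : x w ∉ t.1
      · rw [if_pos hxA]
        exact Or.inl rfl
      · rw [if_neg hxA]
        exact Or.inr rfl
    · intro t ht s hs hts
      rw [Finset.mem_coe] at ht hs
      obtain ⟨⟨hA, hi⟩, hd, hC⟩ := mem_XX.1 ht
      obtain ⟨⟨hA', hi'⟩, hd', hC'⟩ := mem_XX.1 hs
      obtain ⟨-, hyw, a, ha, b, hb, haw, hbw, hya, hyb, haB, hbB, hrec, hk⟩ :=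
        h.slot hw hA hi hd hC
      obtain ⟨-, -, a', ha', b', hb', haw', hbw', hya', hyb', haB', hbB', hrec', hk'⟩ :=
        h.slot hw hA' hi' hd' hC'
      obtain ⟨e1, e2⟩ := Prod.mk.injEq _ _ _ _ ▸ hts
      rw [← e1] at haB' hbB' hrec'
      rw [← e2] at hya' hyb'
      have hab : a ≠ b := by
        rintro rfl
        exact hbB haB
      have haa : a' = a := by
        rcases h.deg4 hw ha hb ha' haw.symm hbw.symm hab hyw hya hyb hya' with h' | h' | h'
        · exact absurd h' haw'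
        · exact h'
        · rw [h'] at haB'
          exact absurd haB' hbB
      have hbb : b' = b := by
        rcases h.deg4 hw ha hb hb' haw.symm hbw.symm hab hyw hya hyb hyb' with h' | h' | h'
        · exact absurd h' hbw'
        · rw [h'] at hbB'
          exact absurd haB hbB'
        · exact h'
      subst haa hbb
      have hAA : t.1 = s.1 := hrec.trans hrec'.symm
      have hii : t.2 = s.2 := by
        rw [← hAA] at hk'
        rcases hk with ⟨hk1, hk2⟩ | ⟨hk1, hk2⟩ <;> rcases hk' with ⟨hk1', hk2'⟩ | ⟨hk1', hk2'⟩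
        · rw [hk2, hk2']
        · omega
        · omega
        · rw [hk2, hk2']
      exact Prod.ext hAA hii
  rw [Finset.card_product] at h1
  have h2 : ({x w, x' w} : Finset α).card ≤ 2 := Finset.card_le_two
  calc (XX J P x x' w).card
      ≤ ((RR J w).erase (J.sup id)).card * ({x w, x' w} : Finset α).card := h1
    _ ≤ ((RR J w).erase (J.sup id)).card * 2 := Nat.mul_le_mul_left _ h2
    _ = _ := Nat.mul_comm _ _

end

end Pool.Agent.H83.ELZ
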