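import Pool.Agent.H83.ELZ.Basic

/-!
# Degree three by explicit weights (MP_75f39d): definitions, completeness of the token scheme
-/

set_option autoImplicit false

namespace Pool.Agent.H83.ELZ

open Finset Pool.Agent.H97.GEN

variable {α : Type*} [DecidableEq α]

/-- The number of chosen points of `w` outside `A`. -/
def uu (x x' : Finset α → α) (w A : Finset α) : ℕ :=
  (if x w ∈ A then 0 else 1) + (if x' w ∈ A then 0 else 1)

/-- Adding `w` to `A` swallows no other generator. -/
def Sim (J : Finset (Finset α)) (A w : Finset α) : Prop := ∀ g ∈ J, g ⊆ A ∪ w → g ⊆ A ∨ g = w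

instance (J : Finset (Finset α)) (A w : Finset α) : Decidable (Sim J A w) := by
  unfold Sim; infer_instance

/-- `w` is swallowed when `i` is added to `A`. -/
def Lf (w i A : Finset α) : Prop := w ≠ i ∧ ¬ w ⊆ A ∧ w \ A ⊆ i

instance (w i A : Finset α) : Decidable (Lf w i A) := by unfold Lf; infer_instance

/-- A demand. -/
def Dem (J : Finset (Finset α)) (x x' : Finset α → α) (A i : Finset α) : Prop :=
  ¬ i ⊆ A ∧ ¬ Sim J A i ∧ uu x x' i A = 2

instance (J : Finset (Finset α)) (x x' : Finset α → α) (A i : Finset α) :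
    Decidable (Dem J x x' A i) := by unfold Dem; infer_instance

/-- All generators swallowed with `w` have the trace of `w`. -/
def Tight (J : Finset (Finset α)) (A w : Finset α) : Prop :=
  ∀ g ∈ J, g ⊆ A ∪ w → ¬ g ⊆ A → g \ A = w \ A

instance (J : Finset (Finset α)) (A w : Finset α) : Decidable (Tight J A w) := by
  unfold Tight; infer_instance

/-- `i` is the only demand that swallows `w`. -/
def Uq (J P : Finset (Finset α)) (x x' : Finset α → α) (A w i : Finset α) : Prop :=
  ∀ g ∈ P, Dem J x x' A g → Lf w g A → g = i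

instance (J P : Finset (Finset α)) (x x' : Finset α → α) (A w i : Finset α) :
    Decidable (Uq J P x x' A w i) := by unfold Uq; infer_instance

/-- The hypotheses. -/
structure HT (J P : Finset (Finset α)) (x x' : Finset α → α) : Prop where
  PC : P ⊆ cov J
  comp : ∀ w ∈ cov J, ∀ i ∈ P, ∀ z, z ∈ w → z ∈ i → w ∈ P
  deg : ∀ z : α, (P.filter fun g => z ∈ g).card ≤ 3
  hx : ∀ w ∈ P, x w ∈ w
  hx' : ∀ w ∈ P, x' w ∈ w
  low : ∀ A ∈ unions J, ∀ w ∈ P, ∀ i ∈ P, Lf w i A → uu x x' w A ≤ 1

section

variable {J P : Finset (Finset α)} {x x' : Finset α → α}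

lemma HT.PJ (h : HT J P x x') {w : Finset α} (hw : w ∈ P) : w ∈ J := (mem_cov.1 (h.PC hw)).1

/-- A point is in at most three members of `P`. -/
lemma HT.deg4 (h : HT J P x x') {z : α} {a b c d : Finset α} (ha : a ∈ P) (hb : b ∈ P)
    (hc : c ∈ P) (hd : d ∈ P) (hab : a ≠ b) (hac : a ≠ c) (hbc : b ≠ c) (za : z ∈ a) (zb : z ∈ b)
    (zc : z ∈ c) (zd : z ∈ d) : d = a ∨ d = b ∨ d = c := by
  by_contra hcon
  push Not at hcon
  have hsub : ({d, a, b, c} : Finset (Finset α)) ⊆ P.filter fun g => z ∈ g := by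
    intro g hg
    rw [Finset.mem_insert, Finset.mem_insert, Finset.mem_insert, Finset.mem_singleton] at hg
    rcases hg with rfl | rfl | rfl | rfl
    · exact Finset.mem_filter.2 ⟨hd, zd⟩
    · exact Finset.mem_filter.2 ⟨ha, za⟩
    · exact Finset.mem_filter.2 ⟨hb, zb⟩
    · exact Finset.mem_filter.2 ⟨hc, zc⟩
  have hcard : ({d, a, b, c} : Finset (Finset α)).card = 4 := by
    rw [Finset.card_insert_of_notMem, Finset.card_eq_three.2 ⟨a, b, c, hab, hac, hbc, rfl⟩]
    rw [Finset.mem_insert, Finset.mem_insert, Finset.mem_singleton]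
    rintro (h' | h' | h')
    · exact hcon.1 h'
    · exact hcon.2.1 h'
    · exact hcon.2.2 h'
  have := Finset.card_le_card hsub
  have := h.deg z
  omega

lemma Lf.ne {w i A : Finset α} (h : Lf w i A) : w ≠ i := h.1

lemma Lf.nonempty {w i A : Finset α} (h : Lf w i A) : (w \ A).Nonempty := by
  rw [Finset.sdiff_nonempty]
  exact h.2.1

lemma HT.Lf_mem (h : HT J P x x') {w i A : Finset α} (hA : A ∈ unions J) (hi : i ∈ P) (hw : w ∈ J)
    (hL : Lf w i A) : w ∈ P := by
  obtain ⟨z, hz⟩ := hL.nonempty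
  exact h.comp w (cost_cov hA (h.PJ hi) hw hL.1 hL.nonempty hL.2.2) i hi z
    (Finset.mem_sdiff.1 hz).1 (hL.2.2 hz)

lemma uu_eq_two {w A : Finset α} : uu x x' w A = 2 ↔ x w ∉ A ∧ x' w ∉ A := by
  unfold uu
  by_cases h1 : x w ∈ A <;> by_cases h2 : x' w ∈ A <;> simp [h1, h2]

lemma uu_le_two (w A : Finset α) : uu x x' w A ≤ 2 := by
  unfold uu
  by_cases h1 : x w ∈ A <;> by_cases h2 : x' w ∈ A <;> simp [h1, h2]

/-- A swallowed generator has at most one chosen point outside `A`. -/
lemma HT.uu_le_one (h : HT J P x x') {w i A : Finset α} (hA : A ∈ unions J) (hw : w ∈ P)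
    (hi : i ∈ P) (hL : Lf w i A) : uu x x' w A ≤ 1 := h.low A hA w hw i hi hL

/-- Two points that are together in no other member of `P`. -/
lemma low_of_sep {J P : Finset (Finset α)} {x x' : Finset α → α} (hx : ∀ w ∈ P, x w ∈ w)
    (hx' : ∀ w ∈ P, x' w ∈ w) (sep : ∀ w ∈ P, ∀ i ∈ P, i ≠ w → x w ∈ i → x' w ∉ i) :
    ∀ A ∈ unions J, ∀ w ∈ P, ∀ i ∈ P, Lf w i A → uu x x' w A ≤ 1 := by
  intro A _ w hw i hi hL
  have h2 := uu_le_two (x := x) (x' := x') w A
  by_contra hcon
  have h3 : uu x x' w A = 2 := by omega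
  rw [uu_eq_two] at h3
  exact sep w hw i hi hL.1.symm (hL.2.2 (Finset.mem_sdiff.2 ⟨hx w hw, h3.1⟩))
    (hL.2.2 (Finset.mem_sdiff.2 ⟨hx' w hw, h3.2⟩))

/-- A demand is not swallowed. -/
lemma HT.not_Lf (h : HT J P x x') {w i A : Finset α} (hA : A ∈ unions J) (hw : w ∈ P)
    (hi : i ∈ P) (hd : Dem J x x' A i) : ¬ Lf i w A := by
  intro hL
  have := h.uu_le_one hA hi hw hL
  have := hd.2.2
  omega

lemma not_sim {A w : Finset α} (h : ¬ Sim J A w) : ∃ g ∈ J, g ⊆ A ∪ w ∧ ¬ g ⊆ A ∧ g ≠ w := by
  unfold Sim at h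
  push Not at h
  obtain ⟨g, hg, h1, h2, h3⟩ := h
  exact ⟨g, hg, h1, h2, h3⟩

lemma sdiff_sub_of {A w g : Finset α} (h : g ⊆ A ∪ w) : g \ A ⊆ w \ A := by
  intro z hz
  obtain ⟨hz1, hz2⟩ := Finset.mem_sdiff.1 hz
  rcases Finset.mem_union.1 (h hz1) with h' | h'
  · exact absurd h' hz2
  · exact Finset.mem_sdiff.2 ⟨h', hz2⟩

/-- If `A ∪ w` swallows `g`, and `i` swallows `w`, then `i` swallows `g` (if `i` is a demand). -/
lemma HT.Lf_of_swallow (h : HT J P x x') {w i g A : Finset α} (hA : A ∈ unions J) (hw : w ∈ P)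
    (hi : i ∈ P) (hd : Dem J x x' A i) (hL : Lf w i A) (hsub : g ⊆ A ∪ w) (hn : ¬ g ⊆ A)
    (hgw : g ≠ w) : Lf g i A := by
  have h1 := sdiff_sub_of hsub
  refine ⟨?_, hn, h1.trans hL.2.2⟩
  rintro rfl
  exact h.not_Lf hA hw hi hd ⟨hgw, hn, h1.trans Finset.sdiff_subset⟩

/-- Tokens from the simple pairs. -/
def a1 (J P : Finset (Finset α)) (x x' : Finset α → α) (A w i : Finset α) : ℕ :=
  if Lf w i A ∧ Sim J A w then (if uu x x' w A = 0 ∨ Uq J P x x' A w i then 2 else 1) else 0

/-- Tokens from the nonnegative not simple terms. -/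
def a2 (J : Finset (Finset α)) (x x' : Finset α → α) (A w i : Finset α) : ℕ :=
  if Lf w i A ∧ ¬ Sim J A w ∧ uu x x' w A = 0 then 2 else 0

/-- The first condition for a token from a redundant term. -/
def C3 (J : Finset (Finset α)) (x x' : Finset α → α) (A w i : Finset α) : Prop :=
  Lf w i A ∧ ¬ Sim J A w ∧ uu x x' w A = 1 ∧ Tight J A w

/-- The second condition for a token from a redundant term. -/
def C4 (J P : Finset (Finset α)) (x x' : Finset α → α) (A w i : Finset α) : Prop :=
  Lf w i A ∧ Sim J A w ∧ uu x x' w A = 1 ∧ ¬ Uq J P x x' A w i ∧ ∀ g ∈ P, Lf g i A → g = w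

instance (J : Finset (Finset α)) (x x' : Finset α → α) (A w i : Finset α) :
    Decidable (C3 J x x' A w i) := by unfold C3; infer_instance

instance (J P : Finset (Finset α)) (x x' : Finset α → α) (A w i : Finset α) :
    Decidable (C4 J P x x' A w i) := by unfold C4; infer_instance

/-- All tokens. -/
def aa (J P : Finset (Finset α)) (x x' : Finset α → α) (A w i : Finset α) : ℕ :=
  a1 J P x x' A w i + a2 J x x' A w i + (if C3 J x x' A w i then 1 else 0)
    + (if C4 J P x x' A w i then 1 else 0)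

/-- A member of `L_A(i)` whose trace is minimal, and that is tight or simple, gives a token. -/
lemma HT.one_le_aa (h : HT J P x x') {w i A : Finset α} (hA : A ∈ unions J) (hw : w ∈ P)
    (hi : i ∈ P) (hL : Lf w i A) (ht : Sim J A w ∨ Tight J A w) : 1 ≤ aa J P x x' A w i := by
  unfold aa
  by_cases hS : Sim J A w
  · have : 1 ≤ a1 J P x x' A w i := by
      unfold a1
      rw [if_pos ⟨hL, hS⟩]
      split_ifs <;> omega
    omega
  · have hT := ht.resolve_left hS
    have hu := h.uu_le_one hA hw hi hL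
    by_cases h0 : uu x x' w A = 0
    · have : a2 J x x' A w i = 2 := by
        unfold a2
        rw [if_pos ⟨hL, hS, h0⟩]
      omega
    · have : C3 J x x' A w i := ⟨hL, hS, by omega, hT⟩
      rw [if_pos this]
      omega

/-- **Completeness**: every demand receives two tokens. -/
theorem HT.complete (h : HT J P x x') {i A : Finset α} (hA : A ∈ unions J) (hi : i ∈ P)
    (hd : Dem J x x' A i) : 2 ≤ ∑ w ∈ P, aa J P x x' A w i := by
  classical
  obtain ⟨g0, hg0, hg1, hg2, hg3⟩ := not_sim hd.2.1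
  have hL0 : Lf g0 i A := ⟨hg3, hg2, (sdiff_sub_of hg1).trans Finset.sdiff_subset⟩
  set L := P.filter fun w => Lf w i A with hLdef
  have hLne : L.Nonempty := ⟨g0, Finset.mem_filter.2 ⟨h.Lf_mem hA hi hg0 hL0, hL0⟩⟩
  have two : ∀ w ∈ P, ∀ w' ∈ P, w ≠ w' → 1 ≤ aa J P x x' A w i → 1 ≤ aa J P x x' A w' i →
      2 ≤ ∑ w ∈ P, aa J P x x' A w i := by
    intro w hw w' hw' hne h1 h2
    have hsub : ({w, w'} : Finset (Finset α)) ⊆ P := by
      intro g hg
      rw [Finset.mem_insert, Finset.mem_singleton] at hg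
      rcases hg with rfl | rfl
      · exact hw
      · exact hw'
    calc 2 ≤ aa J P x x' A w i + aa J P x x' A w' i := by omega
      _ = ∑ w ∈ ({w, w'} : Finset (Finset α)), aa J P x x' A w i := by
          rw [Finset.sum_pair hne]
      _ ≤ _ := Finset.sum_le_sum_of_subset hsub
  obtain ⟨w, hwL, hmin⟩ := Finset.exists_min_image L (fun w => (w \ A).card) hLne
  obtain ⟨hwP, hLw⟩ := Finset.mem_filter.1 hwL
  by_cases hS : Sim J A w
  · by_cases hu : uu x x' w A = 0 ∨ Uq J P x x' A w i
    · have h1 : 2 ≤ aa J P x x' A w i := by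
        have : a1 J P x x' A w i = 2 := by
          unfold a1
          rw [if_pos ⟨hLw, hS⟩, if_pos hu]
        unfold aa
        omega
      exact h1.trans (Finset.single_le_sum (f := fun w => aa J P x x' A w i)
        (fun _ _ => Nat.zero_le _) hwP)
    · push Not at hu
      obtain ⟨hu0, huq⟩ := hu
      have hu1 := h.uu_le_one hA hwP hi hLw
      by_cases hall : ∀ g ∈ P, Lf g i A → g = w
      · have h1 : 2 ≤ aa J P x x' A w i := by
          have e1 : 1 ≤ a1 J P x x' A w i := by
            unfold a1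
            rw [if_pos ⟨hLw, hS⟩]
            split_ifs <;> omega
          have e2 : C4 J P x x' A w i := ⟨hLw, hS, by omega, huq, hall⟩
          unfold aa
          rw [if_pos e2]
          omega
        exact h1.trans (Finset.single_le_sum (f := fun w => aa J P x x' A w i)
          (fun _ _ => Nat.zero_le _) hwP)
      · push Not at hall
        obtain ⟨g1, hg1P, hg1L, hg1w⟩ := hall
        have hL'ne : (L.erase w).Nonempty :=
          ⟨g1, Finset.mem_erase.2 ⟨hg1w, Finset.mem_filter.2 ⟨hg1P, hg1L⟩⟩⟩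
        obtain ⟨w', hw'L, hmin'⟩ :=
          Finset.exists_min_image (L.erase w) (fun w => (w \ A).card) hL'ne
        obtain ⟨hw'w, hw'L'⟩ := Finset.mem_erase.1 hw'L
        obtain ⟨hw'P, hLw'⟩ := Finset.mem_filter.1 hw'L'
        -- the second demand of `w`
        obtain ⟨g, hgP, hgd, hgL, hgi⟩ : ∃ g ∈ P, Dem J x x' A g ∧ Lf w g A ∧ g ≠ i := by
          by_contra hcon
          push Not at hcon
          apply huq
          intro g hg hgd hgL
          exact hcon g hg hgd hgL
        apply two w hwP w' hw'P hw'w.symm (h.one_le_aa hA hwP hi hLw (Or.inl hS))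
        apply h.one_le_aa hA hw'P hi hLw'
        by_cases hS' : Sim J A w'
        · exact Or.inl hS'
        · right
          intro u hu hsub hn
          by_cases huw' : u = w'
          · rw [huw']
          · have hLu := h.Lf_of_swallow hA hw'P hi hd hLw' hsub hn huw'
            have huP := h.Lf_mem hA hi hu hLu
            have huw : u ≠ w := by
              rintro rfl
              -- then `w'` contains the trace of `w`
              obtain ⟨z, hz⟩ := hLw.nonempty
              have hzw' : z ∈ w' := (Finset.mem_sdiff.1 (sdiff_sub_of hsub hz)).1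
              rcases h.deg4 hwP hi hgP hw'P hLw.1 hgL.1 hgi.symm
                (Finset.mem_sdiff.1 hz).1 (hLw.2.2 hz) (hgL.2.2 hz) hzw' with h' | h' | h'
              · exact hw'w h'
              · exact hLw'.1 h'
              · rw [h'] at hLw'
                exact h.not_Lf hA hi hgP hgd hLw'
            have huL : u ∈ L.erase w :=
              Finset.mem_erase.2 ⟨huw, Finset.mem_filter.2 ⟨huP, hLu⟩⟩
            exact Finset.eq_of_subset_of_card_le (sdiff_sub_of hsub) (hmin' u huL)
  · -- not simple: tight, two members with the same trace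
    have hT : Tight J A w := by
      intro u hu hsub hn
      by_cases huw : u = w
      · rw [huw]
      · have hLu := h.Lf_of_swallow hA hwP hi hd hLw hsub hn huw
        have huP := h.Lf_mem hA hi hu hLu
        exact Finset.eq_of_subset_of_card_le (sdiff_sub_of hsub)
          (hmin u (Finset.mem_filter.2 ⟨huP, hLu⟩))
    obtain ⟨g, hg, hsub, hn, hgw⟩ := not_sim hS
    have hLg := h.Lf_of_swallow hA hwP hi hd hLw hsub hn hgw
    have hgP := h.Lf_mem hA hi hg hLg
    have htr : g \ A = w \ A := hT g hg hsub hn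
    have hTg : Tight J A g := by
      intro u hu hsubu hnu
      rw [htr]
      apply hT u hu _ hnu
      intro z hz
      rcases Finset.mem_union.1 (hsubu hz) with h' | h'
      · exact Finset.mem_union_left _ h'
      · exact hsub h'
    exact two w hwP g hgP hgw.symm (h.one_le_aa hA hwP hi hLw (Or.inr hT))
      (h.one_le_aa hA hgP hi hLg (Or.inr hTg))

end

end Pool.Agent.H83.ELZ
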